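import Pool.Agent.H17.GS.Pis

/-!
# Pisot numbers: counting and the main theorem (helper17)
-/

set_option autoImplicit false

namespace Pool.Agent.H17.GS

open Finset Filter Topology Polynomial

/-- the Pisot numbers of degree `d` which are at most `X` -/
def Pisot (d X : ℕ) : Set ℝ := {β | IsPisot β ∧ (minpoly ℤ β).natDegree = d ∧ β ≤ X}

/-- the coefficients of the minimal polynomial -/
noncomputable def Phi (q : ℕ) (β : ℝ) : ℤ × (Fin (q + 1) → ℤ) :=
  (-(minpoly ℤ β).coeff (q + 1), fun k => -(minpoly ℤ β).coeff (q - k))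

lemma minpoly_ext {q : ℕ} {β β' : ℝ} (hβ : IsIntegral ℤ β) (hβ' : IsIntegral ℤ β')
    (hd : (minpoly ℤ β).natDegree = q + 2) (hd' : (minpoly ℤ β').natDegree = q + 2)
    (h : Phi q β = Phi q β') : minpoly ℤ β = minpoly ℤ β' := by
  have h1 : (minpoly ℤ β).coeff (q + 1) = (minpoly ℤ β').coeff (q + 1) := by
    have := congrArg Prod.fst h
    simp only [Phi] at this
    omega
  have h2 : ∀ k : Fin (q + 1), (minpoly ℤ β).coeff (q - k) = (minpoly ℤ β').coeff (q - k) := by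
    intro k
    have := congrFun (congrArg Prod.snd h) k
    simp only [Phi] at this
    omega
  ext j
  rcases lt_trichotomy j (q + 1) with hj | hj | hj
  · have h3 := h2 ⟨q - j, by omega⟩
    simp only at h3
    rwa [show q - (q - j) = j by omega] at h3
  · rw [hj]; exact h1
  · rcases Nat.lt_or_ge (q + 2) j with hj2 | hj2
    · rw [coeff_eq_zero_of_natDegree_lt (by omega), coeff_eq_zero_of_natDegree_lt (by omega)]
    · have : j = q + 2 := by omega
      rw [this]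
      have e1 : (minpoly ℤ β).coeff (q + 2) = 1 := by rw [← hd]; exact minpoly.monic hβ
      have e2 : (minpoly ℤ β').coeff (q + 2) = 1 := by rw [← hd']; exact minpoly.monic hβ'
      rw [e1, e2]

lemma Phi_inj (q X : ℕ) : Set.InjOn (Phi q) (Pisot (q + 2) X) := by
  rintro β ⟨h1, h2, _⟩ β' ⟨h1', h2', _⟩ h
  have h3 := minpoly_ext h1.2.1 h1'.2.1 h2 h2' h
  by_contra hne
  have h4 : aeval ((β' : ℝ) : ℂ) (minpoly ℤ β) = 0 := by
    rw [h3]
    have h5 : aeval β' (minpoly ℤ β') = 0 := minpoly.aeval ℤ β'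
    have h6 : aeval ((β' : ℝ) : ℂ) (minpoly ℤ β') = ((aeval β' (minpoly ℤ β') : ℝ) : ℂ) := by
      rw [aeval_def, aeval_def, eval₂_eq_sum_range, eval₂_eq_sum_range]
      push_cast
      rfl
    rw [h6, h5]; simp
  have h7 := h1.2.2 β' h4 (by
    intro h8
    apply hne
    exact_mod_cast h8.symm)
  rw [Complex.norm_real, Real.norm_eq_abs, abs_of_pos (by linarith [h1'.1])] at h7
  linarith [h1'.1]

/-- the bounds for the coefficients -/
lemma Phi_bd {q X : ℕ} (hX : 1 ≤ X) {β : ℝ} (hβ : β ∈ Pisot (q + 2) X) :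
    |((Phi q β).1 : ℝ) - β| ≤ q + 1 ∧ (∀ k, |((Phi q β).2 k : ℝ)| ≤ (2 ^ (q + 2) + (q + 2)) * X) ∧
      ((Phi q β).1 : ℝ) ≤ (2 ^ (q + 2) + (q + 2)) * X := by
  obtain ⟨h1, h2, h3⟩ := hβ
  obtain ⟨h4, h5⟩ := h1.coef h2
  have hX1 : (1 : ℝ) ≤ X := by exact_mod_cast hX
  have h6 : |((Phi q β).1 : ℝ) - β| ≤ q + 1 := by
    rw [← abs_neg]
    simp only [Phi]
    push_cast
    rw [show -(-((minpoly ℤ β).coeff (q + 1) : ℝ) - β) = ((minpoly ℤ β).coeff (q + 1) : ℝ) + β by ring]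
    exact h5
  have hq0 : (0 : ℝ) ≤ q := Nat.cast_nonneg q
  refine ⟨h6, ?_, ?_⟩
  · intro k
    have h7 := h4 (q - k) (by omega)
    simp only [Phi]
    push_cast
    rw [abs_neg]
    refine h7.trans ?_
    calc (2 : ℝ) ^ (q + 1) * (1 + β) ≤ 2 ^ (q + 1) * (2 * X) := by
          gcongr
          linarith
      _ = 2 ^ (q + 2) * X := by rw [pow_succ 2 (q + 1)]; ring
      _ ≤ _ := by nlinarith
  · have h8 := (abs_le.1 h6).2
    have h9 : (0 : ℝ) < 2 ^ (q + 2) := by positivity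
    nlinarith

lemma Pisot_finite (q X : ℕ) : (Pisot (q + 2) X).Finite := by
  classical
  rcases Nat.eq_zero_or_pos X with rfl | hX
  · have : Pisot (q + 2) 0 = ∅ := by
      ext β
      simp only [Pisot, Set.mem_ofPred_eq, Set.mem_empty_iff_false, iff_false]
      rintro ⟨h1, _, h3⟩
      have := h1.1
      push_cast at h3
      linarith
    rw [this]
    exact Set.finite_empty
  · obtain ⟨L, hL⟩ : ∃ L : ℕ, ((2 : ℝ) ^ (q + 2) + (q + 2)) * X ≤ L := exists_nat_ge _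
    have himg : (Phi q '' (Pisot (q + 2) X)).Finite := by
      refine (Finset.finite_toSet (Finset.Icc (-((L : ℤ) + (q + 1))) ((L : ℤ) + (q + 1)) ×ˢ
        Fintype.piFinset (fun _ : Fin (q + 1) => Finset.Icc (-(L : ℤ)) L))).subset ?_
      rintro _ ⟨β, hβ, rfl⟩
      obtain ⟨h1, h2, h3⟩ := Phi_bd hX hβ
      rw [Finset.mem_coe, mem_product, Fintype.mem_piFinset]
      constructor
      · rw [Finset.mem_Icc]
        have h4 := abs_le.1 h1
        have h5 : 1 < β := hβ.1.1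
        have hL0 : (0 : ℝ) ≤ L := Nat.cast_nonneg L
        constructor
        · have : (-((L : ℝ) + (q + 1))) ≤ ((Phi q β).1 : ℝ) := by linarith
          exact_mod_cast this
        · have : ((Phi q β).1 : ℝ) ≤ (L : ℝ) + (q + 1) := by
            have : (0 : ℝ) ≤ q := Nat.cast_nonneg q
            linarith
          exact_mod_cast this
      · intro k
        rw [Finset.mem_Icc]
        have h4 := (h2 k).trans hL
        have h5 : |(Phi q β).2 k| ≤ (L : ℤ) := by exact_mod_cast h4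
        exact abs_le.1 h5
    exact Set.Finite.of_finite_image himg (Phi_inj q X)

/-- the polynomials with given coefficients -/
noncomputable def Pol (q : ℕ) (t : ℤ × (Fin (q + 1) → ℤ)) : ℤ[X] :=
  X ^ (q + 2) + (∑ j : Fin (q + 1), C (t.2 j) * X ^ (j : ℕ) - C t.1 * X ^ (q + 1))

lemma Pol_low (q : ℕ) (t : ℤ × (Fin (q + 1) → ℤ)) :
    (∑ j : Fin (q + 1), C (t.2 j) * X ^ (j : ℕ) - C t.1 * X ^ (q + 1)).degree < ((q + 2 : ℕ) : WithBot ℕ) := by
  apply lt_of_le_of_lt (degree_sub_le _ _)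
  rw [max_lt_iff]
  constructor
  · apply lt_of_le_of_lt (degree_sum_le _ _)
    rw [Finset.sup_lt_iff (WithBot.bot_lt_coe _)]
    intro j _
    apply lt_of_le_of_lt (degree_C_mul_X_pow_le _ _)
    exact_mod_cast (by omega : (j : ℕ) < q + 2)
  · apply lt_of_le_of_lt (degree_C_mul_X_pow_le _ _)
    exact_mod_cast (by omega : q + 1 < q + 2)

lemma Pol_monic (q : ℕ) (t : ℤ × (Fin (q + 1) → ℤ)) : (Pol q t).Monic ∧ (Pol q t).natDegree = q + 2 := by
  have h := Pol_low q t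
  constructor
  · exact monic_X_pow_add h
  · rw [Pol, natDegree_eq_of_degree_eq (degree_add_eq_left_of_degree_lt (by rw [degree_X_pow]; exact h)),
      natDegree_X_pow]

lemma Pol_coeff (q : ℕ) (t : ℤ × (Fin (q + 1) → ℤ)) :
    (Pol q t).coeff (q + 1) = -t.1 ∧ ∀ j : Fin (q + 1), (Pol q t).coeff j = t.2 j := by
  constructor
  · rw [Pol, coeff_add, coeff_sub, coeff_X_pow, if_neg (by omega), coeff_C_mul_X_pow, if_pos rfl,
      finset_sum_coeff]
    have : ∑ j : Fin (q + 1), (C (t.2 j) * X ^ (j : ℕ) : ℤ[X]).coeff (q + 1) = 0 := by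
      refine sum_eq_zero fun j _ => ?_
      rw [coeff_C_mul_X_pow, if_neg (by omega)]
    rw [this]; ring
  · intro i
    rw [Pol, coeff_add, coeff_sub, coeff_X_pow, if_neg (by omega), coeff_C_mul_X_pow, if_neg (by omega),
      finset_sum_coeff]
    have : ∑ j : Fin (q + 1), (C (t.2 j) * X ^ (j : ℕ) : ℤ[X]).coeff (i : ℕ) = t.2 i := by
      rw [Finset.sum_eq_single i]
      · rw [coeff_C_mul_X_pow, if_pos rfl]
      · intro j _ hj
        rw [coeff_C_mul_X_pow, if_neg]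
        intro h
        exact hj (Fin.ext h.symm)
      · intro h
        exact absurd (mem_univ _) h
    rw [this]; ring

/-- **Many Pisot numbers** -/
theorem Pisot_many (q : ℕ) : ∃ c : ℝ, 0 < c ∧ ∃ X₀ : ℕ, ∀ X : ℕ, X₀ ≤ X →
    c * (X : ℝ) ^ (q + 2) ≤ ((Pisot (q + 2) X).ncard : ℝ) := by
  classical
  refine ⟨1 / 4 * (1 / (8 * (q + 1))) ^ (q + 1), by positivity, 16 * (q + 1), ?_⟩
  intro X hX
  obtain ⟨M, hM⟩ : ∃ M : ℕ, M = X / (4 * (q + 1)) := ⟨_, rfl⟩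
  have hM1 : 4 * ((q + 1) * M) ≤ X := by
    rw [hM]
    calc 4 * ((q + 1) * (X / (4 * (q + 1)))) = (4 * (q + 1)) * (X / (4 * (q + 1))) := by ring
      _ ≤ X := Nat.mul_div_le _ _
  have hq0 : 0 < 4 * (q + 1) := by omega
  have hM2 : (X : ℝ) / (8 * (q + 1)) ≤ M := by
    have h1 : X < 4 * (q + 1) * (M + 1) := by
      rw [hM, mul_comm (4 * (q + 1))]
      exact Nat.lt_mul_of_div_lt (Nat.lt_succ_self _) hq0
    have h2 : (X : ℝ) < 4 * (q + 1) * (M + 1) := by exact_mod_cast h1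
    have h3 : 1 ≤ M := by
      rw [hM, Nat.one_le_div_iff hq0]
      omega
    have h4 : (1 : ℝ) ≤ M := by exact_mod_cast h3
    rw [div_le_iff₀ (by positivity)]
    have hq1 : (0 : ℝ) ≤ q := Nat.cast_nonneg q
    nlinarith
  set S : Finset (ℤ × (Fin (q + 1) → ℤ)) := Finset.Icc (((X / 2 + 1 : ℕ) : ℤ)) ((X : ℤ) - 1) ×ˢ
    Fintype.piFinset (fun k : Fin (q + 1) => Finset.Icc (1 : ℤ) M) with hS
  have hperr : ∀ t ∈ S, ∃ β : ℝ, β ∈ Pisot (q + 2) X ∧ minpoly ℤ β = Pol q t := by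
    intro t ht
    rw [hS, mem_product, Finset.mem_Icc, Fintype.mem_piFinset] at ht
    obtain ⟨⟨h1, h2⟩, h3⟩ := ht
    have h0 : 0 ≤ t.1 := le_trans (by positivity) h1
    have hn : ((t.1.toNat : ℕ) : ℤ) = t.1 := Int.toNat_of_nonneg h0
    obtain ⟨β, g1, g2, g3, g4⟩ := perron (q := q) (Pol q t) (Pol_monic q t).1 (Pol_monic q t).2 (by
        have := (Pol_coeff q t).2 0
        simp only [Fin.val_zero] at this
        rw [this]
        have := h3 0
        rw [Finset.mem_Icc] at this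
        omega) t.1.toNat M (by rw [(Pol_coeff q t).1, hn]) (by
        intro j hj
        have := (Pol_coeff q t).2 ⟨j, by omega⟩
        simp only at this
        rw [this]
        have := h3 ⟨j, by omega⟩
        rw [Finset.mem_Icc] at this
        rw [abs_of_nonneg (by omega)]
        exact this.2) (by omega)
    refine ⟨β, ⟨g1, by rw [g2]; exact (Pol_monic q t).2, ?_⟩, g2⟩
    have h5 : ((t.1.toNat : ℕ) : ℝ) ≤ X - 1 := by
      have : ((t.1.toNat : ℕ) : ℤ) ≤ (X : ℤ) - 1 := by rw [hn]; exact h2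
      exact_mod_cast this
    linarith
  choose! F hF1 hF2 using hperr
  have hinj : Set.InjOn F (S : Set (ℤ × (Fin (q + 1) → ℤ))) := by
    intro t ht t' ht' h
    have h1 : Pol q t = Pol q t' := by rw [← hF2 t ht, ← hF2 t' ht', h]
    obtain ⟨e1, e2⟩ := Pol_coeff q t
    obtain ⟨e1', e2'⟩ := Pol_coeff q t'
    apply Prod.ext
    · rw [h1] at e1
      omega
    · funext j
      rw [← e2 j, ← e2' j, h1]
  have hcard : S.card ≤ (Pisot (q + 2) X).ncard := by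
    rw [← card_image_of_injOn hinj, ← Set.ncard_coe_finset]
    apply Set.ncard_le_ncard _ (Pisot_finite q X)
    rw [Finset.coe_image]
    rintro _ ⟨t, ht, rfl⟩
    exact hF1 t ht
  have hScard : S.card = ((X : ℤ) - 1 + 1 - ((X / 2 + 1 : ℕ) : ℤ)).toNat * M ^ (q + 1) := by
    rw [hS, card_product, Int.card_Icc, Fintype.card_piFinset]
    simp
  have h6 : ((X : ℤ) - 1 + 1 - ((X / 2 + 1 : ℕ) : ℤ)).toNat = X - (X / 2 + 1) := by omega
  rw [h6] at hScard
  have h7 : (X : ℝ) / 4 ≤ ((X - (X / 2 + 1) : ℕ) : ℝ) := by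
    have h8 : X ≤ 4 * (X - (X / 2 + 1)) := by omega
    have h9 : (X : ℝ) ≤ 4 * ((X - (X / 2 + 1) : ℕ) : ℝ) := by exact_mod_cast h8
    linarith
  calc 1 / 4 * (1 / (8 * ((q : ℝ) + 1))) ^ (q + 1) * (X : ℝ) ^ (q + 2) =
        ((X : ℝ) / 4) * ((X : ℝ) / (8 * (q + 1))) ^ (q + 1) := by
          rw [div_pow, div_pow, one_pow, pow_succ (X : ℝ) (q + 1)]; ring
    _ ≤ ((X - (X / 2 + 1) : ℕ) : ℝ) * (M : ℝ) ^ (q + 1) := by gcongr
    _ = (S.card : ℝ) := by rw [hScard]; push_cast; rfl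
    _ ≤ _ := by exact_mod_cast hcard

/-- **Almost all Pisot numbers** -/
theorem pisot : ∃ γ : ℝ, 0 < γ ∧ ∀ q : ℕ, ∀ ε : ℝ, 0 < ε → ∃ X₀ : ℕ, ∀ X : ℕ, X₀ ≤ X →
    (({β ∈ Pisot (q + 2) X | ∃ b u v : ℕ, 2 ≤ b ∧ (Real.log X) ^ (1 - γ) ≤ (v : ℝ) - u ∧
      v * Real.log b ≤ (Real.log X) ^ (1 + γ) ∧ ¬ EquiW β b u v ε}.ncard : ℕ) : ℝ) ≤
      Real.exp (-√(Real.log X)) * ((Pisot (q + 2) X).ncard : ℝ) := by
  classical
  obtain ⟨γ, hγ0, hγ1, hfib⟩ := fibre
  refine ⟨γ / 2, by positivity, ?_⟩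
  intro q ε hε
  obtain ⟨C, hC⟩ : ∃ C : ℝ, C = 2 ^ (q + 2) + (q + 2) := ⟨_, rfl⟩
  have hC1 : 1 ≤ C := by
    have : (0 : ℝ) < 2 ^ (q + 2) := by positivity
    have : (0 : ℝ) ≤ q := Nat.cast_nonneg q
    rw [hC]; linarith
  obtain ⟨X₁, hX₁⟩ := hfib q C ε hC1 hε
  obtain ⟨X₂, hX₂⟩ := count q C γ hC1 hγ0 hγ1
  obtain ⟨c, hc, X₃, hX₃⟩ := Pisot_many q
  have hlog : Tendsto (fun N : ℕ => Real.log N) atTop atTop :=
    Real.tendsto_log_atTop.comp tendsto_natCast_atTop_atTop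
  have hNr : Tendsto (fun N : ℕ => (N : ℝ)) atTop atTop := tendsto_natCast_atTop_atTop
  have ev1 : ∀ᶠ x : ℝ in atTop, ((q : ℝ) + 1) * x ^ (0 : ℝ) ≤ x ^ (19 / 20 : ℝ) := ev_pow _ _ _ (by norm_num)
  have ev2 : ∀ᶠ y : ℝ in atTop, (2 : ℝ) * y ^ (1 / 2 : ℝ) ≤ y ^ (11 / 20 : ℝ) := ev_pow _ _ _ (by norm_num)
  have ev3 : ∀ᶠ y : ℝ in atTop, (-Real.log c) * y ^ (0 : ℝ) ≤ y ^ (1 / 2 : ℝ) := ev_pow _ _ _ (by norm_num)
  obtain ⟨X₀, hX₀⟩ := eventually_atTop.1 (((hNr.eventually ev1).and (hlog.eventually (ev2.and ev3))).and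
    (eventually_ge_atTop (max (max X₁ X₂) (max X₃ 2))))
  refine ⟨X₀, ?_⟩
  intro X hX
  obtain ⟨⟨q1, q2, q3⟩, q4⟩ := hX₀ X hX
  simp only [max_le_iff] at q4
  obtain ⟨⟨q5, q6⟩, q7, q8⟩ := q4
  rw [Real.rpow_zero, mul_one] at q1 q3
  have hX1 : (1 : ℝ) ≤ X := by exact_mod_cast (by omega : 1 ≤ X)
  set Bad : Set ℝ := {β ∈ Pisot (q + 2) X | ∃ b u v : ℕ, 2 ≤ b ∧ (Real.log X) ^ (1 - γ / 2) ≤ (v : ℝ) - u ∧
      v * Real.log b ≤ (Real.log X) ^ (1 + γ / 2) ∧ ¬ EquiW β b u v ε} with hBad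
  let ext : (Fin (q + 1) → ℤ) → ℕ → ℝ := fun b k => if h : k < q + 1 then (b ⟨k, h⟩ : ℝ) else 0
  have hext : ∀ (b : Fin (q + 1) → ℤ) (k : Fin (q + 1)), ext b k = b k := by
    intro b k
    simp only [ext]
    rw [dif_pos k.2]
  let Bd : (Fin (q + 1) → ℤ) → Set ℕ := fun b => {n : ℕ | ∃ x : ℝ, (n : ℝ) / 2 ≤ x ∧
    (x : ℂ) - psi q (ext b) x = n ∧ ∃ c u v : ℕ, 2 ≤ c ∧ (Real.log X) ^ (1 - γ / 2) ≤ (v : ℝ) - u ∧
          v * Real.log c ≤ (Real.log X) ^ (1 + γ / 2) ∧ ¬ EquiW x c u v ε}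
  have hcount := hX₂ X q6 Bd (by
    intro b hb hb0 N hN1 hN2
    have h1 := hX₁ X q5 (ext b) (by
      intro k hk
      have := hext b ⟨k, by omega⟩
      simp only at this
      rw [this]
      exact hb _) (by
      have := hext b 0
      simp only [Fin.val_zero] at this
      rw [this]
      exact hb0) N hN1 hN2
    refine le_trans ?_ h1
    refine Nat.cast_le.2 (Set.ncard_le_ncard ?_ ((Set.finite_Icc 0 (2 * N)).subset
      fun n hn => ⟨Nat.zero_le _, hn.2.1⟩))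
    rintro n ⟨a1, a2, x, a3, a4, a5⟩
    refine ⟨a1, a2, x, ?_, a4, a5⟩
    have : (N : ℝ) ≤ n := by exact_mod_cast a1.le
    have : (0 : ℝ) ≤ N := Nat.cast_nonneg N
    linarith) (Phi q '' Bad) (by
    rintro _ ⟨β, ⟨hβ, hbad⟩, rfl⟩
    obtain ⟨h1, h2, h3⟩ := Phi_bd (by omega) hβ
    rw [← hC] at h2 h3
    have h4 := abs_le.1 h1
    have h5 : 1 < β := hβ.1.1
    refine ⟨by linarith, h3, h2, ?_⟩
    intro _ h6
    have h7 : (0 : ℝ) ≤ ((Phi q β).1 : ℝ) := by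
      have : (0 : ℝ) ≤ 2 * (X : ℝ) ^ (19 / 20 : ℝ) := by positivity
      linarith
    have h7' : 0 ≤ (Phi q β).1 := by exact_mod_cast h7
    have h8 : (((Phi q β).1.toNat : ℕ) : ℤ) = (Phi q β).1 := Int.toNat_of_nonneg h7'
    have h8' : (((Phi q β).1.toNat : ℕ) : ℝ) = ((Phi q β).1 : ℝ) := by exact_mod_cast h8
    refine ⟨β, by rw [h8']; linarith, ?_, hbad⟩
    have h9 : psi q (ext (Phi q β).2) β = psi q (fun k => -((minpoly ℤ β).coeff (q - k) : ℝ)) β := by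
      unfold psi
      refine sum_congr rfl fun k hk => ?_
      rw [mem_range] at hk
      have := hext (Phi q β).2 ⟨k, hk⟩
      simp only at this
      rw [this]
      simp only [Phi]
      push_cast
      rfl
    have hβ0 : (β : ℂ) ≠ 0 := by
      intro h0
      have : β = 0 := by exact_mod_cast h0
      linarith
    have hroot : aeval (β : ℂ) (minpoly ℤ β) = 0 := by
      have h5 : aeval β (minpoly ℤ β) = 0 := minpoly.aeval ℤ β
      have h6 : aeval (β : ℂ) (minpoly ℤ β) = ((aeval β (minpoly ℤ β) : ℝ) : ℂ) := by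
        rw [aeval_def, aeval_def, eval₂_eq_sum_range, eval₂_eq_sum_range]
        push_cast
        rfl
      rw [h6, h5]; simp
    rw [h9, psi_eq _ (minpoly.monic hβ.1.2.1) hβ.2.1 _ hβ0 hroot]
    have h10 : (((Phi q β).1.toNat : ℕ) : ℂ) = (((Phi q β).1 : ℤ) : ℂ) := by exact_mod_cast h8
    rw [h10]
    simp only [Phi]
    push_cast
    rfl)
  obtain ⟨hfin, hle⟩ := hcount
  rw [Set.ncard_image_of_injOn ((Phi_inj q X).mono fun β hβ => hβ.1)] at hle
  have hmany := hX₃ X q7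
  refine hle.trans ?_
  have hsqrt : √(Real.log X) = (Real.log X) ^ (1 / 2 : ℝ) := Real.sqrt_eq_rpow _
  have h11 : Real.exp (-(Real.log X) ^ (11 / 20 : ℝ)) ≤ Real.exp (-√(Real.log X)) * c := by
    rw [hsqrt, ← Real.exp_log hc, ← Real.exp_add]
    apply Real.exp_le_exp.2
    linarith
  calc (X : ℝ) ^ (q + 2) * Real.exp (-(Real.log X) ^ (11 / 20 : ℝ)) ≤
        (X : ℝ) ^ (q + 2) * (Real.exp (-√(Real.log X)) * c) := by gcongr
    _ = Real.exp (-√(Real.log X)) * (c * (X : ℝ) ^ (q + 2)) := by ring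
    _ ≤ _ := by gcongr

end Pool.Agent.H17.GS
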