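import Pool.Agent.H17.GS.Two
import Pool.Agent.H17.GS.PisM

/-!
# Algebraic integers: signs, fibres (helper17)
-/

set_option autoImplicit false

namespace Pool.Agent.H17.GS

open Finset Filter Topology Polynomial

/-- equidistribution from upper bounds -/
lemma equiW_of_up {x : ℝ} {b u v : ℕ} {δ : ℝ} (huv : u ≤ v) (hδ : 0 ≤ δ)
    (hup : ∀ α β : ℝ, 0 ≤ α → α < β → β ≤ 1 →
      ((Pl x b u v α β).ncard : ℝ) ≤ (β - α) * ((v : ℝ) - u) + δ * ((v : ℝ) - u)) :
    EquiW x b u v (2 * δ) := by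
  rw [equiW_iff]
  have huv' : (u : ℝ) ≤ v := by exact_mod_cast huv
  obtain ⟨L, hL⟩ : ∃ L : ℝ, L = (v : ℝ) - u := ⟨_, rfl⟩
  have hL0 : 0 ≤ L := by rw [hL]; linarith
  rw [← hL] at hup ⊢
  have hδL : 0 ≤ δ * L := by positivity
  intro α β ha hab hb'
  have hA : ((Pl x b u v 0 α).ncard : ℝ) ≤ α * L + δ * L := by
    rcases eq_or_lt_of_le ha with h1 | h1
    · rw [← h1]
      have h2 : Pl x b u v 0 0 = ∅ := by
        ext i
        simp only [Pl, Set.mem_ofPred_eq, Set.mem_empty_iff_false, iff_false]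
        rintro ⟨_, _, a3, a4⟩
        linarith
      rw [h2, Set.ncard_empty]
      push_cast
      linarith
    · have := hup 0 α le_rfl h1 (by linarith)
      rw [sub_zero] at this
      exact this
  have hB : ((Pl x b u v β 1).ncard : ℝ) ≤ (1 - β) * L + δ * L := by
    rcases eq_or_lt_of_le hb' with h1 | h1
    · rw [h1]
      have h2 : Pl x b u v 1 1 = ∅ := by
        ext i
        simp only [Pl, Set.mem_ofPred_eq, Set.mem_empty_iff_false, iff_false]
        rintro ⟨_, _, a3, a4⟩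
        linarith
      rw [h2, Set.ncard_empty]
      push_cast
      linarith
    · exact hup β 1 (by linarith) h1 le_rfl
  have hcov : ((Finset.Ioc u v : Finset ℕ) : Set ℕ) ⊆ (Pl x b u v α β ∪ Pl x b u v 0 α) ∪ Pl x b u v β 1 := by
    intro i hi
    rw [Finset.mem_coe, Finset.mem_Ioc] at hi
    rcases lt_or_ge (Int.fract (x * (b : ℝ) ^ i)) α with h1 | h1
    · left; right
      exact ⟨hi.1, hi.2, Int.fract_nonneg _, h1⟩
    · rcases lt_or_ge (Int.fract (x * (b : ℝ) ^ i)) β with h2 | h2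
      · left; left
        exact ⟨hi.1, hi.2, h1, h2⟩
      · right
        exact ⟨hi.1, hi.2, h2, Int.fract_lt_one _⟩
  have h1 := (Set.ncard_le_ncard hcov (((Pl_finite _ _ _ _ _ _).union (Pl_finite _ _ _ _ _ _)).union
    (Pl_finite _ _ _ _ _ _))).trans ((Set.ncard_union_le _ _).trans
    (Nat.add_le_add_right (Set.ncard_union_le _ _) _))
  rw [Set.ncard_coe_finset, Nat.card_Ioc] at h1
  have h2 : ((v - u : ℕ) : ℝ) ≤ (Pl x b u v α β).ncard + (Pl x b u v 0 α).ncard +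
      (Pl x b u v β 1).ncard := by exact_mod_cast h1
  rw [Nat.cast_sub huv, ← hL] at h2
  have h3 := hup α β ha hab hb'
  rw [abs_le]
  constructor <;> nlinarith

lemma EquiW.neg {x : ℝ} {b u v : ℕ} {ε : ℝ} (h : EquiW x b u v ε) (huv : u ≤ v) (hε : 0 < ε) :
    EquiW (-x) b u v (8 * ε) := by
  have h8 : 8 * ε = 2 * (4 * ε) := by ring
  rw [h8]
  refine equiW_of_up huv (by positivity) ?_
  intro α β ha hab hb
  rw [equiW_iff] at h
  obtain ⟨κ, hκ⟩ : ∃ κ : ℝ, κ = min ε 1 := ⟨_, rfl⟩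
  have hκ0 : 0 < κ := by rw [hκ]; exact lt_min hε one_pos
  have hκ1 : κ ≤ 1 := by rw [hκ]; exact min_le_right _ _
  have hκε : κ ≤ ε := by rw [hκ]; exact min_le_left _ _
  have huv' : (u : ℝ) ≤ v := by exact_mod_cast huv
  obtain ⟨L, hL⟩ : ∃ L : ℝ, L = (v : ℝ) - u := ⟨_, rfl⟩
  have hL0 : 0 ≤ L := by rw [hL]; linarith
  rw [← hL] at h ⊢
  have hsub : Pl (-x) b u v α β ⊆ Pl x b u v (1 - β) (min (1 - α + κ) 1) ∪ Pl x b u v 0 κ := by
    rintro i ⟨a1, a2, a3, a4⟩
    rw [neg_mul] at a3 a4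
    by_cases h0 : Int.fract (x * (b : ℝ) ^ i) = 0
    · right
      exact ⟨a1, a2, by rw [h0], by rw [h0]; exact hκ0⟩
    · left
      rw [Int.fract_neg h0] at a3 a4
      refine ⟨a1, a2, by linarith, lt_min (by linarith) (Int.fract_lt_one _)⟩
  have h1 := (Set.ncard_le_ncard hsub ((Pl_finite _ _ _ _ _ _).union (Pl_finite _ _ _ _ _ _))).trans
    (Set.ncard_union_le _ _)
  have h2 : ((Pl (-x) b u v α β).ncard : ℝ) ≤ (Pl x b u v (1 - β) (min (1 - α + κ) 1)).ncard +
      (Pl x b u v 0 κ).ncard := by exact_mod_cast h1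
  have g1 := h (1 - β) (min (1 - α + κ) 1) (by linarith) (lt_min (by linarith) (by linarith)) (min_le_right _ _)
  have g2 := h 0 κ le_rfl hκ0 hκ1
  have m4 : (min (1 - α + κ) 1 - (1 - β)) * L ≤ (β - α + κ) * L := by
    apply mul_le_mul_of_nonneg_right _ hL0
    have := min_le_left (1 - α + κ) 1
    linarith
  have m5 : κ * L ≤ ε * L := by gcongr
  rw [abs_le] at g1 g2
  nlinarith [g1.2, g2.2]

lemma EquiW.sign {x : ℝ} {b u v : ℕ} {ε : ℝ} {s : ℤ} (hs : s = 1 ∨ s = -1) (huv : u ≤ v) (hε : 0 < ε)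
    (h : EquiW (s * x) b u v (ε / 8)) : EquiW x b u v ε := by
  rcases hs with rfl | rfl
  · push_cast at h
    rw [one_mul] at h
    exact h.mono huv (by linarith)
  · have h1 := h.neg huv (by positivity)
    push_cast at h1
    rw [neg_one_mul, neg_neg] at h1
    exact h1.mono huv (by linarith)

/-- at most `d` real roots for each polynomial -/
lemma fib_card {α : Type*} {q : ℕ} (E : Set ℝ) (Φ : ℝ → α) (T : Set α) (hT : T.Finite)
    (hE : ∀ x ∈ E, IsIntegral ℤ x ∧ (minpoly ℤ x).natDegree = q + 2) (hmap : ∀ x ∈ E, Φ x ∈ T)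
    (hinj : ∀ x ∈ E, ∀ x' ∈ E, Φ x = Φ x' → minpoly ℤ x = minpoly ℤ x') :
    E.Finite ∧ (E.ncard : ℝ) ≤ T.ncard * (q + 2) := by
  classical
  have hroots : ∀ t : α, {x | x ∈ E ∧ Φ x = t}.Finite ∧ ({x | x ∈ E ∧ Φ x = t}.ncard : ℝ) ≤ q + 2 := by
    intro t
    rcases Set.eq_empty_or_nonempty {x | x ∈ E ∧ Φ x = t} with h | ⟨x₀, h1, h2⟩
    · rw [h]
      refine ⟨Set.finite_empty, ?_⟩
      rw [Set.ncard_empty, Nat.cast_zero]
      positivity
    · obtain ⟨h3, h4⟩ := hE x₀ h1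
      have hm := minpoly.monic h3
      have hsub : {x | x ∈ E ∧ Φ x = t} ⊆
          ((((minpoly ℤ x₀).map (Int.castRingHom ℝ)).roots.toFinset : Finset ℝ) : Set ℝ) := by
        rintro x ⟨h5, h6⟩
        rw [Finset.mem_coe, Multiset.mem_toFinset, mem_roots (hm.map _).ne_zero, IsRoot, eval_map,
          ← hinj x h5 x₀ h1 (h6.trans h2.symm)]
        exact minpoly.aeval ℤ x
      have hfin : ({x | x ∈ E ∧ Φ x = t} : Set ℝ).Finite := (Finset.finite_toSet _).subset hsub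
      refine ⟨hfin, ?_⟩
      have h7 := Set.ncard_le_ncard hsub (Finset.finite_toSet _)
      rw [Set.ncard_coe_finset] at h7
      have h8 : ((minpoly ℤ x₀).map (Int.castRingHom ℝ)).roots.toFinset.card ≤ q + 2 :=
        (Multiset.toFinset_card_le _).trans ((card_roots' _).trans (by rw [hm.natDegree_map, h4]))
      exact_mod_cast h7.trans h8
  have hcov := ncard_cover hT.toFinset E (fun t => {x | x ∈ E ∧ Φ x = t}) (q + 2)
    (fun x hx => ⟨Φ x, hT.mem_toFinset.2 (hmap x hx), hx, rfl⟩) (fun t => (hroots t).1)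
    (fun t _ => (hroots t).2)
  have hfin : E.Finite := by
    have h1 : E ⊆ ⋃ t ∈ T, {x | x ∈ E ∧ Φ x = t} := fun x hx =>
      Set.mem_biUnion (hmap x hx) ⟨hx, rfl⟩
    exact (hT.biUnion fun t _ => (hroots t).1).subset h1
  refine ⟨hfin, hcov.trans (le_of_eq ?_)⟩
  rw [Set.ncard_eq_toFinset_card T hT]

/-- the real algebraic integers of degree `d` whose minimal polynomial has coefficients at most `H` -/
def AI (d H : ℕ) : Set ℝ := {x | IsIntegral ℤ x ∧ (minpoly ℤ x).natDegree = d ∧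
  ∀ i, |(minpoly ℤ x).coeff i| ≤ H}

lemma AI_finite (q H : ℕ) : (AI (q + 2) H).Finite := by
  classical
  refine (fib_card (AI (q + 2) H) (Phi q) ((Finset.Icc (-(H : ℤ)) H ×ˢ
      Fintype.piFinset (fun _ : Fin (q + 1) => Finset.Icc (-(H : ℤ)) H) :
      Finset (ℤ × (Fin (q + 1) → ℤ))) : Set (ℤ × (Fin (q + 1) → ℤ))) (Finset.finite_toSet _)
    (fun x hx => ⟨hx.1, hx.2.1⟩) ?_ ?_).1
  · intro x hx
    rw [Finset.mem_coe, mem_product, Fintype.mem_piFinset]
    constructor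
    · rw [Finset.mem_Icc]
      simp only [Phi]
      have := abs_le.1 (hx.2.2 (q + 1))
      constructor <;> omega
    · intro k
      rw [Finset.mem_Icc]
      simp only [Phi]
      have := abs_le.1 (hx.2.2 (q - k))
      constructor <;> omega
  · intro x hx x' hx' h
    exact minpoly_ext hx.1 hx'.1 hx.2.1 hx'.2.1 h

/-- **Many algebraic integers** -/
theorem AI_many (q : ℕ) : ∃ c : ℝ, 0 < c ∧ ∃ H₀ : ℕ, ∀ H : ℕ, H₀ ≤ H →
    c * (H : ℝ) ^ (q + 2) ≤ ((AI (q + 2) H).ncard : ℝ) := by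
  obtain ⟨c, hc, X₀, hX₀⟩ := Pisot_many q
  obtain ⟨C, hC⟩ : ∃ C : ℕ, C = 2 ^ (q + 2) + (q + 2) := ⟨_, rfl⟩
  have hC0 : 0 < C := by rw [hC]; positivity
  have hC0' : (0 : ℝ) < C := by exact_mod_cast hC0
  refine ⟨c * (1 / (2 * C)) ^ (q + 2), by positivity, C * (X₀ + 1), ?_⟩
  intro H hH
  obtain ⟨X, hX⟩ : ∃ X : ℕ, X = H / C := ⟨_, rfl⟩
  have hX1 : X₀ + 1 ≤ X := by
    rw [hX, Nat.le_div_iff_mul_le hC0, mul_comm]
    exact hH
  have hX2 : C * X ≤ H := by rw [hX]; exact Nat.mul_div_le _ _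
  have hX3 : H < C * (X + 1) := by
    rw [hX]
    exact Nat.lt_mul_div_succ H hC0
  have hX2' : (C : ℝ) * X ≤ H := by exact_mod_cast hX2
  have hX4 : (H : ℝ) / (2 * C) ≤ X := by
    rw [div_le_iff₀ (by positivity)]
    have h1 : (H : ℝ) < C * (X + 1) := by exact_mod_cast hX3
    have h2 : (1 : ℝ) ≤ X := by exact_mod_cast (by omega : 1 ≤ X)
    nlinarith
  have hsub : Pisot (q + 2) X ⊆ AI (q + 2) H := by
    intro β hβ
    have h1 := Phi_bd (by omega) hβ
    obtain ⟨h2, h3, h4⟩ := h1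
    refine ⟨hβ.1.2.1, hβ.2.1, ?_⟩
    intro i
    have hCC : ((C : ℕ) : ℝ) = 2 ^ (q + 2) + (q + 2) := by rw [hC]; push_cast; ring
    rw [← hCC] at h3 h4
    have hgoal : ∀ z : ℤ, |(z : ℝ)| ≤ C * X → |z| ≤ (H : ℤ) := by
      intro z hz
      have : |(z : ℝ)| ≤ H := hz.trans hX2'
      exact_mod_cast this
    rcases lt_trichotomy i (q + 1) with hi | hi | hi
    · have h5 := h3 ⟨q - i, by omega⟩
      simp only [Phi] at h5
      rw [show q - (q - i) = i by omega] at h5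
      have h6 := hgoal _ h5
      rwa [abs_neg] at h6
    · have h5 : |((Phi q β).1 : ℝ)| ≤ C * X := by
        rw [abs_le]
        refine ⟨?_, h4⟩
        have h6 := (abs_le.1 h2).1
        have h7 : 1 < β := hβ.1.1
        have h8 : (1 : ℝ) ≤ X := by exact_mod_cast (by omega : 1 ≤ X)
        have h9 : (q : ℝ) + 2 ≤ C := by
          rw [hCC]
          have : (0 : ℝ) < 2 ^ (q + 2) := by positivity
          linarith
        nlinarith
      simp only [Phi] at h5
      have h6 := hgoal _ h5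
      rw [abs_neg] at h6
      rw [hi]
      exact h6
    · rcases Nat.lt_or_ge (q + 2) i with hi2 | hi2
      · rw [coeff_eq_zero_of_natDegree_lt (by rw [hβ.2.1]; exact hi2), abs_zero]
        positivity
      · have : i = q + 2 := by omega
        rw [this]
        have e1 : (minpoly ℤ β).coeff (q + 2) = 1 := by
          rw [← hβ.2.1]; exact minpoly.monic hβ.1.2.1
        rw [e1, abs_one]
        have : 1 * 1 ≤ C * X := Nat.mul_le_mul hC0 (by omega)
        exact_mod_cast (by omega : 1 ≤ H)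
  have h5 := hX₀ X (by omega)
  have h6 := Set.ncard_le_ncard hsub (AI_finite q H)
  calc c * (1 / (2 * (C : ℝ))) ^ (q + 2) * (H : ℝ) ^ (q + 2) = c * ((H : ℝ) / (2 * C)) ^ (q + 2) := by
        rw [div_pow, div_pow, one_pow]; ring
    _ ≤ c * (X : ℝ) ^ (q + 2) := by gcongr
    _ ≤ ((Pisot (q + 2) X).ncard : ℝ) := h5
    _ ≤ _ := by exact_mod_cast h6

end Pool.Agent.H17.GS
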