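import Pool.Agent.H17.GS.AIa

/-!
# Algebraic integers: the small roots (helper17)
-/

set_option autoImplicit false

namespace Pool.Agent.H17.GS

open Finset Filter Topology Polynomial

/-- some long window of digits is bad -/
def BadW (H : ℕ) (γ ε x : ℝ) : Prop := ∃ c u v : ℕ, 2 ≤ c ∧ (Real.log H) ^ (1 - γ) ≤ (v : ℝ) - u ∧
        v * Real.log c ≤ (Real.log H) ^ (1 + γ) ∧ ¬ EquiW x c u v ε

/-- the upper part of the polynomial -/
noncomputable def Up (q : ℕ) (r : Fin q → ℤ) : ℝ[X] :=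
  X ^ (q + 2) + ∑ j : Fin q, C (r j : ℝ) * X ^ ((j : ℕ) + 2)

lemma Up_deg (q : ℕ) (r : Fin q → ℤ) : (Up q r).natDegree ≤ q + 2 := by
  refine (natDegree_add_le _ _).trans (max_le (natDegree_X_pow_le _) ?_)
  refine natDegree_sum_le_of_forall_le _ _ fun j _ => ?_
  exact (natDegree_C_mul_X_pow_le _ _).trans (by omega)

lemma Up_coeff (q : ℕ) (r : Fin q → ℤ) {H : ℕ} (hH : 1 ≤ H) (hr : ∀ j, |r j| ≤ (H : ℤ)) (k : ℕ) :
    |(Up q r).coeff k| ≤ H := by
  have hH1 : (1 : ℝ) ≤ H := by exact_mod_cast hH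
  rw [Up, coeff_add, coeff_X_pow, finset_sum_coeff]
  by_cases h1 : k = q + 2
  · rw [if_pos h1]
    have : ∑ j : Fin q, (C (r j : ℝ) * X ^ ((j : ℕ) + 2) : ℝ[X]).coeff k = 0 := by
      refine sum_eq_zero fun j _ => ?_
      rw [coeff_C_mul_X_pow, if_neg (by omega)]
    rw [this, add_zero, abs_one]
    exact hH1
  · rw [if_neg h1, zero_add]
    by_cases h2 : ∃ i : Fin q, k = (i : ℕ) + 2
    · obtain ⟨i, hi⟩ := h2
      have : ∑ j : Fin q, (C (r j : ℝ) * X ^ ((j : ℕ) + 2) : ℝ[X]).coeff k = r i := by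
        rw [Finset.sum_eq_single i]
        · rw [coeff_C_mul_X_pow, if_pos hi]
        · intro j _ hj
          rw [coeff_C_mul_X_pow, if_neg]
          intro h
          exact hj (Fin.ext (by omega))
        · intro h
          exact absurd (mem_univ _) h
      rw [this]
      exact_mod_cast hr i
    · have : ∑ j : Fin q, (C (r j : ℝ) * X ^ ((j : ℕ) + 2) : ℝ[X]).coeff k = 0 := by
        refine sum_eq_zero fun j _ => ?_
        rw [coeff_C_mul_X_pow, if_neg]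
        intro h
        exact h2 ⟨j, h⟩
      rw [this, abs_zero]
      linarith

lemma Up_eval {q : ℕ} {x : ℝ} (hx : IsIntegral ℤ x) (hd : (minpoly ℤ x).natDegree = q + 2) :
    (Up q fun j => (minpoly ℤ x).coeff ((j : ℕ) + 2)).eval x + ((minpoly ℤ x).coeff 1 : ℝ) * x +
      ((minpoly ℤ x).coeff 0 : ℝ) = 0 := by
  have h1 : aeval x (minpoly ℤ x) = 0 := minpoly.aeval ℤ x
  rw [aeval_eq_sum_range, hd, sum_range_succ, sum_range_succ', sum_range_succ'] at h1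
  have h2 : (minpoly ℤ x).coeff (q + 2) = 1 := by rw [← hd]; exact minpoly.monic hx
  rw [h2] at h1
  rw [Up, eval_add, eval_pow, eval_X, eval_finset_sum]
  have h3 : ∑ j : Fin q, eval x (C (((minpoly ℤ x).coeff ((j : ℕ) + 2) : ℤ) : ℝ) * X ^ ((j : ℕ) + 2)) =
      ∑ i ∈ range q, ((minpoly ℤ x).coeff (i + 2) : ℝ) * x ^ (i + 2) := by
    rw [← Fin.sum_univ_eq_sum_range (fun i => ((minpoly ℤ x).coeff (i + 2) : ℝ) * x ^ (i + 2)) q]
    refine sum_congr rfl fun j _ => ?_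
    rw [eval_mul, eval_C, eval_pow, eval_X]
  rw [h3]
  simp only [zsmul_eq_mul, add_assoc] at h1 ⊢
  norm_num at h1
  linarith

/-- the small roots -/
theorem ai_small : ∃ γ : ℝ, 0 < γ ∧ γ ≤ 1 / 160 ∧ ∀ (q : ℕ) (ε : ℝ), 0 < ε → ∃ H₀ : ℕ, ∀ H : ℕ, H₀ ≤ H →
    (({x | x ∈ AI (q + 2) H ∧ |x| ≤ Real.exp √(Real.log H) ∧ BadW H γ ε x}.ncard : ℕ) : ℝ) ≤
      ((2 * (H : ℝ) + 1) ^ q) * ((H ^ 2 * Real.exp (-√(Real.log H))) * (q + 2)) := by
  classical
  obtain ⟨γ, hγ0, hγ1, htwo⟩ := two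
  refine ⟨γ, hγ0, hγ1, ?_⟩
  intro q ε hε
  obtain ⟨H₀, hH₀⟩ := htwo q ε hε
  refine ⟨max H₀ 1, ?_⟩
  intro H hH
  have hH1 : 1 ≤ H := (le_max_right _ _).trans hH
  have hmain := hH₀ H ((le_max_left _ _).trans hH)
  set E : Set ℝ := {x | x ∈ AI (q + 2) H ∧ |x| ≤ Real.exp √(Real.log H) ∧ BadW H γ ε x} with hE
  have hEfin : E.Finite := (AI_finite q H).subset fun x hx => hx.1
  obtain ⟨Ψ, hΨ⟩ : ∃ Ψ : ℝ → Fin q → ℤ, Ψ = (fun (x : ℝ) (j : Fin q) => (minpoly ℤ x).coeff ((j : ℕ) + 2)) :=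
    ⟨_, rfl⟩
  let Fr : (Fin q → ℤ) → Set ℝ := fun r => {x | x ∈ E ∧ Ψ x = r}
  have hcov := ncard_cover (Fintype.piFinset (fun _ : Fin q => Finset.Icc (-(H : ℤ)) H)) E
    Fr ((H ^ 2 * Real.exp (-√(Real.log H))) * (q + 2))
    (fun x hx => ⟨Ψ x, by
      rw [Fintype.mem_piFinset]
      intro j
      rw [Finset.mem_Icc, hΨ]
      exact abs_le.1 (hx.1.2.2 _), hx, rfl⟩)
    (fun r => hEfin.subset fun x hx => hx.1) (by
      intro r hr
      rw [Fintype.mem_piFinset] at hr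
      have hr' : ∀ j, |r j| ≤ (H : ℤ) := fun j => abs_le.2 (Finset.mem_Icc.1 (hr j))
      have h1 := hmain (Up q r) (Up_deg q r) (Up_coeff q r hH1 hr')
      set T : Set (ℤ × ℤ) := {p : ℤ × ℤ | |p.1| ≤ H ∧ |p.2| ≤ H ∧ ∃ x : ℝ, |x| ≤ Real.exp √(Real.log H) ∧
        (Up q r).eval x + p.2 * x + p.1 = 0 ∧ ∃ c u v : ℕ, 2 ≤ c ∧ (Real.log H) ^ (1 - γ) ≤ (v : ℝ) - u ∧
        v * Real.log c ≤ (Real.log H) ^ (1 + γ) ∧ ¬ EquiW x c u v ε} with hT
      have hTfin : T.Finite := (box_finite H).subset fun p hp => ⟨hp.1, hp.2.1⟩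
      have h2 := (fib_card (q := q) {x | x ∈ E ∧ Ψ x = r}
        (fun x => ((minpoly ℤ x).coeff 0, (minpoly ℤ x).coeff 1)) T hTfin
        (fun x hx => ⟨hx.1.1.1, hx.1.1.2.1⟩) ?_ ?_).2
      · refine h2.trans ?_
        gcongr
      · rintro x ⟨⟨g1, g2, g3⟩, g4⟩
        refine ⟨g1.2.2 0, g1.2.2 1, x, g2, ?_, g3⟩
        have h3 := Up_eval g1.1 g1.2.1
        rw [← g4, hΨ]
        exact h3
      · rintro x ⟨⟨g1, _, _⟩, g4⟩ x' ⟨⟨g1', _, _⟩, g4'⟩ h
        simp only [Prod.mk.injEq] at h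
        ext j
        rcases Nat.lt_or_ge j 2 with hj | hj
        · rcases Nat.lt_or_ge j 1 with hj2 | hj2
          · have : j = 0 := by omega
            rw [this]; exact h.1
          · have : j = 1 := by omega
            rw [this]; exact h.2
        · rcases Nat.lt_or_ge j (q + 2) with hj2 | hj2
          · have h5 : Ψ x ⟨j - 2, by omega⟩ = Ψ x' ⟨j - 2, by omega⟩ := by rw [g4, g4']
            rw [hΨ] at h5
            simp only at h5
            rwa [show j - 2 + 2 = j by omega] at h5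
          · rcases Nat.lt_or_ge (q + 2) j with hj3 | hj3
            · rw [coeff_eq_zero_of_natDegree_lt (by rw [g1.2.1]; exact hj3),
                coeff_eq_zero_of_natDegree_lt (by rw [g1'.2.1]; exact hj3)]
            · have : j = q + 2 := by omega
              rw [this]
              have e1 : (minpoly ℤ x).coeff (q + 2) = 1 := by rw [← g1.2.1]; exact minpoly.monic g1.1
              have e2 : (minpoly ℤ x').coeff (q + 2) = 1 := by rw [← g1'.2.1]; exact minpoly.monic g1'.1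
              rw [e1, e2])
  refine hcov.trans (le_of_eq ?_)
  congr 1
  rw [Fintype.card_piFinset]
  simp only [Int.card_Icc, prod_const, card_univ, Fintype.card_fin]
  have : ((H : ℤ) + 1 - -(H : ℤ)).toNat = 2 * H + 1 := by omega
  rw [this]
  push_cast
  rfl

end Pool.Agent.H17.GS
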