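import Pool.Agent.H17.GS.AIb

/-!
# Algebraic integers: the large roots and the main theorem (helper17)
-/

set_option autoImplicit false

namespace Pool.Agent.H17.GS

open Finset Filter Topology Polynomial

lemma psi_sign {q : ℕ} (b : ℕ → ℝ) {s : ℤ} (hs : s = 1 ∨ s = -1) (x : ℂ) :
    psi q (fun k => (s : ℝ) ^ k * b k) (s * x) = s * psi q b x := by
  rw [psi, psi, mul_sum]
  refine sum_congr rfl fun k _ => ?_
  rcases hs with rfl | rfl
  · simp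
  · push_cast
    rw [neg_one_mul, inv_neg, neg_pow x⁻¹ (k + 1)]
    have : (-1 : ℂ) ^ k * (-1) ^ (k + 1) = -1 := by
      rw [← pow_add, show k + (k + 1) = 2 * k + 1 by ring, pow_succ, pow_mul]
      simp
    calc (-1 : ℂ) ^ k * (b k) * ((-1) ^ (k + 1) * x⁻¹ ^ (k + 1)) =
          ((-1 : ℂ) ^ k * (-1) ^ (k + 1)) * (b k * x⁻¹ ^ (k + 1)) := by ring
      _ = _ := by rw [this]

lemma psi_bd_real {q : ℕ} {b : ℕ → ℝ} {A : ℝ} (hb : ∀ k ≤ q, |b k| ≤ A) {w : ℝ} (hw : 1 ≤ w) :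
    ‖psi q b w‖ ≤ (q + 1) * (A / w) := by
  have hA0 : 0 ≤ A := (abs_nonneg _).trans (hb 0 (Nat.zero_le _))
  have hw0 : 0 < w := by linarith
  rw [psi]
  refine (norm_sum_le _ _).trans ?_
  have h1 : ∀ k ∈ range (q + 1), ‖(b k : ℂ) * (w : ℂ)⁻¹ ^ (k + 1)‖ ≤ A / w := by
    intro k hk
    rw [mem_range] at hk
    rw [norm_mul, Complex.norm_real, norm_pow, norm_inv, Complex.norm_real, Real.norm_eq_abs,
      Real.norm_eq_abs, abs_of_pos hw0, div_eq_mul_inv]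
    have h2 : w⁻¹ ^ (k + 1) ≤ w⁻¹ := by
      calc w⁻¹ ^ (k + 1) ≤ w⁻¹ ^ 1 := pow_le_pow_of_le_one (by positivity) (inv_le_one_of_one_le₀ hw) (by omega)
        _ = w⁻¹ := pow_one _
    exact mul_le_mul (hb k (by omega)) h2 (by positivity) hA0
  refine (sum_le_sum h1).trans ?_
  rw [sum_const, card_range, nsmul_eq_mul]
  push_cast
  exact le_rfl

/-- the coefficients, with signs -/
noncomputable def PhiS (q : ℕ) (s : ℤ) (β : ℝ) : ℤ × (Fin (q + 1) → ℤ) :=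
  (s * (Phi q β).1, fun k => s ^ (k : ℕ) * (Phi q β).2 k)

lemma PhiS_inj {q : ℕ} {s : ℤ} (hs : s = 1 ∨ s = -1) {x x' : ℝ} (h : PhiS q s x = PhiS q s x') :
    Phi q x = Phi q x' := by
  have hs0 : s ≠ 0 := by rcases hs with rfl | rfl <;> norm_num
  simp only [PhiS, Prod.mk.injEq] at h
  apply Prod.ext
  · exact mul_left_cancel₀ hs0 h.1
  · funext k
    exact mul_left_cancel₀ (pow_ne_zero _ hs0) (congrFun h.2 k)

/-- the equation of the root, with signs -/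
lemma root_eq {q : ℕ} {s : ℤ} (hs : s = 1 ∨ s = -1) {x : ℝ} (hx : IsIntegral ℤ x)
    (hd : (minpoly ℤ x).natDegree = q + 2) (hx0 : x ≠ 0) :
    ((s * x : ℝ) : ℂ) - psi q (fun k => (s : ℝ) ^ k * (-((minpoly ℤ x).coeff (q - k) : ℝ))) ((s * x : ℝ) : ℂ) =
      ((s * (Phi q x).1 : ℤ) : ℂ) := by
  have h0 : (x : ℂ) ≠ 0 := by exact_mod_cast hx0
  have hroot : aeval (x : ℂ) (minpoly ℤ x) = 0 := by
    have h5 : aeval x (minpoly ℤ x) = 0 := minpoly.aeval ℤ x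
    have h6 : aeval (x : ℂ) (minpoly ℤ x) = ((aeval x (minpoly ℤ x) : ℝ) : ℂ) := by
      rw [aeval_def, aeval_def, eval₂_eq_sum_range, eval₂_eq_sum_range]
      push_cast
      rfl
    rw [h6, h5]; simp
  have h1 := psi_eq _ (minpoly.monic hx) hd _ h0 hroot
  have h2 := psi_sign (q := q) (fun k => -((minpoly ℤ x).coeff (q - k) : ℝ)) hs (x : ℂ)
  have h3 : ((s * x : ℝ) : ℂ) = (s : ℂ) * (x : ℂ) := by push_cast; ring
  rw [h3, h2]
  simp only [Phi]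
  push_cast
  linear_combination (s : ℂ) * h1

/-- the large roots -/
theorem ai_large : ∃ γ : ℝ, 0 < γ ∧ γ ≤ 1 / 2 ∧ ∀ (q : ℕ) (ε : ℝ), 0 < ε → ∃ H₀ : ℕ, ∀ H : ℕ, H₀ ≤ H →
    ∀ s : ℤ, (s = 1 ∨ s = -1) →
    (({x | x ∈ AI (q + 2) H ∧ Real.exp √(Real.log H) < s * x ∧ BadW H γ ε x}.ncard : ℕ) : ℝ) ≤
      ((8 * (q + 1) * (H / Real.exp √(Real.log H)) + 1) * (2 * (H : ℝ) + 1) ^ (q + 1)) * (q + 2) +
        ((H : ℝ) ^ (q + 2) * Real.exp (-(Real.log H) ^ (11 / 20 : ℝ))) * (q + 2) := by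
  classical
  obtain ⟨γ, hγ0, hγ1, hfib⟩ := fibre
  refine ⟨γ / 2, by positivity, by linarith, ?_⟩
  intro q ε hε
  obtain ⟨X₁, hX₁⟩ := hfib q 1 (ε / 8) le_rfl (by positivity)
  obtain ⟨X₂, hX₂⟩ := count q 1 γ le_rfl hγ0 hγ1
  have hlog : Tendsto (fun N : ℕ => Real.log N) atTop atTop :=
    Real.tendsto_log_atTop.comp tendsto_natCast_atTop_atTop
  have ev1 : ∀ᶠ y : ℝ in atTop, (20 : ℝ) * y ^ (1 / 2 : ℝ) ≤ y ^ (1 : ℝ) := ev_pow _ _ _ (by norm_num)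
  obtain ⟨H₃, hH₃⟩ := eventually_atTop.1 ((hlog.eventually (ev1.and (eventually_ge_atTop 1))).and
    (eventually_ge_atTop 4))
  refine ⟨max (max X₁ X₂) H₃, ?_⟩
  intro H hH s hs
  obtain ⟨⟨q1, q2⟩, q3⟩ := hH₃ H ((le_max_right _ _).trans hH)
  have hHX1 : X₁ ≤ H := ((le_max_left _ _).trans (le_max_left _ _)).trans hH
  have hHX2 : X₂ ≤ H := ((le_max_right _ _).trans (le_max_left _ _)).trans hH
  have hH0 : (0 : ℝ) < H := by exact_mod_cast (by omega : 0 < H)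
  have hH1 : (1 : ℝ) ≤ H := by exact_mod_cast (by omega : 1 ≤ H)
  obtain ⟨y, hy⟩ : ∃ y : ℝ, y = Real.log H := ⟨_, rfl⟩
  have hHexp : (H : ℝ) = Real.exp y := by rw [hy, Real.exp_log hH0]
  rw [← hy] at q1 q2
  rw [Real.rpow_one, ← Real.sqrt_eq_rpow] at q1
  obtain ⟨R, hR⟩ : ∃ R : ℝ, R = Real.exp √(Real.log H) := ⟨_, rfl⟩
  have hR' : R = Real.exp √y := by rw [hR, hy]
  have hR1 : 1 ≤ R := by rw [hR']; exact Real.one_le_exp (Real.sqrt_nonneg _)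
  have hR0 : 0 < R := by linarith
  obtain ⟨D, hD⟩ : ∃ D : ℝ, D = 4 * (q + 1) * (H / R) := ⟨_, rfl⟩
  have hD0 : 0 < D := by rw [hD]; positivity
  have hq0 : (0 : ℝ) ≤ q := Nat.cast_nonneg q
  have hDX : 2 * (H : ℝ) ^ (19 / 20 : ℝ) ≤ D := by
    have h1 : (H : ℝ) ^ (19 / 20 : ℝ) ≤ H / R := by
      rw [hR', hHexp, ← Real.exp_mul, ← Real.exp_sub]
      apply Real.exp_le_exp.2
      linarith
    have h2 : 0 < (H : ℝ) / R := by positivity
    rw [hD]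
    nlinarith
  rw [← hR]
  set E : Set ℝ := {x | x ∈ AI (q + 2) H ∧ R < s * x ∧ BadW H (γ / 2) ε x} with hE
  have hEfin : E.Finite := (AI_finite q H).subset fun x hx => hx.1
  have hs1 : |(s : ℝ)| = 1 := by rcases hs with rfl | rfl <;> simp
  have hsR : (s : ℝ) * s = 1 := by rcases hs with rfl | rfl <;> norm_num
  set E₁ : Set ℝ := {x | x ∈ E ∧ |((Phi q x).1 : ℝ)| ≤ D} with hE₁
  set E₂ : Set ℝ := {x | x ∈ E ∧ D < |((Phi q x).1 : ℝ)|} with hE₂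
  have hE12 : E ⊆ E₁ ∪ E₂ := by
    intro x hx
    rcases le_or_gt |((Phi q x).1 : ℝ)| D with h | h
    · exact Or.inl ⟨hx, h⟩
    · exact Or.inr ⟨hx, h⟩
  -- the first set
  have hc1 : (E₁.ncard : ℝ) ≤ ((8 * (q + 1) * (H / R) + 1) * (2 * (H : ℝ) + 1) ^ (q + 1)) * (q + 2) := by
    obtain ⟨Y, hY⟩ : ∃ Y : ℕ, Y = ⌊D⌋₊ := ⟨_, rfl⟩
    have hYle : (Y : ℝ) ≤ D := by rw [hY]; exact Nat.floor_le hD0.le
    set T₁ : Finset (ℤ × (Fin (q + 1) → ℤ)) := Finset.Icc (-(Y : ℤ)) Y ×ˢ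
      Fintype.piFinset (fun _ : Fin (q + 1) => Finset.Icc (-(H : ℤ)) H) with hT₁
    have h1 := (fib_card (q := q) E₁ (Phi q) (T₁ : Set (ℤ × (Fin (q + 1) → ℤ))) (Finset.finite_toSet _)
      (fun x hx => ⟨hx.1.1.1, hx.1.1.2.1⟩) (by
        rintro x ⟨hx, hxD⟩
        rw [Finset.mem_coe, hT₁, mem_product, Fintype.mem_piFinset]
        constructor
        · rw [Finset.mem_Icc]
          have h4 : (((Phi q x).1.natAbs : ℕ) : ℝ) ≤ D := by
            rw [Nat.cast_natAbs]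
            push_cast
            exact hxD
          have h5 : (Phi q x).1.natAbs ≤ Y := by rw [hY]; exact Nat.le_floor h4
          omega
        · intro k
          rw [Finset.mem_Icc]
          simp only [Phi]
          have := abs_le.1 (hx.1.2.2 (q - k))
          constructor <;> omega)
      (fun x hx x' hx' h => minpoly_ext hx.1.1.1 hx'.1.1.1 hx.1.1.2.1 hx'.1.1.2.1 h)).2
    refine h1.trans ?_
    rw [Set.ncard_coe_finset, hT₁, card_product, card_box, Int.card_Icc]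
    have h2 : ((Y : ℤ) + 1 - -(Y : ℤ)).toNat = 2 * Y + 1 := by omega
    rw [h2]
    push_cast
    have h3 : 2 * (Y : ℝ) + 1 ≤ 8 * (q + 1) * (H / R) + 1 := by
      rw [hD] at hYle
      linarith
    exact mul_le_mul_of_nonneg_right (mul_le_mul_of_nonneg_right h3 (by positivity)) (by positivity)
  -- the second set
  let ext : (Fin (q + 1) → ℤ) → ℕ → ℝ := fun b k => if h : k < q + 1 then (b ⟨k, h⟩ : ℝ) else 0
  have hext : ∀ (b : Fin (q + 1) → ℤ) (k : Fin (q + 1)), ext b k = b k := by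
    intro b k
    simp only [ext]
    rw [dif_pos k.2]
  let Bd : (Fin (q + 1) → ℤ) → Set ℕ := fun b => {n : ℕ | ∃ x : ℝ, (n : ℝ) / 2 ≤ x ∧
    (x : ℂ) - psi q (ext b) x = n ∧ ∃ c u v : ℕ, 2 ≤ c ∧ (Real.log H) ^ (1 - γ / 2) ≤ (v : ℝ) - u ∧
          v * Real.log c ≤ (Real.log H) ^ (1 + γ / 2) ∧ ¬ EquiW x c u v (ε / 8)}
  have hcount := hX₂ H hHX2 Bd (by
    intro b hb hb0 N hN1 hN2
    have h1 := hX₁ H hHX1 (ext b) (by
      intro k hk
      have := hext b ⟨k, by omega⟩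
      simp only at this
      rw [this]
      exact hb _) (by
      have := hext b 0
      simp only [Fin.val_zero] at this
      rw [this]
      exact hb0) N hN1 hN2
    refine le_trans ?_ h1
    refine Nat.cast_le.2 (Set.ncard_le_ncard ?_ ((Set.finite_Icc 0 (2 * N)).subset
      fun n hn => ⟨Nat.zero_le _, hn.2.1⟩))
    rintro n ⟨a1, a2, x, a3, a4, a5⟩
    refine ⟨a1, a2, x, ?_, a4, a5⟩
    have : (N : ℝ) ≤ n := by exact_mod_cast a1.le
    have : (0 : ℝ) ≤ N := Nat.cast_nonneg N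
    linarith) (PhiS q s '' E₂) (by
    rintro _ ⟨x, ⟨⟨hx, hxR, hbad⟩, hxD⟩, rfl⟩
    have hx0 : x ≠ 0 := by
      rintro rfl
      rw [mul_zero] at hxR
      linarith
    have hcoef : ∀ k ≤ q, |(fun k => (s : ℝ) ^ k * (-((minpoly ℤ x).coeff (q - k) : ℝ))) k| ≤ H := by
      intro k _
      simp only
      rw [abs_mul, abs_pow, hs1, one_pow, one_mul, abs_neg]
      exact_mod_cast hx.2.2 (q - k)
    have hroot := root_eq hs hx.1 hx.2.1 hx0
    obtain ⟨w, hw⟩ : ∃ w : ℝ, w = s * x := ⟨_, rfl⟩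
    rw [← hw] at hroot hxR
    have hw1 : 1 ≤ w := by linarith
    have hw0 : 0 < w := by linarith
    have hpsi := psi_bd_real hcoef hw1
    have hwn : |w - ((s * (Phi q x).1 : ℤ) : ℝ)| ≤ (q + 1) * (H / w) := by
      have e1 : (w : ℂ) - ((s * (Phi q x).1 : ℤ) : ℂ) =
          psi q (fun k => (s : ℝ) ^ k * (-((minpoly ℤ x).coeff (q - k) : ℝ))) (w : ℂ) := by
        linear_combination hroot
      have e2 : |w - ((s * (Phi q x).1 : ℤ) : ℝ)| = ‖(w : ℂ) - ((s * (Phi q x).1 : ℤ) : ℂ)‖ := by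
        rw [← Real.norm_eq_abs, ← Complex.norm_real]
        push_cast
        rfl
      rw [e2, e1]
      exact hpsi
    have hHw : (q + 1) * ((H : ℝ) / w) ≤ D / 4 := by
      have : (H : ℝ) / w ≤ H / R := by
        apply div_le_div_of_nonneg_left hH0.le hR0 hxR.le
      rw [hD]
      nlinarith
    have hwn' := abs_le.1 (hwn.trans hHw)
    have habs : |((s * (Phi q x).1 : ℤ) : ℝ)| = |((Phi q x).1 : ℝ)| := by
      push_cast
      rw [abs_mul, hs1, one_mul]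
    have hnD : D < ((s * (Phi q x).1 : ℤ) : ℝ) := by
      rw [← habs] at hxD
      rcases lt_abs.1 hxD with h | h
      · exact h
      · linarith
    have hn1 : ((s * (Phi q x).1 : ℤ) : ℝ) ≤ H := by
      refine (le_abs_self _).trans ?_
      rw [habs]
      simp only [Phi]
      push_cast
      rw [abs_neg]
      exact_mod_cast hx.2.2 (q + 1)
    refine ⟨?_, ?_, ?_, ?_⟩
    · simp only [PhiS]
      have : (0 : ℝ) ≤ 2 * (H : ℝ) ^ (19 / 20 : ℝ) := by positivity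
      linarith
    · simp only [PhiS]
      rw [one_mul]
      exact hn1
    · intro k
      simp only [PhiS, Phi]
      push_cast
      rw [abs_mul, abs_pow, hs1, one_pow, one_mul, abs_neg, one_mul]
      exact_mod_cast hx.2.2 (q - k)
    · intro _ _
      simp only [PhiS]
      have h7 : (0 : ℝ) ≤ ((s * (Phi q x).1 : ℤ) : ℝ) := by linarith
      have h7' : 0 ≤ s * (Phi q x).1 := by exact_mod_cast h7
      have h8 : (((s * (Phi q x).1).toNat : ℕ) : ℤ) = s * (Phi q x).1 := Int.toNat_of_nonneg h7'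
      have h8' : (((s * (Phi q x).1).toNat : ℕ) : ℝ) = ((s * (Phi q x).1 : ℤ) : ℝ) := by exact_mod_cast h8
      obtain ⟨c, u, v, w1, w2, w3, w4⟩ := hbad
      refine ⟨w, by rw [h8']; linarith, ?_, c, u, v, w1, w2, w3, ?_⟩
      · have h9 : psi q (ext fun k => s ^ (k : ℕ) * (Phi q x).2 k) w =
            psi q (fun k => (s : ℝ) ^ k * (-((minpoly ℤ x).coeff (q - k) : ℝ))) w := by
          unfold psi
          refine sum_congr rfl fun k hk => ?_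
          rw [mem_range] at hk
          have := hext (fun k => s ^ (k : ℕ) * (Phi q x).2 k) ⟨k, hk⟩
          simp only at this
          rw [this]
          simp only [Phi]
          push_cast
          rfl
        rw [h9, hroot]
        have h10 : (((s * (Phi q x).1).toNat : ℕ) : ℂ) = ((s * (Phi q x).1 : ℤ) : ℂ) := by exact_mod_cast h8
        rw [h10]
      · intro hcon
        apply w4
        have huv : u ≤ v := by
          have e1 : (0 : ℝ) ≤ (Real.log H) ^ (1 - γ / 2) := by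
            rw [← hy]
            have : 0 < y := by linarith
            positivity
          have e2 : (u : ℝ) ≤ v := by linarith
          exact_mod_cast e2
        exact EquiW.sign hs huv hε (by rw [← hw]; exact hcon))
  obtain ⟨hTfin, hTle⟩ := hcount
  have hc2 : (E₂.ncard : ℝ) ≤ ((H : ℝ) ^ (q + 2) * Real.exp (-(Real.log H) ^ (11 / 20 : ℝ))) * (q + 2) := by
    have h1 := (fib_card (q := q) E₂ (PhiS q s) (PhiS q s '' E₂) hTfin
      (fun x hx => ⟨hx.1.1.1, hx.1.1.2.1⟩) (fun x hx => ⟨x, hx, rfl⟩)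
      (fun x hx x' hx' h => minpoly_ext hx.1.1.1 hx'.1.1.1 hx.1.1.2.1 hx'.1.1.2.1 (PhiS_inj hs h))).2
    refine h1.trans ?_
    gcongr
  have hfin1 : E₁.Finite := hEfin.subset fun x hx => hx.1
  have hfin2 : E₂.Finite := hEfin.subset fun x hx => hx.1
  have h1 := (Set.ncard_le_ncard hE12 (hfin1.union hfin2)).trans (Set.ncard_union_le _ _)
  have h2 : (E.ncard : ℝ) ≤ E₁.ncard + E₂.ncard := by exact_mod_cast h1
  linarith

lemma BadW.mono {H : ℕ} {γ γ' ε x : ℝ} (hH : 1 ≤ Real.log H) (hγ : γ ≤ γ') (h : BadW H γ ε x) :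
    BadW H γ' ε x := by
  obtain ⟨c, u, v, h1, h2, h3, h4⟩ := h
  refine ⟨c, u, v, h1, ?_, ?_, h4⟩
  · exact (Real.rpow_le_rpow_of_exponent_le hH (by linarith)).trans h2
  · exact h3.trans (Real.rpow_le_rpow_of_exponent_le hH (by linarith))

/-- **Almost all algebraic integers of degree `q + 2` and height at most `H`** -/
theorem ai : ∃ γ : ℝ, 0 < γ ∧ ∀ (q : ℕ) (ε : ℝ), 0 < ε → ∃ H₀ : ℕ, ∀ H : ℕ, H₀ ≤ H →
    (({x | x ∈ AI (q + 2) H ∧ BadW H γ ε x}.ncard : ℕ) : ℝ) ≤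
      Real.exp (-(√(Real.log H) / 2)) * ((AI (q + 2) H).ncard : ℝ) := by
  obtain ⟨γ₁, hγ1, _, hsmall⟩ := ai_small
  obtain ⟨γ₂, hγ2, _, hlarge⟩ := ai_large
  obtain ⟨γ, hγ⟩ : ∃ γ : ℝ, γ = min γ₁ γ₂ := ⟨_, rfl⟩
  have hγa : γ ≤ γ₁ := by rw [hγ]; exact min_le_left _ _
  have hγb : γ ≤ γ₂ := by rw [hγ]; exact min_le_right _ _
  refine ⟨γ, by rw [hγ]; exact lt_min hγ1 hγ2, ?_⟩
  intro q ε hε
  obtain ⟨H₁, hH₁⟩ := hsmall q ε hε
  obtain ⟨H₂, hH₂⟩ := hlarge q ε hε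
  obtain ⟨c, hc, H₃, hH₃⟩ := AI_many q
  have hlog : Tendsto (fun N : ℕ => Real.log N) atTop atTop :=
    Real.tendsto_log_atTop.comp tendsto_natCast_atTop_atTop
  obtain ⟨D, hD⟩ : ∃ D : ℝ, D = Real.log (50 * (q + 1) * (q + 2) * 3 ^ (q + 1) / c) := ⟨_, rfl⟩
  have ev1 : ∀ᶠ y : ℝ in atTop, (2 * D) * y ^ (0 : ℝ) ≤ y ^ (1 / 2 : ℝ) := ev_pow _ _ _ (by norm_num)
  have ev2 : ∀ᶠ y : ℝ in atTop, 1 * y ^ (1 / 2 : ℝ) ≤ y ^ (11 / 20 : ℝ) := ev_pow _ _ _ (by norm_num)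
  have ev3 : ∀ᶠ y : ℝ in atTop, 1 * y ^ (1 / 2 : ℝ) ≤ y ^ (1 : ℝ) := ev_pow _ _ _ (by norm_num)
  obtain ⟨H₄, hH₄⟩ := eventually_atTop.1 ((hlog.eventually ((ev1.and (ev2.and ev3)).and
    (eventually_ge_atTop 1))).and (eventually_ge_atTop 4))
  refine ⟨max (max H₁ H₂) (max H₃ H₄), ?_⟩
  intro H hH
  obtain ⟨⟨⟨q1, q2, q2'⟩, q3⟩, q4⟩ := hH₄ H (((le_max_right _ _).trans (le_max_right _ _)).trans hH)
  have b1 := hH₁ H (((le_max_left _ _).trans (le_max_left _ _)).trans hH)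
  have b2 := hH₂ H (((le_max_right _ _).trans (le_max_left _ _)).trans hH) 1 (Or.inl rfl)
  have b3 := hH₂ H (((le_max_right _ _).trans (le_max_left _ _)).trans hH) (-1) (Or.inr rfl)
  have b4 := hH₃ H (((le_max_left _ _).trans (le_max_right _ _)).trans hH)
  have hH0 : (0 : ℝ) < H := by exact_mod_cast (by omega : 0 < H)
  have hH1 : (1 : ℝ) ≤ H := by exact_mod_cast (by omega : 1 ≤ H)
  obtain ⟨y, hy⟩ : ∃ y : ℝ, y = Real.log H := ⟨_, rfl⟩
  have hHexp : (H : ℝ) = Real.exp y := by rw [hy, Real.exp_log hH0]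
  rw [← hy] at q1 q2 q2' q3
  rw [Real.rpow_zero, mul_one, ← Real.sqrt_eq_rpow] at q1
  rw [one_mul, ← Real.sqrt_eq_rpow] at q2 q2'
  rw [Real.rpow_one] at q2'
  obtain ⟨R, hR⟩ : ∃ R : ℝ, R = Real.exp √(Real.log H) := ⟨_, rfl⟩
  have hR' : R = Real.exp √y := by rw [hR, hy]
  have hR1 : 1 ≤ R := by rw [hR']; exact Real.one_le_exp (Real.sqrt_nonneg _)
  have hR0 : 0 < R := by linarith
  have hRinv : Real.exp (-√(Real.log H)) = R⁻¹ := by rw [hR, Real.exp_neg]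
  rw [← hR] at b1 b2 b3
  rw [hRinv] at b1
  set E : Set ℝ := {x | x ∈ AI (q + 2) H ∧ BadW H γ ε x} with hE
  set E₀ : Set ℝ := {x | x ∈ AI (q + 2) H ∧ |x| ≤ R ∧ BadW H γ₁ ε x} with hE₀
  set E₁ : Set ℝ := {x | x ∈ AI (q + 2) H ∧ R < ((1 : ℤ) : ℝ) * x ∧ BadW H γ₂ ε x} with hE₁
  set E₂ : Set ℝ := {x | x ∈ AI (q + 2) H ∧ R < ((-1 : ℤ) : ℝ) * x ∧ BadW H γ₂ ε x} with hE₂
  have hsub : E ⊆ (E₀ ∪ E₁) ∪ E₂ := by
    rintro x ⟨h1, h2⟩
    rcases le_or_gt |x| R with h | h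
    · exact Or.inl (Or.inl ⟨h1, h, h2.mono (by rw [← hy]; exact q3) hγa⟩)
    · have h3 := h2.mono (γ' := γ₂) (by rw [← hy]; exact q3) hγb
      rcases lt_abs.1 h with h | h
      · exact Or.inl (Or.inr ⟨h1, by push_cast; rw [one_mul]; exact h, h3⟩)
      · exact Or.inr ⟨h1, by push_cast; rw [neg_one_mul]; exact h, h3⟩
  have hf : ∀ P : ℝ → Prop, {x | x ∈ AI (q + 2) H ∧ P x}.Finite := fun P =>
    (AI_finite q H).subset fun x hx => hx.1
  have h1 := (Set.ncard_le_ncard hsub (((hf _).union (hf _)).union (hf _))).trans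
    ((Set.ncard_union_le _ _).trans (Nat.add_le_add_right (Set.ncard_union_le _ _) _))
  have h2 : (E.ncard : ℝ) ≤ E₀.ncard + E₁.ncard + E₂.ncard := by exact_mod_cast h1
  refine h2.trans ?_
  -- the numbers
  have hq0 : (0 : ℝ) ≤ q := Nat.cast_nonneg q
  have hHR : R ≤ H := by
    rw [hR', hHexp]
    exact Real.exp_le_exp.2 q2'
  have hHR1 : 1 ≤ (H : ℝ) / R := by rwa [le_div_iff₀ hR0, one_mul]
  have h3H : 2 * (H : ℝ) + 1 ≤ 3 * H := by linarith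
  have hexp : Real.exp (-(Real.log H) ^ (11 / 20 : ℝ)) ≤ R⁻¹ := by
    rw [← hRinv, ← hy]
    apply Real.exp_le_exp.2
    linarith
  obtain ⟨Z, hZ⟩ : ∃ Z : ℝ, Z = (H : ℝ) ^ (q + 2) * R⁻¹ := ⟨_, rfl⟩
  have hZ0 : 0 ≤ Z := by rw [hZ]; positivity
  have h3q : (3 : ℝ) ^ q ≤ 3 ^ (q + 1) := pow_le_pow_right₀ (by norm_num) (by omega)
  have h3q1 : (1 : ℝ) ≤ 3 ^ (q + 1) := one_le_pow₀ (by norm_num)
  have g1 : (E₀.ncard : ℝ) ≤ (q + 1) * (q + 2) * 3 ^ (q + 1) * Z := by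
    refine b1.trans ?_
    calc (2 * (H : ℝ) + 1) ^ q * ((H ^ 2 * R⁻¹) * (q + 2)) ≤ (3 * (H : ℝ)) ^ q * ((H ^ 2 * R⁻¹) * (q + 2)) := by
          gcongr
      _ = (q + 2) * 3 ^ q * Z := by rw [mul_pow, hZ, pow_add (H : ℝ) q 2]; ring
      _ ≤ (q + 2) * 3 ^ (q + 1) * Z := by gcongr
      _ ≤ ((q + 1) * ((q + 2) * 3 ^ (q + 1))) * Z := by
          apply mul_le_mul_of_nonneg_right _ hZ0
          exact le_mul_of_one_le_left (by positivity) (by linarith)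
      _ = _ := by ring
  have g2 : ((8 * ((q : ℝ) + 1) * (H / R) + 1) * (2 * (H : ℝ) + 1) ^ (q + 1)) * (q + 2) +
        ((H : ℝ) ^ (q + 2) * Real.exp (-(Real.log H) ^ (11 / 20 : ℝ))) * (q + 2) ≤
        10 * ((q + 1) * (q + 2) * 3 ^ (q + 1) * Z) := by
    have e1 : (8 * ((q : ℝ) + 1) * (H / R) + 1) ≤ 9 * (q + 1) * (H / R) := by nlinarith
    have e2 : ((8 * ((q : ℝ) + 1) * (H / R) + 1) * (2 * (H : ℝ) + 1) ^ (q + 1)) * (q + 2) ≤
        9 * ((q + 1) * (q + 2) * 3 ^ (q + 1) * Z) := by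
      calc ((8 * ((q : ℝ) + 1) * (H / R) + 1) * (2 * (H : ℝ) + 1) ^ (q + 1)) * (q + 2) ≤
            ((9 * (q + 1) * (H / R)) * (3 * (H : ℝ)) ^ (q + 1)) * (q + 2) := by gcongr
        _ = _ := by
            rw [mul_pow, hZ, div_eq_mul_inv, show q + 2 = (q + 1) + 1 by ring, pow_succ (H : ℝ) (q + 1)]
            ring
    have e3 : ((H : ℝ) ^ (q + 2) * Real.exp (-(Real.log H) ^ (11 / 20 : ℝ))) * (q + 2) ≤
        (q + 1) * (q + 2) * 3 ^ (q + 1) * Z := by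
      calc ((H : ℝ) ^ (q + 2) * Real.exp (-(Real.log H) ^ (11 / 20 : ℝ))) * (q + 2) ≤
            ((H : ℝ) ^ (q + 2) * R⁻¹) * (q + 2) := by gcongr
        _ = 1 * (q + 2) * 1 * Z := by rw [hZ]; ring
        _ ≤ (q + 1) * (q + 2) * 3 ^ (q + 1) * Z := by
            gcongr
            linarith
    linarith
  have g3 : (E₀.ncard : ℝ) + E₁.ncard + E₂.ncard ≤ 50 * (q + 1) * (q + 2) * 3 ^ (q + 1) * Z := by
    have : 0 ≤ (q + 1) * (q + 2) * 3 ^ (q + 1) * Z := by positivity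
    linarith
  refine g3.trans ?_
  have g4 : 50 * (q + 1) * (q + 2) * 3 ^ (q + 1) * R⁻¹ ≤ Real.exp (-(√(Real.log H) / 2)) * c := by
    have e1 : 50 * ((q : ℝ) + 1) * (q + 2) * 3 ^ (q + 1) / c ≤ Real.exp (√y / 2) := by
      rw [← Real.exp_log (show 0 < 50 * ((q : ℝ) + 1) * (q + 2) * 3 ^ (q + 1) / c by positivity), ← hD]
      apply Real.exp_le_exp.2
      linarith
    rw [div_le_iff₀ hc] at e1
    rw [hR', ← Real.exp_neg, ← hy]
    calc 50 * ((q : ℝ) + 1) * (q + 2) * 3 ^ (q + 1) * Real.exp (-√y) ≤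
          (Real.exp (√y / 2) * c) * Real.exp (-√y) := by gcongr
      _ = (Real.exp (√y / 2) * Real.exp (-√y)) * c := by ring
      _ = _ := by
          rw [← Real.exp_add]
          ring_nf
  calc 50 * (q + 1) * (q + 2) * 3 ^ (q + 1) * Z = (50 * (q + 1) * (q + 2) * 3 ^ (q + 1) * R⁻¹) *
        (H : ℝ) ^ (q + 2) := by rw [hZ]; ring
    _ ≤ (Real.exp (-(√(Real.log H) / 2)) * c) * (H : ℝ) ^ (q + 2) := by gcongr
    _ = Real.exp (-(√(Real.log H) / 2)) * (c * (H : ℝ) ^ (q + 2)) := by ring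
    _ ≤ _ := by gcongr

end Pool.Agent.H17.GS
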