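import Pool.Agent.H17.GS.Fib

/-!
# Counting the exceptional tuples of coefficients (helper17)
-/

set_option autoImplicit false

namespace Pool.Agent.H17.GS

open Finset Filter Topology

lemma card_box (q : ℕ) (L : ℕ) :
    (Fintype.piFinset (fun _ : Fin (q + 1) => Finset.Icc (-(L : ℤ)) L)).card = (2 * L + 1) ^ (q + 1) := by
  rw [Fintype.card_piFinset]
  simp only [Int.card_Icc, prod_const, card_univ, Fintype.card_fin]
  congr 1
  omega

lemma card_box2 (q : ℕ) (L M : ℕ) :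
    (Fintype.piFinset (fun k : Fin (q + 1) => if k = 0 then Finset.Icc (-(M : ℤ)) M else
      Finset.Icc (-(L : ℤ)) L)).card = (2 * M + 1) * (2 * L + 1) ^ q := by
  rw [Fintype.card_piFinset, Fin.prod_univ_succ]
  have h0 : ∀ k : Fin q, (if k.succ = 0 then Finset.Icc (-(M : ℤ)) M else Finset.Icc (-(L : ℤ)) L) =
      Finset.Icc (-(L : ℤ)) L := fun k => if_neg (Fin.succ_ne_zero k)
  simp only [h0, if_pos, Int.card_Icc, prod_const, card_univ, Fintype.card_fin]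
  congr 1
  · omega
  · congr 1
    omega

/-- the number of exceptional `n` for given other coefficients -/
lemma dyadic (X : ℕ) (C E : ℝ) (hX : 1 ≤ X) (hC : 1 ≤ C) (hE : 0 ≤ E) (B : Set ℕ)
    (hB : ∀ N : ℕ, (X : ℝ) ^ (19 / 20 : ℝ) ≤ N → (N : ℝ) ≤ C * X →
      (({n : ℕ | N < n ∧ n ≤ 2 * N ∧ n ∈ B}.ncard : ℕ) : ℝ) ≤ E) (S : Finset ℕ)
    (hS : ∀ n ∈ S, n ∈ B ∧ 2 * (X : ℝ) ^ (19 / 20 : ℝ) < n ∧ (n : ℝ) ≤ C * X) :
    (S.card : ℝ) ≤ (2 * Real.log (C * X) + 1) * E := by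
  classical
  have hX1 : (1 : ℝ) ≤ X := by exact_mod_cast hX
  have hCX : 1 ≤ C * X := by nlinarith
  obtain ⟨Km, hKm⟩ : ∃ Km : ℕ, Km = ⌊2 * Real.log (C * X)⌋₊ + 1 := ⟨_, rfl⟩
  have hlog0 : 0 ≤ Real.log (C * X) := Real.log_nonneg hCX
  have hsub : S ⊆ (range Km).biUnion fun k => S.filter fun n => 2 ^ k < n ∧ n ≤ 2 * 2 ^ k := by
    intro n hn
    obtain ⟨h1, h2, h3⟩ := hS n hn
    have hn2 : 2 ≤ n := by
      have h4 : (1 : ℝ) ≤ (X : ℝ) ^ (19 / 20 : ℝ) := Real.one_le_rpow hX1 (by norm_num)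
      have h5 : (2 : ℝ) < n := by linarith
      exact_mod_cast h5.le
    obtain ⟨k, hk⟩ : ∃ k : ℕ, k = Nat.log 2 (n - 1) := ⟨_, rfl⟩
    have h5 : 2 ^ k ≤ n - 1 := by rw [hk]; exact Nat.pow_log_le_self 2 (by omega)
    have h6 : n - 1 < 2 ^ (k + 1) := by rw [hk]; exact Nat.lt_pow_succ_log_self (by norm_num) _
    rw [mem_biUnion]
    refine ⟨k, ?_, ?_⟩
    · rw [mem_range, hKm]
      have h7 : (2 : ℝ) ^ k ≤ C * X := by
        have : ((2 ^ k : ℕ) : ℝ) ≤ n := by exact_mod_cast (by omega : 2 ^ k ≤ n)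
        push_cast at this
        linarith
      have h8 : (k : ℝ) ≤ 2 * Real.log (C * X) := by
        have h9 := Real.log_le_log (by positivity) h7
        rw [Real.log_pow] at h9
        have h10 := Real.log_two_gt_d9
        nlinarith [(Nat.cast_nonneg k : (0 : ℝ) ≤ k)]
      have := Nat.le_floor h8
      omega
    · rw [mem_filter]
      refine ⟨hn, by omega, ?_⟩
      rw [pow_succ] at h6
      omega
  have hcard : ∀ k ∈ range Km, (((S.filter fun n => 2 ^ k < n ∧ n ≤ 2 * 2 ^ k).card : ℕ) : ℝ) ≤ E := by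
    intro k _
    rcases (S.filter fun n => 2 ^ k < n ∧ n ≤ 2 * 2 ^ k).eq_empty_or_nonempty with h | ⟨n0, hn0⟩
    · rw [h]; simpa using hE
    · rw [mem_filter] at hn0
      obtain ⟨h1, h2, h3⟩ := hn0
      obtain ⟨g1, g2, g3⟩ := hS n0 h1
      have h4 : (X : ℝ) ^ (19 / 20 : ℝ) ≤ ((2 ^ k : ℕ) : ℝ) := by
        have : (n0 : ℝ) ≤ ((2 * 2 ^ k : ℕ) : ℝ) := by exact_mod_cast h3
        push_cast at this ⊢
        linarith
      have h5 : ((2 ^ k : ℕ) : ℝ) ≤ C * X := by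
        have : ((2 ^ k : ℕ) : ℝ) ≤ n0 := by exact_mod_cast h2.le
        linarith
      have h6 := hB (2 ^ k) h4 h5
      refine le_trans ?_ h6
      rw [← Set.ncard_coe_finset]
      refine Nat.cast_le.2 (Set.ncard_le_ncard ?_ ((Set.finite_Icc 0 (2 * 2 ^ k)).subset
        fun n hn => ⟨Nat.zero_le _, hn.2.1⟩))
      intro n hn
      rw [Finset.mem_coe, mem_filter] at hn
      exact ⟨hn.2.1, hn.2.2, (hS n hn.1).1⟩
  have h1 : (S.card : ℝ) ≤ ∑ k ∈ range Km, (((S.filter fun n => 2 ^ k < n ∧ n ≤ 2 * 2 ^ k).card : ℕ) : ℝ) := by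
    have := (card_le_card hsub).trans card_biUnion_le
    exact_mod_cast this
  refine h1.trans ((sum_le_sum hcard).trans ?_)
  rw [sum_const, card_range, nsmul_eq_mul]
  apply mul_le_mul_of_nonneg_right _ hE
  rw [hKm]
  push_cast
  have := Nat.floor_le (by positivity : 0 ≤ 2 * Real.log (C * X))
  linarith

/-- **The number of exceptional tuples** -/
theorem count (q : ℕ) (C γ : ℝ) (hC : 1 ≤ C) (hγ0 : 0 < γ) (hγ1 : γ ≤ 1 / 40) : ∃ X₀ : ℕ, ∀ X : ℕ, X₀ ≤ X →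
    ∀ Bd : (Fin (q + 1) → ℤ) → Set ℕ,
    (∀ b : Fin (q + 1) → ℤ, (∀ k, |(b k : ℝ)| ≤ C * X) → X * Real.exp (-(Real.log X) ^ (1 - 4 * γ)) ≤ |(b 0 : ℝ)| →
      ∀ N : ℕ, (X : ℝ) ^ (19 / 20 : ℝ) ≤ N → (N : ℝ) ≤ C * X →
      (({n : ℕ | N < n ∧ n ≤ 2 * N ∧ n ∈ Bd b}.ncard : ℕ) : ℝ) ≤ N * Real.exp (-(Real.log N) ^ (3 / 5 : ℝ))) →
    ∀ T : Set (ℤ × (Fin (q + 1) → ℤ)), (∀ t ∈ T, -(2 * (X : ℝ) ^ (19 / 20 : ℝ)) ≤ t.1 ∧ (t.1 : ℝ) ≤ C * X ∧
      (∀ k, |(t.2 k : ℝ)| ≤ C * X) ∧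
      (X * Real.exp (-(Real.log X) ^ (1 - 4 * γ)) ≤ |(t.2 0 : ℝ)| → 2 * (X : ℝ) ^ (19 / 20 : ℝ) < t.1 →
        t.1.toNat ∈ Bd t.2)) →
    T.Finite ∧ ((T.ncard : ℕ) : ℝ) ≤ (X : ℝ) ^ (q + 2) * Real.exp (-(Real.log X) ^ (11 / 20 : ℝ)) := by
  classical
  have hC0 : 0 < C := by linarith
  have hlog : Tendsto (fun N : ℕ => Real.log N) atTop atTop :=
    Real.tendsto_log_atTop.comp tendsto_natCast_atTop_atTop
  have ev1 : ∀ᶠ y : ℝ in atTop, 3 * y ^ (11 / 20 : ℝ) ≤ y ^ (3 / 5 : ℝ) := ev_pow _ _ _ (by norm_num)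
  have ev2 : ∀ᶠ y : ℝ in atTop, 3 * y ^ (11 / 20 : ℝ) ≤ y ^ (1 - 4 * γ) := ev_pow _ _ _ (by linarith)
  have ev3 : ∀ᶠ y : ℝ in atTop, 40 * y ^ (11 / 20 : ℝ) ≤ y ^ (1 : ℝ) := ev_pow _ _ _ (by norm_num)
  have ev3' : ∀ᶠ y : ℝ in atTop, 2 * y ^ (1 - 4 * γ) ≤ y ^ (1 : ℝ) := ev_pow _ _ _ (by linarith)
  obtain ⟨D, hD⟩ : ∃ D : ℝ, D = Real.log (3 * (3 * C) ^ (q + 2) * (8 * C + 8)) := ⟨_, rfl⟩
  have ev4 : ∀ᶠ y : ℝ in atTop, D * y ^ (0 : ℝ) ≤ y ^ (11 / 20 : ℝ) := ev_pow _ _ _ (by norm_num)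
  have ev5 : ∀ᶠ y : ℝ in atTop, y ≤ Real.exp (y ^ (11 / 20 : ℝ) / 2) := by
    have t1 := Real.tendsto_pow_mul_exp_neg_atTop_nhds_zero 4
    have t2 := t1.comp (tendsto_rpow_atTop (by norm_num : (0 : ℝ) < 1 / 2))
    have ev := ev_pow (1 / 2) (11 / 20) 2 (by norm_num)
    have t3 := t2.eventually (ge_mem_nhds (show (0 : ℝ) < 1 by norm_num))
    filter_upwards [t3, eventually_ge_atTop 1, ev] with y hy hy1 hy2
    have hy0 : 0 < y := by linarith
    simp only [Function.comp] at hy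
    have f1 : (y ^ (1 / 2 : ℝ)) ^ 4 = y ^ 2 := by
      rw [← Real.rpow_natCast, ← Real.rpow_mul hy0.le, ← Real.rpow_natCast]
      norm_num
    rw [f1, Real.exp_neg, ← div_eq_mul_inv, div_le_one (Real.exp_pos _)] at hy
    have f2 : y ≤ y ^ 2 := by nlinarith
    refine f2.trans (hy.trans (Real.exp_le_exp.2 (by linarith)))
  obtain ⟨X₀, hX₀⟩ := eventually_atTop.1 ((hlog.eventually (((ev1.and ev2).and (ev3.and ev4)).and
    ((ev5.and ev3').and (eventually_ge_atTop (max 10 (Real.log C)))))).and (eventually_ge_atTop 2))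
  refine ⟨X₀, ?_⟩
  intro X hX Bd hBd T hT
  obtain ⟨⟨⟨⟨q1, q2⟩, q3, q4⟩, ⟨q5, q3'⟩, q6⟩, q7⟩ := hX₀ X hX
  have hX0 : (0 : ℝ) < X := by exact_mod_cast (by omega : 0 < X)
  have hX1 : (1 : ℝ) ≤ X := by exact_mod_cast (by omega : 1 ≤ X)
  set y : ℝ := Real.log X with hy
  have hXexp : (X : ℝ) = Real.exp y := by rw [hy, Real.exp_log hX0]
  have hy10 : 10 ≤ y := (le_max_left _ _).trans q6
  have hyC : Real.log C ≤ y := (le_max_right _ _).trans q6
  have hy0 : 0 < y := by linarith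
  rw [Real.rpow_one] at q3 q3'
  rw [Real.rpow_zero, mul_one] at q4
  obtain ⟨g, hg⟩ : ∃ g : ℝ, g = Real.exp (-y ^ (11 / 20 : ℝ)) := ⟨_, rfl⟩
  have hg0 : 0 < g := by rw [hg]; exact Real.exp_pos _
  have hYle : y ^ (11 / 20 : ℝ) ≥ 0 := by positivity
  -- the boxes
  obtain ⟨L, hL⟩ : ∃ L : ℕ, L = ⌊C * X⌋₊ := ⟨_, rfl⟩
  have hCX0 : 0 ≤ C * X := by positivity
  have hLle : (L : ℝ) ≤ C * X := by rw [hL]; exact Nat.floor_le hCX0
  obtain ⟨M, hM⟩ : ∃ M : ℕ, M = ⌊(X : ℝ) * Real.exp (-y ^ (1 - 4 * γ))⌋₊ := ⟨_, rfl⟩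
  have hMle : (M : ℝ) ≤ X * Real.exp (-y ^ (1 - 4 * γ)) := by rw [hM]; exact Nat.floor_le (by positivity)
  obtain ⟨Y, hY⟩ : ∃ Y : ℕ, Y = ⌊2 * (X : ℝ) ^ (19 / 20 : ℝ)⌋₊ := ⟨_, rfl⟩
  have hYle' : (Y : ℝ) ≤ 2 * (X : ℝ) ^ (19 / 20 : ℝ) := by rw [hY]; exact Nat.floor_le (by positivity)
  have h2L : ((2 * L + 1 : ℕ) : ℝ) ≤ 3 * C * X := by
    push_cast
    have : 1 ≤ C * X := by nlinarith
    linarith
  set Bx : Finset (Fin (q + 1) → ℤ) := Fintype.piFinset (fun _ : Fin (q + 1) => Finset.Icc (-(L : ℤ)) L) with hBx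
  have hBxc : (Bx.card : ℝ) ≤ (3 * C * X) ^ (q + 1) := by
    rw [hBx, card_box]
    rw [Nat.cast_pow]
    exact pow_le_pow_left₀ (by positivity) h2L _
  set T1 : Finset (ℤ × (Fin (q + 1) → ℤ)) := Finset.Icc (-(Y : ℤ)) Y ×ˢ Bx with hT1
  set T2 : Finset (ℤ × (Fin (q + 1) → ℤ)) := Finset.Icc (1 : ℤ) L ×ˢ
    (Fintype.piFinset (fun k : Fin (q + 1) => if k = 0 then Finset.Icc (-(M : ℤ)) M else
      Finset.Icc (-(L : ℤ)) L)) with hT2
  let Sb : (Fin (q + 1) → ℤ) → Finset ℕ := fun b =>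
    if X * Real.exp (-y ^ (1 - 4 * γ)) ≤ |(b 0 : ℝ)| ∧ (∀ k, |(b k : ℝ)| ≤ C * X) then
      (range (L + 1)).filter fun n => 2 * (X : ℝ) ^ (19 / 20 : ℝ) < n ∧ n ∈ Bd b else ∅
  set T3 : Finset (ℤ × (Fin (q + 1) → ℤ)) := Bx.biUnion fun b => (Sb b).image (fun n : ℕ => ((n : ℤ), b)) with hT3
  have hmemBx : ∀ b : Fin (q + 1) → ℤ, (∀ k, |(b k : ℝ)| ≤ C * X) → ∀ k, -(L : ℤ) ≤ b k ∧ b k ≤ L := by
    intro b hb k
    have h1 := hb k
    have h2 : |b k| ≤ (L : ℤ) := by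
      have h3 : ((b k).natAbs : ℝ) ≤ C * X := by
        rw [Nat.cast_natAbs]
        push_cast
        exact h1
      have h4 : (b k).natAbs ≤ L := by rw [hL]; exact Nat.le_floor h3
      rw [Int.abs_eq_natAbs]
      exact_mod_cast h4
    exact abs_le.1 h2
  have hcover : T ⊆ ((T1 ∪ T2 ∪ T3 : Finset (ℤ × (Fin (q + 1) → ℤ))) : Set (ℤ × (Fin (q + 1) → ℤ))) := by
    rintro ⟨n, b⟩ ht
    obtain ⟨h0, h1, h2, h3⟩ := hT _ ht
    simp only at h0 h1 h2 h3
    have hb := hmemBx b h2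
    have hbB : b ∈ Bx := by
      rw [hBx, Fintype.mem_piFinset]
      intro k
      rw [Finset.mem_Icc]
      exact hb k
    have hnL : n ≤ L := by
      rw [hL]
      have h4 : ((n.toNat : ℕ) : ℝ) ≤ C * X := by
        rcases le_total 0 n with h | h
        · have : ((n.toNat : ℕ) : ℝ) = (n : ℝ) := by
            have := Int.toNat_of_nonneg h
            exact_mod_cast this
          rw [this]; exact h1
        · rw [Int.toNat_of_nonpos h]; simpa using hCX0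
      have h5 := Nat.le_floor h4
      omega
    rw [Finset.mem_coe, mem_union, mem_union]
    by_cases hc1 : 2 * (X : ℝ) ^ (19 / 20 : ℝ) < n
    · by_cases hc2 : X * Real.exp (-y ^ (1 - 4 * γ)) ≤ |(b 0 : ℝ)|
      · right
        rw [hT3, mem_biUnion]
        refine ⟨b, hbB, ?_⟩
        rw [mem_image]
        have hn0 : 0 ≤ n := by
          have h4 : (0 : ℝ) < n := lt_of_le_of_lt (by positivity) hc1
          exact_mod_cast h4.le
        have hn1 : ((n.toNat : ℕ) : ℤ) = n := Int.toNat_of_nonneg hn0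
        have hn2 : ((n.toNat : ℕ) : ℝ) = (n : ℝ) := by exact_mod_cast hn1
        refine ⟨n.toNat, ?_, by rw [hn1]⟩
        simp only [Sb]
        rw [if_pos ⟨hc2, h2⟩, mem_filter, mem_range]
        exact ⟨by omega, by rw [hn2]; exact hc1, h3 hc2 hc1⟩
      · left; right
        push Not at hc2
        rw [hT2, mem_product, Finset.mem_Icc, Fintype.mem_piFinset]
        have hn0 : 1 ≤ n := by
          have h4 : (0 : ℝ) < n := lt_of_le_of_lt (by positivity) hc1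
          have h5 : 0 < n := by exact_mod_cast h4
          omega
        refine ⟨⟨hn0, hnL⟩, fun k => ?_⟩
        by_cases hk : k = 0
        · rw [if_pos hk, Finset.mem_Icc, hk]
          have h4 : ((b 0).natAbs : ℝ) ≤ X * Real.exp (-y ^ (1 - 4 * γ)) := by
            rw [Nat.cast_natAbs]
            push_cast
            exact hc2.le
          have h5 : (b 0).natAbs ≤ M := by rw [hM]; exact Nat.le_floor h4
          have h6 : |b 0| ≤ (M : ℤ) := by rw [Int.abs_eq_natAbs]; exact_mod_cast h5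
          exact abs_le.1 h6
        · rw [if_neg hk, Finset.mem_Icc]
          exact hb k
    · left; left
      push Not at hc1
      rw [hT1, mem_product, Finset.mem_Icc]
      refine ⟨?_, hbB⟩
      have h4 : ((n.natAbs : ℕ) : ℝ) ≤ 2 * (X : ℝ) ^ (19 / 20 : ℝ) := by
        rw [Nat.cast_natAbs]
        push_cast
        exact abs_le.2 ⟨h0, hc1⟩
      have h5 : n.natAbs ≤ Y := by rw [hY]; exact Nat.le_floor h4
      simp only
      omega
  have hfin : T.Finite := (Finset.finite_toSet _).subset hcover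
  refine ⟨hfin, ?_⟩
  -- the constant
  have hD0 : 0 < 3 * (3 * C) ^ (q + 2) * (8 * C + 8) := by positivity
  have hconst : (3 * C) ^ (q + 2) * (8 * C + 8) * g ≤ 1 / 3 := by
    have h1 : Real.exp D ≤ Real.exp (y ^ (11 / 20 : ℝ)) := Real.exp_le_exp.2 q4
    rw [hD, Real.exp_log hD0] at h1
    have h2 : Real.exp (y ^ (11 / 20 : ℝ)) * g = 1 := by
      rw [hg, ← Real.exp_add, add_neg_cancel, Real.exp_zero]
    have h3 : 3 * (3 * C) ^ (q + 2) * (8 * C + 8) * g ≤ 1 := by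
      calc 3 * (3 * C) ^ (q + 2) * (8 * C + 8) * g ≤ Real.exp (y ^ (11 / 20 : ℝ)) * g := by gcongr
        _ = 1 := h2
    linarith
  have hXq : (3 * C * X) ^ (q + 1) = (3 * C) ^ (q + 1) * (X : ℝ) ^ (q + 1) := mul_pow _ _ _
  have h3C : (1 : ℝ) ≤ 3 * C := by linarith
  have hpow12 : (3 * C) ^ (q + 1) ≤ (3 * C) ^ (q + 2) := pow_le_pow_right₀ h3C (by omega)
  have hpow02 : (3 * C) ^ q ≤ (3 * C) ^ (q + 2) := pow_le_pow_right₀ h3C (by omega)
  have hfinal : ∀ Z : ℝ, Z ≤ (3 * C) ^ (q + 2) * (8 * C + 8) * (X : ℝ) ^ (q + 2) * (g * g) →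
      Z ≤ (X : ℝ) ^ (q + 2) * g * (1 / 3) := by
    intro Z hZ
    refine hZ.trans ?_
    calc (3 * C) ^ (q + 2) * (8 * C + 8) * (X : ℝ) ^ (q + 2) * (g * g) =
          (X : ℝ) ^ (q + 2) * g * ((3 * C) ^ (q + 2) * (8 * C + 8) * g) := by ring
      _ ≤ (X : ℝ) ^ (q + 2) * g * (1 / 3) := by gcongr
  -- first set
  have hc1 : (T1.card : ℝ) ≤ (X : ℝ) ^ (q + 2) * g * (1 / 3) := by
    apply hfinal
    have hYc : (((Finset.Icc (-(Y : ℤ)) Y).card : ℕ) : ℝ) = 2 * Y + 1 := by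
      rw [Int.card_Icc]
      have : ((Y : ℤ) + 1 - -(Y : ℤ)).toNat = 2 * Y + 1 := by omega
      rw [this]; push_cast; rfl
    rw [hT1, card_product, Nat.cast_mul, hYc]
    have h1 : (X : ℝ) ^ (19 / 20 : ℝ) ≤ X * (g * g) := by
      rw [hg, ← Real.exp_add, hXexp, ← Real.exp_mul, ← Real.exp_add]
      apply Real.exp_le_exp.2
      linarith
    have h2 : (1 : ℝ) ≤ (X : ℝ) ^ (19 / 20 : ℝ) := Real.one_le_rpow hX1 (by norm_num)
    calc (2 * (Y : ℝ) + 1) * (Bx.card : ℝ) ≤ (5 * (X * (g * g))) * (3 * C * X) ^ (q + 1) :=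
          mul_le_mul (by linarith) hBxc (Nat.cast_nonneg _) (by positivity)
      _ = 5 * (3 * C) ^ (q + 1) * (X : ℝ) ^ (q + 2) * (g * g) := by
          rw [hXq]; ring
      _ ≤ (8 * C + 8) * (3 * C) ^ (q + 2) * (X : ℝ) ^ (q + 2) * (g * g) := by
          gcongr
          linarith
      _ = _ := by ring
  -- second set
  have hc2 : (T2.card : ℝ) ≤ (X : ℝ) ^ (q + 2) * g * (1 / 3) := by
    apply hfinal
    rw [hT2, card_product, card_box2, Int.card_Icc, show ((L : ℤ) + 1 - 1).toNat = L by omega]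
    push_cast
    have h1 : Real.exp (-y ^ (1 - 4 * γ)) ≤ g * g := by
      rw [hg, ← Real.exp_add]
      apply Real.exp_le_exp.2
      linarith
    have h3 : 1 ≤ X * Real.exp (-y ^ (1 - 4 * γ)) := by
      rw [hXexp, ← Real.exp_add]
      apply Real.one_le_exp
      have : 0 ≤ y ^ (1 - 4 * γ) := by positivity
      linarith
    have h2 : 2 * (M : ℝ) + 1 ≤ 3 * (X * (g * g)) := by
      calc 2 * (M : ℝ) + 1 ≤ 3 * (X * Real.exp (-y ^ (1 - 4 * γ))) := by linarith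
        _ ≤ 3 * (X * (g * g)) := by gcongr
    have h4 : (2 * (L : ℝ) + 1) ^ q ≤ (3 * C * X) ^ q := by
      apply pow_le_pow_left₀ (by positivity)
      push_cast at h2L
      exact h2L
    have h5 : (L : ℝ) ≤ 2 * C * X := by
      have : 1 ≤ C * X := by nlinarith
      linarith
    calc (L : ℝ) * ((2 * (M : ℝ) + 1) * (2 * (L : ℝ) + 1) ^ q) ≤
          (2 * C * X) * ((3 * (X * (g * g))) * (3 * C * X) ^ q) := by gcongr
      _ = (6 * C) * (3 * C) ^ q * (X : ℝ) ^ (q + 2) * (g * g) := by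
          rw [mul_pow (3 * C) (X : ℝ)]; ring
      _ ≤ (8 * C + 8) * (3 * C) ^ (q + 2) * (X : ℝ) ^ (q + 2) * (g * g) := by
          gcongr
          linarith
      _ = _ := by ring
  -- third set
  have hc3 : (T3.card : ℝ) ≤ (X : ℝ) ^ (q + 2) * g * (1 / 3) := by
    apply hfinal
    have h1 : ∀ b ∈ Bx, (((Sb b).card : ℕ) : ℝ) ≤
        (2 * Real.log (C * X) + 1) * (C * X * Real.exp (-(19 / 20 * y ^ (3 / 5 : ℝ)))) := by
      intro b _
      have hnn : 0 ≤ (2 * Real.log (C * X) + 1) * (C * X * Real.exp (-(19 / 20 * y ^ (3 / 5 : ℝ)))) := by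
        have : 0 ≤ Real.log (C * X) := Real.log_nonneg (by nlinarith)
        positivity
      simp only [Sb]
      split_ifs with hcond
      · refine dyadic X C _ (by omega) hC (by positivity) (Bd b) ?_ _ ?_
        · intro N hN1 hN2
          refine (hBd b hcond.2 hcond.1 N hN1 hN2).trans ?_
          have hN0 : (0 : ℝ) < N := lt_of_lt_of_le (by positivity) hN1
          have e1 : 19 / 20 * y ≤ Real.log N := by
            have h1 := Real.log_le_log (by positivity) hN1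
            rwa [Real.log_rpow hX0] at h1
          have e2 : 19 / 20 * y ^ (3 / 5 : ℝ) ≤ (Real.log N) ^ (3 / 5 : ℝ) := by
            calc 19 / 20 * y ^ (3 / 5 : ℝ) ≤ (19 / 20 : ℝ) ^ (3 / 5 : ℝ) * y ^ (3 / 5 : ℝ) := by
                  gcongr
                  calc (19 / 20 : ℝ) = (19 / 20 : ℝ) ^ (1 : ℝ) := (Real.rpow_one _).symm
                    _ ≤ (19 / 20 : ℝ) ^ (3 / 5 : ℝ) :=
                      Real.rpow_le_rpow_of_exponent_ge (by norm_num) (by norm_num) (by norm_num)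
              _ = (19 / 20 * y) ^ (3 / 5 : ℝ) := (Real.mul_rpow (by norm_num) hy0.le).symm
              _ ≤ _ := Real.rpow_le_rpow (by positivity) e1 (by norm_num)
          have e3 : Real.exp (-(Real.log N) ^ (3 / 5 : ℝ)) ≤ Real.exp (-(19 / 20 * y ^ (3 / 5 : ℝ))) := by
            apply Real.exp_le_exp.2
            linarith
          gcongr
        · intro n hn
          rw [mem_filter, mem_range] at hn
          refine ⟨hn.2.2, hn.2.1, ?_⟩
          have : (n : ℝ) ≤ L := by exact_mod_cast (by omega : n ≤ L)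
          linarith
      · simpa using hnn
    have h2 : (T3.card : ℝ) ≤ Bx.card * ((2 * Real.log (C * X) + 1) *
        (C * X * Real.exp (-(19 / 20 * y ^ (3 / 5 : ℝ))))) := by
      have e1 : T3.card ≤ ∑ b ∈ Bx, (Sb b).card := by
        rw [hT3]
        exact card_biUnion_le.trans (sum_le_sum fun b _ => card_image_le)
      have e2 : (T3.card : ℝ) ≤ ∑ b ∈ Bx, (((Sb b).card : ℕ) : ℝ) := by exact_mod_cast e1
      refine e2.trans ((sum_le_sum h1).trans ?_)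
      rw [sum_const, nsmul_eq_mul]
    refine h2.trans ?_
    have h3 : 2 * Real.log (C * X) + 1 ≤ 5 * y := by
      rw [Real.log_mul hC0.ne' hX0.ne', ← hy]
      linarith
    have h4 : y * Real.exp (-(19 / 20 * y ^ (3 / 5 : ℝ))) ≤ g * g := by
      have e1 : y * Real.exp (-(19 / 20 * y ^ (3 / 5 : ℝ))) ≤
          Real.exp (y ^ (11 / 20 : ℝ) / 2) * Real.exp (-(19 / 20 * y ^ (3 / 5 : ℝ))) := by gcongr
      refine e1.trans ?_
      rw [hg, ← Real.exp_add, ← Real.exp_add]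
      apply Real.exp_le_exp.2
      linarith
    have h3' : 0 ≤ 2 * Real.log (C * X) + 1 := by
      have : 0 ≤ Real.log (C * X) := Real.log_nonneg (by nlinarith)
      linarith
    calc (Bx.card : ℝ) * ((2 * Real.log (C * X) + 1) * (C * X * Real.exp (-(19 / 20 * y ^ (3 / 5 : ℝ))))) ≤
          (3 * C * X) ^ (q + 1) * ((5 * y) * (C * X * Real.exp (-(19 / 20 * y ^ (3 / 5 : ℝ))))) := by gcongr
      _ = 5 * C * (3 * C) ^ (q + 1) * (X : ℝ) ^ (q + 2) * (y * Real.exp (-(19 / 20 * y ^ (3 / 5 : ℝ)))) := by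
          rw [hXq]; ring
      _ ≤ (8 * C + 8) * (3 * C) ^ (q + 2) * (X : ℝ) ^ (q + 2) * (g * g) := by
          gcongr
          linarith
      _ = _ := by ring
  have hle := Set.ncard_le_ncard hcover (Finset.finite_toSet _)
  rw [Set.ncard_coe_finset] at hle
  have h5 : (T.ncard : ℝ) ≤ T1.card + T2.card + T3.card := by
    have e1 : T.ncard ≤ T1.card + T2.card + T3.card :=
      hle.trans ((card_union_le _ _).trans (add_le_add (card_union_le _ _) le_rfl))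
    exact_mod_cast e1
  rw [← hg]
  linarith

end Pool.Agent.H17.GS
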