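import Pool.Agent.H17.GS.Fn

/-!
# Holomorphic functions close to `a z ^ θ` (helper17)
-/

set_option autoImplicit false

namespace Pool.Agent.H17.GS

open Finset Filter Metric
open scoped Nat

/-- the region in the right half plane at the distance about `N` -/
def Om (N : ℝ) : Set ℂ := {z | N / 2 ≤ z.re ∧ ‖z‖ ≤ 4 * N}

/-- `f` is holomorphic on `Om N` and close to `a z ^ θ` -/
structure Near (N a θ η : ℝ) (f : ℂ → ℂ) : Prop where
  diff : DifferentiableOn ℂ f (Om N)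
  near : ∀ z ∈ Om N, ‖f z - a * z ^ (θ : ℂ)‖ ≤ |a| * N ^ (θ - η)

/-- the binomial coefficients -/
noncomputable def cf (θ : ℝ) (j : ℕ) : ℝ := ∏ i ∈ range j, (θ - i) / (i + 1)

lemma cf_succ (θ : ℝ) (j : ℕ) : cf θ (j + 1) = cf θ j * ((θ - j) / (j + 1)) := by
  rw [cf, prod_range_succ, ← cf]

lemma cf_fac (θ : ℝ) (j : ℕ) : cf θ j * (j ! : ℝ) = ∏ i ∈ range j, (θ - i) := by
  induction j with
  | zero => simp [cf]
  | succ j ih =>
    rw [cf_succ, prod_range_succ, ← ih, Nat.factorial_succ]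
    push_cast
    have : (j : ℝ) + 1 ≠ 0 := by positivity
    field_simp

lemma cf_lower (θ : ℝ) (hθ : ∀ m : ℕ, θ ≠ m) : ∃ B : ℝ, 0 < B ∧ ∀ j : ℕ, B ≤ 3 ^ j * |cf θ j| := by
  obtain ⟨m, hm⟩ : ∃ m : ℕ, |θ| * 2 + 2 ≤ m := exists_nat_ge _
  have hne : ∀ j : ℕ, 0 < |cf θ j| := by
    intro j
    rw [abs_pos, cf]
    refine prod_ne_zero_iff.2 fun i _ => ?_
    refine div_ne_zero ?_ (by positivity)
    intro h
    exact hθ i (by linarith)
  have hstep : ∀ j : ℕ, 3 ^ m * |cf θ m| ≤ 3 ^ (m + j) * |cf θ (m + j)| := by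
    intro j
    induction j with
    | zero => simp
    | succ j ih =>
      refine ih.trans ?_
      rw [show m + (j + 1) = (m + j) + 1 by ring, cf_succ, abs_mul, pow_succ]
      have h4 : 1 / 3 ≤ |(θ - ((m + j : ℕ) : ℝ)) / (((m + j : ℕ) : ℝ) + 1)| := by
        have h5 : (m : ℝ) ≤ ((m + j : ℕ) : ℝ) := by push_cast; linarith [(Nat.cast_nonneg j : (0:ℝ) ≤ j)]
        have h6 := le_abs_self θ
        have h7 := abs_nonneg θ
        rw [abs_div, abs_of_neg (by linarith : θ - ((m + j : ℕ) : ℝ) < 0),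
          abs_of_pos (by positivity : (0 : ℝ) < ((m + j : ℕ) : ℝ) + 1),
          div_le_div_iff₀ (by norm_num) (by positivity)]
        linarith
      calc 3 ^ (m + j) * |cf θ (m + j)| = 3 ^ (m + j) * 3 * (|cf θ (m + j)| * (1 / 3)) := by ring
        _ ≤ 3 ^ (m + j) * 3 * (|cf θ (m + j)| * |(θ - ((m + j : ℕ) : ℝ)) / (((m + j : ℕ) : ℝ) + 1)|) := by
            gcongr
  obtain ⟨B, hB0, hB⟩ : ∃ B : ℝ, 0 < B ∧ ∀ j ∈ range (m + 1), B ≤ 3 ^ j * |cf θ j| := by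
    obtain ⟨j0, hj0, hmin⟩ := exists_min_image (range (m + 1)) (fun j => 3 ^ j * |cf θ j|)
      ⟨0, by simp⟩
    exact ⟨3 ^ j0 * |cf θ j0|, mul_pos (by positivity) (hne j0), hmin⟩
  refine ⟨B, hB0, fun j => ?_⟩
  rcases Nat.lt_or_ge m j with h | h
  · obtain ⟨k, rfl⟩ : ∃ k, j = m + k := ⟨j - m, by omega⟩
    exact (hB m (by simp)).trans (hstep k)
  · exact hB j (by rw [mem_range]; omega)

lemma ball_sub {N x : ℝ} (_hN : 0 < N) (h1 : N ≤ x) (h2 : x ≤ 3 * N) :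
    closedBall (x : ℂ) (N / 2) ⊆ Om N := by
  intro z hz
  rw [mem_closedBall, dist_eq_norm] at hz
  constructor
  · have h3 := Complex.abs_re_le_norm (z - x)
    rw [Complex.sub_re, Complex.ofReal_re] at h3
    have h4 := abs_le.1 (h3.trans hz)
    linarith [h4.1]
  · have h3 : ‖z‖ ≤ ‖z - x‖ + ‖(x : ℂ)‖ := by
      have := norm_add_le (z - x) (x : ℂ)
      rwa [sub_add_cancel] at this
    rw [Complex.norm_real, Real.norm_eq_abs, abs_of_pos (by linarith)] at h3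
    linarith

lemma Om_slit {N : ℝ} (hN : 0 < N) {z : ℂ} (hz : z ∈ Om N) : z ∈ Complex.slitPlane := by
  rw [Complex.mem_slitPlane_iff]
  left
  have := hz.1
  linarith

lemma iter_cpow (θ : ℝ) (j : ℕ) : ∀ z ∈ Complex.slitPlane,
    iteratedDeriv j (fun z : ℂ => z ^ (θ : ℂ)) z = ((∏ i ∈ range j, (θ - i) : ℝ) : ℂ) * z ^ ((θ - j : ℝ) : ℂ) := by
  induction j with
  | zero =>
    intro z _
    simp
  | succ j ih =>
    intro z hz
    rw [iteratedDeriv_succ]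
    have h1 : iteratedDeriv j (fun z : ℂ => z ^ (θ : ℂ)) =ᶠ[nhds z]
        fun z => ((∏ i ∈ range j, (θ - i) : ℝ) : ℂ) * z ^ ((θ - j : ℝ) : ℂ) := by
      filter_upwards [Complex.isOpen_slitPlane.mem_nhds hz] with w hw
      exact ih w hw
    rw [h1.deriv_eq]
    have h2 : HasDerivAt (fun z : ℂ => z ^ ((θ - j : ℝ) : ℂ))
        (((θ - j : ℝ) : ℂ) * z ^ (((θ - j : ℝ) : ℂ) - 1) * 1) z :=
      (hasDerivAt_id z).cpow_const hz
    rw [(h2.const_mul _).deriv, prod_range_succ]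
    have h3 : ((θ - j : ℝ) : ℂ) - 1 = ((θ - ((j + 1 : ℕ) : ℝ) : ℝ) : ℂ) := by push_cast; ring
    rw [h3]
    push_cast
    ring

lemma norm_cpow_le (θ : ℝ) {N : ℝ} (hN : 0 < N) {z : ℂ} (hz : z ∈ Om N) :
    ‖z ^ (θ : ℂ)‖ ≤ 4 ^ |θ| * N ^ θ := by
  have h1 : z ≠ 0 := by
    rintro rfl
    have := hz.1
    simp at this
    linarith
  rw [Complex.norm_cpow_of_ne_zero h1]
  simp only [Complex.ofReal_re, Complex.ofReal_im, mul_zero, Real.exp_zero, div_one]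
  have h2 : N / 2 ≤ ‖z‖ := hz.1.trans ((le_abs_self _).trans (Complex.abs_re_le_norm z))
  have h3 : ‖z‖ = (‖z‖ / N) * N := by field_simp
  have h4 : 0 < ‖z‖ / N := by
    have : 0 < ‖z‖ := by linarith
    positivity
  rw [h3, Real.mul_rpow h4.le hN.le]
  gcongr
  have h5 : ‖z‖ / N ≤ 4 := by rw [div_le_iff₀ hN]; exact hz.2
  have h6 : 1 / 4 ≤ ‖z‖ / N := by rw [le_div_iff₀ hN]; linarith
  rcases le_total 0 θ with h | h
  · rw [abs_of_nonneg h]
    exact Real.rpow_le_rpow h4.le h5 h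
  · rw [abs_of_nonpos h, Real.rpow_neg (by norm_num), ← Real.inv_rpow (by norm_num)]
    exact Real.rpow_le_rpow_of_nonpos (by norm_num) (by linarith) h

/-- the Taylor coefficients -/
noncomputable def tc (f : ℂ → ℂ) (x : ℝ) (j : ℕ) : ℂ := iteratedDeriv j f x / (j ! : ℂ)

lemma tc_bound {f : ℂ → ℂ} {x R B : ℝ} (hR : 0 < R) (hf : DifferentiableOn ℂ f (closedBall (x : ℂ) R))
    (hB : ∀ z ∈ closedBall (x : ℂ) R, ‖f z‖ ≤ B) (j : ℕ) : ‖tc f x j‖ ≤ B / R ^ j := by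
  have h1 : DiffContOnCl ℂ f (ball (x : ℂ) R) := by
    apply DifferentiableOn.diffContOnCl
    exact hf.mono closure_ball_subset_closedBall
  have h2 := Complex.norm_iteratedDeriv_le_of_forall_mem_sphere_norm_le j hR h1
    (fun z hz => hB z (sphere_subset_closedBall hz))
  have h3 : (0 : ℝ) < (j ! : ℝ) := by exact_mod_cast Nat.factorial_pos j
  rw [tc, norm_div, Complex.norm_natCast, div_le_iff₀ h3]
  calc _ ≤ _ := h2
    _ = _ := by ring

lemma tc_sum {f : ℂ → ℂ} {x R : ℝ} (hf : DifferentiableOn ℂ f (closedBall (x : ℂ) R)) {h : ℝ}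
    (hh : |h| < R) : HasSum (fun j => tc f x j * (h : ℂ) ^ j) (f ((x + h : ℝ) : ℂ)) := by
  have h1 : ((x + h : ℝ) : ℂ) ∈ ball (x : ℂ) R := by
    rw [mem_ball, dist_eq_norm]
    push_cast
    rw [add_sub_cancel_left, Complex.norm_real]
    exact hh
  have h2 := Complex.hasSum_taylorSeries_on_ball (hf.mono ball_subset_closedBall) h1
  have h3 : (fun j => tc f x j * (h : ℂ) ^ j) =
      fun n : ℕ => ((n ! : ℕ) : ℂ)⁻¹ • (((x + h : ℝ) : ℂ) - x) ^ n • iteratedDeriv n f x := by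
    funext j
    simp only [tc, smul_eq_mul]
    push_cast
    rw [add_sub_cancel_left]
    ring
  rw [h3]
  exact h2

section

variable {N a θ η : ℝ} {f : ℂ → ℂ}

lemma Near.diffAt (hf : Near N a θ η f) (hN : 0 < N) {x : ℝ} (h1 : N ≤ x) (h2 : x ≤ 3 * N) :
    AnalyticAt ℂ f x := by
  have h3 : DifferentiableOn ℂ f (ball (x : ℂ) (N / 2)) :=
    hf.diff.mono (ball_subset_closedBall.trans (ball_sub hN h1 h2))
  exact h3.analyticAt (isOpen_ball.mem_nhds (mem_ball_self (by linarith)))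

lemma cpow_analyticAt (θ : ℝ) {x : ℝ} (hx : 0 < x) : AnalyticAt ℂ (fun z : ℂ => z ^ (θ : ℂ)) x := by
  have h1 : (x : ℂ) ∈ Complex.slitPlane := by
    rw [Complex.mem_slitPlane_iff]; left; simpa using hx
  exact analyticAt_id.cpow analyticAt_const h1

lemma tc_cpow (θ : ℝ) {x : ℝ} (hx : 0 < x) (j : ℕ) :
    tc (fun z : ℂ => z ^ (θ : ℂ)) x j = ((cf θ j * x ^ (θ - j) : ℝ) : ℂ) := by
  have h1 : (x : ℂ) ∈ Complex.slitPlane := by
    rw [Complex.mem_slitPlane_iff]; left; simpa using hx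
  have h3 : ((j ! : ℕ) : ℂ) ≠ 0 := by exact_mod_cast (Nat.factorial_pos j).ne'
  rw [tc, iter_cpow θ j _ h1, ← cf_fac, ← Complex.ofReal_cpow hx.le]
  push_cast
  field_simp

/-- the Taylor coefficients of `f` -/
lemma Near.coef (hf : Near N a θ η f) (hN : 0 < N) {x : ℝ} (h1 : N ≤ x) (h2 : x ≤ 3 * N) (j : ℕ) :
    ‖tc f x j - ((a * (cf θ j * x ^ (θ - j)) : ℝ) : ℂ)‖ ≤ |a| * N ^ (θ - η) * (2 / N) ^ j := by
  set g : ℂ → ℂ := fun z => f z - a * z ^ (θ : ℂ) with hg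
  have hsub := ball_sub hN h1 h2
  have hx : 0 < x := by linarith
  have hgd : DifferentiableOn ℂ g (closedBall (x : ℂ) (N / 2)) := by
    intro z hz
    have hz' := hsub hz
    refine (hf.diff.mono hsub z hz).sub ?_
    refine DifferentiableWithinAt.const_mul ?_ _
    exact (differentiableAt_id.cpow (differentiableAt_const _) (Om_slit hN hz')).differentiableWithinAt
  have h3 := tc_bound (by positivity : 0 < N / 2) hgd (fun z hz => hf.near z (hsub hz)) j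
  have h4 : tc g x j = tc f x j - ((a * (cf θ j * x ^ (θ - j)) : ℝ) : ℂ) := by
    have e1 : ContDiffAt ℂ j f x := (hf.diffAt hN h1 h2).contDiffAt
    have e2 : ContDiffAt ℂ j (fun z : ℂ => z ^ (θ : ℂ)) x := (cpow_analyticAt θ hx).contDiffAt
    have e3 : ContDiffAt ℂ j (fun z : ℂ => (a : ℂ) * z ^ (θ : ℂ)) x := contDiffAt_const.mul e2
    have e4 : iteratedDeriv j g x = iteratedDeriv j f x -
        iteratedDeriv j (fun z : ℂ => (a : ℂ) * z ^ (θ : ℂ)) x := iteratedDeriv_fun_sub e1 e3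
    have e5 : iteratedDeriv j (fun z : ℂ => (a : ℂ) * z ^ (θ : ℂ)) x =
        a * iteratedDeriv j (fun z : ℂ => z ^ (θ : ℂ)) x := iteratedDeriv_const_mul _ e2
    have e6 := tc_cpow θ hx j
    have e7 : tc g x j = tc f x j - a * tc (fun z : ℂ => z ^ (θ : ℂ)) x j := by
      rw [tc, e4, e5, tc, tc]
      ring
    rw [e7, e6]
    push_cast
    ring
  rw [← h4]
  refine h3.trans (le_of_eq ?_)
  rw [div_pow, div_pow, div_div_eq_mul_div, mul_div_assoc']

lemma main_le (θ : ℝ) (hN : 0 < N) {x : ℝ} (h1 : N ≤ x) (h2 : x ≤ 3 * N) (j : ℕ) :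
    |cf θ j * x ^ (θ - j)| ≤ 4 ^ |θ| * N ^ θ * (2 / N) ^ j := by
  have hx : 0 < x := by linarith
  have hsub := ball_sub hN h1 h2
  have hd : DifferentiableOn ℂ (fun z : ℂ => z ^ (θ : ℂ)) (closedBall (x : ℂ) (N / 2)) := by
    intro z hz
    exact (differentiableAt_id.cpow (differentiableAt_const _) (Om_slit hN (hsub hz))).differentiableWithinAt
  have h3 := tc_bound (by positivity : 0 < N / 2) hd (fun z hz => norm_cpow_le θ hN (hsub hz)) j
  rw [tc_cpow θ hx, Complex.norm_real, Real.norm_eq_abs] at h3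
  refine h3.trans (le_of_eq ?_)
  rw [div_pow, div_pow, div_div_eq_mul_div, mul_div_assoc']

lemma Near.coef_le (hf : Near N a θ η f) (hN : 1 ≤ N) (hη : 0 ≤ η) {x : ℝ} (h1 : N ≤ x) (h2 : x ≤ 3 * N) (j : ℕ) :
    ‖tc f x j‖ ≤ (4 ^ |θ| + 1) * (|a| * N ^ θ) * (2 / N) ^ j := by
  have hN0 : 0 < N := by linarith
  have h3 := hf.coef hN0 h1 h2 j
  have h4 := main_le θ hN0 h1 h2 j
  have h5 : N ^ (θ - η) ≤ N ^ θ := Real.rpow_le_rpow_of_exponent_le hN (by linarith)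
  have h6 : ‖((a * (cf θ j * x ^ (θ - j)) : ℝ) : ℂ)‖ ≤ |a| * (4 ^ |θ| * N ^ θ * (2 / N) ^ j) := by
    rw [Complex.norm_real, Real.norm_eq_abs, abs_mul]
    gcongr
  calc ‖tc f x j‖ = ‖(tc f x j - ((a * (cf θ j * x ^ (θ - j)) : ℝ) : ℂ)) +
        ((a * (cf θ j * x ^ (θ - j)) : ℝ) : ℂ)‖ := by rw [sub_add_cancel]
    _ ≤ |a| * N ^ (θ - η) * (2 / N) ^ j + |a| * (4 ^ |θ| * N ^ θ * (2 / N) ^ j) :=
        (norm_add_le _ _).trans (add_le_add h3 h6)
    _ ≤ |a| * N ^ θ * (2 / N) ^ j + |a| * (4 ^ |θ| * N ^ θ * (2 / N) ^ j) := by gcongr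
    _ = _ := by ring

/-- the remainder of the Taylor series -/
lemma Near.rem (hf : Near N a θ η f) (hN : 1 ≤ N) (hη : 0 ≤ η) {x : ℝ} (h1 : N ≤ x) (h2 : x ≤ 3 * N)
    {h : ℝ} (hh0 : 0 ≤ h) (hh : h ≤ N / 4) (r : ℕ) :
    |(f ((x + h : ℝ) : ℂ)).re - ∑ j ∈ range (r + 1), (tc f x j).re * h ^ j| ≤
      (4 ^ |θ| + 1) * (|a| * N ^ θ) * (2 * (2 * h / N) ^ (r + 1)) := by
  have hN0 : 0 < N := by linarith
  set D : ℝ := (4 ^ |θ| + 1) * (|a| * N ^ θ) with hD
  have hD0 : 0 ≤ D := by positivity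
  have hs := tc_sum (hf.diff.mono (ball_sub hN0 h1 h2)) (h := h)
    (by rw [abs_of_nonneg hh0]; linarith)
  have hre : HasSum (fun j => (tc f x j).re * h ^ j) (f ((x + h : ℝ) : ℂ)).re := by
    have := Complex.hasSum_re hs
    refine (this.congr_fun ?_)
    intro j
    rw [← Complex.ofReal_pow, Complex.re_mul_ofReal]
  have hq0 : 0 ≤ 2 * h / N := by positivity
  have hq1 : 2 * h / N ≤ 1 / 2 := by
    rw [div_le_iff₀ hN0]; linarith
  have hterm : ∀ j, ‖(tc f x (j + (r + 1))).re * h ^ (j + (r + 1))‖ ≤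
      (D * (2 * h / N) ^ (r + 1)) * (1 / 2) ^ j := by
    intro j
    rw [Real.norm_eq_abs, abs_mul, abs_of_nonneg (pow_nonneg hh0 _)]
    have e1 := (Complex.abs_re_le_norm (tc f x (j + (r + 1)))).trans
      (hf.coef_le hN hη h1 h2 (j + (r + 1)))
    calc |(tc f x (j + (r + 1))).re| * h ^ (j + (r + 1)) ≤
          (D * (2 / N) ^ (j + (r + 1))) * h ^ (j + (r + 1)) := by gcongr
      _ = D * (2 * h / N) ^ (r + 1) * (2 * h / N) ^ j := by
          rw [mul_assoc, ← mul_pow, show 2 / N * h = 2 * h / N by ring, pow_add]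
          ring
      _ ≤ _ := by gcongr
  have hgeo : HasSum (fun j : ℕ => (D * (2 * h / N) ^ (r + 1)) * (1 / 2 : ℝ) ^ j)
      ((D * (2 * h / N) ^ (r + 1)) * 2) := by
    exact hasSum_geometric_two.mul_left _
  have htail := hre.summable.hasSum
  have h5 : HasSum (fun j => (tc f x (j + (r + 1))).re * h ^ (j + (r + 1)))
      ((f ((x + h : ℝ) : ℂ)).re - ∑ j ∈ range (r + 1), (tc f x j).re * h ^ j) :=
    (hasSum_nat_add_iff' (r + 1)).2 hre
  have h6 := h5.norm_le_of_bounded hgeo hterm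
  rw [Real.norm_eq_abs] at h6
  refine h6.trans (le_of_eq ?_)
  ring

end

end Pool.Agent.H17.GS
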