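import Pool.Agent.H17.GS.Rg2

/-!
# The digits of `ω cos (2 π k / n + φ)`: local data (helper17)
-/

set_option autoImplicit false

namespace Pool.Agent.H17.GS

open Finset Filter

/-- Taylor expansion of the cosine -/
lemma cos_taylor (θ y : ℝ) (r : ℕ) (hy : |y| ≤ 1 / 2) :
    |Real.cos (θ + y) - ∑ j ∈ range (r + 1), Real.cos (θ + j * (Real.pi / 2)) / (j.factorial : ℝ) * y ^ j| ≤
      2 * |y| ^ (r + 1) := by
  have h1 : ‖(Complex.I * (y : ℂ))‖ = |y| := by simp
  have h2 : ‖(Complex.I * (y : ℂ))‖ / ((r + 1).succ : ℝ) ≤ 1 / 2 := by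
    rw [h1]
    refine (div_le_self (abs_nonneg _) ?_).trans hy
    push_cast
    linarith [(Nat.cast_nonneg r : (0 : ℝ) ≤ r)]
  have h3 := Complex.exp_bound' h2
  rw [h1] at h3
  have h4 : ‖Complex.exp (Complex.I * θ) * (Complex.exp (Complex.I * y) -
      ∑ m ∈ range (r + 1), (Complex.I * (y : ℂ)) ^ m / (m.factorial : ℂ))‖ ≤ 2 * |y| ^ (r + 1) := by
    rw [norm_mul]
    have e1 : ‖Complex.exp (Complex.I * (θ : ℂ))‖ = 1 := by
      rw [mul_comm]; exact Complex.norm_exp_ofReal_mul_I θ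
    rw [e1, one_mul]
    refine h3.trans ?_
    have e2 : |y| ^ (r + 1) / ((r + 1).factorial : ℝ) ≤ |y| ^ (r + 1) := by
      apply div_le_self (by positivity)
      exact_mod_cast Nat.one_le_iff_ne_zero.2 (Nat.factorial_ne_zero _)
    linarith
  refine le_trans (le_of_eq ?_) ((Complex.abs_re_le_norm _).trans h4)
  congr 1
  rw [mul_sub, ← Complex.exp_add, ← mul_add, Complex.sub_re, mul_sum, Complex.re_sum]
  congr 1
  · rw [← Complex.ofReal_add, mul_comm, Complex.exp_ofReal_mul_I_re]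
  · refine sum_congr rfl fun j _ => ?_
    have e1 : Complex.I ^ j = Complex.exp (((j * (Real.pi / 2) : ℝ) : ℂ) * Complex.I) := by
      have e2 : Complex.exp ((Real.pi / 2 : ℂ) * Complex.I) = Complex.I := Complex.exp_pi_div_two_mul_I
      have e3 : ((j * (Real.pi / 2) : ℝ) : ℂ) * Complex.I = j * ((Real.pi / 2 : ℂ) * Complex.I) := by
        push_cast; ring
      rw [e3, Complex.exp_nat_mul, e2]
    have e4 : Complex.exp (Complex.I * θ) * ((Complex.I * (y : ℂ)) ^ j / (j.factorial : ℂ)) =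
        Complex.exp (((θ + j * (Real.pi / 2) : ℝ) : ℂ) * Complex.I) * ((y ^ j / j.factorial : ℝ) : ℂ) := by
      rw [mul_pow, e1, Complex.ofReal_add, add_mul, Complex.exp_add, mul_comm Complex.I (θ : ℂ)]
      push_cast
      ring
    rw [e4, Complex.mul_re, Complex.ofReal_re, Complex.ofReal_im, mul_zero, sub_zero,
      Complex.exp_ofReal_mul_I_re]
    ring

lemma abs_cos_shift (θ : ℝ) (j : ℕ) : |Real.cos (θ + j * (Real.pi / 2))| = |Real.cos θ| ∨
    |Real.cos (θ + j * (Real.pi / 2))| = |Real.sin θ| := by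
  induction j with
  | zero => left; simp
  | succ j ih =>
    have h1 : θ + ((j + 1 : ℕ) : ℝ) * (Real.pi / 2) = (θ + j * (Real.pi / 2)) + Real.pi / 2 := by
      push_cast; ring
    have h2 : |Real.cos (θ + ((j + 1 : ℕ) : ℝ) * (Real.pi / 2))| = |Real.sin (θ + j * (Real.pi / 2))| := by
      rw [h1, Real.cos_add_pi_div_two, abs_neg]
    have h3 : Real.sin (θ + j * (Real.pi / 2)) ^ 2 + Real.cos (θ + j * (Real.pi / 2)) ^ 2 = 1 :=
      Real.sin_sq_add_cos_sq _
    have h4 : Real.sin θ ^ 2 + Real.cos θ ^ 2 = 1 := Real.sin_sq_add_cos_sq _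
    rw [h2]
    rcases ih with ih | ih
    · right
      rw [← sq_eq_sq₀ (abs_nonneg _) (abs_nonneg _), sq_abs, sq_abs]
      rw [← sq_eq_sq₀ (abs_nonneg _) (abs_nonneg _), sq_abs, sq_abs] at ih
      linarith
    · left
      rw [← sq_eq_sq₀ (abs_nonneg _) (abs_nonneg _), sq_abs, sq_abs]
      rw [← sq_eq_sq₀ (abs_nonneg _) (abs_nonneg _), sq_abs, sq_abs] at ih
      linarith

lemma sin_near (x y : ℝ) : |Real.sin x - Real.sin y| ≤ |x - y| := by
  have h1 : Real.sin x - Real.sin y = 2 * Real.sin ((x - y) / 2) * Real.cos ((x + y) / 2) := by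
    rw [Real.sin_sub_sin]
  rw [h1, abs_mul, abs_mul, abs_of_pos (by norm_num : (0 : ℝ) < 2)]
  have h2 := Real.abs_sin_le_abs (x := (x - y) / 2)
  have h3 := Real.abs_cos_le_one ((x + y) / 2)
  have h4 : |(x - y) / 2| = |x - y| / 2 := by rw [abs_div, abs_of_pos (by norm_num : (0 : ℝ) < 2)]
  rw [h4] at h2
  have h5 := abs_nonneg (Real.cos ((x + y) / 2))
  have h6 := abs_nonneg (Real.sin ((x - y) / 2))
  nlinarith

lemma cos_near (x y : ℝ) : |Real.cos x - Real.cos y| ≤ |x - y| := by
  have h := sin_near (x + Real.pi / 2) (y + Real.pi / 2)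
  rw [Real.sin_add_pi_div_two, Real.sin_add_pi_div_two] at h
  have : x + Real.pi / 2 - (y + Real.pi / 2) = x - y := by ring
  rwa [this] at h

/-- a number close to `S` has the sign of `S` and is not small -/
lemma sign_near {S η : ℝ} (hS : η / 2 ≤ |S|) :
    ∃ s : ℝ, (s = 1 ∨ s = -1) ∧ ∀ x : ℝ, |x - S| ≤ η / 4 → η / 4 ≤ s * x := by
  rcases abs_cases S with ⟨h1, h2⟩ | ⟨h1, h2⟩
  · refine ⟨1, Or.inl rfl, fun x hx => ?_⟩
    have h := abs_le.1 hx
    rw [one_mul]; linarith [h.1]
  · refine ⟨-1, Or.inr rfl, fun x hx => ?_⟩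
    have h := abs_le.1 hx
    linarith [h.2]

lemma cos_dat {N J : ℕ} {α φ ω η A : ℝ} (hN : 1 ≤ N) (hJ : 1 ≤ J) (hα : 0 < α) (hω : ω ≠ 0) (hη : 0 < η)
    (hη1 : η ≤ 1) (hsmall : 16 * (α * N) ≤ η) (hsin : η ≤ |Real.sin (2 * (α * N + φ))|)
    (hA : 8 / η * (J / (α * N)) ^ J ≤ Real.exp A) :
    Dat N (|ω| * α * N) 1 A J (fun m => ω * Real.cos (α * m + φ)) := by
  have hN1 : (1 : ℝ) ≤ N := by exact_mod_cast hN
  have hN0 : (0 : ℝ) < N := by linarith
  have hJ1 : (1 : ℝ) ≤ J := by exact_mod_cast hJ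
  have hω0 : 0 < |ω| := abs_pos.2 hω
  obtain ⟨t, ht⟩ : ∃ t : ℝ, t = α * N := ⟨_, rfl⟩
  have ht0 : 0 < t := by rw [ht]; positivity
  have ht1 : t ≤ 1 / 16 := by rw [ht]; linarith
  have hαt : α ≤ t := by rw [ht]; exact le_mul_of_one_le_right hα.le hN1
  rw [← ht] at hsmall hsin hA
  -- the base point
  have hprod : |Real.sin (2 * (t + φ))| = 2 * |Real.sin (t + φ)| * |Real.cos (t + φ)| := by
    rw [Real.sin_two_mul, abs_mul, abs_mul, abs_of_pos (by norm_num : (0 : ℝ) < 2)]
  rw [hprod] at hsin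
  have hs1 := Real.abs_sin_le_one (t + φ)
  have hc1 := Real.abs_cos_le_one (t + φ)
  have hs0 := abs_nonneg (Real.sin (t + φ))
  have hc0 := abs_nonneg (Real.cos (t + φ))
  have hS : η / 2 ≤ |Real.sin (t + φ)| := by nlinarith
  have hC : η / 2 ≤ |Real.cos (t + φ)| := by nlinarith
  obtain ⟨s, hs, hs'⟩ := sign_near hS
  obtain ⟨c, hc, hc'⟩ := sign_near hC
  have hsx : ∀ x : ℝ, t ≤ x → x ≤ 4 * t → η / 4 ≤ s * Real.sin (x + φ) := by
    intro x h1 h2
    apply hs'
    refine (sin_near _ _).trans ?_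
    rw [show x + φ - (t + φ) = x - t by ring, abs_of_nonneg (by linarith)]
    linarith
  have hcx : ∀ x : ℝ, t ≤ x → x ≤ 4 * t → η / 4 ≤ c * Real.cos (x + φ) := by
    intro x h1 h2
    apply hc'
    refine (cos_near _ _).trans ?_
    rw [show x + φ - (t + φ) = x - t by ring, abs_of_nonneg (by linarith)]
    linarith
  have hsabs : |s| = 1 := by rcases hs with rfl | rfl <;> simp
  have hcabs : |c| = 1 := by rcases hc with rfl | rfl <;> simp
  have hsx' : ∀ x : ℝ, t ≤ x → x ≤ 4 * t → η / 4 ≤ |Real.sin (x + φ)| := by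
    intro x h1 h2
    refine (hsx x h1 h2).trans ((le_abs_self _).trans (le_of_eq ?_))
    rw [abs_mul, hsabs, one_mul]
  have hcx' : ∀ x : ℝ, t ≤ x → x ≤ 4 * t → η / 4 ≤ |Real.cos (x + φ)| := by
    intro x h1 h2
    refine (hcx x h1 h2).trans ((le_abs_self _).trans (le_of_eq ?_))
    rw [abs_mul, hcabs, one_mul]
  have hJt : 1 ≤ (J : ℝ) / t := by
    rw [le_div_iff₀ ht0]
    linarith
  have hA8 : 8 / η ≤ Real.exp A := by
    refine le_trans ?_ hA
    exact le_mul_of_one_le_right (by positivity) (one_le_pow₀ hJt)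
  have hxm : ∀ m : ℕ, N ≤ m → m ≤ 2 * N → t ≤ α * m ∧ α * m ≤ 2 * t := by
    intro m h1 h2
    have h1' : (N : ℝ) ≤ m := by exact_mod_cast h1
    have h2' : (m : ℝ) ≤ 2 * N := by exact_mod_cast h2
    constructor
    · rw [ht]; gcongr
    · calc α * m ≤ α * (2 * N) := by gcongr
        _ = 2 * t := by rw [ht]; ring
  refine ⟨by positivity, ?_, ?_⟩
  · intro m hm1 hm2
    obtain ⟨x1, x2⟩ := hxm m hm1 hm2
    refine ⟨fun j => ω * (Real.cos (α * m + φ + j * (Real.pi / 2)) / (j.factorial : ℝ) * α ^ j), ?_, ?_, ?_, ?_⟩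
    · simp
    · intro j hj
      simp only
      have hf : (1 : ℝ) ≤ (j.factorial : ℝ) := by exact_mod_cast Nat.one_le_iff_ne_zero.2 (Nat.factorial_ne_zero _)
      have h1 : |Real.cos (α * m + φ + j * (Real.pi / 2)) / (j.factorial : ℝ)| ≤ 1 := by
        rw [abs_div, abs_of_pos (by linarith : (0 : ℝ) < j.factorial)]
        rw [div_le_one (by linarith)]
        exact (Real.abs_cos_le_one _).trans hf
      rw [abs_mul, abs_mul, abs_pow, abs_of_pos hα, one_mul]
      have h2 : α ^ j ≤ α * N * (2 / N) ^ j := by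
        have e1 : α ^ j = t ^ j / (N : ℝ) ^ j := by
          rw [ht, mul_pow]; field_simp
        rw [e1, ← ht, div_pow]
        have e2 : t ^ j ≤ t := by
          calc t ^ j ≤ t ^ 1 := pow_le_pow_of_le_one ht0.le (by linarith) hj
            _ = t := pow_one t
        have e3 : (1 : ℝ) ≤ 2 ^ j := one_le_pow₀ (by norm_num)
        calc t ^ j / (N : ℝ) ^ j ≤ t / (N : ℝ) ^ j := by gcongr
          _ = t * (1 / (N : ℝ) ^ j) := by ring
          _ ≤ t * (2 ^ j / (N : ℝ) ^ j) := by gcongr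
      calc |ω| * (|Real.cos (α * m + φ + j * (Real.pi / 2)) / (j.factorial : ℝ)| * α ^ j) ≤
            |ω| * (1 * (α * N * (2 / N) ^ j)) := by gcongr
        _ = _ := by ring
    · intro j hj hjJ
      simp only
      have hf0 : (0 : ℝ) < (j.factorial : ℝ) := by exact_mod_cast Nat.factorial_pos j
      have hfJ : (j.factorial : ℝ) ≤ (J : ℝ) ^ j := by
        calc (j.factorial : ℝ) ≤ (j : ℝ) ^ j := by exact_mod_cast Nat.factorial_le_pow j
          _ ≤ (J : ℝ) ^ j := by
              apply pow_le_pow_left₀ (Nat.cast_nonneg j)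
              exact_mod_cast hjJ
      have hcos : η / 4 ≤ |Real.cos (α * m + φ + j * (Real.pi / 2))| := by
        rcases abs_cos_shift (α * m + φ) j with h | h
        · rw [h]; exact hcx' _ x1 (by linarith)
        · rw [h]; exact hsx' _ x1 (by linarith)
      rw [abs_mul, abs_mul, abs_pow, abs_of_pos hα, abs_div, abs_of_pos hf0]
      have h1 : 8 / η * (J / t) ^ j ≤ Real.exp A := by
        refine le_trans ?_ hA
        gcongr
      have h2 : |ω| * α * N / (6 * N) ^ j ≤ |ω| * (α ^ j * (t / t ^ j)) := by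
        have e1 : α ^ j * (t / t ^ j) = t / (N : ℝ) ^ j := by
          rw [ht, mul_pow]; field_simp
        rw [e1]
        have e2 : (N : ℝ) ^ j ≤ (6 * (N : ℝ)) ^ j := by gcongr; linarith
        calc |ω| * α * N / (6 * N) ^ j = |ω| * (t / (6 * N) ^ j) := by rw [ht]; ring
          _ ≤ |ω| * (t / (N : ℝ) ^ j) := by gcongr
      refine h2.trans ?_
      have h3 : t / t ^ j ≤ Real.exp A * (η / 4 / (j.factorial : ℝ)) := by
        calc t / t ^ j ≤ 1 / t ^ j := by gcongr; linarith
          _ = (8 / η * ((J : ℝ) ^ j / t ^ j)) * (η / 8 / (J : ℝ) ^ j) := by field_simp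
          _ ≤ (8 / η * ((J : ℝ) ^ j / t ^ j)) * (η / 4 / (j.factorial : ℝ)) := by
              gcongr
              norm_num
          _ = (8 / η * (J / t) ^ j) * (η / 4 / (j.factorial : ℝ)) := by rw [div_pow]
          _ ≤ Real.exp A * (η / 4 / (j.factorial : ℝ)) := by gcongr
      calc |ω| * (α ^ j * (t / t ^ j)) ≤ |ω| * (α ^ j * (Real.exp A * (η / 4 / (j.factorial : ℝ)))) := by gcongr
        _ ≤ |ω| * (α ^ j * (Real.exp A * (|Real.cos (α * m + φ + j * (Real.pi / 2))| / (j.factorial : ℝ)))) := by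
            gcongr
        _ = _ := by ring
    · intro h r hh
      have hαh : α * h ≤ t / 4 := by
        calc α * h ≤ α * (N / 4) := by gcongr
          _ = t / 4 := by rw [ht]; ring
      have hαh0 : 0 ≤ α * h := by positivity
      have h1 := cos_taylor (α * m + φ) (α * h) r (by rw [abs_of_nonneg hαh0]; linarith)
      have e1 : ω * Real.cos (α * ((m + h : ℕ) : ℝ) + φ) - ∑ j ∈ range (r + 1),
          ω * (Real.cos (α * m + φ + j * (Real.pi / 2)) / (j.factorial : ℝ) * α ^ j) * (h : ℝ) ^ j =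
          ω * (Real.cos (α * m + φ + α * h) - ∑ j ∈ range (r + 1),
            Real.cos (α * m + φ + j * (Real.pi / 2)) / (j.factorial : ℝ) * (α * h) ^ j) := by
        rw [mul_sub, mul_sum]
        congr 1
        · congr 2
          push_cast
          ring
        · refine sum_congr rfl fun j _ => ?_
          rw [mul_pow]
          ring
      simp only
      rw [e1, abs_mul, one_mul]
      rw [abs_of_nonneg hαh0] at h1
      have h2 : (α * h) ^ (r + 1) ≤ α * N * (2 * h / N) ^ (r + 1) := by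
        have e2 : (α * h) ^ (r + 1) = t ^ (r + 1) * (h / N : ℝ) ^ (r + 1) := by
          rw [← mul_pow]
          congr 1
          rw [ht]; field_simp
        rw [e2, ← ht]
        have e3 : t ^ (r + 1) ≤ t := by
          calc t ^ (r + 1) ≤ t ^ 1 := pow_le_pow_of_le_one ht0.le (by linarith) (by omega)
            _ = t := pow_one t
        have e4 : (h / N : ℝ) ^ (r + 1) ≤ (2 * h / N : ℝ) ^ (r + 1) := by
          gcongr
          have : (0 : ℝ) ≤ h := Nat.cast_nonneg h
          linarith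
        gcongr
      calc |ω| * |Real.cos (α * m + φ + α * h) - ∑ j ∈ range (r + 1),
            Real.cos (α * m + φ + j * (Real.pi / 2)) / (j.factorial : ℝ) * (α * h) ^ j| ≤
            |ω| * (2 * (α * N * (2 * h / N) ^ (r + 1))) := by
              gcongr
              linarith
        _ = _ := by ring
  · -- the differences
    obtain ⟨σ, hσ, hσω⟩ : ∃ σ : ℝ, (σ = 1 ∨ σ = -1) ∧ σ * ω = |ω| := by
      rcases abs_cases ω with ⟨h1, _⟩ | ⟨h1, _⟩
      · exact ⟨1, Or.inl rfl, by rw [h1]; ring⟩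
      · exact ⟨-1, Or.inr rfl, by rw [h1]; ring⟩
    have hd : ∀ m : ℕ, (-σ * s) * (ω * Real.cos (α * ((m + 1 : ℕ) : ℝ) + φ) - ω * Real.cos (α * m + φ)) =
        2 * |ω| * Real.sin (α / 2) * (s * Real.sin (α * m + α / 2 + φ)) := by
      intro m
      have e1 : Real.cos (α * ((m + 1 : ℕ) : ℝ) + φ) - Real.cos (α * m + φ) =
          -2 * Real.sin (α * m + α / 2 + φ) * Real.sin (α / 2) := by
        rw [Real.cos_sub_cos]
        congr 2
        · congr 1
          push_cast
          ring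
        · push_cast
          ring
      rw [← mul_sub, e1, ← hσω]
      ring
    have hsinα : α / Real.pi ≤ Real.sin (α / 2) := by
      have h1 := Real.mul_le_sin (x := α / 2) (by positivity) (by
        have := Real.pi_gt_three
        linarith)
      refine le_trans (le_of_eq ?_) h1
      field_simp
    refine ⟨-σ * s, ?_, ?_, ?_⟩
    · rcases hσ with rfl | rfl <;> rcases hs with rfl | rfl <;> simp
    · intro m hm1 hm2
      obtain ⟨x1, x2⟩ := hxm m hm1 hm2
      rw [hd]
      have h1 := hsx (α * m + α / 2) (by linarith) (by linarith)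
      have hpi := Real.pi_le_four
      have hpi0 := Real.pi_pos
      have hpm : 0 ≤ s * Real.sin (α * m + α / 2 + φ) := le_trans (by positivity) h1
      have hsin0 : 0 ≤ Real.sin (α / 2) := le_trans (by positivity) hsinα
      calc |ω| * α * N / N = |ω| * α := by field_simp
        _ = (8 / η) * (2 * |ω| * (α / 4) * (η / 4)) := by field_simp; ring
        _ ≤ Real.exp A * (2 * |ω| * (α / Real.pi) * (η / 4)) := by gcongr
        _ ≤ Real.exp A * (2 * |ω| * Real.sin (α / 2) * (s * Real.sin (α * m + α / 2 + φ))) := by gcongr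
    · have hdd : ∀ m : ℕ, (-σ * s) * (ω * Real.cos (α * ((m + 2 : ℕ) : ℝ) + φ) - ω * Real.cos (α * ((m + 1 : ℕ) : ℝ) + φ)) -
          (-σ * s) * (ω * Real.cos (α * ((m + 1 : ℕ) : ℝ) + φ) - ω * Real.cos (α * m + φ)) =
          2 * |ω| * (1 - Real.cos α) * (s * Real.cos (α * (m + 1 : ℕ) + φ)) := by
        intro m
        have e1 : Real.cos (α * ((m + 2 : ℕ) : ℝ) + φ) = Real.cos ((α * (m + 1 : ℕ) + φ) + α) := by
          congr 1; push_cast; ring
        have e2 : Real.cos (α * (m : ℝ) + φ) = Real.cos ((α * (m + 1 : ℕ) + φ) - α) := by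
          congr 1; push_cast; ring
        rw [e1, e2, Real.cos_add, Real.cos_sub, ← hσω]
        ring
      have hcosα : 0 ≤ 1 - Real.cos α := by linarith [Real.cos_le_one α]
      have hsc : s = c ∨ s = -c := by
        rcases hs with rfl | rfl <;> rcases hc with rfl | rfl <;> simp
      rcases hsc with hsc | hsc
      · right
        intro m hm1 hm2
        have h1 := hdd m
        obtain ⟨x1, x2⟩ := hxm (m + 1) (by omega) (by omega)
        have h2 := hcx (α * ((m + 1 : ℕ) : ℝ)) x1 (by linarith)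
        rw [hsc] at h1 ⊢
        have h3 : 0 ≤ 2 * |ω| * (1 - Real.cos α) * (c * Real.cos (α * (m + 1 : ℕ) + φ)) := by
          apply mul_nonneg (by positivity)
          linarith
        linarith
      · left
        intro m hm1 hm2
        have h1 := hdd m
        obtain ⟨x1, x2⟩ := hxm (m + 1) (by omega) (by omega)
        have h2 := hcx (α * ((m + 1 : ℕ) : ℝ)) x1 (by linarith)
        have h3 : 0 ≤ 2 * |ω| * (1 - Real.cos α) * (c * Real.cos (α * (m + 1 : ℕ) + φ)) := by
          apply mul_nonneg (by positivity)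
          linarith
        have h4 : 2 * |ω| * (1 - Real.cos α) * (s * Real.cos (α * (m + 1 : ℕ) + φ)) =
            -(2 * |ω| * (1 - Real.cos α) * (c * Real.cos (α * (m + 1 : ℕ) + φ))) := by
          rw [hsc]; ring
        rw [h4] at h1
        linarith

end Pool.Agent.H17.GS
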