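import Pool.Agent.H17.GS.Hi2

/-!
# Counting pairs of coefficients with a small derivative at a root (helper17)
-/

set_option autoImplicit false

namespace Pool.Agent.H17.GS

open Finset Filter Topology Polynomial

lemma int_count (α L : ℝ) (hL : 0 ≤ L) : {n : ℤ | |(n : ℝ) + α| ≤ L}.Finite ∧
    ({n : ℤ | |(n : ℝ) + α| ≤ L}.ncard : ℝ) ≤ 2 * L + 1 := by
  have h1 : {n : ℤ | |(n : ℝ) + α| ≤ L} ⊆ ((Finset.Icc ⌈-α - L⌉ ⌊-α + L⌋ : Finset ℤ) : Set ℤ) := by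
    intro n hn
    rw [Finset.mem_coe, Finset.mem_Icc, Int.ceil_le, Int.le_floor]
    have h2 := abs_le.1 (show |(n : ℝ) + α| ≤ L from hn)
    constructor <;> linarith [h2.1, h2.2]
  refine ⟨(Finset.finite_toSet _).subset h1, ?_⟩
  have h2 := Set.ncard_le_ncard h1 (Finset.finite_toSet _)
  rw [Set.ncard_coe_finset, Int.card_Icc] at h2
  have h3 : ((({n : ℤ | |(n : ℝ) + α| ≤ L}.ncard : ℕ)) : ℝ) ≤ ((⌊-α + L⌋ + 1 - ⌈-α - L⌉).toNat : ℕ) := by
    exact_mod_cast h2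
  refine h3.trans ?_
  rcases le_or_gt 0 (⌊-α + L⌋ + 1 - ⌈-α - L⌉) with h | h
  · have e1 : (((⌊-α + L⌋ + 1 - ⌈-α - L⌉).toNat : ℕ) : ℝ) = ((⌊-α + L⌋ + 1 - ⌈-α - L⌉ : ℤ) : ℝ) := by
      have := Int.toNat_of_nonneg h
      exact_mod_cast congrArg (Int.cast : ℤ → ℝ) this
    rw [e1]
    push_cast
    have e2 := Int.floor_le (-α + L)
    have e3 := Int.le_ceil (-α - L)
    linarith
  · rw [Int.toNat_of_nonpos h.le, Nat.cast_zero]
    linarith

lemma pair_count (α L M : ℝ) (β : ℤ → ℝ) (hL : 0 ≤ L) (hM : 0 ≤ M) :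
    {p : ℤ × ℤ | |(p.2 : ℝ) + α| ≤ L ∧ |(p.1 : ℝ) + β p.2| ≤ M}.Finite ∧
    ({p : ℤ × ℤ | |(p.2 : ℝ) + α| ≤ L ∧ |(p.1 : ℝ) + β p.2| ≤ M}.ncard : ℝ) ≤ (2 * L + 1) * (2 * M + 1) := by
  obtain ⟨h1, h2⟩ := int_count α L hL
  have hf : ∀ a : ℤ, {p : ℤ × ℤ | p.2 = a ∧ |(p.1 : ℝ) + β a| ≤ M} =
      (fun n : ℤ => ((n, a) : ℤ × ℤ)) '' {n : ℤ | |(n : ℝ) + β a| ≤ M} := by
    intro a
    ext ⟨m, n⟩
    constructor
    · rintro ⟨e1, e2⟩
      exact ⟨m, e2, by simp only at e1; rw [e1]⟩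
    · rintro ⟨k, e1, e2⟩
      rw [Prod.mk.injEq] at e2
      obtain ⟨rfl, rfl⟩ := e2
      exact ⟨rfl, e1⟩
  have hffin : ∀ a : ℤ, {p : ℤ × ℤ | p.2 = a ∧ |(p.1 : ℝ) + β a| ≤ M}.Finite := by
    intro a
    rw [hf]
    exact (int_count (β a) M hM).1.image _
  have hfc : ∀ a ∈ h1.toFinset, (({p : ℤ × ℤ | p.2 = a ∧ |(p.1 : ℝ) + β a| ≤ M}.ncard : ℕ) : ℝ) ≤ 2 * M + 1 := by
    intro a _
    rw [hf]
    have e1 := Set.ncard_image_le (f := fun n : ℤ => ((n, a) : ℤ × ℤ)) (int_count (β a) M hM).1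
    exact le_trans (by exact_mod_cast e1) (int_count (β a) M hM).2
  have hcov : ∀ p ∈ {p : ℤ × ℤ | |(p.2 : ℝ) + α| ≤ L ∧ |(p.1 : ℝ) + β p.2| ≤ M}, ∃ a ∈ h1.toFinset,
      p ∈ (fun a : ℤ => {p : ℤ × ℤ | p.2 = a ∧ |(p.1 : ℝ) + β a| ≤ M}) a := by
    rintro p ⟨e1, e2⟩
    exact ⟨p.2, by rw [Set.Finite.mem_toFinset]; exact e1, rfl, e2⟩
  refine ⟨?_, ?_⟩
  · refine (Set.Finite.biUnion (Finset.finite_toSet h1.toFinset) fun a _ => hffin a).subset ?_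
    intro p hp
    obtain ⟨a, e1, e2⟩ := hcov p hp
    exact Set.mem_biUnion (show a ∈ (h1.toFinset : Set ℤ) from e1) e2
  · have h3 := ncard_cover _ _ _ _ hcov hffin hfc
    refine h3.trans ?_
    rw [← Set.ncard_eq_toFinset_card _ h1]
    gcongr

/-- the pairs with a small derivative at a root -/
def badE (Q : ℝ[X]) (H : ℕ) (R : ℝ) : Set (ℤ × ℤ) :=
  {p | |p.1| ≤ H ∧ |p.2| ≤ H ∧ ∃ x : ℝ, |x| ≤ R ∧ Q.eval x + p.2 * x + p.1 = 0 ∧
    |Q.derivative.eval x + p.2| ≤ H / R ^ 2}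

theorem eset {q H V : ℕ} {R W : ℝ} (hs : Sz q H V R W) {Q : ℝ[X]} (hD : Q.natDegree ≤ q + 2)
    (hQ : ∀ k, |Q.coeff k| ≤ H) : ((badE Q H R).ncard : ℝ) ≤ H ^ 2 / R ^ 2 := by
  have hV50 := hs.V50
  have hR100 := hs.R100
  have hR0 : 0 < R := by linarith
  have hR1 : 1 ≤ R := by linarith
  have hVH := hs.VH
  have hH0 : (0 : ℝ) < H := by linarith
  have hq0 : (0 : ℝ) ≤ q := Nat.cast_nonneg q
  have hRH : R ^ (q + 10) ≤ H := ((hs.Rp (by nlinarith)).trans hs.WV).trans hVH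
  obtain ⟨g, hg⟩ : ∃ g : ℕ, g = ⌈R ^ (q + 6)⌉₊ := ⟨_, rfl⟩
  have hg1 : R ^ (q + 6) ≤ g := by rw [hg]; exact Nat.le_ceil _
  have hR6 : 1 ≤ R ^ (q + 6) := one_le_pow₀ hR1
  have hg2 : (g : ℝ) ≤ 2 * R ^ (q + 6) := by
    rw [hg]
    have := Nat.ceil_lt_add_one (show 0 ≤ R ^ (q + 6) by positivity)
    linarith
  have hg0 : (0 : ℝ) < g := by linarith
  obtain ⟨δ, hδ⟩ : ∃ δ : ℝ, δ = H / R ^ 2 := ⟨_, rfl⟩
  have hδ0 : 0 < δ := by rw [hδ]; positivity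
  have hδ1 : 100 ≤ δ := by
    rw [hδ, le_div_iff₀ (by positivity)]
    refine le_trans ?_ hRH
    calc 100 * R ^ 2 ≤ R * R ^ 2 := by gcongr
      _ = R ^ 3 := by ring
      _ ≤ R ^ (q + 10) := pow_le_pow_right₀ hR1 (by omega)
  -- the bound for the second derivative
  obtain ⟨G, hG⟩ : ∃ G : ℝ, G = H * R ^ (q + 4) := ⟨_, rfl⟩
  have hG0 : 0 < G := by rw [hG]; positivity
  have hGg : G / g ≤ δ := by
    rw [div_le_iff₀ hg0, hG, hδ]
    calc (H : ℝ) * R ^ (q + 4) = H / R ^ 2 * R ^ (q + 6) := by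
          rw [div_mul_eq_mul_div, eq_div_iff (by positivity)]
          ring
      _ ≤ H / R ^ 2 * g := by gcongr
  have hcK : ((q : ℝ) + 3) ^ 3 * 4 ^ (q + 3) ≤ R := by
    have e1 := hs.hK
    have e2 : 0 ≤ ((q : ℝ) + 3) ^ 3 * 4 ^ (q + 3) := by positivity
    nlinarith
  -- Taylor
  have hT1 : ∀ ξ h : ℝ, |ξ| ≤ 2 * R → |h| ≤ 1 → |Q.derivative.eval (ξ + h) - Q.derivative.eval ξ| ≤ G * |h| := by
    intro ξ h h1 h2
    have hdD : Q.derivative.natDegree ≤ q + 2 := (natDegree_derivative_le Q).trans (by omega)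
    refine (tay1 hdD (der_coeff hD hQ) hR1 h1 h2).trans ?_
    apply mul_le_mul_of_nonneg_right _ (abs_nonneg _)
    have e1 : (((q + 2 : ℕ) : ℝ) + 1) ^ 2 * 4 ^ (q + 2) * ((((q + 2 : ℕ) : ℝ) + 1) * H) * R ^ (q + 2) =
        (((q : ℝ) + 3) ^ 3 * 4 ^ (q + 2)) * H * R ^ (q + 2) := by
      push_cast
      ring
    rw [e1, hG]
    have e2 : ((q : ℝ) + 3) ^ 3 * 4 ^ (q + 2) ≤ R := by
      refine le_trans ?_ hcK
      gcongr
      · norm_num
      · omega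
    calc (((q : ℝ) + 3) ^ 3 * 4 ^ (q + 2)) * H * R ^ (q + 2) ≤ R * H * R ^ (q + 2) := by gcongr
      _ = H * R ^ (q + 3) := by ring
      _ ≤ H * R ^ (q + 4) := by
          gcongr
          norm_num
  have hT2 : ∀ ξ h : ℝ, |ξ| ≤ 2 * R → |h| ≤ 1 →
      |Q.eval (ξ + h) - Q.eval ξ - Q.derivative.eval ξ * h| ≤ G * |h| ^ 2 := by
    intro ξ h h1 h2
    refine (tay2 (D := q + 1) hD hQ hR1 h1 h2).trans ?_
    apply mul_le_mul_of_nonneg_right _ (by positivity)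
    have e1 : (((q + 1 : ℕ) : ℝ) + 1 + 1) ^ 2 * 4 ^ (q + 1 + 1) * H * R ^ (q + 1 + 1) =
        (((q : ℝ) + 3) ^ 2 * 4 ^ (q + 2)) * H * R ^ (q + 2) := by
      push_cast
      ring
    rw [e1, hG]
    have e2 : ((q : ℝ) + 3) ^ 2 * 4 ^ (q + 2) ≤ R := by
      refine le_trans ?_ hcK
      gcongr
      · linarith
      · norm_num
      · norm_num
      · omega
    calc (((q : ℝ) + 3) ^ 2 * 4 ^ (q + 2)) * H * R ^ (q + 2) ≤ R * H * R ^ (q + 2) := by gcongr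
      _ = H * R ^ (q + 3) := by ring
      _ ≤ H * R ^ (q + 4) := by
          gcongr
          norm_num
  -- the cover
  obtain ⟨A, hA⟩ : ∃ A : ℕ, A = ⌈g * R⌉₊ + 1 := ⟨_, rfl⟩
  have hAr : (A : ℝ) ≤ g * R + 2 := by
    rw [hA]
    push_cast
    have := Nat.ceil_lt_add_one (show 0 ≤ g * R by positivity)
    linarith
  have hAr' : g * R + 1 ≤ (A : ℝ) := by
    rw [hA]
    push_cast
    have := Nat.le_ceil (g * R)
    linarith
  have hcover : ∀ p ∈ badE Q H R, ∃ i ∈ Finset.Icc (-(A : ℤ)) A, p ∈ (fun i : ℤ =>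
      {p : ℤ × ℤ | |(p.2 : ℝ) + Q.derivative.eval ((i : ℝ) / g)| ≤ 2 * δ ∧
        |(p.1 : ℝ) + (fun a : ℤ => Q.eval ((i : ℝ) / g) + a * ((i : ℝ) / g)) p.2| ≤ 3 * δ / g}) i := by
    rintro p ⟨h1, h2, x, h3, h4, h5⟩
    rw [← hδ] at h5
    obtain ⟨i, hi⟩ : ∃ i : ℤ, i = ⌊g * x⌋ := ⟨_, rfl⟩
    have hfl1 : (i : ℝ) ≤ g * x := by rw [hi]; exact Int.floor_le _
    have hfl2 : g * x < (i : ℝ) + 1 := by rw [hi]; exact Int.lt_floor_add_one _
    have h3' := abs_le.1 h3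
    have e1 : g * x ≤ g * R := by gcongr; exact h3'.2
    have e2 : -(g * R) ≤ g * x := by
      have : g * (-R) ≤ g * x := by gcongr; exact h3'.1
      linarith
    obtain ⟨ξ, hξ⟩ : ∃ ξ : ℝ, ξ = (i : ℝ) / g := ⟨_, rfl⟩
    obtain ⟨h, hh⟩ : ∃ h : ℝ, h = x - ξ := ⟨_, rfl⟩
    have hx : x = ξ + h := by rw [hh]; ring
    have hh0 : 0 ≤ h := by
      rw [hh, hξ, sub_nonneg, div_le_iff₀ hg0]
      linarith
    have hh1 : h ≤ 1 / g := by
      rw [hh, hξ, le_div_iff₀ hg0, sub_mul, div_mul_cancel₀ _ hg0.ne']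
      linarith
    have hh2 : h ≤ 1 := hh1.trans (by rw [div_le_one hg0]; linarith)
    have hhabs : |h| = h := abs_of_nonneg hh0
    have hξR : |ξ| ≤ 2 * R := by
      have : ξ = x - h := by rw [hh]; ring
      rw [this]
      refine (abs_sub _ _).trans ?_
      rw [hhabs]
      linarith
    have t1 := hT1 ξ h hξR (by rw [hhabs]; exact hh2)
    have t2 := hT2 ξ h hξR (by rw [hhabs]; exact hh2)
    rw [← hx, hhabs] at t1 t2
    have t3 : G * h ≤ δ := by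
      calc G * h ≤ G * (1 / g) := by gcongr
        _ = G / g := by ring
        _ ≤ δ := hGg
    have hP' : |(p.2 : ℝ) + Q.derivative.eval ξ| ≤ 2 * δ := by
      have e3 : (p.2 : ℝ) + Q.derivative.eval ξ = (Q.derivative.eval x + p.2) -
          (Q.derivative.eval x - Q.derivative.eval ξ) := by ring
      rw [e3]
      refine (abs_sub _ _).trans ?_
      linarith
    refine ⟨i, ?_, ?_⟩
    · rw [Finset.mem_Icc]
      constructor
      · have : -(A : ℝ) ≤ i := by linarith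
        exact_mod_cast this
      · have : (i : ℝ) ≤ A := by linarith
        exact_mod_cast this
    · show |(p.2 : ℝ) + Q.derivative.eval ((i : ℝ) / g)| ≤ 2 * δ ∧
        |(p.1 : ℝ) + (Q.eval ((i : ℝ) / g) + p.2 * ((i : ℝ) / g))| ≤ 3 * δ / g
      rw [← hξ]
      refine ⟨hP', ?_⟩
      have e3 : (p.1 : ℝ) + (Q.eval ξ + p.2 * ξ) = -((p.2 : ℝ) + Q.derivative.eval ξ) * h -
          (Q.eval x - Q.eval ξ - Q.derivative.eval ξ * h) := by
        have : (p.2 : ℝ) * x = p.2 * ξ + p.2 * h := by rw [hx]; ring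
        linear_combination h4 - this
      rw [e3]
      refine (abs_sub _ _).trans ?_
      rw [abs_mul, abs_neg, hhabs]
      have e4 : |(p.2 : ℝ) + Q.derivative.eval ξ| * h ≤ 2 * δ * (1 / g) := by gcongr
      have e5 : G * h ^ 2 ≤ δ * (1 / g) := by
        calc G * h ^ 2 = G * h * h := by ring
          _ ≤ δ * (1 / g) := by gcongr
      calc |(p.2 : ℝ) + Q.derivative.eval ξ| * h + |Q.eval x - Q.eval ξ - Q.derivative.eval ξ * h| ≤
            2 * δ * (1 / g) + δ * (1 / g) := by linarith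
        _ = 3 * δ / g := by ring
  have hpc := fun i : ℤ => pair_count (Q.derivative.eval ((i : ℝ) / g)) (2 * δ) (3 * δ / g)
    (fun a : ℤ => Q.eval ((i : ℝ) / g) + a * ((i : ℝ) / g)) (by positivity) (by positivity)
  have hfinal := ncard_cover _ _ _ _ hcover (fun i => (hpc i).1) (fun i _ => (hpc i).2)
  refine hfinal.trans ?_
  rw [Int.card_Icc]
  have c1 : ((((A : ℤ) + 1 - -(A : ℤ)).toNat : ℕ) : ℝ) = 2 * A + 1 := by
    rw [show (A : ℤ) + 1 - -(A : ℤ) = ((2 * A + 1 : ℕ) : ℤ) by push_cast; ring, Int.toNat_natCast]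
    push_cast
    ring
  rw [c1]
  have hgR : 100 ≤ g * R := by nlinarith
  have d1 : 2 * (A : ℝ) + 1 ≤ 3 * (g * R) := by linarith
  have d2 : 2 * (2 * δ) + 1 ≤ 5 * δ := by linarith
  calc (2 * (A : ℝ) + 1) * ((2 * (2 * δ) + 1) * (2 * (3 * δ / g) + 1)) ≤
        3 * (g * R) * (5 * δ * (2 * (3 * δ / g) + 1)) := by gcongr
    _ = 90 * R * δ ^ 2 + 15 * R * δ * g := by
        field_simp
        ring
    _ ≤ 90 * R * δ ^ 2 + 15 * R * δ * (2 * R ^ (q + 6)) := by gcongr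
    _ ≤ H ^ 2 / R ^ 2 := by
        rw [hδ, le_div_iff₀ (by positivity)]
        have f1 : (90 * R * (H / R ^ 2) ^ 2 + 15 * R * (H / R ^ 2) * (2 * R ^ (q + 6))) * R ^ 2 =
            90 * H ^ 2 / R + 30 * H * R ^ (q + 7) := by
          field_simp
          ring
        rw [f1]
        have f2 : 90 * (H : ℝ) ^ 2 / R ≤ 9 / 10 * H ^ 2 := by
          rw [div_le_iff₀ hR0]
          have : 0 ≤ (H : ℝ) ^ 2 := by positivity
          nlinarith
        have f3 : 30 * H * R ^ (q + 7) ≤ 1 / 10 * (H : ℝ) ^ 2 := by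
          have f4 : 300 * R ^ (q + 7) ≤ H := by
            refine le_trans ?_ hRH
            calc 300 * R ^ (q + 7) ≤ R ^ 3 * R ^ (q + 7) := by
                  gcongr
                  calc (300 : ℝ) ≤ 100 ^ 3 := by norm_num
                    _ ≤ R ^ 3 := by gcongr
              _ = R ^ (q + 10) := by ring
          calc 30 * H * R ^ (q + 7) = 1 / 10 * H * (300 * R ^ (q + 7)) := by ring
            _ ≤ 1 / 10 * H * H := by gcongr
            _ = _ := by ring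
        linarith

end Pool.Agent.H17.GS
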