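import Pool.Agent.H17.GS.Cyc
import Pool.Agent.H17.GS.ESet

/-!
# The digits of `β + ω cos (2 π k / n + φ)` for almost all `k` modulo `n` (helper17)
-/

set_option autoImplicit false

namespace Pool.Agent.H17.GS

open Finset Filter Topology

/-- the sine is small only near the multiples of `π` -/
lemma sin_small {w δ : ℝ} (h : |Real.sin w| < 2 * δ) : |w / Real.pi - round (w / Real.pi)| ≤ δ := by
  obtain ⟨m, hm⟩ : ∃ m : ℤ, m = round (w / Real.pi) := ⟨_, rfl⟩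
  have hpi := Real.pi_pos
  have h1 : |w / Real.pi - m| ≤ 1 / 2 := by rw [hm]; exact abs_sub_round _
  obtain ⟨x, hx⟩ : ∃ x : ℝ, x = w / Real.pi - m := ⟨_, rfl⟩
  rw [← hm, ← hx]
  rw [← hx] at h1
  have hw : w = x * Real.pi + m * Real.pi := by
    rw [hx]; field_simp; ring
  have h2 : |Real.sin w| = |Real.sin (x * Real.pi)| := by
    rw [hw, Real.sin_add_int_mul_pi, abs_mul, abs_zpow, abs_neg, abs_one, one_zpow, one_mul]
  rw [h2] at h
  have h3 : 2 * |x| ≤ |Real.sin (x * Real.pi)| := by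
    have key : ∀ t : ℝ, 0 ≤ t → t ≤ 1 / 2 → 2 * t ≤ Real.sin (t * Real.pi) := by
      intro t ht0 ht1
      have := Real.mul_le_sin (x := t * Real.pi) (by positivity) (by nlinarith)
      refine le_trans (le_of_eq ?_) this
      field_simp
    rcases abs_cases x with ⟨e1, e2⟩ | ⟨e1, e2⟩
    · rw [e1] at h1 ⊢
      exact (key x e2 h1).trans (le_abs_self _)
    · rw [e1] at h1 ⊢
      refine (key (-x) (by linarith) h1).trans ?_
      rw [neg_mul, Real.sin_neg]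
      exact neg_le_abs _
  linarith

lemma nat_count (c L : ℝ) (hL : 0 ≤ L) : {k : ℕ | |(k : ℝ) - c| ≤ L}.Finite ∧
    ({k : ℕ | |(k : ℝ) - c| ≤ L}.ncard : ℝ) ≤ 2 * L + 1 := by
  obtain ⟨h1, h2⟩ := int_count (-c) L hL
  have hinj : Set.InjOn (fun k : ℕ => (k : ℤ)) {k : ℕ | |(k : ℝ) - c| ≤ L} :=
    fun a _ b _ h => Int.natCast_inj.1 h
  have hmaps : ∀ k ∈ {k : ℕ | |(k : ℝ) - c| ≤ L}, (k : ℤ) ∈ {n : ℤ | |(n : ℝ) + -c| ≤ L} := by
    intro k hk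
    show |((k : ℤ) : ℝ) + -c| ≤ L
    rw [Int.cast_natCast, ← sub_eq_add_neg]
    exact hk
  refine ⟨Set.Finite.of_injOn hmaps hinj h1, ?_⟩
  have h3 := Set.ncard_le_ncard_of_injOn (fun k : ℕ => (k : ℤ)) hmaps hinj h1
  exact le_trans (by exact_mod_cast h3) h2

/-- the number of the `k` for which the sine of `2 (2 π k / n + φ)` is small -/
lemma sin_count (n : ℕ) (hn : 1 ≤ n) (φ η : ℝ) (hη0 : 0 < η) (hη1 : η ≤ 1) :
    (({k : ℕ | 0 < k ∧ k ≤ n ∧ |Real.sin (2 * (2 * Real.pi / n * k + φ))| < 2 * η}.ncard : ℕ) : ℝ) ≤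
      10 * (η * n / 2 + 1) := by
  have hn0 : (0 : ℝ) < n := by exact_mod_cast hn
  have hpi := Real.pi_pos
  obtain ⟨p, hp⟩ : ∃ p : ℤ, p = ⌊2 * φ / Real.pi⌋ := ⟨_, rfl⟩
  have hp1 : (p : ℝ) ≤ 2 * φ / Real.pi := by rw [hp]; exact Int.floor_le _
  have hp2 : 2 * φ / Real.pi < (p : ℝ) + 1 := by rw [hp]; exact Int.lt_floor_add_one _
  have hcov : ∀ k ∈ {k : ℕ | 0 < k ∧ k ≤ n ∧ |Real.sin (2 * (2 * Real.pi / n * k + φ))| < 2 * η},
      ∃ m ∈ Finset.Icc (p - 2) (p + 7), k ∈ (fun m : ℤ =>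
        {k : ℕ | |(k : ℝ) - n / 4 * (m - 2 * φ / Real.pi)| ≤ η * n / 4}) m := by
    rintro k ⟨h1, h2, h3⟩
    have h4 := sin_small h3
    have hk : (k : ℝ) ≤ n := by exact_mod_cast h2
    have hk0 : (0 : ℝ) ≤ k := Nat.cast_nonneg k
    have e1 : 2 * (2 * Real.pi / n * k + φ) / Real.pi = 4 * (k / n) + 2 * φ / Real.pi := by
      field_simp
      ring
    rw [e1] at h4
    obtain ⟨m, hm⟩ : ∃ m : ℤ, m = round (4 * ((k : ℝ) / n) + 2 * φ / Real.pi) := ⟨_, rfl⟩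
    rw [← hm] at h4
    have h5 := abs_le.1 h4
    have hkn : (k : ℝ) / n ≤ 1 := by rw [div_le_one hn0]; exact hk
    have hkn0 : 0 ≤ (k : ℝ) / n := by positivity
    refine ⟨m, ?_, ?_⟩
    · rw [Finset.mem_Icc]
      constructor
      · have : ((p - 2 : ℤ) : ℝ) ≤ m := by push_cast; linarith [h5.2]
        exact_mod_cast this
      · have : (m : ℝ) ≤ ((p + 7 : ℤ) : ℝ) := by push_cast; linarith [h5.1]
        exact_mod_cast this
    · show |(k : ℝ) - n / 4 * (m - 2 * φ / Real.pi)| ≤ η * n / 4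
      have e2 : (k : ℝ) - n / 4 * (m - 2 * φ / Real.pi) = n / 4 * (4 * ((k : ℝ) / n) + 2 * φ / Real.pi - m) := by
        field_simp
        ring
      rw [e2, abs_mul, abs_of_pos (by positivity : (0 : ℝ) < n / 4)]
      calc (n : ℝ) / 4 * |4 * ((k : ℝ) / n) + 2 * φ / Real.pi - m| ≤ n / 4 * η := by gcongr
        _ = η * n / 4 := by ring
  have hpc := fun m : ℤ => nat_count (n / 4 * (m - 2 * φ / Real.pi)) (η * n / 4) (by positivity)
  have hfin := ncard_cover _ _ _ _ hcov (fun m => (hpc m).1) (fun m _ => (hpc m).2)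
  refine hfin.trans ?_
  rw [Int.card_Icc, show p + 7 + 1 - (p - 2) = 10 by ring]
  have e0 : (10 : ℤ).toNat = 10 := rfl
  rw [e0]
  push_cast
  linarith

/-- **The digits of cosines of rational angles** -/
theorem cyc : ∃ γ : ℝ, 0 < γ ∧ ∀ ε : ℝ, 0 < ε → ∃ n₀ : ℕ, ∀ n : ℕ, n₀ ≤ n → ∀ ω φ β : ℝ, ω ≠ 0 →
    |ω| ≤ Real.exp ((Real.log n) ^ (1 + γ)) →
      (({k : ℕ | 0 < k ∧ k ≤ n ∧ ∃ b u v : ℕ, 2 ≤ b ∧ (Real.log n) ^ (1 - γ) ≤ (v : ℝ) - u ∧
        v * Real.log b ≤ (Real.log n) ^ (1 + γ) ∧ 1 ≤ |ω| * (b : ℝ) ^ u ∧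
        ¬ EquiW (β + ω * Real.cos (2 * Real.pi / n * k + φ)) b u v ε}.ncard : ℕ) : ℝ) ≤
      n * Real.exp (-(Real.log n) ^ (1 / 10 : ℝ)) := by
  obtain ⟨γ', hγ0, hγ1, hmain⟩ := main2
  obtain ⟨γ, hγ⟩ : ∃ γ : ℝ, γ = γ' / 2 := ⟨_, rfl⟩
  refine ⟨γ, by rw [hγ]; positivity, ?_⟩
  intro ε hε
  obtain ⟨N₀, hN₀⟩ := hmain 1 le_rfl ε hε
  have hlog : Tendsto (fun N : ℕ => Real.log N) atTop atTop :=
    Real.tendsto_log_atTop.comp tendsto_natCast_atTop_atTop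
  have ev1 : ∀ᶠ y : ℝ in atTop, (Real.log (N₀ + 1) + 10) * y ^ (1 / 8 : ℝ) ≤ y ^ (1 / 4 : ℝ) :=
    ev_pow _ _ _ (by norm_num)
  have ev2 : ∀ᶠ y : ℝ in atTop, 4 * y ^ (1 / 4 : ℝ) ≤ y ^ (1 : ℝ) := ev_pow _ _ _ (by norm_num)
  have ev3 : ∀ᶠ y : ℝ in atTop, 16 * y ^ (1 + γ) ≤ y ^ (1 + γ') := ev_pow _ _ _ (by linarith)
  have ev4 : ∀ᶠ y : ℝ in atTop, 10000 * y ^ (1 / 5 : ℝ) ≤ y ^ (1 / 4 : ℝ) := ev_pow _ _ _ (by norm_num)
  have ev5 : ∀ᶠ y : ℝ in atTop, 20 * y ^ (1 / 10 : ℝ) ≤ y ^ (1 / 8 : ℝ) := ev_pow _ _ _ (by norm_num)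
  have ev6 : ∀ᶠ y : ℝ in atTop, 10 * y ^ (1 / 8 : ℝ) ≤ y ^ (3 / 5 : ℝ) := ev_pow _ _ _ (by norm_num)
  have ev7 : ∀ᶠ y : ℝ in atTop, 10 * y ^ (1 / 8 : ℝ) ≤ y ^ (1 - 3 * γ') := ev_pow _ _ _ (by linarith)
  have ev8 : ∀ᶠ y : ℝ in atTop, 1 * y ^ (1 - γ') ≤ y ^ (1 - γ) := ev_pow _ _ _ (by linarith)
  obtain ⟨n₀, hn₀⟩ := eventually_atTop.1 (hlog.eventually
    ((((ev1.and ev2).and (ev3.and ev4)).and ((ev5.and ev6).and (ev7.and ev8))).and (eventually_ge_atTop 16)))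
  refine ⟨max n₀ 1, ?_⟩
  intro n hn ω φ β hω hωle
  obtain ⟨⟨⟨⟨q1, q2⟩, q3, q4⟩, ⟨q5, q6⟩, q7, q8⟩, q9⟩ := hn₀ n ((le_max_left _ _).trans hn)
  have hn1 : 1 ≤ n := (le_max_right _ _).trans hn
  have hn0 : (0 : ℝ) < n := by exact_mod_cast hn1
  obtain ⟨y, hy⟩ : ∃ y : ℝ, y = Real.log n := ⟨_, rfl⟩
  rw [← hy] at q1 q2 q3 q4 q5 q6 q7 q8 q9 hωle ⊢
  rw [Real.rpow_one] at q2
  rw [one_mul] at q8
  have hy0 : 0 < y := by linarith
  have hnexp : (n : ℝ) = Real.exp y := by rw [hy, Real.exp_log hn0]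
  have hlN0 : 0 ≤ Real.log ((N₀ : ℝ) + 1) := Real.log_nonneg (by linarith [(Nat.cast_nonneg N₀ : (0 : ℝ) ≤ N₀)])
  have hy8 : 1 ≤ y ^ (1 / 8 : ℝ) := Real.one_le_rpow (by linarith) (by norm_num)
  have hy10 : 1 ≤ y ^ (1 / 10 : ℝ) := Real.one_le_rpow (by linarith) (by norm_num)
  obtain ⟨E, hE⟩ : ∃ E : ℝ, E = y ^ (1 / 8 : ℝ) := ⟨_, rfl⟩
  rw [← hE] at q1 q5 q6 q7 hy8
  have hE20 : 20 ≤ E := by linarith
  obtain ⟨η, hη⟩ : ∃ η : ℝ, η = Real.exp (-E) := ⟨_, rfl⟩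
  have hη0 : 0 < η := by rw [hη]; exact Real.exp_pos _
  have hη200 : η ≤ 1 / 200 := by
    have h1 := Real.quadratic_le_exp_of_nonneg (show 0 ≤ E by linarith)
    rw [hη, Real.exp_neg, ← one_div]
    apply one_div_le_one_div_of_le (by norm_num)
    nlinarith
  have hη1 : η ≤ 1 := by linarith
  have hlogη : Real.log η = -E := by rw [hη, Real.log_exp]
  have hpi := Real.pi_pos
  have hpi3 := Real.pi_gt_three
  have hpi4 := Real.pi_le_four
  -- the length of the segments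
  obtain ⟨N, hN⟩ : ∃ N : ℕ, N = ⌊(n : ℝ) * η ^ 2⌋₊ := ⟨_, rfl⟩
  have hNle : (N : ℝ) ≤ n * η ^ 2 := by rw [hN]; exact Nat.floor_le (by positivity)
  have hNgt : (n : ℝ) * η ^ 2 < N + 1 := by rw [hN]; exact Nat.lt_floor_add_one _
  have hnη : Real.exp (y / 2) ≤ n * η ^ 2 := by
    rw [hnexp, hη, ← Real.exp_nat_mul, ← Real.exp_add]
    apply Real.exp_le_exp.2
    push_cast
    nlinarith
  have hy2 : 8 ≤ y / 2 := by linarith
  have hexp4 : (N₀ : ℝ) + 4 ≤ Real.exp (y / 2) := by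
    have h1 : Real.log ((N₀ : ℝ) + 1) + 2 ≤ y / 2 := by nlinarith
    have h2 := Real.exp_le_exp.2 h1
    rw [Real.exp_add, Real.exp_log (by positivity)] at h2
    have h3 := Real.quadratic_le_exp_of_nonneg (show (0 : ℝ) ≤ 2 by norm_num)
    have h4 : (0 : ℝ) ≤ N₀ := Nat.cast_nonneg _
    nlinarith
  have hNbig : (N₀ : ℝ) + 3 ≤ N := by linarith
  have hNN₀ : N₀ ≤ N := by
    have : (N₀ : ℝ) ≤ N := by linarith
    exact_mod_cast this
  have hN1r : (1 : ℝ) ≤ N := by linarith [(Nat.cast_nonneg N₀ : (0 : ℝ) ≤ N₀)]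
  have hN1 : 1 ≤ N := by exact_mod_cast hN1r
  have hN0 : (0 : ℝ) < N := by linarith
  have hN2 : n * η ^ 2 ≤ 2 * N := by linarith
  obtain ⟨z, hz⟩ : ∃ z : ℝ, z = Real.log N := ⟨_, rfl⟩
  have hzy : z ≤ y := by
    rw [hz, hy]
    apply Real.log_le_log hN0
    have : η ^ 2 ≤ 1 := pow_le_one₀ hη0.le hη1
    nlinarith
  have hyz : y / 2 - 1 ≤ z := by
    have h1 : Real.log (Real.exp (y / 2)) ≤ Real.log (2 * N) := Real.log_le_log (Real.exp_pos _) (by linarith)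
    rw [Real.log_exp, Real.log_mul (by norm_num) hN0.ne', ← hz] at h1
    have := Real.log_two_lt_d9
    linarith
  have hz4 : y / 4 ≤ z := by linarith
  have hz0 : 0 < z := by linarith
  have hpow : ∀ t : ℝ, 0 ≤ t → t ≤ 1 → y ^ t / 4 ≤ z ^ t := by
    intro t ht0 ht1
    have f1 : (y / 4) ^ t ≤ z ^ t := Real.rpow_le_rpow (by positivity) hz4 ht0
    have f2 : (y / 4) ^ t = y ^ t / 4 ^ t := Real.div_rpow hy0.le (by norm_num) t
    have f3 : (4 : ℝ) ^ t ≤ 4 ^ (1 : ℝ) := Real.rpow_le_rpow_of_exponent_le (by norm_num) ht1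
    rw [Real.rpow_one] at f3
    rw [f2] at f1
    refine le_trans ?_ f1
    gcongr
  -- the Taylor data
  obtain ⟨α, hα⟩ : ∃ α : ℝ, α = 2 * Real.pi / n := ⟨_, rfl⟩
  have hα0 : 0 < α := by rw [hα]; positivity
  have hαN1 : α * N ≤ 8 * η ^ 2 := by
    calc α * N ≤ α * (n * η ^ 2) := by gcongr
      _ = 2 * Real.pi * η ^ 2 := by rw [hα]; field_simp
      _ ≤ 8 * η ^ 2 := by gcongr; linarith
  have hαN2 : η ^ 2 ≤ α * N := by
    have h1 : α * (n * η ^ 2 / 2) ≤ α * N := by gcongr; linarith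
    have h2 : α * (n * η ^ 2 / 2) = Real.pi * η ^ 2 := by rw [hα]; field_simp
    rw [h2] at h1
    have h3 : 0 ≤ η ^ 2 := by positivity
    nlinarith
  have hαN3 : 16 * (α * N) ≤ η := by
    have h1 : 8 * η ^ 2 ≤ η / 16 := by nlinarith
    linarith
  obtain ⟨J, hJ⟩ : ∃ J : ℕ, J = ⌈30 * z ^ (2 * γ')⌉₊ + 1 := ⟨_, rfl⟩
  have hJ1 : 1 ≤ J := by omega
  have hJ2 : 30 * z ^ (2 * γ') ≤ J := by
    rw [hJ]; push_cast
    have := Nat.le_ceil (30 * z ^ (2 * γ'))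
    linarith
  have hyg : z ^ (2 * γ') ≤ y ^ (1 / 20 : ℝ) := by
    calc z ^ (2 * γ') ≤ y ^ (2 * γ') := Real.rpow_le_rpow hz0.le hzy (by linarith)
      _ ≤ y ^ (1 / 20 : ℝ) := Real.rpow_le_rpow_of_exponent_le (by linarith) (by linarith)
  have hy20 : 1 ≤ y ^ (1 / 20 : ℝ) := Real.one_le_rpow (by linarith) (by norm_num)
  have hJ3 : (J : ℝ) ≤ 32 * y ^ (1 / 20 : ℝ) := by
    rw [hJ]; push_cast
    have := Nat.ceil_lt_add_one (a := 30 * z ^ (2 * γ')) (by positivity)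
    linarith
  have hJ0 : (0 : ℝ) < J := by exact_mod_cast hJ1
  have hA : 8 / η * (J / (α * N)) ^ J ≤ Real.exp (z ^ (1 / 4 : ℝ)) := by
    have e1 : 8 / η ≤ Real.exp (3 + E) := by
      rw [Real.exp_add, hη, Real.exp_neg, div_inv_eq_mul]
      gcongr
      have := Real.quadratic_le_exp_of_nonneg (show (0 : ℝ) ≤ 3 by norm_num)
      linarith
    have e2 : J / (α * N) ≤ Real.exp (J + 2 * E) := by
      have f1 : (J : ℝ) ≤ Real.exp J := by linarith [Real.add_one_le_exp (J : ℝ)]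
      calc J / (α * N) ≤ J / η ^ 2 := by gcongr
        _ = J * Real.exp (2 * E) := by
            rw [hη, ← Real.exp_nat_mul, div_eq_mul_inv, ← Real.exp_neg]
            push_cast
            ring_nf
        _ ≤ Real.exp J * Real.exp (2 * E) := by gcongr
        _ = _ := by rw [← Real.exp_add]
    have e3 : (J / (α * N)) ^ J ≤ Real.exp (J * (J + 2 * E)) := by
      calc (J / (α * N)) ^ J ≤ (Real.exp (J + 2 * E)) ^ J := pow_le_pow_left₀ (by positivity) e2 J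
        _ = _ := by rw [← Real.exp_nat_mul]
    calc 8 / η * (J / (α * N)) ^ J ≤ Real.exp (3 + E) * Real.exp (J * (J + 2 * E)) := by gcongr
      _ = Real.exp (3 + E + J * (J + 2 * E)) := by rw [← Real.exp_add]
      _ ≤ _ := by
          apply Real.exp_le_exp.2
          have h14 := hpow (1 / 4) (by norm_num) (by norm_num)
          refine le_trans ?_ h14
          have g1 : (J : ℝ) * J ≤ (32 * y ^ (1 / 20 : ℝ)) * (32 * y ^ (1 / 20 : ℝ)) := by gcongr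
          have g2 : y ^ (1 / 20 : ℝ) * y ^ (1 / 20 : ℝ) ≤ y ^ (1 / 5 : ℝ) := by
            rw [← Real.rpow_add hy0]
            exact Real.rpow_le_rpow_of_exponent_le (by linarith) (by norm_num)
          have g3 : (J : ℝ) * E ≤ (32 * y ^ (1 / 20 : ℝ)) * y ^ (1 / 8 : ℝ) := by
            rw [hE]; gcongr
          have g4 : y ^ (1 / 20 : ℝ) * y ^ (1 / 8 : ℝ) ≤ y ^ (1 / 5 : ℝ) := by
            rw [← Real.rpow_add hy0]
            exact Real.rpow_le_rpow_of_exponent_le (by linarith) (by norm_num)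
          have g5 : E ≤ y ^ (1 / 5 : ℝ) := by
            rw [hE]
            exact Real.rpow_le_rpow_of_exponent_le (by linarith) (by norm_num)
          nlinarith
  -- windows
  have hwin1 : z ^ (1 - γ') ≤ y ^ (1 - γ) := by
    refine le_trans ?_ q8
    exact Real.rpow_le_rpow hz0.le hzy (by linarith)
  have hwin2 : y ^ (1 + γ) ≤ z ^ (1 + γ') := by
    have f1 : (y / 4) ^ (1 + γ') ≤ z ^ (1 + γ') := Real.rpow_le_rpow (by positivity) hz4 (by linarith)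
    have f2 : (y / 4) ^ (1 + γ') = y ^ (1 + γ') / 4 ^ (1 + γ') := Real.div_rpow hy0.le (by norm_num) _
    have f3 : (4 : ℝ) ^ (1 + γ') ≤ 16 := by
      calc (4 : ℝ) ^ (1 + γ') ≤ 4 ^ (2 : ℝ) := Real.rpow_le_rpow_of_exponent_le (by norm_num) (by linarith)
        _ = 16 := by norm_num
    rw [f2] at f1
    refine le_trans ?_ f1
    rw [le_div_iff₀ (by positivity)]
    have f4 : 0 ≤ y ^ (1 + γ) := by positivity
    nlinarith
  have hT : |ω| * α * N ≤ Real.exp (z ^ (1 + γ')) := by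
    calc |ω| * α * N = |ω| * (α * N) := by ring
      _ ≤ Real.exp (y ^ (1 + γ)) * 1 := by
          gcongr
          linarith
      _ ≤ Real.exp (z ^ (1 + γ')) := by
          rw [mul_one]
          exact Real.exp_le_exp.2 hwin2
  have hlowT : Real.exp (-z ^ (1 - 3 * γ')) ≤ η ^ 2 := by
    rw [hη, ← Real.exp_nat_mul]
    apply Real.exp_le_exp.2
    have h1 := hpow (1 - 3 * γ') (by linarith) (by linarith)
    push_cast
    linarith
  -- the properties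
  obtain ⟨Bd, hBd⟩ : ∃ Bd : ℝ → Prop, Bd = fun x => ∃ b u v : ℕ, 2 ≤ b ∧ y ^ (1 - γ) ≤ (v : ℝ) - u ∧
        v * Real.log b ≤ y ^ (1 + γ) ∧ 1 ≤ |ω| * (b : ℝ) ^ u ∧ ¬ EquiW x b u v ε := ⟨_, rfl⟩
  obtain ⟨φs, hφs⟩ : ∃ φs : ℕ → ℝ, φs = fun s : ℕ => φ + α * (((s : ℝ) - 1) * N) := ⟨_, rfl⟩
  have hseg : ∀ s : ℕ, ∀ m : ℕ, α * m + φs s = α * ((m : ℝ) + s * N - N) + φ := by
    intro s m
    rw [hφs]
    ring
  obtain ⟨Fs, hFs⟩ : ∃ Fs : ℕ → Set ℕ, Fs = fun s : ℕ => {k : ℕ | s * N < k ∧ k ≤ (s + 1) * N ∧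
      η ≤ |Real.sin (2 * (α * N + φs s))| ∧ Bd (β + ω * Real.cos (α * k + φ))} := ⟨_, rfl⟩
  have hFfin : ∀ s, (Fs s).Finite := by
    intro s
    rw [hFs]
    exact (Set.finite_Icc 0 ((s + 1) * N)).subset fun k hk => ⟨Nat.zero_le _, hk.2.1⟩
  have hFcard : ∀ s, ((Fs s).ncard : ℝ) ≤ N * Real.exp (-z ^ (3 / 5 : ℝ)) := by
    intro s
    rcases Set.eq_empty_or_nonempty (Fs s) with hem | ⟨k₀, hk₀⟩
    · rw [hem, Set.ncard_empty, Nat.cast_zero]
      positivity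
    · rw [hFs] at hk₀
      have hgood := hk₀.2.2.1
      have hdat := cos_dat (φ := φs s) hN1 hJ1 hα0 hω hη0 hη1 hαN3 hgood hA
      have hb := hN₀ N J (|ω| * α * N) (z ^ (1 / 4 : ℝ)) β (fun m => ω * Real.cos (α * m + φs s)) hNN₀
        (by positivity) (by rw [hz]) hdat (by rw [← hz]; exact hJ2) (by rw [← hz]; exact hT)
      rw [← hz] at hb
      refine le_trans ?_ hb
      refine Nat.cast_le.2 ?_
      refine (Set.ncard_le_ncard (t := (fun m : ℕ => m + s * N - N) '' {m : ℕ | N < m ∧ m ≤ 2 * N ∧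
        ∃ b u v : ℕ, 2 ≤ b ∧ z ^ (1 - γ') ≤ (v : ℝ) - u ∧ v * Real.log b ≤ z ^ (1 + γ') ∧
        Real.exp (-z ^ (1 - 3 * γ')) ≤ (b : ℝ) ^ u * (|ω| * α * N) ∧
        ¬ EquiW (ω * Real.cos (α * m + φs s) + β) b u v ε}) ?_
        (((Set.finite_Icc 0 (2 * N)).subset fun m hm => ⟨Nat.zero_le _, hm.2.1⟩).image _)).trans
        (Set.ncard_image_le ((Set.finite_Icc 0 (2 * N)).subset fun m hm => ⟨Nat.zero_le _, hm.2.1⟩))
      rw [hFs]
      rintro k ⟨h1, h2, h3, h4⟩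
      rw [hBd] at h4
      obtain ⟨b, u, v, w1, w2, w3, w4, w5⟩ := h4
      have hmul : (s + 1) * N = s * N + N := by ring
      rw [hmul] at h2
      obtain ⟨m, hm⟩ : ∃ m : ℕ, m = k + N - s * N := ⟨_, rfl⟩
      have hmk : m + s * N = k + N := by omega
      have hmkr : (m : ℝ) + s * N = k + N := by exact_mod_cast hmk
      refine ⟨m, ⟨by omega, by omega, b, u, v, w1, hwin1.trans w2, w3.trans hwin2, ?_, ?_⟩, ?_⟩
      · refine hlowT.trans ?_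
        calc η ^ 2 ≤ 1 * (α * N) := by rw [one_mul]; exact hαN2
          _ ≤ (|ω| * (b : ℝ) ^ u) * (α * N) := by gcongr
          _ = _ := by ring
      · rw [hseg s m, show (m : ℝ) + s * N - N = k by linarith, add_comm]
        exact w5
      · show m + s * N - N = k
        omega
  -- the cover
  have hcov : ∀ k ∈ {k : ℕ | (0 < k ∧ k ≤ n ∧ Bd (β + ω * Real.cos (α * k + φ))) ∧
      ¬ |Real.sin (2 * (α * k + φ))| < 2 * η}, ∃ s ∈ Finset.range (n / N + 1), k ∈ Fs s := by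
    rintro k ⟨⟨h1, h2, h3⟩, h4⟩
    refine ⟨(k - 1) / N, ?_, ?_⟩
    · rw [Finset.mem_range]
      have : (k - 1) / N ≤ n / N := Nat.div_le_div_right (by omega)
      omega
    · rw [hFs]
      obtain ⟨s, hs⟩ : ∃ s : ℕ, s = (k - 1) / N := ⟨_, rfl⟩
      rw [← hs]
      have e1 : s * N ≤ k - 1 := by rw [hs]; exact Nat.div_mul_le_self _ _
      have e2 : k - 1 < (s + 1) * N := by
        rw [hs, mul_comm]
        exact Nat.lt_mul_div_succ _ (by omega)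
      refine ⟨by omega, by omega, ?_, h3⟩
      rw [hseg s N, show (N : ℝ) + s * N - N = s * N by ring]
      push Not at h4
      have e3 : (s : ℝ) * N ≤ k := by
        have : s * N ≤ k := by omega
        exact_mod_cast this
      have e4 : (k : ℝ) ≤ s * N + N := by
        have : k ≤ (s + 1) * N := by omega
        have h5 : (k : ℝ) ≤ ((s + 1) * N : ℕ) := by exact_mod_cast this
        push_cast at h5
        linarith
      have e5 := sin_near (2 * (α * k + φ)) (2 * (α * (s * N) + φ))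
      have e6 : |2 * (α * k + φ) - 2 * (α * (s * N) + φ)| ≤ η := by
        rw [show 2 * (α * k + φ) - 2 * (α * (s * N) + φ) = 2 * (α * (k - s * N)) by ring,
          abs_of_nonneg (mul_nonneg (by norm_num) (mul_nonneg hα0.le (by linarith)))]
        have : α * (k - s * N) ≤ α * N := by gcongr; linarith
        linarith
      have e7 := abs_sub_abs_le_abs_sub (Real.sin (2 * (α * k + φ))) (Real.sin (2 * (α * (s * N) + φ)))
      linarith
  have hcard2 := ncard_cover _ _ _ _ hcov hFfin (fun s _ => hFcard s)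
  have hcard1 := sin_count n hn1 φ η hη0 hη1
  rw [← hα] at hcard1
  have hsub : {k : ℕ | 0 < k ∧ k ≤ n ∧ ∃ b u v : ℕ, 2 ≤ b ∧ y ^ (1 - γ) ≤ (v : ℝ) - u ∧
        v * Real.log b ≤ y ^ (1 + γ) ∧ 1 ≤ |ω| * (b : ℝ) ^ u ∧
        ¬ EquiW (β + ω * Real.cos (2 * Real.pi / n * k + φ)) b u v ε} ⊆
      {k : ℕ | 0 < k ∧ k ≤ n ∧ |Real.sin (2 * (α * k + φ))| < 2 * η} ∪
      {k : ℕ | (0 < k ∧ k ≤ n ∧ Bd (β + ω * Real.cos (α * k + φ))) ∧ ¬ |Real.sin (2 * (α * k + φ))| < 2 * η} := by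
    rintro k ⟨h1, h2, h3⟩
    rw [← hα] at h3
    by_cases h4 : |Real.sin (2 * (α * k + φ))| < 2 * η
    · exact Or.inl ⟨h1, h2, h4⟩
    · right
      refine ⟨⟨h1, h2, ?_⟩, h4⟩
      rw [hBd]
      exact h3
  have hfin1 : {k : ℕ | 0 < k ∧ k ≤ n ∧ |Real.sin (2 * (α * k + φ))| < 2 * η}.Finite :=
    (Set.finite_Icc 0 n).subset fun k hk => ⟨Nat.zero_le _, hk.2.1⟩
  have hfin2 : {k : ℕ | (0 < k ∧ k ≤ n ∧ Bd (β + ω * Real.cos (α * k + φ))) ∧
      ¬ |Real.sin (2 * (α * k + φ))| < 2 * η}.Finite :=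
    (Set.finite_Icc 0 n).subset fun k hk => ⟨Nat.zero_le _, hk.1.2.1⟩
  have hfinal := (Set.ncard_le_ncard hsub (hfin1.union hfin2)).trans (Set.ncard_union_le _ _)
  refine le_trans (Nat.cast_le.2 hfinal) ?_
  rw [Nat.cast_add]
  refine (add_le_add hcard1 hcard2).trans ?_
  rw [Finset.card_range]
  -- numbers
  have hdiv : (((n / N + 1 : ℕ) : ℝ)) * N ≤ 2 * n := by
    have h1 : (n / N) * N ≤ n := Nat.div_mul_le_self _ _
    have h2 : (((n / N) * N : ℕ) : ℝ) ≤ n := by exact_mod_cast h1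
    push_cast at h2 ⊢
    have h3 : (N : ℝ) ≤ n := by
      refine hNle.trans ?_
      have : η ^ 2 ≤ 1 := pow_le_one₀ hη0.le hη1
      nlinarith
    linarith
  have hηn : 1 ≤ η * n := by
    have h1 : Real.exp (y / 2) ≤ n * η := by
      refine hnη.trans ?_
      have : η ^ 2 ≤ η := by nlinarith
      gcongr
    linarith [(Nat.cast_nonneg N₀ : (0 : ℝ) ≤ N₀)]
  obtain ⟨X, hX⟩ : ∃ X : ℝ, X = y ^ (1 / 10 : ℝ) := ⟨_, rfl⟩
  rw [← hX] at q5 ⊢
  have hX1 : 1 ≤ X := by rw [hX]; exact hy10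
  have hηX : η ≤ Real.exp (-X) * Real.exp (-19) := by
    rw [hη, ← Real.exp_add]
    apply Real.exp_le_exp.2
    linarith
  have hzX : Real.exp (-z ^ (3 / 5 : ℝ)) ≤ Real.exp (-X) * Real.exp (-19) := by
    rw [← Real.exp_add]
    apply Real.exp_le_exp.2
    have h1 := hpow (3 / 5) (by norm_num) (by norm_num)
    linarith
  have h19 : Real.exp (-19) ≤ 1 / 30 := by
    rw [Real.exp_neg, ← one_div]
    apply one_div_le_one_div_of_le (by norm_num)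
    have := Real.quadratic_le_exp_of_nonneg (show (0 : ℝ) ≤ 19 by norm_num)
    linarith
  have hX0 : 0 < Real.exp (-X) := Real.exp_pos _
  have hb1 : η ≤ Real.exp (-X) / 30 := by
    refine hηX.trans ?_
    rw [div_eq_mul_one_div]
    gcongr
  have hb2 : Real.exp (-z ^ (3 / 5 : ℝ)) ≤ Real.exp (-X) / 30 := by
    refine hzX.trans ?_
    rw [div_eq_mul_one_div]
    gcongr
  calc 10 * (η * n / 2 + 1) + ((n / N + 1 : ℕ) : ℝ) * (N * Real.exp (-z ^ (3 / 5 : ℝ))) =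
        10 * (η * n / 2 + 1) + (((n / N + 1 : ℕ) : ℝ) * N) * Real.exp (-z ^ (3 / 5 : ℝ)) := by ring
    _ ≤ 10 * (η * n / 2 + η * n) + (2 * n) * Real.exp (-z ^ (3 / 5 : ℝ)) := by gcongr
    _ = n * (15 * η + 2 * Real.exp (-z ^ (3 / 5 : ℝ))) := by ring
    _ ≤ n * (15 * (Real.exp (-X) / 30) + 2 * (Real.exp (-X) / 30)) := by gcongr
    _ ≤ n * Real.exp (-X) := by
        apply mul_le_mul_of_nonneg_left _ hn0.le
        linarith

end Pool.Agent.H17.GS
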