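import Pool.Agent.H17.GS.Cx

/-!
# From holomorphic functions to the data of the exponential sums (helper17)
-/

set_option autoImplicit false

namespace Pool.Agent.H17.GS

open Finset Filter Metric
open scoped Nat

lemma rpow_low (θ : ℝ) {N x : ℝ} (hN : 0 < N) (h1 : N ≤ x) (h2 : x ≤ 3 * N) :
    (3 : ℝ) ^ (-|θ|) * N ^ θ ≤ x ^ θ := by
  have hx : 0 < x := by linarith
  have h3 : x = (x / N) * N := by field_simp
  have h4 : 0 < x / N := by positivity
  have h5 : 1 ≤ x / N := by rw [le_div_iff₀ hN]; linarith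
  have h6 : x / N ≤ 3 := by rw [div_le_iff₀ hN]; linarith
  rw [h3, Real.mul_rpow h4.le hN.le]
  gcongr
  rcases le_total 0 θ with h | h
  · have e1 : (3 : ℝ) ^ (-|θ|) ≤ 1 := by
      apply Real.rpow_le_one_of_one_le_of_nonpos (by norm_num)
      simp
    exact e1.trans (Real.one_le_rpow h5 h)
  · rw [abs_of_nonpos h, neg_neg]
    exact Real.rpow_le_rpow_of_nonpos h4 h6 h

lemma tc_one (f : ℂ → ℂ) (x : ℝ) : tc f x 1 = deriv f x := by
  rw [tc, iteratedDeriv_one]
  simp

lemma tc_two (f : ℂ → ℂ) (x : ℝ) : 2 * tc f x 2 = deriv (deriv f) x := by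
  rw [tc, iteratedDeriv_succ, iteratedDeriv_one]
  simp
  ring

theorem Near.dat (θ : ℝ) (hθ : ∀ m : ℕ, θ ≠ m) : ∃ G A c : ℝ, 1 ≤ G ∧ 0 ≤ A ∧ 0 < c ∧
    ∀ (η : ℝ), 0 < η → ∀ (N J : ℕ) (a : ℝ) (f : ℂ → ℂ), 8 ≤ N → a ≠ 0 → Near N a θ η f → 3 ≤ J →
      (12 : ℝ) ^ J ≤ c * (N : ℝ) ^ η →
      Dat N (|a| * (N : ℝ) ^ θ) G A J (fun n => (f (n : ℝ)).re) := by
  obtain ⟨B, hB0, hB⟩ := cf_lower θ hθ
  set b : ℝ := B * (3 : ℝ) ^ (-|θ|) with hb
  have hb0 : 0 < b := by positivity
  obtain ⟨A, hA⟩ : ∃ A : ℝ, A = Real.log (max (18 / b) 1) := ⟨_, rfl⟩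
  have hmax : 0 < max (18 / b) 1 := lt_of_lt_of_le one_pos (le_max_right _ _)
  have hA0 : 0 ≤ A := by rw [hA]; exact Real.log_nonneg (le_max_right _ _)
  have hexpA : 18 / b ≤ Real.exp A := by
    rw [hA, Real.exp_log hmax]; exact le_max_left _ _
  refine ⟨4 ^ |θ| + 1, A, b / 2, ?_, hA0, by positivity, ?_⟩
  · have : 0 ≤ (4 : ℝ) ^ |θ| := by positivity
    linarith
  intro η hη N J a f hN ha hf hJ hJN
  have hN8 : (8 : ℝ) ≤ N := by exact_mod_cast hN
  have hN0 : (0 : ℝ) < N := by linarith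
  have hN1 : (1 : ℝ) ≤ N := by linarith
  have ha0 : 0 < |a| := abs_pos.2 ha
  have hNθ : 0 < (N : ℝ) ^ θ := Real.rpow_pos_of_pos hN0 _
  set T : ℝ := |a| * (N : ℝ) ^ θ with hT
  have hT0 : 0 < T := by positivity
  -- the error terms
  have hNη : 0 < (N : ℝ) ^ η := Real.rpow_pos_of_pos hN0 _
  have herr : |a| * (N : ℝ) ^ (θ - η) = T / (N : ℝ) ^ η := by
    rw [hT, Real.rpow_sub hN0]; ring
  have herrJ : ∀ j : ℕ, j ≤ J → |a| * (N : ℝ) ^ (θ - η) * 12 ^ j ≤ T * (b / 2) := by
    intro j hj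
    rw [herr, div_mul_eq_mul_div, div_le_iff₀ hNη]
    have h1 : (12 : ℝ) ^ j ≤ 12 ^ J := pow_le_pow_right₀ (by norm_num) hj
    calc T * 12 ^ j ≤ T * (b / 2 * (N : ℝ) ^ η) := by
          apply mul_le_mul_of_nonneg_left (h1.trans hJN) hT0.le
      _ = _ := by ring
  -- the main term
  have hmain : ∀ (x : ℝ) (j : ℕ), (N : ℝ) ≤ x → x ≤ 3 * N →
      T * b / (3 * x) ^ j ≤ |a * (cf θ j * x ^ (θ - j))| := by
    intro x j h1 h2
    have hx : 0 < x := by linarith
    have h3 := rpow_low θ hN0 h1 h2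
    have h4 := hB j
    have h5 : |a * (cf θ j * x ^ (θ - j))| = |a| * (3 ^ j * |cf θ j|) * x ^ θ / (3 * x) ^ j := by
      rw [abs_mul, abs_mul, abs_of_pos (Real.rpow_pos_of_pos hx _), Real.rpow_sub hx, Real.rpow_natCast,
        mul_pow]
      field_simp
    rw [h5]
    apply div_le_div_of_nonneg_right _ (by positivity)
    calc T * b = |a| * B * ((3 : ℝ) ^ (-|θ|) * (N : ℝ) ^ θ) := by rw [hT, hb]; ring
      _ ≤ |a| * (3 ^ j * |cf θ j|) * x ^ θ := by gcongr
  refine ⟨hT0, ?_, ?_⟩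
  · intro n hn1 hn2
    have hn1' : (N : ℝ) ≤ n := by exact_mod_cast hn1
    have hn2' : (n : ℝ) ≤ 2 * N := by exact_mod_cast hn2
    have hn3 : (n : ℝ) ≤ 3 * N := by linarith
    have hn0 : (0 : ℝ) < n := by linarith
    refine ⟨fun j => (tc f n j).re, ?_, ?_, ?_, ?_⟩
    · simp [tc]
    · intro j _
      exact (Complex.abs_re_le_norm _).trans (hf.coef_le hN1 hη.le hn1' hn3 j)
    · intro j hj1 hjJ
      have h1 := hf.coef hN0 hn1' hn3 j
      have h2 := hmain n j hn1' hn3
      have h3 := herrJ j hjJ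
      have h4 : |(tc f n j).re - a * (cf θ j * (n : ℝ) ^ (θ - j))| ≤
          |a| * (N : ℝ) ^ (θ - η) * (2 / N) ^ j := by
        have := (Complex.abs_re_le_norm _).trans h1
        rwa [Complex.sub_re, Complex.ofReal_re] at this
      have h6N : 0 < (6 * (N : ℝ)) ^ j := by positivity
      have h5 : |a| * (N : ℝ) ^ (θ - η) * (2 / N) ^ j ≤ T * (b / 2) / (6 * N) ^ j := by
        rw [le_div_iff₀ h6N]
        have h12 : (2 / (N : ℝ)) ^ j * (6 * N) ^ j = 12 ^ j := by
          rw [← mul_pow]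
          congr 1
          field_simp
          norm_num
        rw [mul_assoc, h12]
        exact h3
      have h6 : T * b / (6 * N) ^ j ≤ |a * (cf θ j * (n : ℝ) ^ (θ - j))| := by
        refine le_trans ?_ h2
        apply div_le_div_of_nonneg_left (by positivity) (by positivity)
        apply pow_le_pow_left₀ (by positivity)
        linarith
      have h7 : T * (b / 2) / (6 * N) ^ j ≤ |(tc f n j).re| := by
        have e1 : |a * (cf θ j * (n : ℝ) ^ (θ - j))| ≤ |(tc f n j).re| +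
            |(tc f n j).re - a * (cf θ j * (n : ℝ) ^ (θ - j))| := by
          have := abs_sub_abs_le_abs_sub (a * (cf θ j * (n : ℝ) ^ (θ - j))) (tc f n j).re
          rw [abs_sub_comm] at this
          linarith
        have e2 : T * b / (6 * N) ^ j = T * (b / 2) / (6 * N) ^ j + T * (b / 2) / (6 * N) ^ j := by ring
        linarith
      have h8 : T / (6 * N) ^ j = 2 / b * (T * (b / 2) / (6 * N) ^ j) := by field_simp
      rw [h8]
      have h9 : 2 / b ≤ Real.exp A := by
        refine le_trans ?_ hexpA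
        gcongr
        norm_num
      gcongr
    · intro h r hh
      have h1 := hf.rem hN1 hη.le hn1' hn3 (Nat.cast_nonneg h) hh r
      simp only
      push_cast
      push_cast at h1
      exact h1
  · -- the differences
    have hrange : ∀ t : ℝ, (N : ℝ) ≤ t → t ≤ 3 * N →
        HasDerivAt (fun t : ℝ => (f t).re) ((deriv f t).re) t ∧
        HasDerivAt (fun t : ℝ => (deriv f t).re) ((deriv (deriv f) t).re) t := by
      intro t h1 h2
      have han := hf.diffAt hN0 h1 h2
      exact ⟨han.differentiableAt.hasDerivAt.real_of_complex,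
        han.deriv.differentiableAt.hasDerivAt.real_of_complex⟩
    have hN3 : |a| * (N : ℝ) ^ (θ - η) ≤ T * b / 3456 := by
      have := herrJ 3 hJ
      norm_num at this
      linarith
    -- first derivative
    have hd1 : ∀ t : ℝ, (N : ℝ) ≤ t → t ≤ 3 * N →
        |(deriv f t).re - a * θ * t ^ (θ - 1)| ≤ T * b / (18 * N) ∧
        T * b / (9 * N) ≤ |a * θ * t ^ (θ - 1)| := by
      intro t h1 h2
      have ht : 0 < t := by linarith
      have hc1 : cf θ 1 = θ := by simp [cf]
      have h3 := hf.coef hN0 h1 h2 1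
      have h4 := hmain t 1 h1 h2
      rw [tc_one, hc1, Nat.cast_one] at h3
      rw [hc1, Nat.cast_one, pow_one] at h4
      constructor
      · have h5 := (Complex.abs_re_le_norm _).trans h3
        rw [Complex.sub_re, Complex.ofReal_re, pow_one] at h5
        rw [mul_assoc a θ]
        refine h5.trans ?_
        calc |a| * (N : ℝ) ^ (θ - η) * (2 / N) ≤ T * b / 3456 * (2 / N) := by gcongr
          _ = T * b / (1728 * N) := by field_simp; norm_num
          _ ≤ T * b / (18 * N) := by gcongr; norm_num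
      · rw [mul_assoc a θ]
        refine le_trans ?_ h4
        apply div_le_div_of_nonneg_left (by positivity) (by positivity)
        linarith
    have hd2 : ∀ t : ℝ, (N : ℝ) ≤ t → t ≤ 3 * N →
        |(deriv (deriv f) t).re - 2 * (a * (cf θ 2 * t ^ (θ - 2)))| ≤ T * b / (400 * N ^ 2) ∧
        T * b / (81 * N ^ 2) ≤ |a * (cf θ 2 * t ^ (θ - 2))| := by
      intro t h1 h2
      have ht : 0 < t := by linarith
      have h3 := hf.coef hN0 h1 h2 2
      have h4 := hmain t 2 h1 h2
      push_cast at h3 h4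
      constructor
      · have h5 : ‖deriv (deriv f) t - 2 * ((a * (cf θ 2 * t ^ (θ - 2)) : ℝ) : ℂ)‖ ≤
            2 * (|a| * (N : ℝ) ^ (θ - η) * (2 / N) ^ 2) := by
          rw [← tc_two, ← mul_sub, norm_mul]
          have : ‖(2 : ℂ)‖ = 2 := by simp
          rw [this]
          push_cast
          linarith
        have h6 := (Complex.abs_re_le_norm _).trans h5
        rw [Complex.sub_re] at h6
        have h7 : (2 * ((a * (cf θ 2 * t ^ (θ - 2)) : ℝ) : ℂ)).re = 2 * (a * (cf θ 2 * t ^ (θ - 2))) := by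
          rw [Complex.mul_re, Complex.ofReal_re, Complex.ofReal_im]; simp
        rw [h7] at h6
        refine h6.trans ?_
        calc 2 * (|a| * (N : ℝ) ^ (θ - η) * (2 / N) ^ 2) ≤ 2 * (T * b / 3456 * (2 / N) ^ 2) := by gcongr
          _ = T * b / (432 * N ^ 2) := by field_simp; norm_num
          _ ≤ T * b / (400 * N ^ 2) := by gcongr; norm_num
      · refine le_trans ?_ h4
        apply div_le_div_of_nonneg_left (by positivity) (by positivity)
        have : (3 * t) ^ 2 ≤ (9 * N) ^ 2 := by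
          apply pow_le_pow_left₀ (by positivity)
          linarith
        linarith
    have ht0 : T * b / (9 * N) > 0 := by positivity
    have ht1 : T * b / (81 * (N : ℝ) ^ 2) > 0 := by positivity
    have hsgn : ∀ z : ℝ, ∃ s : ℝ, (s = 1 ∨ s = -1) ∧ s * z = |z| := by
      intro z
      rcases le_total 0 z with h | h
      · exact ⟨1, Or.inl rfl, by rw [one_mul, abs_of_nonneg h]⟩
      · exact ⟨-1, Or.inr rfl, by rw [abs_of_nonpos h]; ring⟩
    obtain ⟨s, hs, hsa⟩ := hsgn (a * θ)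
    obtain ⟨σ, hσ, hσa⟩ := hsgn (s * (a * cf θ 2))
    have hs1 : |s| = 1 := by rcases hs with rfl | rfl <;> simp
    have hσ1 : |σ| = 1 := by rcases hσ with rfl | rfl <;> simp
    have hlo1 : ∀ t : ℝ, (N : ℝ) ≤ t → t ≤ 3 * N → T * b / (18 * N) ≤ s * (deriv f t).re := by
      intro t h1 h2
      obtain ⟨h3, h4⟩ := hd1 t h1 h2
      have ht : 0 < t := by linarith
      have h5 : s * (a * θ * t ^ (θ - 1)) = |a * θ * t ^ (θ - 1)| := by
        rw [← mul_assoc, hsa, abs_mul (a * θ), abs_of_pos (Real.rpow_pos_of_pos ht _)]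
      have h6 : |s * (deriv f t).re - s * (a * θ * t ^ (θ - 1))| ≤ T * b / (18 * N) := by
        rw [← mul_sub, abs_mul, hs1, one_mul]; exact h3
      have h7 := (abs_le.1 h6).1
      rw [h5] at h7
      have h8 : T * b / (9 * N) = T * b / (18 * N) + T * b / (18 * N) := by field_simp; norm_num
      linarith
    have hlo2 : ∀ t : ℝ, (N : ℝ) ≤ t → t ≤ 3 * N → 0 < σ * (s * (deriv (deriv f) t).re) := by
      intro t h1 h2
      obtain ⟨h3, h4⟩ := hd2 t h1 h2
      have ht : 0 < t := by linarith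
      have h5 : σ * (s * (a * (cf θ 2 * t ^ (θ - 2)))) = |a * (cf θ 2 * t ^ (θ - 2))| := by
        have e1 : σ * (s * (a * (cf θ 2 * t ^ (θ - 2)))) = (σ * (s * (a * cf θ 2))) * t ^ (θ - 2) := by ring
        rw [e1, hσa, abs_mul s, hs1, one_mul, ← mul_assoc a, abs_mul (a * cf θ 2),
          abs_of_pos (Real.rpow_pos_of_pos ht _)]
      have h6 : |σ * (s * (deriv (deriv f) t).re) - σ * (s * (2 * (a * (cf θ 2 * t ^ (θ - 2)))))| ≤
          T * b / (400 * N ^ 2) := by
        rw [← mul_sub, ← mul_sub, abs_mul, abs_mul, hs1, hσ1, one_mul, one_mul]; exact h3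
      have h7 := (abs_le.1 h6).1
      have h8 : σ * (s * (2 * (a * (cf θ 2 * t ^ (θ - 2))))) = 2 * |a * (cf θ 2 * t ^ (θ - 2))| := by
        rw [← h5]; ring
      rw [h8] at h7
      have h9 : T * b / (400 * (N : ℝ) ^ 2) ≤ T * b / (81 * N ^ 2) := by gcongr; norm_num
      linarith
    -- mean values
    have hmv : ∀ n : ℕ, N ≤ n → n ≤ 2 * N → ∃ ξ : ℝ, (n : ℝ) < ξ ∧ ξ < n + 1 ∧
        (f ((n + 1 : ℕ) : ℝ)).re - (f (n : ℝ)).re = (deriv f ξ).re := by
      intro n hn1 hn2
      have hn1' : (N : ℝ) ≤ n := by exact_mod_cast hn1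
      have hn2' : (n : ℝ) ≤ 2 * N := by exact_mod_cast hn2
      have hc : ContinuousOn (fun t : ℝ => (f t).re) (Set.Icc (n : ℝ) (n + 1)) := by
        intro t ht
        exact (hrange t (hn1'.trans ht.1) (by linarith [ht.2])).1.continuousAt.continuousWithinAt
      obtain ⟨ξ, hξ, h⟩ := exists_hasDerivAt_eq_slope (fun t : ℝ => (f t).re)
        (fun t => (deriv f t).re) (by linarith : (n : ℝ) < n + 1) hc
        (fun t ht => (hrange t (by linarith [ht.1]) (by linarith [ht.2])).1)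
      refine ⟨ξ, hξ.1, hξ.2, ?_⟩
      rw [h]
      have : (n : ℝ) + 1 - n = 1 := by ring
      rw [this, div_one]
      push_cast
      rfl
    refine ⟨s, hs, ?_, ?_⟩
    · intro n hn1 hn2
      have hn1' : (N : ℝ) ≤ n := by exact_mod_cast hn1
      have hn2' : (n : ℝ) ≤ 2 * N := by exact_mod_cast hn2
      obtain ⟨ξ, h1, h2, h3⟩ := hmv n hn1 hn2
      rw [h3]
      have h4 := hlo1 ξ (by linarith) (by linarith)
      have h5 : T / N = 18 / b * (T * b / (18 * N)) := by field_simp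
      rw [h5]
      gcongr
    · have hcmp : ∀ n : ℕ, N ≤ n → n < 2 * N → ∃ ξ ξ' : ℝ, (N : ℝ) ≤ ξ ∧ ξ < ξ' ∧ ξ' ≤ 3 * N ∧
          (f ((n + 1 : ℕ) : ℝ)).re - (f (n : ℝ)).re = (deriv f ξ).re ∧
          (f ((n + 2 : ℕ) : ℝ)).re - (f ((n + 1 : ℕ) : ℝ)).re = (deriv f ξ').re := by
        intro n hn1 hn2
        have hn1' : (N : ℝ) ≤ n := by exact_mod_cast hn1
        have hn2' : (n : ℝ) + 1 ≤ 2 * N := by exact_mod_cast hn2
        obtain ⟨ξ, h1, h2, h3⟩ := hmv n hn1 hn2.le
        obtain ⟨ξ', h1', h2', h3'⟩ := hmv (n + 1) (by omega) (by omega)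
        push_cast at h1' h2'
        exact ⟨ξ, ξ', by linarith, by linarith, by linarith, h3, h3'⟩
      have hmono : ∀ ξ ξ' : ℝ, (N : ℝ) ≤ ξ → ξ < ξ' → ξ' ≤ 3 * N →
          0 < σ * (s * (deriv f ξ').re - s * (deriv f ξ).re) := by
        intro ξ ξ' h1 h2 h3
        have hc : ContinuousOn (fun t : ℝ => (deriv f t).re) (Set.Icc ξ ξ') := by
          intro t ht
          exact (hrange t (h1.trans ht.1) (ht.2.trans h3)).2.continuousAt.continuousWithinAt
        obtain ⟨ζ, hζ, h⟩ := exists_hasDerivAt_eq_slope (fun t : ℝ => (deriv f t).re)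
          (fun t => (deriv (deriv f) t).re) h2 hc
          (fun t ht => (hrange t (by linarith [ht.1]) (by linarith [ht.2])).2)
        have h4 := hlo2 ζ (by linarith [hζ.1]) (by linarith [hζ.2])
        rw [h] at h4
        have h5 : 0 < ξ' - ξ := by linarith
        have h6 : σ * (s * (deriv f ξ').re - s * (deriv f ξ).re) =
            σ * (s * (((deriv f ξ').re - (deriv f ξ).re) / (ξ' - ξ))) * (ξ' - ξ) := by
          field_simp
        rw [h6]
        exact mul_pos h4 h5
      rcases hσ with hσ' | hσ'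
      · right
        intro n hn1 hn2
        obtain ⟨ξ, ξ', g1, g2, g3, g4, g5⟩ := hcmp n hn1 hn2
        have g6 := hmono ξ ξ' g1 g2 g3
        rw [hσ', one_mul] at g6
        rw [g4, g5]
        linarith
      · left
        intro n hn1 hn2
        obtain ⟨ξ, ξ', g1, g2, g3, g4, g5⟩ := hcmp n hn1 hn2
        have g6 := hmono ξ ξ' g1 g2 g3
        rw [hσ'] at g6
        rw [g4, g5]
        linarith

end Pool.Agent.H17.GS
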