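import Pool.Agent.H17.GS.Inv

/-!
# The digits of the large root of `x ^ d = n x ^ (d - 1) + ...` for almost all `n` (helper17)
-/

set_option autoImplicit false

namespace Pool.Agent.H17.GS

open Finset Filter Topology

section

variable {q : ℕ} {b : ℕ → ℝ} {A N : ℝ}

lemma psi_main (hN : 4 ≤ N) (hb : ∀ k ≤ q, |b k| ≤ A) {w z : ℂ} (hw : N / 4 ≤ w.re) (hz : N / 2 ≤ z.re)
    (hwz : ‖w - z‖ ≤ (q + 1) * A * (4 / N)) :
    ‖psi q b w - b 0 * z⁻¹‖ ≤ (32 * (q + 1) * A ^ 2 + 16 * (q + 1) * A * N) / N ^ 3 := by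
  have hN0 : 0 < N := by linarith
  have hA0 : 0 ≤ A := (abs_nonneg _).trans (hb 0 (Nat.zero_le _))
  obtain ⟨h1, h2, h3⟩ := inv_le hN hw
  have hq0 : (0 : ℝ) ≤ q := Nat.cast_nonneg q
  have hz2 : N / 2 ≤ ‖z‖ := hz.trans ((le_abs_self _).trans (Complex.abs_re_le_norm z))
  have hz0 : z ≠ 0 := by
    rintro rfl
    simp at hz2
    linarith
  have hzi : ‖z⁻¹‖ ≤ 2 / N := by
    rw [norm_inv, show 2 / N = (N / 2)⁻¹ by rw [inv_div]]
    exact inv_anti₀ (by positivity) hz2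
  have hsplit : psi q b w - b 0 * z⁻¹ = b 0 * (w⁻¹ - z⁻¹) +
      ∑ k ∈ range q, (b (k + 1) : ℂ) * w⁻¹ ^ (k + 1 + 1) := by
    rw [psi, sum_range_succ']
    ring
  have hdiff : w⁻¹ - z⁻¹ = (z - w) * (w⁻¹ * z⁻¹) := by
    field_simp
  have hA1 : ‖(b 0 : ℂ) * (w⁻¹ - z⁻¹)‖ ≤ A * (((q + 1) * A * (4 / N)) * ((4 / N) * (2 / N))) := by
    rw [norm_mul, Complex.norm_real, Real.norm_eq_abs, hdiff, norm_mul, norm_mul, norm_sub_rev]
    have h4 := hb 0 (Nat.zero_le _)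
    gcongr
  have hA2 : ‖∑ k ∈ range q, (b (k + 1) : ℂ) * w⁻¹ ^ (k + 1 + 1)‖ ≤ q * (A * (4 / N) ^ 2) := by
    refine (norm_sum_le _ _).trans ?_
    have h5 : ∀ k ∈ range q, ‖(b (k + 1) : ℂ) * w⁻¹ ^ (k + 1 + 1)‖ ≤ A * (4 / N) ^ 2 := by
      intro k hk
      rw [mem_range] at hk
      rw [norm_mul, Complex.norm_real, norm_pow, Real.norm_eq_abs]
      have h6 : ‖w⁻¹‖ ^ (k + 1 + 1) ≤ (4 / N) ^ 2 := by
        calc ‖w⁻¹‖ ^ (k + 1 + 1) ≤ (4 / N) ^ (k + 1 + 1) := pow_le_pow_left₀ (norm_nonneg _) h1 _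
          _ ≤ (4 / N) ^ 2 := pow_le_pow_of_le_one (by positivity) h2 (by omega)
      exact mul_le_mul (hb (k + 1) (by omega)) h6 (by positivity) hA0
    refine (sum_le_sum h5).trans ?_
    rw [sum_const, card_range, nsmul_eq_mul]
  rw [hsplit]
  refine (norm_add_le _ _).trans ((add_le_add hA1 hA2).trans ?_)
  have h7 : A * (((q + 1) * A * (4 / N)) * ((4 / N) * (2 / N))) + q * (A * (4 / N) ^ 2) =
      (32 * (q + 1) * A ^ 2 + 16 * q * A * N) / N ^ 3 := by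
    field_simp
    ring
  rw [h7]
  apply div_le_div_of_nonneg_right _ (by positivity)
  have : q * A * N ≤ (q + 1) * A * N := by
    have : 0 ≤ A * N := by positivity
    nlinarith
  linarith

/-- the function `B z - z` is close to `b 0 / z` -/
theorem near_inv (hN : 4 ≤ N) (hb : ∀ k ≤ q, |b k| ≤ A) (hA : 48 * ((q : ℝ) + 1) ^ 2 * A ≤ N ^ 2)
    (h0 : 32 * (q + 1) * A ^ 2 + 16 * (q + 1) * A * N ≤ |b 0| * N ^ (3 / 2 : ℝ)) :
    ∃ B : ℂ → ℂ, Near N (b 0) (-1) (1 / 2) (fun z => B z - z) ∧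
      ∀ x y : ℝ, N / 4 ≤ x → N ≤ y → (x : ℂ) - psi q b x = y → B y = x := by
  obtain ⟨B, hB1, hB2⟩ := exists_inv hN hb hA
  have hN0 : 0 < N := by linarith
  refine ⟨B, ⟨?_, ?_⟩, ?_⟩
  · intro z hz
    have h1 := hB2 z (by have := hz.1; linarith)
    exact (h1.sub differentiableAt_id).differentiableWithinAt
  · intro z hz
    obtain ⟨g1, g2, g3⟩ := hB1 z (by have := hz.1; linarith)
    have h1 := psi_main hN hb g1 hz.1 g3
    have h2 : z ^ ((-1 : ℝ) : ℂ) = z⁻¹ := by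
      rw [Complex.ofReal_neg, Complex.ofReal_one, Complex.cpow_neg_one]
    have h3 : B z - z = psi q b (B z) := by linear_combination g2
    rw [h2, h3]
    refine h1.trans ?_
    rw [div_le_iff₀ (by positivity)]
    have h4 : N ^ ((-1 : ℝ) - 1 / 2) * N ^ 3 = N ^ (3 / 2 : ℝ) := by
      rw [← Real.rpow_natCast N 3, ← Real.rpow_add hN0]
      norm_num
    calc 32 * (q + 1) * A ^ 2 + 16 * (q + 1) * A * N ≤ |b 0| * N ^ (3 / 2 : ℝ) := h0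
      _ = |b 0| * N ^ ((-1 : ℝ) - 1 / 2) * N ^ 3 := by rw [mul_assoc, h4]
  · intro x y hx hy hxy
    obtain ⟨g1, g2, _⟩ := hB1 y (by rw [Complex.ofReal_re]; linarith)
    have h1 := root_unique hN hb hA g1 (z := (x : ℂ)) (by rw [Complex.ofReal_re]; exact hx)
    rw [g2, hxy, sub_self, norm_zero, mul_zero] at h1
    have h2 := norm_le_zero_iff.1 h1
    linear_combination h2

end

/-- **Almost all `n`, the other coefficients fixed** -/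
theorem fibre : ∃ γ : ℝ, 0 < γ ∧ γ ≤ 1 / 40 ∧ ∀ (q : ℕ) (C ε : ℝ), 1 ≤ C → 0 < ε → ∃ X₀ : ℕ,
    ∀ X : ℕ, X₀ ≤ X → ∀ b : ℕ → ℝ, (∀ k ≤ q, |b k| ≤ C * X) →
      X * Real.exp (-(Real.log X) ^ (1 - 4 * γ)) ≤ |b 0| → ∀ N : ℕ, (X : ℝ) ^ (19 / 20 : ℝ) ≤ N →
      (N : ℝ) ≤ C * X →
      (({n : ℕ | N < n ∧ n ≤ 2 * N ∧ ∃ x : ℝ, (N : ℝ) / 4 ≤ x ∧ (x : ℂ) - psi q b x = n ∧
        ∃ c u v : ℕ, 2 ≤ c ∧ (Real.log X) ^ (1 - γ / 2) ≤ (v : ℝ) - u ∧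
          v * Real.log c ≤ (Real.log X) ^ (1 + γ / 2) ∧ ¬ EquiW x c u v ε}.ncard : ℕ) : ℝ) ≤
      N * Real.exp (-(Real.log N) ^ (3 / 5 : ℝ)) := by
  obtain ⟨γ, hγ0, hγ1, hgs⟩ := gs
  refine ⟨γ, hγ0, hγ1, ?_⟩
  intro q C ε hC hε
  obtain ⟨N₁, hN₁⟩ := hgs (-1) (fun m h => by
    have : (0 : ℝ) ≤ m := Nat.cast_nonneg m
    linarith) (1 / 2) (by norm_num) ε hε
  have hC0 : 0 < C := by linarith
  have hlog : Tendsto (fun N : ℕ => Real.log N) atTop atTop :=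
    Real.tendsto_log_atTop.comp tendsto_natCast_atTop_atTop
  have hNr : Tendsto (fun N : ℕ => (N : ℝ)) atTop atTop := tendsto_natCast_atTop_atTop
  -- in terms of `X`
  have ev0 : ∀ᶠ x : ℝ in atTop, ((N₁ : ℝ) + 4) * x ^ (0 : ℝ) ≤ x ^ (19 / 20 : ℝ) :=
    ev_pow _ _ _ (by norm_num)
  have ev1 : ∀ᶠ x : ℝ in atTop, (48 * ((q : ℝ) + 1) ^ 2 * C) * x ^ (1 : ℝ) ≤ x ^ (19 / 10 : ℝ) :=
    ev_pow _ _ _ (by norm_num)
  have ev2 : ∀ᶠ x : ℝ in atTop, (32 * ((q : ℝ) + 1) * C ^ 2 + 16 * (q + 1) * C * C) * x ^ (2 : ℝ) ≤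
      x ^ (9 / 10 + 3 / 2 * (19 / 20) : ℝ) := ev_pow _ _ _ (by norm_num)
  -- in terms of `y = log X`
  have ev3 : ∀ᶠ y : ℝ in atTop, 10 * y ^ (1 - 4 * γ) ≤ y ^ (1 : ℝ) := ev_pow _ _ _ (by linarith)
  have ev4 : ∀ᶠ y : ℝ in atTop, 4 * y ^ (1 - 4 * γ) ≤ y ^ (1 - 3 * γ) := ev_pow _ _ _ (by linarith)
  have ev5 : ∀ᶠ y : ℝ in atTop, 4 * Real.log C * y ^ (0 : ℝ) ≤ y ^ (1 - 3 * γ) := ev_pow _ _ _ (by linarith)
  have ev6 : ∀ᶠ y : ℝ in atTop, 2 * y ^ (1 - γ) ≤ y ^ (1 - γ / 2) := ev_pow _ _ _ (by linarith)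
  have ev7 : ∀ᶠ y : ℝ in atTop, 4 * y ^ (1 + γ / 2) ≤ y ^ (1 + γ) := ev_pow _ _ _ (by linarith)
  have ev8 : ∀ᶠ y : ℝ in atTop, Real.log C * y ^ (0 : ℝ) ≤ y ^ (1 : ℝ) := ev_pow _ _ _ (by norm_num)
  obtain ⟨X₀, hX₀⟩ := eventually_atTop.1 ((hNr.eventually ((ev0.and ev1).and ev2)).and
    ((hlog.eventually (((ev3.and ev4).and (ev5.and ev6)).and ((ev7.and ev8).and
      (eventually_ge_atTop 10)))).and (eventually_ge_atTop 2)))
  refine ⟨X₀, ?_⟩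
  intro X hX b hb hb0 N hN1 hN2
  obtain ⟨⟨⟨q0, q1⟩, q2⟩, ⟨⟨⟨q3, q4⟩, q5, q6⟩, ⟨q7, q8⟩, q9⟩, q10⟩ := hX₀ X hX
  have hX0 : (0 : ℝ) < X := by exact_mod_cast (by omega : 0 < X)
  have hX1 : (1 : ℝ) ≤ X := by exact_mod_cast (by omega : 1 ≤ X)
  set y : ℝ := Real.log X with hy
  have hXexp : (X : ℝ) = Real.exp y := by rw [hy, Real.exp_log hX0]
  have hy0 : 0 < y := by linarith
  have hy1 : 1 ≤ y := by linarith
  rw [Real.rpow_zero, mul_one] at q0 q5 q8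
  rw [Real.rpow_one] at q1 q3 q8
  have hNN : (N₁ : ℝ) + 4 ≤ N := q0.trans hN1
  have hNN₁ : N₁ ≤ N := by
    have : (N₁ : ℝ) ≤ N := by linarith
    exact_mod_cast this
  have hN4 : (4 : ℝ) ≤ N := by
    have : (0 : ℝ) ≤ N₁ := Nat.cast_nonneg _
    linarith
  have hN0 : (0 : ℝ) < N := by linarith
  -- `z = log N`
  set z : ℝ := Real.log N with hz
  have hz1 : 19 / 20 * y ≤ z := by
    have h1 := Real.log_le_log (by positivity) hN1
    rwa [Real.log_rpow hX0] at h1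
  have hz2 : z ≤ 2 * y := by
    have h1 := Real.log_le_log hN0 hN2
    rw [Real.log_mul hC0.ne' hX0.ne'] at h1
    linarith
  have hz0 : 0 < z := by linarith
  have hb0' : (X : ℝ) ^ (9 / 10 : ℝ) ≤ |b 0| := by
    refine le_trans ?_ hb0
    rw [hXexp, ← Real.exp_mul, ← Real.exp_add]
    apply Real.exp_le_exp.2
    linarith
  have hb00 : 0 < |b 0| := lt_of_lt_of_le (by positivity) hb0'
  have hbne : b 0 ≠ 0 := abs_pos.1 hb00
  have hcond1 : 48 * ((q : ℝ) + 1) ^ 2 * (C * X) ≤ (N : ℝ) ^ 2 := by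
    calc 48 * ((q : ℝ) + 1) ^ 2 * (C * X) = 48 * ((q : ℝ) + 1) ^ 2 * C * X := by ring
      _ ≤ (X : ℝ) ^ (19 / 10 : ℝ) := q1
      _ = ((X : ℝ) ^ (19 / 20 : ℝ)) ^ 2 := by
          rw [← Real.rpow_natCast, ← Real.rpow_mul hX0.le]; norm_num
      _ ≤ (N : ℝ) ^ 2 := pow_le_pow_left₀ (by positivity) hN1 2
  have hcond2 : 32 * ((q : ℝ) + 1) * (C * X) ^ 2 + 16 * (q + 1) * (C * X) * N ≤ |b 0| * (N : ℝ) ^ (3 / 2 : ℝ) := by
    have e1 : 32 * ((q : ℝ) + 1) * (C * X) ^ 2 + 16 * (q + 1) * (C * X) * N ≤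
        (32 * ((q : ℝ) + 1) * C ^ 2 + 16 * (q + 1) * C * C) * (X : ℝ) ^ (2 : ℝ) := by
      have e2 : 16 * ((q : ℝ) + 1) * (C * X) * N ≤ 16 * (q + 1) * (C * X) * (C * X) := by gcongr
      have e3 : (X : ℝ) ^ (2 : ℝ) = (X : ℝ) ^ 2 := by norm_cast
      rw [e3]
      nlinarith
    refine e1.trans (q2.trans ?_)
    rw [Real.rpow_add hX0]
    have e4 : (X : ℝ) ^ (3 / 2 * (19 / 20) : ℝ) ≤ (N : ℝ) ^ (3 / 2 : ℝ) := by
      rw [mul_comm, Real.rpow_mul hX0.le]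
      exact Real.rpow_le_rpow (by positivity) hN1 (by norm_num)
    gcongr
  obtain ⟨B, hB1, hB2⟩ := near_inv hN4 hb hcond1 hcond2
  have hupper : |b 0| * (N : ℝ) ^ (-1 : ℝ) ≤ Real.exp (z ^ (1 + γ)) := by
    have e1 : (N : ℝ) ^ (-1 : ℝ) ≤ 1 :=
      Real.rpow_le_one_of_one_le_of_nonpos (by linarith) (by norm_num)
    have e2 : |b 0| ≤ Real.exp (2 * y) := by
      refine (hb 0 (Nat.zero_le _)).trans ?_
      rw [← Real.exp_log hC0, hXexp, ← Real.exp_add]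
      apply Real.exp_le_exp.2
      linarith
    have e3 : 2 * y ≤ z ^ (1 + γ) := by
      have f1 : y ^ (1 + γ / 2) ≥ y := by
        calc y = y ^ (1 : ℝ) := (Real.rpow_one _).symm
          _ ≤ _ := Real.rpow_le_rpow_of_exponent_le hy1 (by linarith)
      have f2 : (y / 2) ^ (1 + γ) ≤ z ^ (1 + γ) := Real.rpow_le_rpow (by positivity) (by linarith) (by linarith)
      have f3 : (y / 2) ^ (1 + γ) ≥ y ^ (1 + γ) / 2 ^ (2 : ℝ) := by
        rw [Real.div_rpow hy0.le (by norm_num)]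
        gcongr
        · norm_num
        · linarith
      have f4 : (2 : ℝ) ^ (2 : ℝ) = 4 := by norm_num
      rw [f4] at f3
      have f5 : 2 * y ^ (γ / 2) * y ≤ y ^ (1 + γ) / 4 * 2 := by
        have : y ^ (γ / 2) * y = y ^ (1 + γ / 2) := by
          rw [Real.rpow_add hy0, Real.rpow_one]; ring
        nlinarith
      have f6 : (4 : ℝ) * y ^ (1 + γ / 2) ≤ y ^ (1 + γ) := q7
      have f7 : 1 ≤ y ^ (γ / 2) := Real.one_le_rpow hy1 (by positivity)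
      -- `y ^ (1 + γ) ≥ 16 y`
      have f8 : 16 * y ≤ y ^ (1 + γ) := by
        have g1 : y ^ (1 + γ) = y ^ (1 + γ / 2) * y ^ (γ / 2) := by
          rw [← Real.rpow_add hy0]; congr 1; ring
        have g2 : 4 ≤ y ^ (γ / 2) := by
          have g3 : 4 * y ^ (1 + γ / 2) ≤ y ^ (γ / 2) * y ^ (1 + γ / 2) := by
            rw [mul_comm (y ^ (γ / 2)), ← g1]; exact f6
          exact le_of_mul_le_mul_right g3 (Real.rpow_pos_of_pos hy0 _)
        have g4 : 4 * y ≤ y ^ (1 + γ / 2) := by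
          have : y ^ (1 + γ / 2) = y * y ^ (γ / 2) := by rw [Real.rpow_add hy0, Real.rpow_one]
          rw [this]; nlinarith
        rw [g1]; nlinarith
      linarith
    calc |b 0| * (N : ℝ) ^ (-1 : ℝ) ≤ Real.exp (2 * y) * 1 := by gcongr
      _ ≤ Real.exp (z ^ (1 + γ)) := by rw [mul_one]; exact Real.exp_le_exp.2 e3
  have hmain := hN₁ N (b 0) 0 (fun z => B z - z) hNN₁ hbne hB1 hupper
  refine le_trans ?_ hmain
  refine Nat.cast_le.2 (Set.ncard_le_ncard ?_ ((Set.finite_Icc 0 (2 * N)).subset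
    fun n hn => ⟨Nat.zero_le _, hn.2.1⟩))
  rintro n ⟨a1, a2, x, a3, a4, c, u, v, a5, a6, a7, a8⟩
  have hnN : (N : ℝ) ≤ n := by exact_mod_cast a1.le
  have hBn : B ((n : ℝ) : ℂ) = x := hB2 x n a3 hnN (by rw [a4]; push_cast; rfl)
  have hc2 : (2 : ℝ) ≤ c := by exact_mod_cast a5
  refine ⟨a1, a2, c, u, v, a5, ?_, ?_, ?_, ?_⟩
  · refine le_trans ?_ a6
    refine le_trans ?_ q6
    calc z ^ (1 - γ) ≤ (2 * y) ^ (1 - γ) := Real.rpow_le_rpow hz0.le hz2 (by linarith)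
      _ = 2 ^ (1 - γ) * y ^ (1 - γ) := Real.mul_rpow (by norm_num) hy0.le
      _ ≤ 2 ^ (1 : ℝ) * y ^ (1 - γ) := by
          gcongr
          · norm_num
          · linarith
      _ = 2 * y ^ (1 - γ) := by rw [Real.rpow_one]
  · refine a7.trans ?_
    have f2 : (y / 2) ^ (1 + γ) ≤ z ^ (1 + γ) := Real.rpow_le_rpow (by positivity) (by linarith) (by linarith)
    have f3 : y ^ (1 + γ) / 2 ^ (2 : ℝ) ≤ (y / 2) ^ (1 + γ) := by
      rw [Real.div_rpow hy0.le (by norm_num)]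
      gcongr
      · norm_num
      · linarith
    have f4 : (2 : ℝ) ^ (2 : ℝ) = 4 := by norm_num
    rw [f4] at f3
    linarith
  · have e1 : Real.exp (-y ^ (1 - 4 * γ)) ≤ |b 0| / X := by
      rw [le_div_iff₀ hX0]; linarith
    have e2 : (N : ℝ) ^ (-1 : ℝ) = (N : ℝ)⁻¹ := Real.rpow_neg_one _
    have e3 : |b 0| * (N : ℝ) ^ (-1 : ℝ) ≥ Real.exp (-y ^ (1 - 4 * γ)) * Real.exp (-Real.log C) := by
      rw [e2]
      have e4 : (C * X)⁻¹ ≤ (N : ℝ)⁻¹ := inv_anti₀ hN0 hN2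
      calc |b 0| * (N : ℝ)⁻¹ ≥ |b 0| * (C * X)⁻¹ := by gcongr
        _ = |b 0| / X * C⁻¹ := by field_simp
        _ ≥ Real.exp (-y ^ (1 - 4 * γ)) * C⁻¹ := by gcongr
        _ = _ := by rw [Real.exp_neg (Real.log C), Real.exp_log hC0]
    have e5 : Real.exp (-z ^ (1 - 3 * γ)) ≤ Real.exp (-y ^ (1 - 4 * γ)) * Real.exp (-Real.log C) := by
      rw [← Real.exp_add]
      apply Real.exp_le_exp.2
      have f2 : (y / 2) ^ (1 - 3 * γ) ≤ z ^ (1 - 3 * γ) := Real.rpow_le_rpow (by positivity) (by linarith) (by linarith)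
      have f3 : y ^ (1 - 3 * γ) / 2 ^ (1 : ℝ) ≤ (y / 2) ^ (1 - 3 * γ) := by
        rw [Real.div_rpow hy0.le (by norm_num)]
        gcongr
        · norm_num
        · linarith
      rw [Real.rpow_one] at f3
      linarith
    calc Real.exp (-z ^ (1 - 3 * γ)) ≤ 1 * (|b 0| * (N : ℝ) ^ (-1 : ℝ)) := by rw [one_mul]; exact e5.trans e3
      _ ≤ (c : ℝ) ^ u * (|b 0| * (N : ℝ) ^ (-1 : ℝ)) := by
          gcongr
          exact one_le_pow₀ (by linarith)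
  · have h1 : x = ((n : ℤ) : ℝ) + (((fun z => B z - z) ((n : ℝ) : ℂ)).re + 0) := by
      simp only
      rw [hBn, Complex.sub_re, Complex.ofReal_re, Complex.ofReal_re]
      push_cast
      ring
    rw [h1, equiW_add_int] at a8
    exact a8

end Pool.Agent.H17.GS
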