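import Pool.Agent.H17.GS.Low
import Pool.Agent.H17.GS.Fib

/-!
# The digits of `β + a / X(n + ξ)`, `X` the large root of `X - ∑ b_k X ^ (-k-1) = z` (helper17)
-/

set_option autoImplicit false

namespace Pool.Agent.H17.GS

open Finset Filter Topology

section

variable {q : ℕ} {b : ℕ → ℝ} {A N : ℝ}

/-- the function `a / B (z + ξ)` is close to `a / z` -/
theorem near_recip (hN : 4 ≤ N) (hb : ∀ k ≤ q, |b k| ≤ A) (hA : 48 * ((q : ℝ) + 1) ^ 2 * A ≤ N ^ 2)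
    (h0 : 8 * (((q : ℝ) + 1) * A * (4 / N) + 1) ≤ N ^ (3 / 4 : ℝ)) (a ξ : ℝ) (hξ0 : 0 ≤ ξ) (hξ1 : ξ ≤ 1) :
    ∃ B : ℂ → ℂ, Near N a (-1) (1 / 4) (fun z => a / B (z + ξ)) ∧
      ∀ x y : ℝ, N / 4 ≤ x → N ≤ y → (x : ℂ) - psi q b x = y + ξ → B (y + ξ) = x := by
  obtain ⟨B, hB1, hB2⟩ := exists_inv hN hb hA
  have hN0 : 0 < N := by linarith
  refine ⟨B, ⟨?_, ?_⟩, ?_⟩
  · intro z hz
    have hre : N / 2 ≤ (z + ξ).re := by
      rw [Complex.add_re, Complex.ofReal_re]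
      linarith [hz.1]
    have h1 : DifferentiableAt ℂ B (z + ξ) := hB2 (z + ξ) (by linarith)
    obtain ⟨g1, _, _⟩ := hB1 (z + ξ) (by linarith)
    have h2 : B (z + ξ) ≠ 0 := by
      intro h
      rw [h] at g1
      simp at g1
      linarith
    have h3 : DifferentiableAt ℂ (fun z : ℂ => B (z + ξ)) z :=
      h1.comp z (differentiableAt_id.add_const _)
    exact ((differentiableAt_const _).div h3 h2).differentiableWithinAt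
  · intro z hz
    have hre : N / 2 ≤ (z + ξ).re := by
      rw [Complex.add_re, Complex.ofReal_re]
      linarith [hz.1]
    obtain ⟨g1, g2, g3⟩ := hB1 (z + ξ) (by linarith)
    have hz2 : N / 2 ≤ ‖z‖ := hz.1.trans ((le_abs_self _).trans (Complex.abs_re_le_norm z))
    have hz0 : z ≠ 0 := by
      rintro rfl
      simp at hz2
      linarith
    have hB4 : N / 4 ≤ ‖B (z + ξ)‖ := g1.trans ((le_abs_self _).trans (Complex.abs_re_le_norm _))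
    have hB0 : B (z + ξ) ≠ 0 := by
      intro h
      rw [h] at hB4
      simp at hB4
      linarith
    have h2 : z ^ ((-1 : ℝ) : ℂ) = z⁻¹ := by
      rw [Complex.ofReal_neg, Complex.ofReal_one, Complex.cpow_neg_one]
    have h3 : (a : ℂ) / B (z + ξ) - a * z⁻¹ = a * ((z - B (z + ξ)) * ((B (z + ξ))⁻¹ * z⁻¹)) := by
      field_simp
    have h4 : ‖z - B (z + ξ)‖ ≤ ((q : ℝ) + 1) * A * (4 / N) + 1 := by
      have e1 : z - B (z + ξ) = -(B (z + ξ) - (z + ξ)) + (-(ξ : ℂ)) := by ring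
      rw [e1]
      refine (norm_add_le _ _).trans ?_
      rw [norm_neg, norm_neg, Complex.norm_real, Real.norm_eq_abs, abs_of_nonneg hξ0]
      linarith
    rw [h2, h3, norm_mul, Complex.norm_real, Real.norm_eq_abs]
    have h5 : ‖(z - B (z + ξ)) * ((B (z + ξ))⁻¹ * z⁻¹)‖ ≤ N ^ ((-1 : ℝ) - 1 / 4) := by
      rw [norm_mul, norm_mul, norm_inv, norm_inv]
      have e1 : ‖B (z + ξ)‖⁻¹ ≤ 4 / N := by
        rw [show 4 / N = (N / 4)⁻¹ by rw [inv_div]]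
        exact inv_anti₀ (by positivity) hB4
      have e2 : ‖z‖⁻¹ ≤ 2 / N := by
        rw [show 2 / N = (N / 2)⁻¹ by rw [inv_div]]
        exact inv_anti₀ (by positivity) hz2
      have e3 : N ^ ((-1 : ℝ) - 1 / 4) = N ^ (3 / 4 : ℝ) * (1 / N ^ 2) := by
        rw [show ((-1 : ℝ) - 1 / 4) = 3 / 4 + (-2) by norm_num, Real.rpow_add hN0, Real.rpow_neg hN0.le]
        norm_num
      have e4 : 0 ≤ ((q : ℝ) + 1) * A * (4 / N) + 1 := (norm_nonneg _).trans h4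
      calc ‖z - B (z + ξ)‖ * (‖B (z + ξ)‖⁻¹ * ‖z‖⁻¹) ≤
            (((q : ℝ) + 1) * A * (4 / N) + 1) * ((4 / N) * (2 / N)) := by gcongr
        _ = 8 * (((q : ℝ) + 1) * A * (4 / N) + 1) * (1 / N ^ 2) := by
            field_simp
            ring
        _ ≤ N ^ (3 / 4 : ℝ) * (1 / N ^ 2) := by gcongr
        _ = _ := e3.symm
    gcongr
  · intro x y hx hy hxy
    have hre : N / 2 ≤ ((y : ℂ) + ξ).re := by
      rw [Complex.add_re, Complex.ofReal_re, Complex.ofReal_re]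
      linarith
    obtain ⟨g1, g2, _⟩ := hB1 (y + ξ) (by linarith)
    have h1 := root_unique hN hb hA g1 (z := (x : ℂ)) (by rw [Complex.ofReal_re]; exact hx)
    rw [g2, hxy, sub_self, norm_zero, mul_zero] at h1
    have h2 := norm_le_zero_iff.1 h1
    linear_combination h2

end

/-- **Almost all `n`, in terms of a large parameter `H`** -/
theorem fibre2 : ∃ γ : ℝ, 0 < γ ∧ γ ≤ 1 / 40 ∧ ∀ (q : ℕ) (ε : ℝ), 0 < ε → ∃ H₀ : ℕ,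
    ∀ H : ℕ, H₀ ≤ H → ∀ b : ℕ → ℝ, (∀ k ≤ q, |b k| ≤ (H : ℝ) ^ (3 / 5 : ℝ)) →
      ∀ a ξ β : ℝ, a ≠ 0 → |a| ≤ H → 0 ≤ ξ → ξ ≤ 1 → ∀ N : ℕ, (H : ℝ) ^ (2 / 5 : ℝ) ≤ N →
      (N : ℝ) ≤ (H : ℝ) ^ (3 / 5 : ℝ) →
      (({n : ℕ | N < n ∧ n ≤ 2 * N ∧ ∃ x : ℝ, (N : ℝ) / 4 ≤ x ∧ (x : ℂ) - psi q b x = n + ξ ∧
        ∃ c u v : ℕ, 2 ≤ c ∧ (Real.log H) ^ (1 - γ / 2) ≤ (v : ℝ) - u ∧
          v * Real.log c ≤ (Real.log H) ^ (1 + γ / 2) ∧ 1 ≤ (c : ℝ) ^ u * (|a| / N) ∧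
          ¬ EquiW (β + a / x) c u v ε}.ncard : ℕ) : ℝ) ≤
      N * Real.exp (-(Real.log N) ^ (3 / 5 : ℝ)) := by
  obtain ⟨γ, hγ0, hγ1, hgs⟩ := gs
  refine ⟨γ, hγ0, hγ1, ?_⟩
  intro q ε hε
  obtain ⟨N₁, hN₁⟩ := hgs (-1) (fun m h => by
    have : (0 : ℝ) ≤ m := Nat.cast_nonneg m
    linarith) (1 / 4) (by norm_num) ε hε
  have hlog : Tendsto (fun N : ℕ => Real.log N) atTop atTop :=
    Real.tendsto_log_atTop.comp tendsto_natCast_atTop_atTop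
  have hNr : Tendsto (fun N : ℕ => (N : ℝ)) atTop atTop := tendsto_natCast_atTop_atTop
  have ev0 : ∀ᶠ x : ℝ in atTop, ((N₁ : ℝ) + 4) * x ^ (0 : ℝ) ≤ x ^ (2 / 5 : ℝ) :=
    ev_pow _ _ _ (by norm_num)
  have ev1 : ∀ᶠ x : ℝ in atTop, (48 * ((q : ℝ) + 1) ^ 2) * x ^ (3 / 5 : ℝ) ≤ x ^ (4 / 5 : ℝ) :=
    ev_pow _ _ _ (by norm_num)
  have ev2 : ∀ᶠ x : ℝ in atTop, (8 * (4 * ((q : ℝ) + 1) + 1)) * x ^ (1 / 5 : ℝ) ≤ x ^ (3 / 10 : ℝ) :=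
    ev_pow _ _ _ (by norm_num)
  have ev3 : ∀ᶠ y : ℝ in atTop, (16 : ℝ) * y ^ (1 : ℝ) ≤ y ^ (1 + γ) := ev_pow _ _ _ (by linarith)
  have ev4 : ∀ᶠ y : ℝ in atTop, (16 : ℝ) * y ^ (1 + γ / 2) ≤ y ^ (1 + γ) := ev_pow _ _ _ (by linarith)
  have ev5 : ∀ᶠ y : ℝ in atTop, 1 * y ^ (1 - γ) ≤ y ^ (1 - γ / 2) := ev_pow _ _ _ (by linarith)
  obtain ⟨H₀, hH₀⟩ := eventually_atTop.1 ((hNr.eventually ((ev0.and ev1).and ev2)).and
    ((hlog.eventually (((ev3.and ev4).and ev5).and (eventually_ge_atTop 1))).and (eventually_ge_atTop 2)))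
  refine ⟨H₀, ?_⟩
  intro H hH b hb a ξ β ha haH hξ0 hξ1 N hN1 hN2
  obtain ⟨⟨⟨q0, q1⟩, q2⟩, ⟨⟨⟨q3, q4⟩, q5⟩, q6⟩, q7⟩ := hH₀ H hH
  have hH0 : (0 : ℝ) < H := by exact_mod_cast (by omega : 0 < H)
  have hH1 : (1 : ℝ) ≤ H := by exact_mod_cast (by omega : 1 ≤ H)
  set y : ℝ := Real.log H with hy
  have hHexp : (H : ℝ) = Real.exp y := by rw [hy, Real.exp_log hH0]
  have hy0 : 0 < y := by linarith
  rw [Real.rpow_zero, mul_one] at q0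
  rw [Real.rpow_one] at q3
  rw [one_mul] at q5
  have hNN : (N₁ : ℝ) + 4 ≤ N := q0.trans hN1
  have hNN₁ : N₁ ≤ N := by
    have : (N₁ : ℝ) ≤ N := by linarith
    exact_mod_cast this
  have hN4 : (4 : ℝ) ≤ N := by
    have : (0 : ℝ) ≤ N₁ := Nat.cast_nonneg _
    linarith
  have hN0 : (0 : ℝ) < N := by linarith
  set z : ℝ := Real.log N with hz
  have hz1 : 2 / 5 * y ≤ z := by
    have h1 := Real.log_le_log (by positivity) hN1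
    rwa [Real.log_rpow hH0] at h1
  have hz2 : z ≤ y := by
    have h1 := Real.log_le_log hN0 hN2
    rw [Real.log_rpow hH0] at h1
    linarith
  have hz0 : 0 < z := by linarith
  have hcond1 : 48 * ((q : ℝ) + 1) ^ 2 * (H : ℝ) ^ (3 / 5 : ℝ) ≤ (N : ℝ) ^ 2 := by
    refine q1.trans ?_
    calc (H : ℝ) ^ (4 / 5 : ℝ) = ((H : ℝ) ^ (2 / 5 : ℝ)) ^ 2 := by
          rw [← Real.rpow_natCast, ← Real.rpow_mul hH0.le]; norm_num
      _ ≤ (N : ℝ) ^ 2 := pow_le_pow_left₀ (by positivity) hN1 2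
  have hcond2 : 8 * (((q : ℝ) + 1) * (H : ℝ) ^ (3 / 5 : ℝ) * (4 / N) + 1) ≤ (N : ℝ) ^ (3 / 4 : ℝ) := by
    have e1 : (H : ℝ) ^ (3 / 5 : ℝ) * (4 / N) ≤ 4 * (H : ℝ) ^ (1 / 5 : ℝ) := by
      rw [← mul_div_assoc, div_le_iff₀ hN0]
      calc (H : ℝ) ^ (3 / 5 : ℝ) * 4 = 4 * ((H : ℝ) ^ (1 / 5 : ℝ) * (H : ℝ) ^ (2 / 5 : ℝ)) := by
            rw [← Real.rpow_add hH0]; norm_num; ring
        _ ≤ 4 * ((H : ℝ) ^ (1 / 5 : ℝ) * N) := by gcongr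
        _ = _ := by ring
    have e2 : (1 : ℝ) ≤ (H : ℝ) ^ (1 / 5 : ℝ) := Real.one_le_rpow hH1 (by norm_num)
    calc 8 * (((q : ℝ) + 1) * (H : ℝ) ^ (3 / 5 : ℝ) * (4 / N) + 1) =
          8 * (((q : ℝ) + 1) * ((H : ℝ) ^ (3 / 5 : ℝ) * (4 / N)) + 1) := by ring
      _ ≤ 8 * (((q : ℝ) + 1) * (4 * (H : ℝ) ^ (1 / 5 : ℝ)) + (H : ℝ) ^ (1 / 5 : ℝ)) := by gcongr
      _ = (8 * (4 * ((q : ℝ) + 1) + 1)) * (H : ℝ) ^ (1 / 5 : ℝ) := by ring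
      _ ≤ (H : ℝ) ^ (3 / 10 : ℝ) := q2
      _ = ((H : ℝ) ^ (2 / 5 : ℝ)) ^ (3 / 4 : ℝ) := by rw [← Real.rpow_mul hH0.le]; norm_num
      _ ≤ (N : ℝ) ^ (3 / 4 : ℝ) := Real.rpow_le_rpow (by positivity) hN1 (by norm_num)
  obtain ⟨B, hB1, hB2⟩ := near_recip hN4 hb hcond1 hcond2 a ξ hξ0 hξ1
  have hpow : ∀ t : ℝ, 0 ≤ t → t ≤ 2 → y ^ t / 16 ≤ z ^ t := by
    intro t ht0 ht2
    have f1 : (2 / 5 * y) ^ t ≤ z ^ t := Real.rpow_le_rpow (by positivity) hz1 ht0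
    have f2 : (2 / 5 * y) ^ t = (2 / 5) ^ t * y ^ t := Real.mul_rpow (by norm_num) hy0.le
    have f3 : (2 / 5 : ℝ) ^ (2 : ℝ) ≤ (2 / 5) ^ t :=
      Real.rpow_le_rpow_of_exponent_ge (by norm_num) (by norm_num) ht2
    have f4 : (2 / 5 : ℝ) ^ (2 : ℝ) = 4 / 25 := by norm_num
    rw [f4] at f3
    rw [f2] at f1
    have f5 : 0 ≤ y ^ t := by positivity
    nlinarith
  have hupper : |a| * (N : ℝ) ^ (-1 : ℝ) ≤ Real.exp (z ^ (1 + γ)) := by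
    have e1 : (N : ℝ) ^ (-1 : ℝ) ≤ 1 :=
      Real.rpow_le_one_of_one_le_of_nonpos (by linarith) (by norm_num)
    have e3 : y ≤ z ^ (1 + γ) := by
      have := hpow (1 + γ) (by linarith) (by linarith)
      linarith
    calc |a| * (N : ℝ) ^ (-1 : ℝ) ≤ H * 1 := by gcongr
      _ = Real.exp y := by rw [mul_one, hHexp]
      _ ≤ Real.exp (z ^ (1 + γ)) := Real.exp_le_exp.2 e3
  have hmain := hN₁ N a β (fun z => a / B (z + ξ)) hNN₁ ha hB1 hupper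
  refine le_trans ?_ hmain
  refine Nat.cast_le.2 (Set.ncard_le_ncard ?_ ((Set.finite_Icc 0 (2 * N)).subset
    fun n hn => ⟨Nat.zero_le _, hn.2.1⟩))
  rintro n ⟨a1, a2, x, a3, a4, c, u, v, a5, a6, a7, a8, a9⟩
  have hnN : (N : ℝ) ≤ n := by exact_mod_cast a1.le
  have hBn : B (((n : ℝ) : ℂ) + ξ) = x := hB2 x n a3 hnN (by rw [a4]; push_cast; rfl)
  refine ⟨a1, a2, c, u, v, a5, ?_, ?_, ?_, ?_⟩
  · refine le_trans ?_ a6
    refine le_trans ?_ q5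
    exact Real.rpow_le_rpow hz0.le hz2 (by linarith)
  · refine a7.trans ?_
    have := hpow (1 + γ) (by linarith) (by linarith)
    linarith
  · have e1 : (N : ℝ) ^ (-1 : ℝ) = (N : ℝ)⁻¹ := Real.rpow_neg_one _
    rw [e1, ← div_eq_mul_inv]
    refine le_trans ?_ a8
    have : 0 ≤ z ^ (1 - 3 * γ) := by positivity
    exact Real.exp_le_one_iff.2 (by linarith)
  · have h1 : β + a / x = (((fun z => a / B (z + ξ)) ((n : ℝ) : ℂ)).re + β) := by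
      simp only
      rw [hBn, ← Complex.ofReal_div, Complex.ofReal_re]
      ring
    rw [h1] at a9
    exact a9

end Pool.Agent.H17.GS
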