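import Pool.Agent.H17.GS.Rg
import Pool.Agent.H17.L.R_pool_sql_team_seeded_620a6dc7.Helper478_Surds.Block
import Pool.Agent.H17.L.R_pool_sql_team_seeded_620a6dc7.Helper478_Bases.Main

/-!
# The digits of `f n + β` for almost all `n` (helper17)
-/

set_option autoImplicit false

namespace Pool.Agent.H17.GS

open Finset Filter
open Pool.Agent.H469R2.NK (e norm_e e_add e_zero conj_e)
open Pool.Agent.Helper478.Bases (Equi equi_of)
open Pool.Agent.Helper478.Surds (FreqBd devH windows)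

/-- the discrepancy of the points `x b ^ i`, `u < i ≤ v`, modulo one is at most `ε` -/
def EquiW (x : ℝ) (b u v : ℕ) (ε : ℝ) : Prop :=
  ∀ α β : ℝ, 0 ≤ α → α < β → β ≤ 1 →
    |(({i : ℕ | u < i ∧ i ≤ v ∧ α ≤ Int.fract (x * (b : ℝ) ^ i) ∧
      Int.fract (x * (b : ℝ) ^ i) < β}.ncard : ℕ) : ℝ) - (β - α) * ((v : ℝ) - u)| ≤ ε * ((v : ℝ) - u)

lemma EquiW.mono {x : ℝ} {b u v : ℕ} {ε ε' : ℝ} (h : EquiW x b u v ε) (huv : u ≤ v) (hε : ε ≤ ε') :
    EquiW x b u v ε' := by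
  intro α β h1 h2 h3
  refine (h α β h1 h2 h3).trans ?_
  have : (u : ℝ) ≤ v := by exact_mod_cast huv
  have h4 : 0 ≤ (v : ℝ) - u := by linarith
  gcongr

lemma equiW_of_equi (x : ℝ) (b u v : ℕ) (ε : ℝ) (huv : u ≤ v)
    (h : Equi b (v - u) ε (x * (b : ℝ) ^ u)) : EquiW x b u v ε := by
  intro α β h1 h2 h3
  have h4 := h α β h1 h2 h3
  have e1 : {i : ℕ | u < i ∧ i ≤ v ∧ α ≤ Int.fract (x * (b : ℝ) ^ i) ∧
      Int.fract (x * (b : ℝ) ^ i) < β} = (fun j => u + j) '' {i : ℕ | 1 ≤ i ∧ i ≤ v - u ∧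
      α ≤ Int.fract (x * (b : ℝ) ^ u * (b : ℝ) ^ i) ∧ Int.fract (x * (b : ℝ) ^ u * (b : ℝ) ^ i) < β} := by
    ext i
    constructor
    · rintro ⟨a1, a2, a3, a4⟩
      refine ⟨i - u, ⟨by omega, by omega, ?_, ?_⟩, by simp only; omega⟩
      · rw [mul_assoc, ← pow_add, show u + (i - u) = i by omega]; exact a3
      · rw [mul_assoc, ← pow_add, show u + (i - u) = i by omega]; exact a4
    · rintro ⟨j, ⟨a1, a2, a3, a4⟩, rfl⟩
      rw [mul_assoc, ← pow_add] at a3 a4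
      exact ⟨by simp only; omega, by simp only; omega, a3, a4⟩
  rw [e1, Set.ncard_image_of_injective _ (fun a b h => by simpa using h)]
  have e2 : ((v - u : ℕ) : ℝ) = v - u := by rw [Nat.cast_sub huv]
  rw [e2] at h4
  exact h4

/-- dropping the first places of a window -/
lemma EquiW.trim {x : ℝ} {b u w v : ℕ} {ε δ : ℝ} (h : EquiW x b w v ε) (huw : u ≤ w) (hwv : w ≤ v)
    (hε : 0 ≤ ε) (hδ : 2 * ((w : ℝ) - u) ≤ δ * ((v : ℝ) - u)) : EquiW x b u v (ε + δ) := by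
  intro α β h1 h2 h3
  have h4 := h α β h1 h2 h3
  set S : Set ℕ := {i : ℕ | w < i ∧ i ≤ v ∧ α ≤ Int.fract (x * (b : ℝ) ^ i) ∧
      Int.fract (x * (b : ℝ) ^ i) < β} with hS
  set S' : Set ℕ := {i : ℕ | u < i ∧ i ≤ v ∧ α ≤ Int.fract (x * (b : ℝ) ^ i) ∧
      Int.fract (x * (b : ℝ) ^ i) < β} with hS'
  have hfin' : S'.Finite := (Set.finite_Icc 0 v).subset fun i hi => ⟨Nat.zero_le _, hi.2.1⟩
  have hsub : S ⊆ S' := fun i hi => ⟨by have := hi.1; omega, hi.2⟩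
  have hsub' : S' ⊆ S ∪ (Finset.Ioc u w : Finset ℕ) := by
    intro i hi
    by_cases hiw : w < i
    · exact Or.inl ⟨hiw, hi.2⟩
    · right
      rw [Finset.mem_coe, Finset.mem_Ioc]
      exact ⟨hi.1, by omega⟩
  have c1 : (S.ncard : ℝ) ≤ S'.ncard := by exact_mod_cast Set.ncard_le_ncard hsub hfin'
  have c2 : (S'.ncard : ℝ) ≤ S.ncard + ((w : ℝ) - u) := by
    have h5 : S'.ncard ≤ (S ∪ (Finset.Ioc u w : Finset ℕ)).ncard :=
      Set.ncard_le_ncard hsub' ((hfin'.subset hsub).union (Finset.finite_toSet _))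
    have h6 := h5.trans (Set.ncard_union_le _ _)
    rw [Set.ncard_coe_finset, Nat.card_Ioc] at h6
    have h7 : (S'.ncard : ℝ) ≤ ((S.ncard + (w - u) : ℕ) : ℝ) := by exact_mod_cast h6
    rw [Nat.cast_add, Nat.cast_sub huw] at h7
    exact h7
  have huw' : (u : ℝ) ≤ w := by exact_mod_cast huw
  have hwv' : (w : ℝ) ≤ v := by exact_mod_cast hwv
  have hba : 0 ≤ β - α := by linarith
  have hba1 : β - α ≤ 1 := by linarith
  rw [abs_le] at h4 ⊢
  have e1 : ε * ((v : ℝ) - w) ≤ ε * ((v : ℝ) - u) := by gcongr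
  have e2 : (β - α) * ((w : ℝ) - u) ≤ (w : ℝ) - u := by nlinarith
  have e3 : 0 ≤ (β - α) * ((w : ℝ) - u) := by
    apply mul_nonneg hba; linarith
  have e4 : (β - α) * ((v : ℝ) - w) = (β - α) * ((v : ℝ) - u) - (β - α) * ((w : ℝ) - u) := by ring
  rw [e4] at h4
  constructor <;> nlinarith [h4.1, h4.2]

lemma norm_sum_abs (S : Finset ℕ) (ν : ℕ → ℝ) (a : ℝ) :
    ‖∑ n ∈ S, e (a * ν n)‖ = ‖∑ n ∈ S, e (|a| * ν n)‖ := by
  rcases le_total 0 a with h | h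
  · rw [abs_of_nonneg h]
  · rw [abs_of_nonpos h]
    have : ∑ n ∈ S, e (-a * ν n) = (starRingEnd ℂ) (∑ n ∈ S, e (a * ν n)) := by
      rw [map_sum]
      refine sum_congr rfl fun n _ => ?_
      rw [conj_e]; congr 1; ring
    rw [this, Complex.norm_conj]

lemma norm_sum_shift (S : Finset ℕ) (ν : ℕ → ℝ) (a β : ℝ) :
    ‖∑ n ∈ S, e (a * (ν n + β))‖ = ‖∑ n ∈ S, e (a * ν n)‖ := by
  have : ∑ n ∈ S, e (a * (ν n + β)) = e (a * β) * ∑ n ∈ S, e (a * ν n) := by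
    rw [mul_sum]
    refine sum_congr rfl fun n _ => ?_
    rw [← e_add]; congr 1; ring
  rw [this, norm_mul, norm_e, one_mul]

/-- **Main theorem** -/
theorem main : ∃ γ : ℝ, 0 < γ ∧ γ ≤ 1 / 40 ∧ ∀ (G A : ℝ), 1 ≤ G → 0 ≤ A → ∀ ε : ℝ, 0 < ε →
    ∃ N₀ : ℕ, ∀ (N J : ℕ) (T β : ℝ) (f : ℕ → ℝ), N₀ ≤ N → Dat N T G A J f →
      30 * (Real.log N) ^ (2 * γ) ≤ J → T ≤ Real.exp ((Real.log N) ^ (1 + γ)) →
      (({n : ℕ | N < n ∧ n ≤ 2 * N ∧ ∃ b u v : ℕ, 2 ≤ b ∧ (Real.log N) ^ (1 - γ) ≤ (v : ℝ) - u ∧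
        v * Real.log b ≤ (Real.log N) ^ (1 + γ) ∧
        Real.exp (-(Real.log N) ^ (1 - 3 * γ)) ≤ (b : ℝ) ^ u * T ∧
        ¬ EquiW (f n + β) b u v ε}.ncard : ℕ) : ℝ) ≤ N * Real.exp (-(Real.log N) ^ (3 / 5 : ℝ)) := by
  classical
  obtain ⟨γ₀, hγ0, hγ1, hrange⟩ := range_bd
  refine ⟨γ₀ / 2, by positivity, by linarith, ?_⟩
  intro G A hG hA ε' hε'
  -- parameters
  set ε : ℝ := min ε' 1 / 2 with hε
  have hε0 : 0 < ε := by
    have : 0 < min ε' 1 := lt_min hε' one_pos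
    positivity
  have hε1 : ε ≤ 1 := by
    have : min ε' 1 ≤ 1 := min_le_right _ _
    linarith
  have hεε' : ε + ε ≤ ε' := by
    have : min ε' 1 ≤ ε' := min_le_left _ _
    linarith
  obtain ⟨K, hK1, hK64⟩ : ∃ K : ℕ, 1 ≤ K ∧ 64 ≤ ε ^ 2 * K := by
    refine ⟨⌈64 / ε ^ 2⌉₊ + 1, by omega, ?_⟩
    have h1 := Nat.le_ceil (64 / ε ^ 2)
    rw [div_le_iff₀ (by positivity)] at h1
    push_cast
    have h2 : 0 < ε ^ 2 := by positivity
    nlinarith
  have hK0 : (1 : ℝ) ≤ K := by exact_mod_cast hK1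
  obtain ⟨η, hη⟩ : ∃ η : ℝ, η = ε / (16 * K) := ⟨_, rfl⟩
  have hη0 : 0 < η := by rw [hη]; positivity
  have hη1 : η ≤ 1 := by
    rw [hη, div_le_one (by positivity)]
    linarith
  have hηK : 2 * η * K ≤ ε / 8 := by
    rw [hη]
    apply le_of_eq
    field_simp
    norm_num
  obtain ⟨N₁, hN₁⟩ := hrange G A hG hA
  -- eventual inequalities
  have ev1 : ∀ᶠ y : ℝ in atTop, Real.log (2 * K) * y ^ (0 : ℝ) ≤ y ^ (1 : ℝ) := ev_pow _ _ _ (by norm_num)
  have ev2 : ∀ᶠ y : ℝ in atTop, 3 * y ^ (1 + γ₀ / 2) ≤ y ^ (1 + γ₀) := ev_pow _ _ _ (by linarith)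
  have ev3 : ∀ᶠ y : ℝ in atTop, 1 * y ^ (1 : ℝ) ≤ y ^ (1 + γ₀ / 2) := ev_pow _ _ _ (by linarith)
  have ev4 : ∀ᶠ y : ℝ in atTop, (28 / ε) * y ^ (1 - 3 * (γ₀ / 2)) ≤ y ^ (1 - γ₀ / 2) :=
    ev_pow _ _ _ (by linarith)
  have ev5 : ∀ᶠ y : ℝ in atTop, (16 / η ^ 2 * 3) * y ^ (3 / 5 : ℝ) ≤ y ^ (1 - 3 * γ₀) :=
    ev_pow _ _ _ (by linarith)
  have ev6 : ∀ᶠ y : ℝ in atTop, 8 * K * (2 * y ^ 2 + 2) * (2 * y) ≤ Real.exp (y ^ (1 / 2 : ℝ)) := by
    have t1 := Real.tendsto_pow_mul_exp_neg_atTop_nhds_zero 6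
    have t2 := t1.comp (tendsto_rpow_atTop (by norm_num : (0 : ℝ) < 1 / 2))
    have t3 := t2.eventually (ge_mem_nhds (show (0 : ℝ) < 1 / (64 * K) by positivity))
    filter_upwards [t3, eventually_ge_atTop 1] with y hy hy1
    have hy0 : 0 < y := by linarith
    simp only [Function.comp] at hy
    have f1 : (y ^ (1 / 2 : ℝ)) ^ 6 = y ^ 3 := by
      rw [← Real.rpow_natCast, ← Real.rpow_mul hy0.le, ← Real.rpow_natCast]
      norm_num
    rw [f1, Real.exp_neg, ← div_eq_mul_inv, div_le_div_iff₀ (Real.exp_pos _) (by positivity)] at hy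
    have f2 : 8 * (K : ℝ) * (2 * y ^ 2 + 2) * (2 * y) ≤ y ^ 3 * (64 * K) := by
      have f3 : y ≤ y ^ 3 := by nlinarith [sq_nonneg y]
      have f4 : 8 * (K : ℝ) * (2 * y ^ 2 + 2) * (2 * y) = 32 * K * y ^ 3 + 32 * K * y := by ring
      rw [f4]
      nlinarith
    linarith
  have ev7 : ∀ᶠ y : ℝ in atTop, 2 * y ^ (0 : ℝ) ≤ y ^ (1 - 3 * γ₀) := ev_pow _ _ _ (by linarith)
  have hlog : Tendsto (fun N : ℕ => Real.log N) atTop atTop :=
    Real.tendsto_log_atTop.comp tendsto_natCast_atTop_atTop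
  have hev := hlog.eventually ((ev1.and ev2).and ((ev3.and ev4).and ((ev5.and ev6).and
    (ev7.and (eventually_ge_atTop 10)))))
  obtain ⟨N₀, hN₀⟩ := eventually_atTop.1 (hev.and (eventually_ge_atTop (max N₁ 2)))
  refine ⟨N₀, ?_⟩
  intro N J T β f hN hD hJ hTup
  obtain ⟨⟨⟨q1, q2⟩, ⟨q3, q4⟩, ⟨q5, q6⟩, q7, q8⟩, q9⟩ := hN₀ N hN
  obtain ⟨y, hy⟩ : ∃ y : ℝ, y = Real.log N := ⟨_, rfl⟩
  rw [← hy] at q1 q2 q3 q4 q5 q6 q7 q8 hJ hTup ⊢
  have hy0 : 0 < y := by linarith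
  have hy1 : 1 ≤ y := by linarith
  have hN2 : 2 ≤ N := (le_max_right _ _).trans q9
  have hNN₁ : N₁ ≤ N := (le_max_left _ _).trans q9
  have hN0 : (0 : ℝ) < N := by exact_mod_cast (by omega : 0 < N)
  have hN1 : (1 : ℝ) ≤ N := by exact_mod_cast (by omega : 1 ≤ N)
  have hNexp : (N : ℝ) = Real.exp y := by rw [hy, Real.exp_log hN0]
  have hT := hD.hT
  rw [Real.rpow_zero, mul_one, Real.rpow_one] at q1
  rw [Real.rpow_one, one_mul] at q3
  rw [Real.rpow_zero, mul_one] at q7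
  rw [show 2 * (γ₀ / 2) = γ₀ by ring] at hJ
  -- the block length
  obtain ⟨m, hm⟩ : ∃ m : ℕ, m = ⌊y ^ (1 - 3 * γ₀)⌋₊ := ⟨_, rfl⟩
  have hm1 : 1 ≤ m := by
    rw [hm]; exact Nat.le_floor (by push_cast; linarith)
  have hmle : (m : ℝ) ≤ y ^ (1 - 3 * γ₀) := by rw [hm]; exact Nat.floor_le (by positivity)
  have hmge : y ^ (1 - 3 * γ₀) / 2 ≤ m := by
    have := Nat.lt_floor_add_one (y ^ (1 - 3 * γ₀))
    rw [← hm] at this
    linarith
  have hmy : (m : ℝ) ≤ y := by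
    refine hmle.trans ?_
    calc y ^ (1 - 3 * γ₀) ≤ y ^ (1 : ℝ) := Real.rpow_le_rpow_of_exponent_le hy1 (by linarith)
      _ = y := Real.rpow_one _
  set W : ℝ := N * Real.exp (-(2 * y ^ (1 - 3 * γ₀))) with hW
  have hW0 : 0 ≤ W := by positivity
  have h2W : ∀ k : ℕ, k < 2 * m → 2 ^ k * W ≤ N := by
    intro k hk
    have e1 : (2 : ℝ) ^ k ≤ Real.exp (2 * y ^ (1 - 3 * γ₀)) := by
      have hk' : (k : ℝ) ≤ 2 * m := by exact_mod_cast hk.le
      calc (2 : ℝ) ^ k ≤ (Real.exp 1) ^ k := by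
            apply pow_le_pow_left₀ (by norm_num)
            have := Real.exp_one_gt_d9; linarith
        _ = Real.exp k := by rw [← Real.exp_nat_mul, mul_one]
        _ ≤ Real.exp (2 * y ^ (1 - 3 * γ₀)) := Real.exp_le_exp.2 (by linarith)
    calc (2 : ℝ) ^ k * W ≤ Real.exp (2 * y ^ (1 - 3 * γ₀)) * W := by gcongr
      _ = N * (Real.exp (2 * y ^ (1 - 3 * γ₀)) * Real.exp (-(2 * y ^ (1 - 3 * γ₀)))) := by rw [hW]; ring
      _ = N := by rw [← Real.exp_add, add_neg_cancel, Real.exp_zero, mul_one]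
  let ν : ℕ → ℝ := fun n => f (N + n) + β
  have hfreq : ∀ b u k h : ℕ, 2 ≤ b → 1 ≤ h → h ≤ K →
      Real.exp (5 * y ^ (1 - 3 * γ₀)) ≤ (b : ℝ) ^ u * T →
      ((u + k : ℕ) : ℝ) * Real.log b ≤ y ^ (1 + γ₀ / 2) →
      FreqBd (Ioc 0 N) ν h b u k W := by
    intro b u k h hb hh1 hhK hδb hub Z hZ1 hZ2
    have hb0 : (0 : ℝ) < b := by exact_mod_cast (by omega : 0 < b)
    have hb2 : (2 : ℝ) ≤ b := by exact_mod_cast hb
    have hh0 : (1 : ℝ) ≤ h := by exact_mod_cast hh1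
    have hhK' : (h : ℝ) ≤ K := by exact_mod_cast hhK
    have hbu : (0 : ℝ) < (b : ℝ) ^ u := by positivity
    have hZpos : 0 < |(Z : ℝ)| := lt_of_lt_of_le (by positivity) hZ1
    have hF : |(h : ℝ) * Z| = h * |(Z : ℝ)| := by
      rw [abs_mul, abs_of_pos (by linarith : (0 : ℝ) < h)]
    have hW' : W = N * Real.exp (-(2 * Real.log N ^ (1 - 3 * γ₀))) := by rw [hW, hy]
    rw [hW']
    simp only [ν]
    rw [norm_sum_shift, norm_sum_abs]
    refine hN₁ N N J |(h : ℝ) * Z| T f hNN₁ le_rfl (by rw [hF]; positivity) hD (by rw [← hy]; exact hJ) ?_ ?_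
    · rw [hF, ← hy]
      have f1 : (b : ℝ) ^ u ≤ |(Z : ℝ)| := by
        refine le_trans ?_ hZ1
        rw [pow_succ]; nlinarith
      calc Real.exp (5 * y ^ (1 - 3 * γ₀)) ≤ (b : ℝ) ^ u * T := hδb
        _ = 1 * (b : ℝ) ^ u * T := by ring
        _ ≤ h * |(Z : ℝ)| * T := by gcongr
    · rw [hF, ← hy]
      have f1 : (b : ℝ) ^ (u + k) ≤ Real.exp (y ^ (1 + γ₀ / 2)) := by
        have g1 : (b : ℝ) ^ (u + k) = Real.exp (((u + k : ℕ) : ℝ) * Real.log b) := by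
          rw [Real.exp_nat_mul, Real.exp_log hb0]
        rw [g1]
        exact Real.exp_le_exp.2 hub
      have f3 : 2 * (K : ℝ) = Real.exp (Real.log (2 * K)) := (Real.exp_log (by positivity)).symm
      calc (h : ℝ) * |(Z : ℝ)| * T ≤
            K * (2 * Real.exp (y ^ (1 + γ₀ / 2))) * Real.exp (y ^ (1 + γ₀ / 2)) := by
              have := hZ2.trans (mul_le_mul_of_nonneg_left f1 (by norm_num))
              gcongr
        _ = (2 * K) * Real.exp (y ^ (1 + γ₀ / 2)) * Real.exp (y ^ (1 + γ₀ / 2)) := by ring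
        _ = Real.exp (Real.log (2 * K) + y ^ (1 + γ₀ / 2) + y ^ (1 + γ₀ / 2)) := by
            rw [f3, ← Real.exp_add, ← Real.exp_add, ← f3]
        _ ≤ Real.exp (y ^ (1 + γ₀)) := Real.exp_le_exp.2 (by linarith)
  -- the bad sets
  obtain ⟨Bm, hBm⟩ : ∃ Bm : ℕ, Bm = ⌊Real.exp (y ^ (3 / 5 : ℝ))⌋₊ := ⟨_, rfl⟩
  obtain ⟨U, hU⟩ : ∃ U : ℕ, U = ⌊2 * y ^ 2⌋₊ := ⟨_, rfl⟩
  let Bad : ℕ → ℕ → ℕ → ℕ → Finset ℕ := fun b u k h =>
    if (2 ≤ b ∧ Real.exp (5 * y ^ (1 - 3 * γ₀)) ≤ (b : ℝ) ^ u * T ∧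
      ((u + k : ℕ) : ℝ) * Real.log b ≤ y ^ (1 + γ₀ / 2)) then
      (Ioc 0 N).filter fun n : ℕ => 2 * η * k < ‖∑ i ∈ Icc 1 k, e ((h : ℝ) * (b : ℝ) ^ (u + i) * ν n)‖
    else ∅
  have hbad : ∀ b ∈ range (Bm + 1), ∀ u ∈ range (U + 1), ∀ k ∈ Ico m (2 * m), ∀ h ∈ Icc 1 K,
      ((Bad b u k h).card : ℝ) ≤ 8 * N * Real.exp (-(η ^ 2 * m / 8)) := by
    intro b _ u _ k hk h hh
    simp only [Bad]
    rw [mem_Ico] at hk
    rw [mem_Icc] at hh
    split_ifs with hcond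
    · have g1 := devH (h : ℝ) η hη0 hη1 b u k hcond.1 (Ioc 0 N) ν W
        (hfreq b u k h hcond.1 hh.1 hh.2 hcond.2.1 hcond.2.2) hW0
      refine g1.trans ?_
      rw [Nat.card_Ioc, Nat.sub_zero]
      have g2 := h2W k hk.2
      have g3 : Real.exp (-(η ^ 2 * k / 8)) ≤ Real.exp (-(η ^ 2 * m / 8)) := by
        apply Real.exp_le_exp.2
        have : (m : ℝ) ≤ k := by exact_mod_cast hk.1
        have g4 : η ^ 2 * m ≤ η ^ 2 * k := by gcongr
        linarith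
      calc 4 * (Real.exp (-(η ^ 2 * k / 8)) * ((N : ℝ) + 2 ^ k * W)) ≤
            4 * (Real.exp (-(η ^ 2 * m / 8)) * (N + N)) := by gcongr
        _ = _ := by ring
    · simp only [card_empty, Nat.cast_zero]
      positivity
  set TT' : Finset ℕ := (range (Bm + 1)).biUnion fun b => (range (U + 1)).biUnion fun u =>
    (Ico m (2 * m)).biUnion fun k => (Icc 1 K).biUnion fun h => Bad b u k h with hTT'
  have hsub : {n : ℕ | N < n ∧ n ≤ 2 * N ∧ ∃ b u v : ℕ, 2 ≤ b ∧ y ^ (1 - γ₀ / 2) ≤ (v : ℝ) - u ∧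
        v * Real.log b ≤ y ^ (1 + γ₀ / 2) ∧ Real.exp (-y ^ (1 - 3 * (γ₀ / 2))) ≤ (b : ℝ) ^ u * T ∧
        ¬ EquiW (f n + β) b u v ε'} ⊆ ((TT'.image fun n => N + n : Finset ℕ) : Set ℕ) := by
    rintro n ⟨a1, a2, b, u, v, hb, a3, a4, a5, a6⟩
    rw [Finset.mem_coe, mem_image]
    refine ⟨n - N, ?_, by omega⟩
    by_contra hcon
    apply a6
    have huv : (u : ℝ) < v := by
      have : 0 < y ^ (1 - γ₀ / 2) := Real.rpow_pos_of_pos hy0 _
      linarith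
    have huv' : u < v := by exact_mod_cast huv
    have hb0 : (0 : ℝ) < b := by exact_mod_cast (by omega : 0 < b)
    have hb2 : (2 : ℝ) ≤ b := by exact_mod_cast hb
    have hlb : 0 < Real.log b := Real.log_pos (by linarith)
    have hl2 : Real.log 2 ≤ Real.log b := Real.log_le_log (by norm_num) hb2
    have hl2' : (1 : ℝ) / 2 ≤ Real.log 2 := by have := Real.log_two_gt_d9; linarith
    -- the trimmed window
    obtain ⟨t, ht⟩ : ∃ t : ℕ, t = ⌈12 * y ^ (1 - 3 * (γ₀ / 2))⌉₊ := ⟨_, rfl⟩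
    have hq0 : 0 < y ^ (1 - 3 * (γ₀ / 2)) := Real.rpow_pos_of_pos hy0 _
    have hq01 : 1 ≤ y ^ (1 - 3 * (γ₀ / 2)) := Real.one_le_rpow hy1 (by linarith)
    have ht1 : 12 * y ^ (1 - 3 * (γ₀ / 2)) ≤ t := by rw [ht]; exact Nat.le_ceil _
    have ht2 : (t : ℝ) ≤ 13 * y ^ (1 - 3 * (γ₀ / 2)) := by
      have := Nat.ceil_lt_add_one (a := 12 * y ^ (1 - 3 * (γ₀ / 2))) (by positivity)
      rw [← ht] at this
      linarith
    have ht3 : 28 * y ^ (1 - 3 * (γ₀ / 2)) ≤ ε * ((v : ℝ) - u) := by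
      have h1 := mul_le_mul_of_nonneg_left (q4.trans a3) hε0.le
      have h2 : ε * (28 / ε * y ^ (1 - 3 * (γ₀ / 2))) = 28 * y ^ (1 - 3 * (γ₀ / 2)) := by field_simp
      rw [h2] at h1
      exact h1
    have hεvu : ε * ((v : ℝ) - u) ≤ (v : ℝ) - u := by nlinarith
    obtain ⟨w, hw⟩ : ∃ w : ℕ, w = u + t := ⟨_, rfl⟩
    have hwR : (w : ℝ) = u + t := by rw [hw]; push_cast; rfl
    have hq3 : y ^ (1 - 3 * γ₀) ≤ y ^ (1 - 3 * (γ₀ / 2)) :=
      Real.rpow_le_rpow_of_exponent_le hy1 (by linarith)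
    have hmwv : m ≤ v - w := by
      have : ((w + m : ℕ) : ℝ) ≤ v := by
        push_cast
        rw [hwR]
        linarith
      have : w + m ≤ v := by exact_mod_cast this
      omega
    have hwv : w ≤ v := by omega
    have huw : u ≤ w := by omega
    have hwT : Real.exp (5 * y ^ (1 - 3 * γ₀)) ≤ (b : ℝ) ^ w * T := by
      have h1 : Real.exp (6 * y ^ (1 - 3 * (γ₀ / 2))) ≤ (b : ℝ) ^ t := by
        calc Real.exp (6 * y ^ (1 - 3 * (γ₀ / 2))) ≤ Real.exp (t * Real.log b) := by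
              apply Real.exp_le_exp.2
              have : 12 * y ^ (1 - 3 * (γ₀ / 2)) * (1 / 2) ≤ t * Real.log b := by
                gcongr
                linarith
              linarith
          _ = (b : ℝ) ^ t := by rw [Real.exp_nat_mul, Real.exp_log hb0]
      calc Real.exp (5 * y ^ (1 - 3 * γ₀)) ≤
            Real.exp (6 * y ^ (1 - 3 * (γ₀ / 2))) * Real.exp (-y ^ (1 - 3 * (γ₀ / 2))) := by
              rw [← Real.exp_add]
              apply Real.exp_le_exp.2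
              linarith
        _ ≤ (b : ℝ) ^ t * ((b : ℝ) ^ u * T) := by gcongr
        _ = (b : ℝ) ^ w * T := by rw [hw, pow_add]; ring
    -- size of `b`
    have hbB : b ≤ Bm := by
      rw [hBm]
      apply Nat.le_floor
      rw [← Real.exp_log hb0]
      apply Real.exp_le_exp.2
      have g1 : y ^ (1 - γ₀ / 2) * Real.log b ≤ y ^ (1 + γ₀ / 2) := by
        have g0 : y ^ (1 - γ₀ / 2) ≤ v := by linarith [(Nat.cast_nonneg u : (0:ℝ) ≤ u)]
        calc y ^ (1 - γ₀ / 2) * Real.log b ≤ v * Real.log b := by gcongr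
          _ ≤ _ := a4
      have g2 : y ^ (1 + γ₀ / 2) = y ^ (1 - γ₀ / 2) * y ^ γ₀ := by
        rw [← Real.rpow_add hy0]; congr 1; ring
      rw [g2] at g1
      have g3 := le_of_mul_le_mul_left g1 (Real.rpow_pos_of_pos hy0 _)
      exact g3.trans (Real.rpow_le_rpow_of_exponent_le hy1 (by linarith))
    have hvU : v ≤ U := by
      rw [hU]
      apply Nat.le_floor
      have g1 : (v : ℝ) * (1 / 2) ≤ y ^ (1 + γ₀ / 2) := by
        calc (v : ℝ) * (1 / 2) ≤ v * Real.log b := by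
              gcongr
              linarith
          _ ≤ _ := a4
      have g2 : y ^ (1 + γ₀ / 2) ≤ y ^ 2 := by
        rw [← Real.rpow_natCast y 2]
        exact Real.rpow_le_rpow_of_exponent_le hy1 (by push_cast; linarith)
      linarith
    have hnN : n - N ∈ Ioc 0 N := by rw [mem_Ioc]; omega
    have hνn : ν (n - N) = f n + β := by
      simp only [ν]
      rw [show N + (n - N) = n by omega]
    have hmain : EquiW (f n + β) b w v ε := by
      refine equiW_of_equi _ b w v ε hwv ?_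
      refine equi_of b (v - w) K ((f n + β) * (b : ℝ) ^ w) ε η hK1 hε0 hε1 hη0.le hK64 hηK ?_
      intro h hh
      -- all blocks
      have hwin := windows (fun i => e ((h : ℝ) * (b : ℝ) ^ (w + i) * ν (n - N))) m (v - w) (2 * η) hm1
        (by
          intro u' k hk1 hk2 hk3
          by_contra hcon2
          push Not at hcon2
          apply hcon
          rw [hTT', mem_biUnion]
          refine ⟨b, by rw [mem_range]; omega, ?_⟩
          rw [mem_biUnion]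
          refine ⟨w + u', by rw [mem_range]; omega, ?_⟩
          rw [mem_biUnion]
          refine ⟨k, by rw [mem_Ico]; omega, ?_⟩
          rw [mem_biUnion]
          refine ⟨h, hh, ?_⟩
          simp only [Bad]
          rw [if_pos]
          · rw [mem_filter]
            refine ⟨hnN, ?_⟩
            have : ∀ i, w + u' + i = w + (u' + i) := fun i => by ring
            simp_rw [this]
            exact hcon2
          · refine ⟨hb, hwT.trans ?_, ?_⟩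
            · apply mul_le_mul_of_nonneg_right _ hT.le
              exact pow_le_pow_right₀ (by linarith) (by omega)
            · refine le_trans ?_ a4
              apply mul_le_mul_of_nonneg_right _ hlb.le
              exact_mod_cast (by omega : w + u' + k ≤ v)) (v - w) 0 hmwv (by omega)
      simp only [zero_add] at hwin
      refine le_trans (le_of_eq ?_) hwin
      congr 1
      refine sum_congr rfl fun i _ => ?_
      rw [hνn, pow_add]
      congr 1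
      ring
    refine (hmain.trim (δ := ε) huw hwv hε0.le ?_).mono huv'.le hεε'
    rw [hwR]
    linarith
  have hcard := Set.ncard_le_ncard hsub (Finset.finite_toSet _)
  rw [Set.ncard_coe_finset] at hcard
  have hTcard : (TT'.card : ℝ) ≤ ∑ b ∈ range (Bm + 1), ∑ u ∈ range (U + 1), ∑ k ∈ Ico m (2 * m),
      ∑ h ∈ Icc 1 K, 8 * N * Real.exp (-(η ^ 2 * m / 8)) := by
    have g1 : TT'.card ≤ ∑ b ∈ range (Bm + 1), ∑ u ∈ range (U + 1), ∑ k ∈ Ico m (2 * m),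
        ∑ h ∈ Icc 1 K, (Bad b u k h).card :=
      card_biUnion_le.trans (sum_le_sum fun b _ => card_biUnion_le.trans
        (sum_le_sum fun u _ => card_biUnion_le.trans (sum_le_sum fun k _ => card_biUnion_le)))
    have g2 : (TT'.card : ℝ) ≤ ∑ b ∈ range (Bm + 1), ∑ u ∈ range (U + 1), ∑ k ∈ Ico m (2 * m),
        ∑ h ∈ Icc 1 K, ((Bad b u k h).card : ℝ) := by exact_mod_cast g1
    exact g2.trans (sum_le_sum fun b hb => sum_le_sum fun u hu => sum_le_sum fun k hk =>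
      sum_le_sum fun h hh => hbad b hb u hu k hk h hh)
  have hfin : (({n : ℕ | N < n ∧ n ≤ 2 * N ∧ ∃ b u v : ℕ, 2 ≤ b ∧ y ^ (1 - γ₀ / 2) ≤ (v : ℝ) - u ∧
        v * Real.log b ≤ y ^ (1 + γ₀ / 2) ∧ Real.exp (-y ^ (1 - 3 * (γ₀ / 2))) ≤ (b : ℝ) ^ u * T ∧
        ¬ EquiW (f n + β) b u v ε'}.ncard : ℕ) : ℝ) ≤ TT'.card := by
    have := hcard.trans card_image_le
    exact_mod_cast this
  refine hfin.trans (hTcard.trans ?_)
  simp only [sum_const, card_range, Nat.card_Ico, Nat.card_Icc, Nat.add_sub_cancel, nsmul_eq_mul]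
  have g1 : ((Bm + 1 : ℕ) : ℝ) ≤ 2 * Real.exp (y ^ (3 / 5 : ℝ)) := by
    have f1 : (Bm : ℝ) ≤ Real.exp (y ^ (3 / 5 : ℝ)) := by
      rw [hBm]; exact Nat.floor_le (Real.exp_pos _).le
    have f2 : 1 ≤ Real.exp (y ^ (3 / 5 : ℝ)) := Real.one_le_exp (by positivity)
    push_cast; linarith
  have g2 : ((U + 1 : ℕ) : ℝ) ≤ 2 * y ^ 2 + 2 := by
    have f1 : (U : ℝ) ≤ 2 * y ^ 2 := by rw [hU]; exact Nat.floor_le (by positivity)
    push_cast; linarith
  have g3 : ((2 * m - m : ℕ) : ℝ) ≤ y := by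
    rw [show 2 * m - m = m by omega]; exact hmy
  have g4 : Real.exp (-(η ^ 2 * m / 8)) ≤ Real.exp (-(3 * y ^ (3 / 5 : ℝ))) := by
    apply Real.exp_le_exp.2
    have f1 : 16 / η ^ 2 * 3 * y ^ (3 / 5 : ℝ) * (η ^ 2 / 16) = 3 * y ^ (3 / 5 : ℝ) := by field_simp
    have f2 := mul_le_mul_of_nonneg_right q5 (by positivity : 0 ≤ η ^ 2 / 16)
    rw [f1] at f2
    have f3 : η ^ 2 / 16 * y ^ (1 - 3 * γ₀) ≤ η ^ 2 * m / 8 := by
      have : η ^ 2 * (y ^ (1 - 3 * γ₀) / 2) ≤ η ^ 2 * m := by gcongr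
      linarith
    linarith
  obtain ⟨E, hE⟩ : ∃ E : ℝ, E = Real.exp (y ^ (3 / 5 : ℝ)) := ⟨_, rfl⟩
  have hE0 : 0 < E := by rw [hE]; exact Real.exp_pos _
  have hE3 : Real.exp (-(3 * y ^ (3 / 5 : ℝ))) = 1 / E ^ 3 := by
    have e1 : E ^ 3 = Real.exp (3 * y ^ (3 / 5 : ℝ)) := by
      rw [hE, ← Real.exp_nat_mul]; push_cast; rfl
    rw [e1, Real.exp_neg]
    exact (one_div _).symm
  have hE1 : Real.exp (-(y ^ (3 / 5 : ℝ))) = 1 / E := by
    rw [Real.exp_neg, hE]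
    exact (one_div _).symm
  have q6' : 8 * K * (2 * y ^ 2 + 2) * (2 * y) ≤ E := by
    refine q6.trans ?_
    rw [hE]
    apply Real.exp_le_exp.2
    exact Real.rpow_le_rpow_of_exponent_le hy1 (by norm_num)
  rw [← hE] at g1
  rw [hE3] at g4
  rw [hE1]
  calc ((Bm + 1 : ℕ) : ℝ) * (((U + 1 : ℕ) : ℝ) * (((2 * m - m : ℕ) : ℝ) *
        ((K : ℝ) * (8 * N * Real.exp (-(η ^ 2 * m / 8)))))) ≤
        (2 * E) * ((2 * y ^ 2 + 2) * (y * (K * (8 * N * (1 / E ^ 3))))) := by gcongr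
    _ = (8 * K * (2 * y ^ 2 + 2) * (2 * y)) * (N * (1 / E ^ 2)) := by field_simp
    _ ≤ E * (N * (1 / E ^ 2)) := by gcongr
    _ = N * (1 / E) := by field_simp

end Pool.Agent.H17.GS
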