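import Pool.Agent.H17.GS.Tay

/-!
# The geometry of a root close to a rational number (helper17)
-/

set_option autoImplicit false

namespace Pool.Agent.H17.GS

open Finset Filter Topology Polynomial

/-- the equation of the root in terms of the Taylor coefficients -/
lemma geoA {q : ℕ} {V G A₁ A₀ x xc u : ℝ} {Q : ℝ[X]} (hD : Q.natDegree ≤ q + 2) (hV : 1 ≤ V)
    (hG : ∀ k, |(taylor xc Q).coeff k| ≤ G) (hx : x = xc + u) (h0 : 0 < u) (h2 : u ≤ 2 / V) (hu1 : u ≤ 1)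
    (hroot : Q.eval x + A₁ * x + A₀ = 0) :
    -((taylor xc Q).coeff 0 + A₁ * xc + A₀) / V / u = ((taylor xc Q).coeff 1 + A₁) / V +
      ∑ k ∈ range (q + 1), (taylor xc Q).coeff (k + 2) / V * u ^ (k + 1) ∧
    |∑ k ∈ range (q + 1), (taylor xc Q).coeff (k + 2) / V * u ^ (k + 1)| ≤ (q + 1) * (G / V) * (2 / V) := by
  have hV0 : 0 < V := by linarith
  have hG0 : 0 ≤ G := (abs_nonneg _).trans (hG 0)
  constructor
  · have h1 := tay_sum (x := xc) hD u
    rw [← hx, show q + 2 + 1 = (q + 1) + 1 + 1 from rfl, sum_range_succ', sum_range_succ', pow_zero, mul_one,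
      zero_add, pow_one] at h1
    have h3 : ∑ k ∈ range (q + 1), (taylor xc Q).coeff (k + 1 + 1) * u ^ (k + 1 + 1) =
        V * u * ∑ k ∈ range (q + 1), (taylor xc Q).coeff (k + 2) / V * u ^ (k + 1) := by
      rw [mul_sum]
      refine sum_congr rfl fun k _ => ?_
      rw [show k + 1 + 1 = k + 2 from rfl]
      field_simp
      ring
    rw [h3] at h1
    generalize ∑ k ∈ range (q + 1), (taylor xc Q).coeff (k + 2) / V * u ^ (k + 1) = S at h1 ⊢
    rw [div_div, div_eq_iff (by positivity)]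
    field_simp
    rw [hx] at hroot h1
    linear_combination h1 - hroot
  · have h1 : ∀ k ∈ range (q + 1), |(taylor xc Q).coeff (k + 2) / V * u ^ (k + 1)| ≤ (G / V) * (2 / V) := by
      intro k _
      rw [abs_mul, abs_div, abs_pow, abs_of_pos hV0, abs_of_pos h0]
      have e1 : u ^ (k + 1) ≤ 2 / V := by
        calc u ^ (k + 1) ≤ u ^ 1 := pow_le_pow_of_le_one h0.le hu1 (by omega)
          _ = u := pow_one _
          _ ≤ 2 / V := h2
      have e2 : |(taylor xc Q).coeff (k + 2)| / V ≤ G / V := by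
        gcongr
        exact hG _
      exact mul_le_mul e2 e1 (by positivity) (by positivity)
    refine (abs_sum_le_sum_abs _ _).trans ((sum_le_sum h1).trans (le_of_eq ?_))
    rw [sum_const, card_range, nsmul_eq_mul]
    push_cast
    ring

/-- the equation in terms of `psi` -/
lemma geoB {q : ℕ} {V a t u z : ℝ} {c : ℕ → ℝ} (ha : a ≠ 0) (hu : 0 < u) (ht : t = a / u)
    (h : t = z + ∑ k ∈ range (q + 1), c k / V * u ^ (k + 1)) :
    (t : ℂ) - psi q (fun k => c k / V * a ^ (k + 1)) t = z := by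
  have h1 : psi q (fun k => c k / V * a ^ (k + 1)) (t : ℂ) =
      ((∑ k ∈ range (q + 1), c k / V * u ^ (k + 1) : ℝ) : ℂ) := by
    unfold psi
    rw [Complex.ofReal_sum]
    refine sum_congr rfl fun k _ => ?_
    have e1 : u = a * t⁻¹ := by
      rw [ht]
      field_simp
    rw [e1]
    push_cast
    rw [mul_pow]
    ring
  rw [h1, h]
  push_cast
  ring

/-- the sizes of the parameters -/
lemma geoC {q : ℕ} {V H R W A₁ A₀ x xc u : ℝ} {Q : ℝ[X]} (hD : Q.natDegree ≤ q + 2)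
    (hQ : ∀ k, |Q.coeff k| ≤ H) (hK : 100 * ((q : ℝ) + 3) ^ 3 * 4 ^ (q + 3) ≤ R)
    (hRW : R ^ ((q + 6) ^ 2) ≤ W) (hWV : W ^ 5 ≤ 2 * V) (hV1 : V ^ 2 ≤ H) (hV2 : H ≤ 4 * V ^ 2)
    (hA₁ : |A₁| ≤ H) (hxR : |x| ≤ R) (hroot : Q.eval x + A₁ * x + A₀ = 0)
    (hder : H / R ^ 2 ≤ Q.derivative.eval x + A₁) (hx : x = xc + u) (hu1 : 1 / V ≤ u) (hu2 : u ≤ 2 / V)
    {a z : ℝ} (ha : a = -((taylor xc Q).coeff 0 + A₁ * xc + A₀) / V) (hz : z = ((taylor xc Q).coeff 1 + A₁) / V) :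
    V / (2 * R ^ 2) ≤ z ∧ z ≤ 8 * V * R ^ (q + 3) ∧ 3 / 4 * z / V ≤ a ∧ a ≤ 5 / 2 * z / V ∧ a ≤ R ^ (q + 4) ∧
      3 / 4 * z ≤ a / u ∧ (∀ k ≤ q, |(taylor xc Q).coeff (k + 2) / V * a ^ (k + 1)| ≤ V * W) ∧
      ((a / u : ℝ) : ℂ) - psi q (fun k => (taylor xc Q).coeff (k + 2) / V * a ^ (k + 1)) ((a / u : ℝ) : ℂ) = z := by
  have hH0 : 0 ≤ H := (abs_nonneg _).trans (hQ 0)
  have hq0 : (0 : ℝ) ≤ q := Nat.cast_nonneg q
  have h4 : (1 : ℝ) ≤ 4 ^ (q + 3) := one_le_pow₀ (by norm_num)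
  have h3 : (1 : ℝ) ≤ ((q : ℝ) + 3) ^ 3 := one_le_pow₀ (by linarith)
  have hR100 : 100 ≤ R := by
    refine le_trans ?_ hK
    nlinarith
  have hR1 : 1 ≤ R := by linarith
  have hR0 : 0 < R := by linarith
  have hW1 : 1 ≤ W := (one_le_pow₀ hR1).trans hRW
  have hWW : W ≤ W ^ 5 := by
    calc W = W ^ 1 := (pow_one _).symm
      _ ≤ W ^ 5 := pow_le_pow_right₀ hW1 (by norm_num)
  have hRp : ∀ k ≤ (q + 6) ^ 2, R ^ k ≤ W := fun k hk => (pow_le_pow_right₀ hR1 hk).trans hRW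
  have hRW1 : R ^ (q + 6) * 100 ≤ 2 * V := by
    calc R ^ (q + 6) * 100 ≤ R ^ (q + 6) * R := by gcongr
      _ = R ^ (q + 7) := by ring
      _ ≤ W := hRp _ (by nlinarith)
      _ ≤ 2 * V := hWW.trans hWV
  have hR6 : 1 ≤ R ^ (q + 6) := one_le_pow₀ hR1
  have hV50 : 50 ≤ V := by linarith
  have hV0 : 0 < V := by linarith
  have hu0 : 0 < u := lt_of_lt_of_le (by positivity) hu1
  have hu1' : u ≤ 1 := hu2.trans (by rw [div_le_one hV0]; linarith)
  have hxc : |xc| ≤ 2 * R := by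
    have e1 : xc = x - u := by rw [hx]; ring
    have e2 : |x - u| ≤ |x| + |u| := abs_sub _ _
    rw [abs_of_pos hu0] at e2
    rw [e1]
    linarith
  -- the Taylor coefficients
  obtain ⟨G, hG⟩ : ∃ G : ℝ, G = H * R ^ (q + 3) := ⟨_, rfl⟩
  have hG0 : 0 ≤ G := by rw [hG]; positivity
  have hcK : 100 * (((q : ℝ) + 3) ^ 3 * 4 ^ (q + 2)) ≤ R := by
    refine le_trans ?_ hK
    rw [pow_succ (4 : ℝ) (q + 2)]
    have : 0 ≤ ((q : ℝ) + 3) ^ 3 * 4 ^ (q + 2) := by positivity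
    nlinarith
  have hG1 : 100 * (((q : ℝ) + 3) ^ 3 * 4 ^ (q + 2) * H * R ^ (q + 2)) ≤ G := by
    rw [hG, pow_succ R (q + 2)]
    calc 100 * (((q : ℝ) + 3) ^ 3 * 4 ^ (q + 2) * H * R ^ (q + 2)) =
          100 * (((q : ℝ) + 3) ^ 3 * 4 ^ (q + 2)) * (H * R ^ (q + 2)) := by ring
      _ ≤ R * (H * R ^ (q + 2)) := by gcongr
      _ = _ := by ring
  have hX0 : 0 ≤ ((q : ℝ) + 3) ^ 3 * 4 ^ (q + 2) * H * R ^ (q + 2) := by positivity
  have hcG : ∀ k, |(taylor xc Q).coeff k| ≤ G := by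
    intro k
    refine (tcf_le hD hQ hR1 hxc k).trans ?_
    push_cast
    have e1 : ((q : ℝ) + 2 + 1) * 4 ^ (q + 2) * H * R ^ (q + 2) ≤
        ((q : ℝ) + 3) ^ 3 * 4 ^ (q + 2) * H * R ^ (q + 2) := by
      have e2 : (q : ℝ) + 2 + 1 ≤ ((q : ℝ) + 3) ^ 3 := by
        calc (q : ℝ) + 2 + 1 = ((q : ℝ) + 3) ^ 1 := by ring
          _ ≤ ((q : ℝ) + 3) ^ 3 := pow_le_pow_right₀ (by linarith) (by norm_num)
      gcongr
    linarith
  -- the derivative
  have hc1 : |Q.derivative.eval (xc + u) - Q.derivative.eval xc| ≤ G / 100 * |u| := by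
    have hdD : Q.derivative.natDegree ≤ q + 2 := (natDegree_derivative_le Q).trans (by omega)
    refine (tay1 hdD (der_coeff hD hQ) hR1 hxc (by rwa [abs_of_pos hu0])).trans ?_
    have e1 : (((q + 2 : ℕ) : ℝ) + 1) ^ 2 * 4 ^ (q + 2) * ((((q + 2 : ℕ) : ℝ) + 1) * H) * R ^ (q + 2) =
        ((q : ℝ) + 3) ^ 3 * 4 ^ (q + 2) * H * R ^ (q + 2) := by
      push_cast
      ring
    rw [e1]
    gcongr
    linarith
  rw [← hx, abs_of_pos hu0] at hc1
  have hc1' : (taylor xc Q).coeff 1 = Q.derivative.eval xc := taylor_coeff_one xc Q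
  have hGV : G / V ≤ 4 * V * R ^ (q + 3) := by
    rw [div_le_iff₀ hV0, hG]
    calc H * R ^ (q + 3) ≤ (4 * V ^ 2) * R ^ (q + 3) := by gcongr
      _ = _ := by ring
  have hzlow : V / (2 * R ^ 2) ≤ z := by
    rw [hz, le_div_iff₀ hV0]
    have e1 : G / 100 * u ≤ 4 * V * R ^ (q + 3) / 50 := by
      calc G / 100 * u ≤ G / 100 * (2 / V) := by gcongr
        _ = G / V / 50 := by field_simp; ring
        _ ≤ 4 * V * R ^ (q + 3) / 50 := by gcongr
    have e2 : 4 * V * R ^ (q + 3) / 50 ≤ V ^ 2 / (2 * R ^ 2) := by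
      rw [le_div_iff₀ (by positivity)]
      have e3 : R ^ (q + 3) * R ^ 2 ≤ R ^ (q + 6) := by
        rw [← pow_add]
        exact pow_le_pow_right₀ hR1 (by omega)
      have e4 : R ^ (q + 3) * R ^ 2 ≤ V / 50 := by linarith
      calc 4 * V * R ^ (q + 3) / 50 * (2 * R ^ 2) = (8 * V / 50) * (R ^ (q + 3) * R ^ 2) := by ring
        _ ≤ (8 * V / 50) * (V / 50) := by gcongr
        _ ≤ V ^ 2 := by nlinarith
    have e5 : V ^ 2 / R ^ 2 ≤ H / R ^ 2 := by gcongr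
    have e6 : V ^ 2 / R ^ 2 = V ^ 2 / (2 * R ^ 2) + V ^ 2 / (2 * R ^ 2) := by field_simp; ring
    have e7 : V / (2 * R ^ 2) * V = V ^ 2 / (2 * R ^ 2) := by ring
    rw [hc1', e7]
    have := (abs_le.1 hc1).2
    linarith
  have hzup : z ≤ 8 * V * R ^ (q + 3) := by
    have e1 : (taylor xc Q).coeff 1 + A₁ ≤ G + G := by
      have e2 := (le_abs_self _).trans (hcG 1)
      have e3 := (le_abs_self _).trans hA₁
      have e4 : H ≤ G := by
        rw [hG]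
        exact le_mul_of_one_le_right hH0 (one_le_pow₀ hR1)
      linarith
    calc z ≤ (G + G) / V := by rw [hz]; gcongr
      _ = 2 * (G / V) := by ring
      _ ≤ 2 * (4 * V * R ^ (q + 3)) := by gcongr
      _ = _ := by ring
  have hz0 : 0 < z := lt_of_lt_of_le (by positivity) hzlow
  obtain ⟨k1, k2⟩ := geoA hD (by linarith) hcG hx hu0 hu2 hu1' hroot
  rw [← ha, ← hz] at k1
  have hS : (q + 1) * (G / V) * (2 / V) ≤ R ^ (q + 4) := by
    have e1 : (q : ℝ) + 1 ≤ ((q : ℝ) + 3) ^ 3 := by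
      calc (q : ℝ) + 1 ≤ ((q : ℝ) + 3) ^ 1 := by linarith
        _ ≤ ((q : ℝ) + 3) ^ 3 := pow_le_pow_right₀ (by linarith) (by norm_num)
    have e2 : 100 * ((q : ℝ) + 1) ≤ R := by
      refine le_trans ?_ hK
      nlinarith
    calc ((q : ℝ) + 1) * (G / V) * (2 / V) ≤ (q + 1) * (4 * V * R ^ (q + 3)) * (2 / V) := by gcongr
      _ = 8 * (q + 1) * R ^ (q + 3) := by field_simp; ring
      _ ≤ R * R ^ (q + 3) := by gcongr; linarith
      _ = _ := by ring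
  have hSz : R ^ (q + 4) ≤ z / 4 := by
    have e1 : R ^ (q + 4) ≤ V / (2 * R ^ 2) / 4 := by
      rw [div_div, le_div_iff₀ (by positivity)]
      calc R ^ (q + 4) * (2 * R ^ 2 * 4) = 8 * R ^ (q + 6) := by ring
        _ ≤ V := by linarith
    linarith
  have hS' := abs_le.1 (k2.trans (hS.trans hSz))
  have ht1 : 3 / 4 * z ≤ a / u := by rw [k1]; linarith [hS'.1]
  have ht2 : a / u ≤ 5 / 4 * z := by rw [k1]; linarith [hS'.2]
  have hau : a = a / u * u := by field_simp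
  have ha1 : 3 / 4 * z / V ≤ a := by
    rw [hau]
    calc 3 / 4 * z / V = 3 / 4 * z * (1 / V) := by ring
      _ ≤ a / u * u := by gcongr; linarith
  have ha2 : a ≤ 5 / 2 * z / V := by
    rw [hau]
    calc a / u * u ≤ 5 / 4 * z * (2 / V) := by
          gcongr
      _ = _ := by ring
  have ha0 : 0 < a := lt_of_lt_of_le (by positivity) ha1
  have ha3 : a ≤ R ^ (q + 4) := by
    refine ha2.trans ?_
    rw [div_le_iff₀ hV0]
    calc 5 / 2 * z ≤ 5 / 2 * (8 * V * R ^ (q + 3)) := by gcongr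
      _ = 20 * R ^ (q + 3) * V := by ring
      _ ≤ R * R ^ (q + 3) * V := by gcongr; linarith
      _ = _ := by ring
  refine ⟨hzlow, hzup, ha1, ha2, ha3, ht1, ?_, geoB ha0.ne' hu0 rfl k1⟩
  intro k hk
  rw [abs_mul, abs_div, abs_pow, abs_of_pos hV0, abs_of_pos ha0]
  have e1 : a ^ (k + 1) ≤ R ^ ((q + 4) * (q + 1)) := by
    calc a ^ (k + 1) ≤ (R ^ (q + 4)) ^ (k + 1) := by gcongr
      _ = R ^ ((q + 4) * (k + 1)) := by rw [← pow_mul]
      _ ≤ R ^ ((q + 4) * (q + 1)) := pow_le_pow_right₀ hR1 (by gcongr)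
  calc |(taylor xc Q).coeff (k + 2)| / V * a ^ (k + 1) ≤ G / V * R ^ ((q + 4) * (q + 1)) := by
        gcongr
        exact hcG _
    _ ≤ 4 * V * R ^ (q + 3) * R ^ ((q + 4) * (q + 1)) := by gcongr
    _ = V * (4 * (R ^ (q + 3) * R ^ ((q + 4) * (q + 1)))) := by ring
    _ ≤ V * (R * (R ^ (q + 3) * R ^ ((q + 4) * (q + 1)))) := by gcongr; linarith
    _ = V * R ^ (1 + (q + 3) + (q + 4) * (q + 1)) := by ring
    _ ≤ V * W := by
        gcongr
        exact hRp _ (by nlinarith)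

end Pool.Agent.H17.GS
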