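import Pool.Agent.H17.GS.Dt

/-!
# The digits of `Re f(n) + β` for almost all `n`, `f` holomorphic and close to `a z ^ θ` (helper17)
-/

set_option autoImplicit false

namespace Pool.Agent.H17.GS

open Finset Filter

/-- **General theorem** -/
theorem gs : ∃ γ : ℝ, 0 < γ ∧ γ ≤ 1 / 40 ∧ ∀ θ : ℝ, (∀ m : ℕ, θ ≠ m) → ∀ η : ℝ, 0 < η →
    ∀ ε : ℝ, 0 < ε → ∃ N₀ : ℕ, ∀ (N : ℕ) (a β : ℝ) (f : ℂ → ℂ), N₀ ≤ N → a ≠ 0 → Near N a θ η f →
      |a| * (N : ℝ) ^ θ ≤ Real.exp ((Real.log N) ^ (1 + γ)) →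
      (({n : ℕ | N < n ∧ n ≤ 2 * N ∧ ∃ b u v : ℕ, 2 ≤ b ∧ (Real.log N) ^ (1 - γ) ≤ (v : ℝ) - u ∧
        v * Real.log b ≤ (Real.log N) ^ (1 + γ) ∧
        Real.exp (-(Real.log N) ^ (1 - 3 * γ)) ≤ (b : ℝ) ^ u * (|a| * (N : ℝ) ^ θ) ∧
        ¬ EquiW ((f (n : ℝ)).re + β) b u v ε}.ncard : ℕ) : ℝ) ≤
          N * Real.exp (-(Real.log N) ^ (3 / 5 : ℝ)) := by
  obtain ⟨γ, hγ0, hγ1, hmain⟩ := main
  refine ⟨γ, hγ0, hγ1, ?_⟩
  intro θ hθ η hη ε hε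
  obtain ⟨G, A, c, hG, hA, hc, hdat⟩ := Near.dat θ hθ
  obtain ⟨N₁, hN₁⟩ := hmain G A hG hA ε hε
  have ev1 : ∀ᶠ y : ℝ in atTop, (2 * 3 * 30 / η) * y ^ (2 * γ) ≤ y ^ (1 : ℝ) :=
    ev_pow _ _ _ (by linarith)
  have ev2 : ∀ᶠ y : ℝ in atTop, (2 * (3 * 4 - Real.log c) / η) * y ^ (0 : ℝ) ≤ y ^ (1 : ℝ) :=
    ev_pow _ _ _ (by norm_num)
  have hlog : Tendsto (fun N : ℕ => Real.log N) atTop atTop :=
    Real.tendsto_log_atTop.comp tendsto_natCast_atTop_atTop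
  obtain ⟨N₀, hN₀⟩ := eventually_atTop.1 ((hlog.eventually ((ev1.and ev2).and (eventually_ge_atTop 1))).and
    (eventually_ge_atTop (max N₁ 8)))
  refine ⟨N₀, ?_⟩
  intro N a β f hN ha hf hT
  obtain ⟨⟨⟨q1, q2⟩, q3⟩, q4⟩ := hN₀ N hN
  have hNN₁ : N₁ ≤ N := (le_max_left _ _).trans q4
  have hN8 : 8 ≤ N := (le_max_right _ _).trans q4
  have hN0 : (0 : ℝ) < N := by exact_mod_cast (by omega : 0 < N)
  set y : ℝ := Real.log N with hy
  have hy0 : 0 < y := by linarith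
  rw [Real.rpow_one] at q1 q2
  rw [Real.rpow_zero, mul_one] at q2
  obtain ⟨J, hJ⟩ : ∃ J : ℕ, J = ⌈30 * y ^ (2 * γ)⌉₊ + 3 := ⟨_, rfl⟩
  have hJ1 : 30 * y ^ (2 * γ) ≤ J := by
    rw [hJ]; push_cast
    have := Nat.le_ceil (30 * y ^ (2 * γ))
    linarith
  have hyg : 0 ≤ y ^ (2 * γ) := by positivity
  have hJ2 : (J : ℝ) ≤ 30 * y ^ (2 * γ) + 4 := by
    rw [hJ]; push_cast
    have := Nat.ceil_lt_add_one (a := 30 * y ^ (2 * γ)) (by positivity)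
    linarith
  have hJN : (12 : ℝ) ^ J ≤ c * (N : ℝ) ^ η := by
    have h1 : (12 : ℝ) ^ J ≤ Real.exp (3 * J) := by
      have h12 : (12 : ℝ) ≤ Real.exp 3 := by
        have h3 : Real.exp 3 = Real.exp 1 * Real.exp 1 * Real.exp 1 := by
          rw [← Real.exp_add, ← Real.exp_add]; norm_num
        have h4 := Real.exp_one_gt_d9
        rw [h3]; nlinarith
      calc (12 : ℝ) ^ J ≤ (Real.exp 3) ^ J := pow_le_pow_left₀ (by norm_num) h12 J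
        _ = Real.exp (3 * J) := by rw [← Real.exp_nat_mul]; congr 1; ring
    refine h1.trans ?_
    have h2 : c * (N : ℝ) ^ η = Real.exp (Real.log c + y * η) := by
      rw [Real.exp_add, Real.exp_log hc, Real.rpow_def_of_pos hN0]
    rw [h2]
    apply Real.exp_le_exp.2
    have e1 : 3 * 30 * y ^ (2 * γ) ≤ η * y / 2 := by
      have := mul_le_mul_of_nonneg_left q1 (by positivity : 0 ≤ η / 2)
      have e2 : η / 2 * (2 * 3 * 30 / η * y ^ (2 * γ)) = 3 * 30 * y ^ (2 * γ) := by field_simp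
      rw [e2] at this
      linarith
    have e3 : 3 * 4 - Real.log c ≤ η * y / 2 := by
      have := mul_le_mul_of_nonneg_left q2 (by positivity : 0 ≤ η / 2)
      have e2 : η / 2 * (2 * (3 * 4 - Real.log c) / η) = 3 * 4 - Real.log c := by field_simp
      rw [e2] at this
      linarith
    linarith
  exact hN₁ N J (|a| * (N : ℝ) ^ θ) β (fun n => (f (n : ℝ)).re) hNN₁
    (hdat η hη N J a f hN8 ha hf (by omega) hJN) hJ1 hT

end Pool.Agent.H17.GS
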