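import Pool.Agent.H17.GS.Geo

/-!
# Counting pairs of coefficients with a bad root: high windows (helper17)
-/

set_option autoImplicit false

namespace Pool.Agent.H17.GS

open Finset Filter Topology Polynomial

lemma ncard_cover {α ι : Type*} (I : Finset ι) (S : Set α) (f : ι → Set α) (M : ℝ)
    (hS : ∀ p ∈ S, ∃ i ∈ I, p ∈ f i) (hfin : ∀ i, (f i).Finite) (hf : ∀ i ∈ I, ((f i).ncard : ℝ) ≤ M) :
    (S.ncard : ℝ) ≤ I.card * M := by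
  have h1 : S ⊆ ⋃ i ∈ I, f i := by
    intro p hp
    obtain ⟨i, hi, hp'⟩ := hS p hp
    exact Set.mem_biUnion (show i ∈ (I : Set ι) from hi) hp'
  have h2 : (⋃ i ∈ I, f i).Finite := Set.Finite.biUnion (Finset.finite_toSet I) fun i _ => hfin i
  have h3 : S.ncard ≤ ∑ i ∈ I, (f i).ncard :=
    (Set.ncard_le_ncard h1 h2).trans (Finset.set_ncard_biUnion_le I f)
  calc (S.ncard : ℝ) ≤ ((∑ i ∈ I, (f i).ncard : ℕ) : ℝ) := by exact_mod_cast h3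
    _ = ∑ i ∈ I, ((f i).ncard : ℝ) := by push_cast; rfl
    _ ≤ ∑ _i ∈ I, M := Finset.sum_le_sum hf
    _ = I.card * M := by rw [sum_const, nsmul_eq_mul]

lemma box_finite (H : ℕ) : {p : ℤ × ℤ | |p.1| ≤ H ∧ |p.2| ≤ H}.Finite := by
  refine ((Set.finite_Icc (-(H : ℤ)) H).prod (Set.finite_Icc (-(H : ℤ)) H)).subset ?_
  rintro ⟨a, b⟩ ⟨h1, h2⟩
  simp only at h1 h2
  rw [abs_le] at h1 h2
  exact ⟨⟨h1.1, h1.2⟩, ⟨h2.1, h2.2⟩⟩

/-- the property of a root in the high windows -/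
def HiW (H V : ℕ) (γ ε x : ℝ) : Prop := ∃ c u v : ℕ, 2 ≤ c ∧ (Real.log H) ^ (1 - γ / 2) ≤ (v : ℝ) - u ∧
  v * Real.log c ≤ (Real.log H) ^ (1 + γ / 2) ∧ 4 * (V : ℝ) ≤ (c : ℝ) ^ u ∧ ¬ EquiW x c u v ε

/-- the bad pairs for the high windows -/
def badHi (Q : ℝ[X]) (H V : ℕ) (γ ε R : ℝ) : Set (ℤ × ℤ) :=
  {p | |p.1| ≤ H ∧ |p.2| ≤ H ∧ ∃ x : ℝ, |x| ≤ R ∧ Q.eval x + p.2 * x + p.1 = 0 ∧
    H / R ^ 2 ≤ Q.derivative.eval x + p.2 ∧ HiW H V γ ε x}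

/-- a line of bad pairs -/
def Fx (Q : ℝ[X]) (H V : ℕ) (γ ε R : ℝ) (v r s : ℤ) (j : ℕ) : Set (ℤ × ℤ) :=
  {p | |p.1| ≤ H ∧ |p.2| ≤ H ∧ r = p.2 % V ∧ s = p.1 - v * (p.2 / V) ∧
    2 ^ j < ⌊((taylor (-(v : ℝ) / V) Q).coeff 1 + p.2) / V⌋ ∧
    ⌊((taylor (-(v : ℝ) / V) Q).coeff 1 + p.2) / V⌋ ≤ 2 ^ (j + 1) ∧
    ∃ x : ℝ, v = 1 - ⌊V * x⌋ ∧ |x| ≤ R ∧ Q.eval x + p.2 * x + p.1 = 0 ∧
    H / R ^ 2 ≤ Q.derivative.eval x + p.2 ∧ HiW H V γ ε x}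

lemma Fx_finite (Q : ℝ[X]) (H V : ℕ) (γ ε R : ℝ) (v r s : ℤ) (j : ℕ) : (Fx Q H V γ ε R v r s j).Finite :=
  (box_finite H).subset fun _ hp => ⟨hp.1, hp.2.1⟩

/-- the hypotheses on the sizes -/
structure Sz (q H V : ℕ) (R W : ℝ) : Prop where
  hK : 100 * ((q : ℝ) + 3) ^ 3 * 4 ^ (q + 3) ≤ R
  hRW : R ^ ((q + 6) ^ 2) ≤ W
  hWV : W ^ 5 ≤ 2 * V
  hV1 : (V : ℝ) ^ 2 ≤ H
  hV2 : (H : ℝ) ≤ 4 * V ^ 2
  h25 : (H : ℝ) ^ (2 / 5 : ℝ) * W ≤ 2 * V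
  h35 : V * W ≤ (H : ℝ) ^ (3 / 5 : ℝ)

section

variable {q H V : ℕ} {R W : ℝ} (hs : Sz q H V R W)
include hs

lemma Sz.R100 : 100 ≤ R := by
  have hq0 : (0 : ℝ) ≤ q := Nat.cast_nonneg q
  have h4 : (1 : ℝ) ≤ 4 ^ (q + 3) := one_le_pow₀ (by norm_num)
  have h3 : (1 : ℝ) ≤ ((q : ℝ) + 3) ^ 3 := one_le_pow₀ (by linarith)
  refine le_trans ?_ hs.hK
  nlinarith

lemma Sz.W1 : 1 ≤ W := (one_le_pow₀ (by linarith [hs.R100])).trans hs.hRW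

lemma Sz.Rp {k : ℕ} (hk : k ≤ (q + 6) ^ 2) : R ^ k ≤ W :=
  (pow_le_pow_right₀ (by linarith [hs.R100]) hk).trans hs.hRW

lemma Sz.WV : W ≤ 2 * V := by
  refine le_trans ?_ hs.hWV
  calc W = W ^ 1 := (pow_one _).symm
    _ ≤ W ^ 5 := pow_le_pow_right₀ hs.W1 (by norm_num)

lemma Sz.V50 : 50 ≤ (V : ℝ) := by
  have h1 := hs.Rp (k := 1) (Nat.one_le_iff_ne_zero.2 (by positivity))
  rw [pow_one] at h1
  linarith [hs.R100, hs.WV]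

lemma Sz.VH : 2 * (V : ℝ) ≤ H := by
  have h1 := hs.V50
  have h2 := hs.hV1
  nlinarith

/-- the data of one element -/
lemma elem {Q : ℝ[X]} (hD : Q.natDegree ≤ q + 2) (hQ : ∀ k, |Q.coeff k| ≤ H) {γ ε : ℝ} {v r s : ℤ} {j : ℕ}
    {p : ℤ × ℤ} (hp : p ∈ Fx Q H V γ ε R v r s j) {xc a k₀ : ℝ} {c : ℕ → ℝ} (hxc : xc = -(v : ℝ) / V)
    (hc : c = fun k => (taylor xc Q).coeff k) (ha : a = -(c 0 - r * v / V + s) / V) (hk₀ : k₀ = (c 1 + r) / V) :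
    0 < a ∧ a ≤ R ^ (q + 4) ∧ (∀ k ≤ q, |c (k + 2) / V * a ^ (k + 1)| ≤ (H : ℝ) ^ (3 / 5 : ℝ)) ∧
      (H : ℝ) ^ (2 / 5 : ℝ) ≤ (2 ^ j : ℕ) ∧ ((2 ^ j : ℕ) : ℝ) ≤ (H : ℝ) ^ (3 / 5 : ℝ) ∧
      ((2 ^ j : ℕ) : ℝ) ≤ V * R ^ (q + 4) ∧
      ∃ n : ℕ, p = (s + v * (n - ⌊k₀⌋), r + V * (n - ⌊k₀⌋)) ∧ 2 ^ j < n ∧ n ≤ 2 * 2 ^ j ∧
        ∃ x : ℝ, ((2 ^ j : ℕ) : ℝ) / 4 ≤ x ∧
        (x : ℂ) - psi q (fun k => c (k + 2) / V * a ^ (k + 1)) x = n + (Int.fract k₀ : ℝ) ∧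
        ∃ c u v : ℕ, 2 ≤ c ∧ (Real.log H) ^ (1 - γ / 2) ≤ (v : ℝ) - u ∧
          v * Real.log c ≤ (Real.log H) ^ (1 + γ / 2) ∧ 1 ≤ (c : ℝ) ^ u * (|a| / (2 ^ j : ℕ)) ∧
          ¬ EquiW (xc + a / x) c u v ε := by
  obtain ⟨h1, h2, h3, h4, h5, h6, x, h7, h8, h9, h10, h11⟩ := hp
  obtain ⟨m, hm⟩ : ∃ m : ℤ, m = p.2 / V := ⟨_, rfl⟩
  have hp2 : p.2 = r + V * m := by rw [h3, hm]; exact (Int.emod_add_mul_ediv p.2 V).symm
  have hp1 : p.1 = s + v * m := by rw [h4, hm]; ring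
  have hV50 := hs.V50
  have hR100 := hs.R100
  have hV0 : (0 : ℝ) < V := by linarith
  have hR0 : 0 < R := by linarith
  have hR1 : 1 ≤ R := by linarith
  rw [← hxc] at h5 h6
  obtain ⟨u', hu'⟩ : ∃ u' : ℝ, u' = x - xc := ⟨_, rfl⟩
  have hxu : x = xc + u' := by rw [hu']; ring
  have hfl1 : (⌊V * x⌋ : ℝ) ≤ V * x := Int.floor_le _
  have hfl2 : V * x < (⌊V * x⌋ : ℝ) + 1 := Int.lt_floor_add_one _
  have hvr : (v : ℝ) = 1 - ⌊V * x⌋ := by rw [h7]; push_cast; ring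
  have hu'V : u' = (V * x - ⌊V * x⌋ + 1) / V := by
    rw [hu', hxc, hvr]
    field_simp
    ring
  have hu1 : 1 / (V : ℝ) ≤ u' := by
    rw [hu'V]
    gcongr
    linarith
  have hu2 : u' ≤ 2 / (V : ℝ) := by
    rw [hu'V]
    gcongr
    linarith
  have hu0 : 0 < u' := lt_of_lt_of_le (by positivity) hu1
  have hA1 : |((p.2 : ℤ) : ℝ)| ≤ H := by exact_mod_cast h2
  obtain ⟨z, hz⟩ : ∃ z : ℝ, z = (c 1 + p.2) / V := ⟨_, rfl⟩
  have haeq : a = -((taylor xc Q).coeff 0 + p.2 * xc + p.1) / V := by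
    have e1 : (r : ℝ) * v / V = -(r * xc) := by rw [hxc]; ring
    have e2 : (V : ℝ) * xc = -v := by rw [hxc]; field_simp
    rw [ha, hc, e1, hp1, hp2]
    push_cast
    congr 1
    linear_combination (m : ℝ) * e2
  have hzeq : z = ((taylor xc Q).coeff 1 + p.2) / V := by rw [hz, hc]
  obtain ⟨g1, g2, g3, g4, g5, g6, g7, g8⟩ := geoC hD hQ hs.hK hs.hRW hs.hWV hs.hV1 hs.hV2 hA1 h8 h9 h10 hxu hu1 hu2
    haeq hzeq
  rw [← hzeq] at h5 h6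
  have hz0 : 0 < z := lt_of_lt_of_le (by positivity) g1
  have ha0 : 0 < a := lt_of_lt_of_le (by positivity) g3
  have hRz : 2 ≤ z := by
    refine le_trans ?_ g1
    rw [le_div_iff₀ (by positivity)]
    have e1 : R ^ 3 ≤ 2 * V := (hs.Rp (by nlinarith)).trans hs.WV
    have e2 : R ^ 2 * 100 ≤ R ^ 3 := by
      calc R ^ 2 * 100 ≤ R ^ 2 * R := by gcongr
        _ = R ^ 3 := by ring
    linarith
  have hfz1 : (⌊z⌋ : ℝ) ≤ z := Int.floor_le z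
  have hfz2 : z < (⌊z⌋ : ℝ) + 1 := Int.lt_floor_add_one z
  obtain ⟨N, hN⟩ : ∃ N : ℕ, N = 2 ^ j := ⟨_, rfl⟩
  have hN1 : 1 ≤ N := by rw [hN]; exact Nat.one_le_two_pow
  have h5' : (N : ℤ) < ⌊z⌋ := by rw [hN]; push_cast; exact h5
  have h6' : ⌊z⌋ ≤ 2 * (N : ℤ) := by rw [hN]; push_cast; rw [pow_succ] at h6; linarith
  have h5r : (N : ℝ) ≤ z := by
    have : ((N : ℤ) : ℝ) < ⌊z⌋ := by exact_mod_cast h5'
    push_cast at this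
    linarith
  have h6r : z ≤ 2 * N + 1 := by
    have : ((⌊z⌋ : ℤ) : ℝ) ≤ ((2 * (N : ℤ) : ℤ) : ℝ) := by exact_mod_cast h6'
    push_cast at this
    linarith
  have hN0 : (0 : ℝ) < N := by exact_mod_cast hN1
  rw [← hN]
  have hNup : (N : ℝ) ≤ V * R ^ (q + 4) := by
    calc (N : ℝ) ≤ 8 * V * R ^ (q + 3) := h5r.trans g2
      _ = V * (8 * R ^ (q + 3)) := by ring
      _ ≤ V * (R * R ^ (q + 3)) := by gcongr; linarith
      _ = V * R ^ (q + 4) := by ring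
  refine ⟨ha0, g5, ?_, ?_, ?_, hNup, ?_⟩
  · intro k hk
    rw [hc]
    exact (g7 k hk).trans hs.h35
  · have e1 : V / (8 * R ^ 2) ≤ N := by
      have e2 : V / (8 * R ^ 2) = V / (2 * R ^ 2) / 4 := by field_simp; ring
      rw [e2]
      linarith
    refine le_trans ?_ e1
    rw [le_div_iff₀ (by positivity)]
    have e3 : 16 * R ^ 2 ≤ W := by
      calc 16 * R ^ 2 ≤ R * R ^ 2 := by gcongr; linarith
        _ = R ^ 3 := by ring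
        _ ≤ W := hs.Rp (by nlinarith)
    have e4 := hs.h25
    have e5 : 0 ≤ (H : ℝ) ^ (2 / 5 : ℝ) := by positivity
    nlinarith
  · refine hNup.trans (le_trans ?_ hs.h35)
    gcongr
    exact hs.Rp (by nlinarith)
  · have hfloor : ⌊z⌋ = ⌊k₀⌋ + m := by
      have e1 : z = k₀ + m := by
        rw [hz, hk₀, hp2]
        push_cast
        field_simp
        ring
      rw [e1, Int.floor_add_intCast]
    have hn0 : 0 ≤ ⌊z⌋ := by linarith [h5', (by positivity : (0 : ℤ) ≤ N)]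
    obtain ⟨n, hn⟩ : ∃ n : ℕ, n = ⌊z⌋.toNat := ⟨_, rfl⟩
    have hnz : (n : ℤ) = ⌊z⌋ := by rw [hn]; exact Int.toNat_of_nonneg hn0
    have hmn : (n : ℤ) - ⌊k₀⌋ = m := by rw [hnz, hfloor]; ring
    refine ⟨n, ?_, ?_, ?_, a / u', ?_, ?_, ?_⟩
    · rw [hmn, ← hp1, ← hp2]
    · rw [← hnz] at h5'
      exact_mod_cast h5'
    · rw [← hnz] at h6'
      exact_mod_cast h6'
    · linarith
    · rw [hc]
      rw [g8]
      have e1 : z = (n : ℝ) + Int.fract k₀ := by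
        have e2 : z = k₀ + m := by
          rw [hz, hk₀, hp2]
          push_cast
          field_simp
          ring
        have e3 : (n : ℝ) = ⌊k₀⌋ + m := by
          have : ((n : ℤ) : ℝ) = ((⌊k₀⌋ + m : ℤ) : ℝ) := by rw [hnz, hfloor]
          push_cast at this
          exact this
        rw [e2, e3, Int.fract]
        ring
      rw [e1]
      push_cast
      ring
    · obtain ⟨c', u, v', w1, w2, w3, w4, w5⟩ := h11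
      refine ⟨c', u, v', w1, w2, w3, ?_, ?_⟩
      · rw [abs_of_pos ha0]
        have e1 : 3 / (4 * (V : ℝ)) ≤ a / N := by
          rw [le_div_iff₀ hN0]
          calc 3 / (4 * (V : ℝ)) * N ≤ 3 / (4 * (V : ℝ)) * z := by gcongr
            _ = 3 / 4 * z / V := by field_simp
            _ ≤ a := g3
        calc (1 : ℝ) ≤ 4 * V * (3 / (4 * V)) := by
              rw [mul_div_cancel₀ _ (by positivity)]
              norm_num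
          _ ≤ (c' : ℝ) ^ u * (a / N) := by gcongr
      · have e1 : xc + a / (a / u') = x := by
          rw [hxu]
          field_simp
        rw [e1]
        exact w5

end

end Pool.Agent.H17.GS
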