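import Pool.Agent.H17.GS.Hi

/-!
# Counting pairs of coefficients with a bad root: high windows, the count (helper17)
-/

set_option autoImplicit false

namespace Pool.Agent.H17.GS

open Finset Filter Topology Polynomial

section

variable {q H V : ℕ} {R W : ℝ} (hs : Sz q H V R W)
include hs

lemma zlow {Q : ℝ[X]} (hD : Q.natDegree ≤ q + 2) (hQ : ∀ k, |Q.coeff k| ≤ H) {v : ℤ} {A₁ A₀ x : ℝ}
    (h7 : v = 1 - ⌊V * x⌋) (hA1 : |A₁| ≤ H) (h8 : |x| ≤ R) (h9 : Q.eval x + A₁ * x + A₀ = 0)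
    (h10 : H / R ^ 2 ≤ Q.derivative.eval x + A₁) : 2 ≤ ((taylor (-(v : ℝ) / V) Q).coeff 1 + A₁) / V := by
  have hV50 := hs.V50
  have hR100 := hs.R100
  have hV0 : (0 : ℝ) < V := by linarith
  obtain ⟨xc, hxc⟩ : ∃ xc : ℝ, xc = -(v : ℝ) / V := ⟨_, rfl⟩
  rw [← hxc]
  obtain ⟨u', hu'⟩ : ∃ u' : ℝ, u' = x - xc := ⟨_, rfl⟩
  have hxu : x = xc + u' := by rw [hu']; ring
  have hfl1 : (⌊V * x⌋ : ℝ) ≤ V * x := Int.floor_le _
  have hfl2 : V * x < (⌊V * x⌋ : ℝ) + 1 := Int.lt_floor_add_one _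
  have hvr : (v : ℝ) = 1 - ⌊V * x⌋ := by rw [h7]; push_cast; ring
  have hu'V : u' = (V * x - ⌊V * x⌋ + 1) / V := by
    rw [hu', hxc, hvr]
    field_simp
    ring
  have hu1 : 1 / (V : ℝ) ≤ u' := by
    rw [hu'V]
    gcongr
    linarith
  have hu2 : u' ≤ 2 / (V : ℝ) := by
    rw [hu'V]
    gcongr
    linarith
  obtain ⟨g1, _⟩ := geoC hD hQ hs.hK hs.hRW hs.hWV hs.hV1 hs.hV2 hA1 h8 h9 h10 hxu hu1 hu2 rfl rfl
  refine le_trans ?_ g1
  rw [le_div_iff₀ (by positivity)]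
  have e1 : R ^ 3 ≤ 2 * V := (hs.Rp (by nlinarith)).trans hs.WV
  have e2 : R ^ 2 * 100 ≤ R ^ 3 := by
    calc R ^ 2 * 100 ≤ R ^ 2 * R := by gcongr
      _ = R ^ 3 := by ring
  linarith

end

lemma exists_dyadic {z : ℤ} (h : 2 ≤ z) : ∃ j : ℕ, 2 ^ j < z ∧ z ≤ 2 ^ (j + 1) := by
  obtain ⟨n, rfl⟩ := Int.eq_ofNat_of_zero_le (by omega : 0 ≤ z)
  have hn : 2 ≤ n := by exact_mod_cast h
  refine ⟨Nat.log 2 (n - 1), ?_, ?_⟩
  · have h1 := Nat.pow_log_le_self 2 (show n - 1 ≠ 0 by omega)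
    have h2 : 2 ^ Nat.log 2 (n - 1) < n := by omega
    exact_mod_cast h2
  · have h1 := Nat.lt_pow_succ_log_self (one_lt_two) (n - 1)
    have h2 : n ≤ 2 ^ (Nat.log 2 (n - 1) + 1) := by
      rw [Nat.succ_eq_add_one] at h1
      omega
    exact_mod_cast h2

/-- **Counting the bad pairs for the high windows** -/
theorem high : ∃ γ : ℝ, 0 < γ ∧ γ ≤ 1 / 40 ∧ ∀ (q : ℕ) (ε : ℝ), 0 < ε → ∃ H₀ : ℕ, ∀ H : ℕ, H₀ ≤ H →
    ∀ (V : ℕ) (R W : ℝ), Sz q H V R W → 2 * Real.log H + 1 ≤ R → ∀ Q : ℝ[X], Q.natDegree ≤ q + 2 →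
      (∀ k, |Q.coeff k| ≤ H) → ((badHi Q H V γ ε R).ncard : ℝ) ≤
        H ^ 2 * (R ^ (2 * q + 12) * Real.exp (-(2 / 5 * (Real.log H) ^ (3 / 5 : ℝ)))) := by
  obtain ⟨γ, hγ0, hγ1, hfib⟩ := fibre2
  refine ⟨γ, hγ0, hγ1, ?_⟩
  intro q ε hε
  obtain ⟨H₀, hH₀⟩ := hfib q ε hε
  refine ⟨H₀, ?_⟩
  intro H hH V R W hs hJR Q hD hQ
  have hV50 := hs.V50
  have hR100 := hs.R100
  have hV0 : (0 : ℝ) < V := by linarith
  have hVn : 0 < V := by exact_mod_cast hV0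
  have hR0 : 0 < R := by linarith
  have hR1 : 1 ≤ R := by linarith
  have hVH := hs.VH
  have hH0 : (0 : ℝ) < H := by linarith
  have hH1 : (1 : ℝ) ≤ H := by linarith
  have hlogH : 0 ≤ Real.log H := Real.log_nonneg hH1
  obtain ⟨E, hE⟩ : ∃ E : ℝ, E = Real.exp (-(2 / 5 * (Real.log H) ^ (3 / 5 : ℝ))) := ⟨_, rfl⟩
  rw [← hE]
  have hE0 : 0 < E := by rw [hE]; exact Real.exp_pos _
  -- the lines
  have key : ∀ (v r s : ℤ) (j : ℕ), ((Fx Q H V γ ε R v r s j).ncard : ℝ) ≤ V * R ^ (q + 4) * E := by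
    intro v r s j
    rcases Set.eq_empty_or_nonempty (Fx Q H V γ ε R v r s j) with hem | ⟨p₀, hp₀⟩
    · rw [hem, Set.ncard_empty, Nat.cast_zero]
      positivity
    · obtain ⟨xc, hxc⟩ : ∃ xc : ℝ, xc = -(v : ℝ) / V := ⟨_, rfl⟩
      obtain ⟨c, hc⟩ : ∃ c : ℕ → ℝ, c = fun k => (taylor xc Q).coeff k := ⟨_, rfl⟩
      obtain ⟨a, ha⟩ : ∃ a : ℝ, a = -(c 0 - r * v / V + s) / V := ⟨_, rfl⟩
      obtain ⟨k₀, hk₀⟩ : ∃ k₀ : ℝ, k₀ = (c 1 + r) / V := ⟨_, rfl⟩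
      obtain ⟨g1, g2, g3, g4, g5, g6, _⟩ := elem hs hD hQ hp₀ hxc hc ha hk₀
      have haH : |a| ≤ H := by
        rw [abs_of_pos g1]
        refine g2.trans (((hs.Rp (by nlinarith)).trans hs.WV).trans hVH)
      have hb := hH₀ H hH (fun k => c (k + 2) / V * a ^ (k + 1)) g3 a (Int.fract k₀) xc g1.ne' haH
        (Int.fract_nonneg _) (Int.fract_lt_one _).le (2 ^ j) g4 g5
      have hsub : Fx Q H V γ ε R v r s j ⊆ (fun n : ℕ => ((s + v * (n - ⌊k₀⌋), r + V * (n - ⌊k₀⌋)) : ℤ × ℤ)) ''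
          {n : ℕ | 2 ^ j < n ∧ n ≤ 2 * 2 ^ j ∧ ∃ x : ℝ, ((2 ^ j : ℕ) : ℝ) / 4 ≤ x ∧
            (x : ℂ) - psi q (fun k => c (k + 2) / V * a ^ (k + 1)) x = n + (Int.fract k₀ : ℝ) ∧
            ∃ c u v : ℕ, 2 ≤ c ∧ (Real.log H) ^ (1 - γ / 2) ≤ (v : ℝ) - u ∧
            v * Real.log c ≤ (Real.log H) ^ (1 + γ / 2) ∧ 1 ≤ (c : ℝ) ^ u * (|a| / (2 ^ j : ℕ)) ∧
            ¬ EquiW (xc + a / x) c u v ε} := by
        intro p hp
        obtain ⟨_, _, _, _, _, _, n, m1, m2, m3, m4⟩ := elem hs hD hQ hp hxc hc ha hk₀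
        exact ⟨n, ⟨m2, m3, m4⟩, m1.symm⟩
      have hfin : {n : ℕ | 2 ^ j < n ∧ n ≤ 2 * 2 ^ j ∧ ∃ x : ℝ, ((2 ^ j : ℕ) : ℝ) / 4 ≤ x ∧
            (x : ℂ) - psi q (fun k => c (k + 2) / V * a ^ (k + 1)) x = n + (Int.fract k₀ : ℝ) ∧
            ∃ c u v : ℕ, 2 ≤ c ∧ (Real.log H) ^ (1 - γ / 2) ≤ (v : ℝ) - u ∧
            v * Real.log c ≤ (Real.log H) ^ (1 + γ / 2) ∧ 1 ≤ (c : ℝ) ^ u * (|a| / (2 ^ j : ℕ)) ∧
            ¬ EquiW (xc + a / x) c u v ε}.Finite :=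
        (Set.finite_Icc 0 (2 * 2 ^ j)).subset fun n hn => ⟨Nat.zero_le _, hn.2.1⟩
      have h1 := (Set.ncard_le_ncard hsub (hfin.image _)).trans (Set.ncard_image_le hfin)
      have h2 : ((Fx Q H V γ ε R v r s j).ncard : ℝ) ≤
          ((2 ^ j : ℕ) : ℝ) * Real.exp (-(Real.log (2 ^ j : ℕ)) ^ (3 / 5 : ℝ)) :=
        le_trans (by exact_mod_cast h1) hb
      refine h2.trans ?_
      have hN0 : (0 : ℝ) < (2 ^ j : ℕ) := by positivity
      have h3 : 2 / 5 * Real.log H ≤ Real.log (2 ^ j : ℕ) := by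
        have h4 := Real.log_le_log (by positivity) g4
        rwa [Real.log_rpow hH0] at h4
      have h5 : 2 / 5 * (Real.log H) ^ (3 / 5 : ℝ) ≤ (Real.log (2 ^ j : ℕ)) ^ (3 / 5 : ℝ) := by
        have f1 : (2 / 5 * Real.log H) ^ (3 / 5 : ℝ) ≤ (Real.log (2 ^ j : ℕ)) ^ (3 / 5 : ℝ) :=
          Real.rpow_le_rpow (by positivity) h3 (by norm_num)
        have f2 : (2 / 5 * Real.log H) ^ (3 / 5 : ℝ) = (2 / 5) ^ (3 / 5 : ℝ) * (Real.log H) ^ (3 / 5 : ℝ) :=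
          Real.mul_rpow (by norm_num) hlogH
        have f3 : (2 / 5 : ℝ) ^ (1 : ℝ) ≤ (2 / 5) ^ (3 / 5 : ℝ) :=
          Real.rpow_le_rpow_of_exponent_ge (by norm_num) (by norm_num) (by norm_num)
        rw [Real.rpow_one] at f3
        rw [f2] at f1
        refine le_trans ?_ f1
        gcongr
      rw [hE]
      gcongr
  -- the index set
  obtain ⟨A, hA⟩ : ∃ A : ℕ, A = ⌈V * R⌉₊ + 3 := ⟨_, rfl⟩
  obtain ⟨B, hB⟩ : ∃ B : ℕ, B = ⌈V * R ^ (q + 4)⌉₊ + 1 := ⟨_, rfl⟩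
  obtain ⟨J, hJ⟩ : ∃ J : ℕ, J = Nat.log 2 H + 1 := ⟨_, rfl⟩
  have hAr : (A : ℝ) ≤ V * R + 4 := by
    rw [hA]
    push_cast
    have := Nat.ceil_lt_add_one (show 0 ≤ V * R by positivity)
    linarith
  have hAr' : V * R + 3 ≤ (A : ℝ) := by
    rw [hA]
    push_cast
    have := Nat.le_ceil (V * R)
    linarith
  have hBr : (B : ℝ) ≤ V * R ^ (q + 4) + 2 := by
    rw [hB]
    push_cast
    have := Nat.ceil_lt_add_one (show 0 ≤ V * R ^ (q + 4) by positivity)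
    linarith
  have hBr' : V * R ^ (q + 4) + 1 ≤ (B : ℝ) := by
    rw [hB]
    push_cast
    have := Nat.le_ceil (V * R ^ (q + 4))
    linarith
  have hJr : (J : ℝ) ≤ R := by
    rw [hJ]
    push_cast
    have h1 : ((2 ^ Nat.log 2 H : ℕ) : ℝ) ≤ H := by
      have : 2 ^ Nat.log 2 H ≤ H := Nat.pow_log_le_self 2 (by
        intro h
        rw [h] at hH0
        simp at hH0)
      exact_mod_cast this
    have h2 := Real.log_le_log (by positivity) h1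
    push_cast at h2
    rw [Real.log_pow] at h2
    have h3 : (1 / 2 : ℝ) ≤ Real.log 2 := by linarith [Real.log_two_gt_d9]
    have h4 : (0 : ℝ) ≤ (Nat.log 2 H : ℕ) := Nat.cast_nonneg _
    nlinarith
  have hcover : ∀ p ∈ badHi Q H V γ ε R, ∃ i ∈ (Finset.Icc (-(A : ℤ)) A ×ˢ Finset.Ico (0 : ℤ) V) ×ˢ
      (Finset.Icc (-(B : ℤ)) B ×ˢ Finset.range J), p ∈ (fun i : (ℤ × ℤ) × (ℤ × ℕ) =>
        Fx Q H V γ ε R i.1.1 i.1.2
          (⌊(i.1.2 : ℝ) * i.1.1 / V - (taylor (-(i.1.1 : ℝ) / V) Q).coeff 0⌋ + i.2.1) i.2.2) i := by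
    rintro p ⟨h1, h2, x, h8, h9, h10, h11⟩
    obtain ⟨v, hv⟩ : ∃ v : ℤ, v = 1 - ⌊V * x⌋ := ⟨_, rfl⟩
    obtain ⟨r, hr⟩ : ∃ r : ℤ, r = p.2 % V := ⟨_, rfl⟩
    obtain ⟨s, hs'⟩ : ∃ s : ℤ, s = p.1 - v * (p.2 / V) := ⟨_, rfl⟩
    have hA1 : |((p.2 : ℤ) : ℝ)| ≤ H := by exact_mod_cast h2
    have hz2 := zlow hs hD hQ hv hA1 h8 h9 h10
    have hz3 : 2 ≤ ⌊((taylor (-(v : ℝ) / V) Q).coeff 1 + p.2) / V⌋ := by
      rw [Int.le_floor]
      push_cast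
      exact hz2
    obtain ⟨j, hj1, hj2⟩ := exists_dyadic hz3
    have hpF : p ∈ Fx Q H V γ ε R v r s j := ⟨h1, h2, hr, hs', hj1, hj2, x, hv, h8, h9, h10, h11⟩
    obtain ⟨g1, g2, g3, g4, g5, g6, _⟩ := elem hs hD hQ hpF rfl rfl rfl rfl
    obtain ⟨σ, hσ⟩ : ∃ σ : ℝ, σ = (r : ℝ) * v / V - (taylor (-(v : ℝ) / V) Q).coeff 0 := ⟨_, rfl⟩
    refine ⟨((v, r), (s - ⌊σ⌋, j)), ?_, ?_⟩
    · rw [Finset.mem_product, Finset.mem_product, Finset.mem_product, Finset.mem_Icc, Finset.mem_Ico,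
        Finset.mem_Icc, Finset.mem_range]
      refine ⟨⟨?_, ?_⟩, ?_, ?_⟩
      · have hfl1 : (⌊V * x⌋ : ℝ) ≤ V * x := Int.floor_le _
        have hfl2 : V * x < (⌊V * x⌋ : ℝ) + 1 := Int.lt_floor_add_one _
        have hvr : (v : ℝ) = 1 - ⌊V * x⌋ := by rw [hv]; push_cast; ring
        have h8' := abs_le.1 h8
        have e1 : V * x ≤ V * R := by gcongr; exact h8'.2
        have e2 : -(V * R) ≤ V * x := by
          have : V * (-R) ≤ V * x := by gcongr; exact h8'.1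
          linarith
        constructor
        · have : -(A : ℝ) ≤ v := by linarith
          exact_mod_cast this
        · have : (v : ℝ) ≤ A := by linarith
          exact_mod_cast this
      · rw [hr]
        exact ⟨Int.emod_nonneg _ (by positivity), Int.emod_lt_of_pos _ (by exact_mod_cast hVn)⟩
      · have e1 : -(-((taylor (-(v : ℝ) / V) Q).coeff 0 - r * v / V + s) / V) * V = s - σ := by
          rw [hσ]
          field_simp
          ring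
        obtain ⟨a, ha⟩ : ∃ a : ℝ, a = -((taylor (-(v : ℝ) / V) Q).coeff 0 - r * v / V + s) / V := ⟨_, rfl⟩
        rw [← ha] at e1
        have g1' : 0 < a := by rw [ha]; exact g1
        have g2' : a ≤ R ^ (q + 4) := by rw [ha]; exact g2
        have hf1 := Int.floor_le σ
        have hf2 := Int.lt_floor_add_one σ
        have e2 : a * V ≤ V * R ^ (q + 4) := by
          rw [mul_comm]
          gcongr
        have e3 : 0 ≤ a * V := by positivity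
        constructor
        · have : -(B : ℝ) ≤ (s : ℝ) - ⌊σ⌋ := by linarith
          exact_mod_cast this
        · have : (s : ℝ) - ⌊σ⌋ ≤ B := by
            have : 0 ≤ V * R ^ (q + 4) := by positivity
            linarith
          exact_mod_cast this
      · have e1 : ((2 ^ j : ℕ) : ℝ) ≤ H := by
          refine g5.trans ?_
          calc (H : ℝ) ^ (3 / 5 : ℝ) ≤ (H : ℝ) ^ (1 : ℝ) := Real.rpow_le_rpow_of_exponent_le hH1 (by norm_num)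
            _ = H := Real.rpow_one _
        have e2 : 2 ^ j ≤ H := by exact_mod_cast e1
        rw [hJ]
        exact Nat.lt_succ_of_le (Nat.le_log_of_pow_le one_lt_two e2)
    · show p ∈ Fx Q H V γ ε R v r (⌊(r : ℝ) * v / V - (taylor (-(v : ℝ) / V) Q).coeff 0⌋ + (s - ⌊σ⌋)) j
      rw [← hσ, show ⌊σ⌋ + (s - ⌊σ⌋) = s by ring]
      exact hpF
  have hfinal := ncard_cover _ _ _ _ hcover (fun i => Fx_finite _ _ _ _ _ _ _ _ _ _) (fun i _ => key _ _ _ _)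
  refine hfinal.trans ?_
  rw [Finset.card_product, Finset.card_product, Finset.card_product, Int.card_Icc, Int.card_Ico, Int.card_Icc,
    Finset.card_range]
  have c1 : ((((A : ℤ) + 1 - -(A : ℤ)).toNat : ℕ) : ℝ) = 2 * A + 1 := by
    rw [show (A : ℤ) + 1 - -(A : ℤ) = ((2 * A + 1 : ℕ) : ℤ) by push_cast; ring, Int.toNat_natCast]
    push_cast
    ring
  have c2 : ((((B : ℤ) + 1 - -(B : ℤ)).toNat : ℕ) : ℝ) = 2 * B + 1 := by
    rw [show (B : ℤ) + 1 - -(B : ℤ) = ((2 * B + 1 : ℕ) : ℤ) by push_cast; ring, Int.toNat_natCast]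
    push_cast
    ring
  have c3 : ((((V : ℤ) - 0).toNat : ℕ) : ℝ) = V := by
    rw [sub_zero, Int.toNat_natCast]
  push_cast
  rw [c1, c2, c3]
  have d1 : 2 * (A : ℝ) + 1 ≤ V * R ^ 2 := by
    have e1 : V * R * 100 ≤ V * R ^ 2 := by
      calc V * R * 100 ≤ V * R * R := by gcongr
        _ = V * R ^ 2 := by ring
    have e2 : 50 * 100 ≤ V * R := by gcongr
    linarith
  have d2 : 2 * (B : ℝ) + 1 ≤ V * R ^ (q + 5) := by
    have e1 : V * R ^ (q + 4) * 100 ≤ V * R ^ (q + 5) := by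
      calc V * R ^ (q + 4) * 100 ≤ V * R ^ (q + 4) * R := by gcongr
        _ = V * R ^ (q + 5) := by ring
    have e2 : 50 * 1 ≤ V * R ^ (q + 4) := by
      gcongr
      exact one_le_pow₀ hR1
    linarith
  calc (2 * (A : ℝ) + 1) * V * ((2 * B + 1) * J) * (V * R ^ (q + 4) * E) ≤
        (V * R ^ 2) * V * ((V * R ^ (q + 5)) * R) * (V * R ^ (q + 4) * E) := by gcongr
    _ = ((V : ℝ) ^ 2) ^ 2 * (R ^ (2 * q + 12) * E) := by ring
    _ ≤ H ^ 2 * (R ^ (2 * q + 12) * E) := by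
        gcongr
        exact hs.hV1

end Pool.Agent.H17.GS
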