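import Pool.Agent.H17.GS.Pui

/-!
# The large root of `x ^ d = n x ^ (d - 1) + ...` as a holomorphic function of `n` (helper17)
-/

set_option autoImplicit false

namespace Pool.Agent.H17.GS

open Finset Filter Topology

/-- `ψ(w) = b_0 / w + b_1 / w ^ 2 + ... + b_q / w ^ (q + 1)` -/
noncomputable def psi (q : ℕ) (b : ℕ → ℝ) (w : ℂ) : ℂ := ∑ k ∈ range (q + 1), (b k : ℂ) * w⁻¹ ^ (k + 1)

section

variable {q : ℕ} {b : ℕ → ℝ} {A N : ℝ}

lemma inv_le {N : ℝ} (hN : 4 ≤ N) {w : ℂ} (hw : N / 4 ≤ w.re) : ‖w⁻¹‖ ≤ 4 / N ∧ 4 / N ≤ 1 ∧ w ≠ 0 := by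
  have h1 : N / 4 ≤ ‖w‖ := hw.trans ((le_abs_self _).trans (Complex.abs_re_le_norm w))
  have h2 : 0 < N / 4 := by linarith
  refine ⟨?_, ?_, ?_⟩
  · rw [norm_inv, show 4 / N = (N / 4)⁻¹ by rw [inv_div]]
    exact inv_anti₀ h2 h1
  · rw [div_le_one (by linarith)]; exact hN
  · rintro rfl
    simp at h1
    linarith

lemma psi_le (hN : 4 ≤ N) (hb : ∀ k ≤ q, |b k| ≤ A) {w : ℂ} (hw : N / 4 ≤ w.re) :
    ‖psi q b w‖ ≤ (q + 1) * A * (4 / N) := by
  obtain ⟨h1, h2, _⟩ := inv_le hN hw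
  have hA : 0 ≤ A := (abs_nonneg _).trans (hb 0 (Nat.zero_le _))
  have h0 : 0 ≤ 4 / N := by positivity
  refine (norm_sum_le _ _).trans ?_
  have h3 : ∀ k ∈ range (q + 1), ‖(b k : ℂ) * w⁻¹ ^ (k + 1)‖ ≤ A * (4 / N) := by
    intro k hk
    rw [mem_range] at hk
    rw [norm_mul, Complex.norm_real, norm_pow, Real.norm_eq_abs]
    have h4 : ‖w⁻¹‖ ^ (k + 1) ≤ 4 / N := by
      calc ‖w⁻¹‖ ^ (k + 1) ≤ (4 / N) ^ (k + 1) := pow_le_pow_left₀ (norm_nonneg _) h1 _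
        _ ≤ (4 / N) ^ 1 := pow_le_pow_of_le_one h0 h2 (by omega)
        _ = 4 / N := pow_one _
    exact mul_le_mul (hb k (by omega)) h4 (by positivity) hA
  refine (sum_le_sum h3).trans ?_
  rw [sum_const, card_range, nsmul_eq_mul]
  push_cast
  linarith

lemma psi_der (hN : 4 ≤ N) (hb : ∀ k ≤ q, |b k| ≤ A) {w : ℂ} (hw : N / 4 ≤ w.re) :
    ∃ D : ℂ, HasDerivAt (psi q b) D w ∧ ‖D‖ ≤ (q + 1) ^ 2 * A * (4 / N) ^ 2 := by
  obtain ⟨h1, h2, h3⟩ := inv_le hN hw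
  have hA : 0 ≤ A := (abs_nonneg _).trans (hb 0 (Nat.zero_le _))
  have h0 : 0 ≤ 4 / N := by positivity
  refine ⟨∑ k ∈ range (q + 1), (b k : ℂ) * (((k + 1 : ℕ) : ℂ) * w⁻¹ ^ (k + 1 - 1) * (-(w ^ 2)⁻¹)), ?_, ?_⟩
  · refine HasDerivAt.fun_sum fun k _ => ?_
    have h4 := (hasDerivAt_inv h3).pow (k + 1)
    exact h4.const_mul _
  · refine (norm_sum_le _ _).trans ?_
    have h5 : ∀ k ∈ range (q + 1), ‖(b k : ℂ) * (((k + 1 : ℕ) : ℂ) * w⁻¹ ^ (k + 1 - 1) * (-(w ^ 2)⁻¹))‖ ≤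
        A * ((q + 1) * (4 / N) ^ 2) := by
      intro k hk
      rw [mem_range] at hk
      rw [norm_mul, norm_mul, norm_mul, Complex.norm_real, norm_pow, Real.norm_eq_abs, norm_neg,
        ← inv_pow, norm_pow, Complex.norm_natCast]
      have h4 : ‖w⁻¹‖ ^ (k + 1 - 1) ≤ 1 := pow_le_one₀ (norm_nonneg _) (h1.trans h2)
      have h6 : ‖w⁻¹‖ ^ 2 ≤ (4 / N) ^ 2 := pow_le_pow_left₀ (norm_nonneg _) h1 _
      have h7 : ((k + 1 : ℕ) : ℝ) ≤ (q : ℝ) + 1 := by exact_mod_cast hk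
      have h8 : ((k + 1 : ℕ) : ℝ) * ‖w⁻¹‖ ^ (k + 1 - 1) * ‖w⁻¹‖ ^ 2 ≤ ((q : ℝ) + 1) * 1 * (4 / N) ^ 2 := by
        gcongr
      rw [mul_one] at h8
      exact mul_le_mul (hb k (by omega)) h8 (by positivity) hA
    refine (sum_le_sum h5).trans ?_
    rw [sum_const, card_range, nsmul_eq_mul]
    push_cast
    apply le_of_eq
    ring

lemma convex_half (c : ℝ) : Convex ℝ {w : ℂ | c ≤ w.re} := convex_halfSpace_re_ge c

lemma psi_lip (hN : 4 ≤ N) (hb : ∀ k ≤ q, |b k| ≤ A) (hA : 48 * ((q : ℝ) + 1) ^ 2 * A ≤ N ^ 2)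
    {w z : ℂ} (hw : N / 4 ≤ w.re) (hz : N / 4 ≤ z.re) : ‖psi q b w - psi q b z‖ ≤ 1 / 2 * ‖w - z‖ := by
  have hN0 : 0 < N := by linarith
  have h1 : ∀ x ∈ {w : ℂ | N / 4 ≤ w.re}, DifferentiableAt ℂ (psi q b) x := by
    intro x hx
    obtain ⟨D, hD, _⟩ := psi_der hN hb hx
    exact hD.differentiableAt
  have h2 : ∀ x ∈ {w : ℂ | N / 4 ≤ w.re}, ‖deriv (psi q b) x‖ ≤ 1 / 2 := by
    intro x hx
    obtain ⟨D, hD, hD2⟩ := psi_der hN hb hx
    rw [hD.deriv]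
    refine hD2.trans ?_
    have h3 : (4 / N) ^ 2 = 16 / N ^ 2 := by rw [div_pow]; norm_num
    rw [h3, mul_div_assoc', div_le_iff₀ (by positivity)]
    nlinarith [sq_nonneg N]
  exact (convex_half (N / 4)).norm_image_sub_le_of_norm_deriv_le h1 h2 hz hw

/-- existence of the root -/
lemma root_ex (hN : 4 ≤ N) (hb : ∀ k ≤ q, |b k| ≤ A) (hA : 48 * ((q : ℝ) + 1) ^ 2 * A ≤ N ^ 2)
    {z : ℂ} (hz : N / 3 ≤ z.re) :
    ∃ w : ℂ, N / 4 ≤ w.re ∧ w - psi q b w = z ∧ ‖w - z‖ ≤ (q + 1) * A * (4 / N) := by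
  have hN0 : 0 < N := by linarith
  have hA0 : 0 ≤ A := (abs_nonneg _).trans (hb 0 (Nat.zero_le _))
  set ρ : ℝ := (q + 1) * A * (4 / N) with hρ
  have hρ0 : 0 ≤ ρ := by positivity
  have hρN : ρ ≤ N / 12 := by
    rw [hρ, mul_div_assoc', div_le_div_iff₀ hN0 (by norm_num)]
    have h1 : (q : ℝ) + 1 ≤ ((q : ℝ) + 1) ^ 2 := by
      have : (0 : ℝ) ≤ q := Nat.cast_nonneg q
      nlinarith
    have h2 : ((q : ℝ) + 1) * A ≤ ((q : ℝ) + 1) ^ 2 * A := by gcongr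
    nlinarith
  have hsub : ∀ w ∈ Metric.closedBall z ρ, N / 4 ≤ w.re := by
    intro w hw
    rw [Metric.mem_closedBall, dist_eq_norm] at hw
    have h3 := Complex.abs_re_le_norm (w - z)
    rw [Complex.sub_re] at h3
    have h4 := abs_le.1 (h3.trans hw)
    linarith [h4.1]
  set T : ℂ → ℂ := fun w => z + psi q b w with hT
  have hmaps : Set.MapsTo T (Metric.closedBall z ρ) (Metric.closedBall z ρ) := by
    intro w hw
    rw [Metric.mem_closedBall, dist_eq_norm, hT]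
    simp only [add_sub_cancel_left]
    exact psi_le hN hb (hsub w hw)
  have hcontr : ContractingWith (1 / 2) (hmaps.restrict T _ _) := by
    constructor
    · rw [← NNReal.coe_lt_coe]; norm_num
    · apply LipschitzWith.of_dist_le_mul
      intro x y
      rw [Subtype.dist_eq, Subtype.dist_eq, dist_eq_norm, dist_eq_norm]
      have h1 := psi_lip hN hb hA (hsub x.1 x.2) (hsub y.1 y.2)
      have h2 : ((hmaps.restrict T _ _ x : ℂ) - (hmaps.restrict T _ _ y : ℂ)) = psi q b x - psi q b y := by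
        show T x - T y = _
        rw [hT]
        simp only
        ring
      rw [h2]
      simpa using h1
  obtain ⟨w, hw, hfix, _⟩ := hcontr.exists_fixedPoint' (Metric.isClosed_closedBall.isComplete) hmaps
    (Metric.mem_closedBall_self hρ0) (edist_ne_top _ _)
  refine ⟨w, hsub w hw, ?_, ?_⟩
  · have h1 : z + psi q b w = w := hfix
    linear_combination -h1
  · rwa [Metric.mem_closedBall, dist_eq_norm] at hw

lemma root_unique (hN : 4 ≤ N) (hb : ∀ k ≤ q, |b k| ≤ A) (hA : 48 * ((q : ℝ) + 1) ^ 2 * A ≤ N ^ 2)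
    {w z : ℂ} (hw : N / 4 ≤ w.re) (hz : N / 4 ≤ z.re) :
    ‖w - z‖ ≤ 2 * ‖(w - psi q b w) - (z - psi q b z)‖ := by
  have h1 := psi_lip hN hb hA hw hz
  have h2 : w - z = ((w - psi q b w) - (z - psi q b z)) + (psi q b w - psi q b z) := by ring
  have h3 : ‖w - z‖ ≤ ‖(w - psi q b w) - (z - psi q b z)‖ + ‖psi q b w - psi q b z‖ := by
    conv_lhs => rw [h2]
    exact norm_add_le _ _
  linarith

/-- the root as a function of `z` -/
theorem exists_inv (hN : 4 ≤ N) (hb : ∀ k ≤ q, |b k| ≤ A) (hA : 48 * ((q : ℝ) + 1) ^ 2 * A ≤ N ^ 2) :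
    ∃ B : ℂ → ℂ, (∀ z : ℂ, N / 3 ≤ z.re → N / 4 ≤ (B z).re ∧ B z - psi q b (B z) = z ∧
      ‖B z - z‖ ≤ (q + 1) * A * (4 / N)) ∧ (∀ z : ℂ, N / 3 < z.re → DifferentiableAt ℂ B z) := by
  classical
  have h : ∀ z : ℂ, ∃ w : ℂ, N / 3 ≤ z.re → N / 4 ≤ w.re ∧ w - psi q b w = z ∧
      ‖w - z‖ ≤ (q + 1) * A * (4 / N) := by
    intro z
    by_cases hz : N / 3 ≤ z.re
    · obtain ⟨w, hw⟩ := root_ex hN hb hA hz
      exact ⟨w, fun _ => hw⟩
    · exact ⟨0, fun h => absurd h hz⟩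
  choose B hB using h
  refine ⟨B, hB, ?_⟩
  intro z hz
  have hopen : ∀ᶠ y : ℂ in 𝓝 z, N / 3 ≤ y.re := by
    have h1 : {y : ℂ | N / 3 < y.re} ∈ 𝓝 z := (isOpen_lt continuous_const Complex.continuous_re).mem_nhds hz
    filter_upwards [h1] with y hy
    exact le_of_lt hy
  have hcont : ContinuousAt B z := by
    rw [Metric.continuousAt_iff]
    intro ε hε
    obtain ⟨δ, hδ, h1⟩ := Metric.eventually_nhds_iff.1 hopen
    refine ⟨min δ (ε / 2), lt_min hδ (by positivity), fun y hy => ?_⟩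
    have h2 := h1 (lt_of_lt_of_le hy (min_le_left _ _))
    obtain ⟨g1, g2, _⟩ := hB y h2
    obtain ⟨g3, g4, _⟩ := hB z hz.le
    have h3 := root_unique hN hb hA g1 g3
    rw [g2, g4] at h3
    rw [dist_eq_norm] at hy ⊢
    have h4 := lt_of_lt_of_le hy (min_le_right _ _)
    linarith
  obtain ⟨g1, g2, _⟩ := hB z hz.le
  obtain ⟨D, hD, hD2⟩ := psi_der hN hb g1
  have hG : HasDerivAt (fun w => w - psi q b w) (1 - D) (B z) := (hasDerivAt_id _).sub hD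
  have hne : (1 : ℂ) - D ≠ 0 := by
    intro h0
    have h1 : D = 1 := by linear_combination -h0
    rw [h1, norm_one] at hD2
    have hN0 : 0 < N := by linarith
    have h3 : (4 / N) ^ 2 = 16 / N ^ 2 := by rw [div_pow]; norm_num
    rw [h3, mul_div_assoc', le_div_iff₀ (by positivity)] at hD2
    nlinarith [sq_nonneg N]
  have hinv := HasDerivAt.of_local_left_inverse hcont hG hne (by
    filter_upwards [hopen] with y hy
    exact (hB y hy).2.1)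
  exact hinv.differentiableAt

end

end Pool.Agent.H17.GS
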