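import Pool.Agent.H17.GS.ESet

/-!
# Counting pairs of coefficients with a bad root: low windows (helper17)
-/

set_option autoImplicit false

namespace Pool.Agent.H17.GS

open Finset Filter Topology Polynomial

/-- the property of a root in the low windows -/
def LoW (H : ℕ) (γ ε x : ℝ) : Prop := ∃ c u v : ℕ, 2 ≤ c ∧ (Real.log H) ^ (1 - γ / 2) ≤ (v : ℝ) - u ∧
  v * Real.log c ≤ 3 / 4 * Real.log H ∧ ¬ EquiW x c u v ε

/-- the bad pairs for the low windows -/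
def badL (Q : ℝ[X]) (H : ℕ) (γ ε R : ℝ) : Set (ℤ × ℤ) :=
  {p | |p.1| ≤ H ∧ |p.2| ≤ H ∧ ∃ x : ℝ, |x| ≤ R ∧ Q.eval x + p.2 * x + p.1 = 0 ∧ LoW H γ ε x}

theorem lset (γ : ℝ) (hγ0 : 0 < γ) (hγ1 : γ ≤ 1 / 20) (ε : ℝ) (hε : 0 < ε) : ∃ H₀ : ℕ, ∀ H : ℕ, H₀ ≤ H →
    ∀ (q V : ℕ) (R W : ℝ), Sz q H V R W → ∀ Q : ℝ[X], Q.natDegree ≤ q + 2 →
      (∀ k, |Q.coeff k| ≤ H) → ((badL Q H γ ε R).ncard : ℝ) ≤
        H ^ 2 * (R ^ (q + 9) * Real.exp (-(Real.log H) ^ (3 / 5 : ℝ))) := by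
  obtain ⟨M₀, hM₀⟩ := low γ hγ0 hγ1 (ε / 12) (by positivity)
  obtain ⟨κ, hκ⟩ : ∃ κ : ℝ, κ = min ε 1 / 16 := ⟨_, rfl⟩
  have hκ0 : 0 < κ := by rw [hκ]; positivity
  have hκ1 : κ ≤ 1 / 2 := by
    rw [hκ]
    have := min_le_right ε 1
    linarith
  have hκ2 : κ ≤ ε / 16 := by
    rw [hκ]
    have := min_le_left ε 1
    linarith
  have ev0 : ∀ᶠ x : ℝ in atTop, κ⁻¹ * x ^ (3 / 4 : ℝ) ≤ x ^ (1 : ℝ) := ev_pow _ _ _ (by norm_num)
  have hNr : Tendsto (fun N : ℕ => (N : ℝ)) atTop atTop := tendsto_natCast_atTop_atTop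
  obtain ⟨H₀, hH₀⟩ := eventually_atTop.1 ((hNr.eventually ev0).and (eventually_ge_atTop M₀))
  refine ⟨H₀, ?_⟩
  intro H hH q V R W hs Q hD hQ
  obtain ⟨ev0', hHM⟩ := hH₀ H hH
  rw [Real.rpow_one] at ev0'
  have hlow := hM₀ H hHM
  have hV50 := hs.V50
  have hR100 := hs.R100
  have hR0 : 0 < R := by linarith
  have hR1 : 1 ≤ R := by linarith
  have hVH := hs.VH
  have hH0 : (0 : ℝ) < H := by linarith
  have hHn : 0 < H := by exact_mod_cast hH0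
  have hHz : (0 : ℤ) < H := by exact_mod_cast hHn
  have hq0 : (0 : ℝ) ≤ q := Nat.cast_nonneg q
  obtain ⟨B, hB⟩ : ∃ B : Set ℕ, B = {n : ℕ | 0 < n ∧ n ≤ H ∧ ∃ b u v : ℕ, 2 ≤ b ∧
      (Real.log H) ^ (1 - γ / 2) ≤ (v : ℝ) - u ∧ v * Real.log b ≤ 9 / 10 * Real.log H ∧
        ¬ EquiW ((n : ℝ) / H) b u v (ε / 12)} := ⟨_, rfl⟩
  rw [← hB] at hlow
  have hBfin : B.Finite := by
    rw [hB]
    exact (Set.finite_Icc 0 H).subset fun n hn => ⟨Nat.zero_le _, hn.2.1⟩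
  obtain ⟨E, hE⟩ : ∃ E : ℝ, E = Real.exp (-(Real.log H) ^ (3 / 5 : ℝ)) := ⟨_, rfl⟩
  rw [← hE] at hlow ⊢
  have hE0 : 0 < E := by rw [hE]; exact Real.exp_pos _
  have hlogH : 0 ≤ Real.log H := Real.log_nonneg (by linarith)
  -- the first derivative
  have hcK : ((q : ℝ) + 3) ^ 3 * 4 ^ (q + 3) ≤ R := by
    have e1 := hs.hK
    have e2 : 0 ≤ ((q : ℝ) + 3) ^ 3 * 4 ^ (q + 3) := by positivity
    nlinarith
  have hT : ∀ ξ h : ℝ, |ξ| ≤ 2 * R → |h| ≤ 1 → |Q.eval (ξ + h) - Q.eval ξ| ≤ H * R ^ (q + 3) * |h| := by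
    intro ξ h h1 h2
    refine (tay1 hD hQ hR1 h1 h2).trans ?_
    apply mul_le_mul_of_nonneg_right _ (abs_nonneg _)
    have e1 : (((q + 2 : ℕ) : ℝ) + 1) ^ 2 * 4 ^ (q + 2) * H * R ^ (q + 2) =
        (((q : ℝ) + 3) ^ 2 * 4 ^ (q + 2)) * H * R ^ (q + 2) := by
      push_cast
      ring
    rw [e1]
    have e2 : ((q : ℝ) + 3) ^ 2 * 4 ^ (q + 2) ≤ R := by
      refine le_trans ?_ hcK
      gcongr
      · linarith
      · norm_num
      · norm_num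
      · omega
    calc (((q : ℝ) + 3) ^ 2 * 4 ^ (q + 2)) * H * R ^ (q + 2) ≤ R * H * R ^ (q + 2) := by gcongr
      _ = H * R ^ (q + 3) := by ring
  -- the cover
  obtain ⟨A, hA⟩ : ∃ A : ℕ, A = ⌈R⌉₊ + 3 := ⟨_, rfl⟩
  have hAr : (A : ℝ) ≤ R + 4 := by
    rw [hA]
    push_cast
    have := Nat.ceil_lt_add_one hR0.le
    linarith
  have hAr' : R + 3 ≤ (A : ℝ) := by
    rw [hA]
    push_cast
    have := Nat.le_ceil R
    linarith
  have hcover : ∀ p ∈ badL Q H γ ε R, ∃ i ∈ Finset.Icc (-(A : ℤ)) A ×ˢ hBfin.toFinset, p ∈ (fun i : ℤ × ℕ =>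
      {p : ℤ × ℤ | |(p.2 : ℝ) + 0| ≤ H ∧
        |(p.1 : ℝ) + (fun a : ℤ => Q.eval ((i.1 : ℝ) + i.2 / H) + a * ((i.1 : ℝ) + i.2 / H)) p.2| ≤
          2 * R ^ (q + 3)}) i := by
    rintro p ⟨h1, h2, x, h3, h4, c, u, v, w1, w2, w3, w4⟩
    obtain ⟨n, hn⟩ : ∃ n : ℤ, n = ⌊H * x⌋ := ⟨_, rfl⟩
    have hfl1 : (n : ℝ) ≤ H * x := by rw [hn]; exact Int.floor_le _
    have hfl2 : H * x < (n : ℝ) + 1 := by rw [hn]; exact Int.lt_floor_add_one _
    have h3' := abs_le.1 h3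
    obtain ⟨k, hk⟩ : ∃ k : ℤ, k = (n - 1) / H := ⟨_, rfl⟩
    obtain ⟨m, hm⟩ : ∃ m : ℤ, m = (n - 1) % H + 1 := ⟨_, rfl⟩
    have hm0 : 0 ≤ (n - 1) % (H : ℤ) := Int.emod_nonneg _ hHz.ne'
    have hm1 : (n - 1) % (H : ℤ) < H := Int.emod_lt_of_pos _ hHz
    have hnk : n = H * k + m := by
      rw [hk, hm]
      have := Int.mul_ediv_add_emod (n - 1) H
      linarith
    obtain ⟨n₀, hn₀⟩ := Int.eq_ofNat_of_zero_le (show 0 ≤ m by omega)
    have hn₀1 : 0 < n₀ := by omega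
    have hn₀2 : n₀ ≤ H := by omega
    obtain ⟨η, hη⟩ : ∃ η : ℝ, η = (k : ℝ) + n₀ / H := ⟨_, rfl⟩
    have hηn : η = n / H := by
      rw [hη, hnk, hn₀]
      push_cast
      field_simp
    obtain ⟨h, hh⟩ : ∃ h : ℝ, h = x - η := ⟨_, rfl⟩
    have hx : x = η + h := by rw [hh]; ring
    have hh0 : 0 ≤ h := by
      rw [hh, hηn, sub_nonneg, div_le_iff₀ hH0]
      linarith
    have hh1 : h ≤ 1 / H := by
      rw [hh, hηn, le_div_iff₀ hH0, sub_mul, div_mul_cancel₀ _ hH0.ne']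
      linarith
    have hh2 : h ≤ 1 := hh1.trans (by rw [div_le_one hH0]; linarith)
    have hhabs : |h| = h := abs_of_nonneg hh0
    have hηR : |η| ≤ R + 1 := by
      have : η = x - h := by rw [hh]; ring
      rw [this]
      refine (abs_sub _ _).trans ?_
      rw [hhabs]
      linarith
    have hη' := abs_le.1 hηR
    have hn₀r : 0 ≤ (n₀ : ℝ) / H ∧ (n₀ : ℝ) / H ≤ 1 := by
      refine ⟨by positivity, ?_⟩
      rw [div_le_one hH0]
      exact_mod_cast hn₀2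
    refine ⟨(k, n₀), ?_, ?_⟩
    · rw [Finset.mem_product, Finset.mem_Icc, Set.Finite.mem_toFinset]
      refine ⟨⟨?_, ?_⟩, ?_⟩
      · have : -(A : ℝ) ≤ k := by linarith
        exact_mod_cast this
      · have : (k : ℝ) ≤ A := by linarith
        exact_mod_cast this
      · rw [hB]
        refine ⟨hn₀1, hn₀2, c, u, v, w1, w2, ?_, ?_⟩
        · have : (0 : ℝ) ≤ Real.log H := hlogH
          linarith
        · intro hcon
          apply w4
          have hc1 : EquiW η c u v (ε / 12) := by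
            rw [hη, equiW_add_int]
            exact hcon
          have hc0 : (0 : ℝ) < c := by
            have : 0 < c := by omega
            exact_mod_cast this
          have huv : u ≤ v := by
            have h5 : 0 ≤ (Real.log H) ^ (1 - γ / 2) := by positivity
            have h6 : (u : ℝ) ≤ v := by linarith
            exact_mod_cast h6
          have hcv : (c : ℝ) ^ v ≤ (H : ℝ) ^ (3 / 4 : ℝ) := by
            rw [Real.rpow_def_of_pos hH0, ← Real.exp_log (pow_pos hc0 v), Real.log_pow]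
            apply Real.exp_le_exp.2
            linarith
          have hpert : |x - η| * (c : ℝ) ^ v ≤ κ := by
            rw [← hh, hhabs]
            calc h * (c : ℝ) ^ v ≤ 1 / H * (H : ℝ) ^ (3 / 4 : ℝ) := by gcongr
              _ = (κ⁻¹ * (H : ℝ) ^ (3 / 4 : ℝ)) * (κ / H) := by field_simp
              _ ≤ H * (κ / H) := by gcongr
              _ = κ := by field_simp
          have h7 := EquiW.perturb (by omega) huv hc1 hκ0 hκ1 hpert
          exact h7.mono huv (by linarith)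
    · show |(p.2 : ℝ) + 0| ≤ H ∧ |(p.1 : ℝ) + (Q.eval ((k : ℝ) + n₀ / H) + p.2 * ((k : ℝ) + n₀ / H))| ≤
          2 * R ^ (q + 3)
      rw [← hη]
      have hA1 : |((p.2 : ℤ) : ℝ)| ≤ H := by exact_mod_cast h2
      refine ⟨by rw [add_zero]; exact hA1, ?_⟩
      have t1 := hT η h (by linarith) (by rw [hhabs]; exact hh2)
      rw [← hx, hhabs] at t1
      have e3 : (p.1 : ℝ) + (Q.eval η + p.2 * η) = -(p.2 * h) - (Q.eval x - Q.eval η) := by
        have : (p.2 : ℝ) * x = p.2 * η + p.2 * h := by rw [hx]; ring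
        linear_combination h4 - this
      rw [e3]
      refine (abs_sub _ _).trans ?_
      rw [abs_neg, abs_mul, hhabs]
      have e4 : |(p.2 : ℝ)| * h ≤ H * (1 / H) := by gcongr
      have e5 : H * R ^ (q + 3) * h ≤ H * R ^ (q + 3) * (1 / H) := by gcongr
      have e6 : (H : ℝ) * (1 / H) = 1 := by field_simp
      have e7 : H * R ^ (q + 3) * (1 / H) = R ^ (q + 3) := by field_simp
      have e8 : 1 ≤ R ^ (q + 3) := one_le_pow₀ hR1
      linarith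
  have hpc := fun i : ℤ × ℕ => pair_count 0 (H : ℝ) (2 * R ^ (q + 3))
    (fun a : ℤ => Q.eval ((i.1 : ℝ) + i.2 / H) + a * ((i.1 : ℝ) + i.2 / H)) (by positivity) (by positivity)
  have hfinal := ncard_cover _ _ _ _ hcover (fun i => (hpc i).1) (fun i _ => (hpc i).2)
  refine hfinal.trans ?_
  rw [Finset.card_product, Int.card_Icc, ← Set.ncard_eq_toFinset_card _ hBfin]
  have c1 : ((((A : ℤ) + 1 - -(A : ℤ)).toNat : ℕ) : ℝ) = 2 * A + 1 := by
    rw [show (A : ℤ) + 1 - -(A : ℤ) = ((2 * A + 1 : ℕ) : ℤ) by push_cast; ring, Int.toNat_natCast]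
    push_cast
    ring
  push_cast
  rw [c1]
  have d1 : 2 * (A : ℝ) + 1 ≤ R ^ 2 := by nlinarith
  have d2 : 2 * (H : ℝ) + 1 ≤ R * H := by nlinarith
  have d3 : 2 * (2 * R ^ (q + 3)) + 1 ≤ R ^ (q + 4) := by
    have e8 : 1 ≤ R ^ (q + 3) := one_le_pow₀ hR1
    calc 2 * (2 * R ^ (q + 3)) + 1 ≤ 100 * R ^ (q + 3) := by linarith
      _ ≤ R * R ^ (q + 3) := by gcongr
      _ = _ := by ring
  have d4 : 1 ≤ R ^ 2 := one_le_pow₀ hR1
  calc (2 * (A : ℝ) + 1) * (B.ncard : ℝ) * ((2 * H + 1) * (2 * (2 * R ^ (q + 3)) + 1)) ≤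
        R ^ 2 * (H * E) * ((R * H) * R ^ (q + 4)) := by gcongr
    _ = H ^ 2 * (R ^ (q + 7) * E) := by ring
    _ ≤ H ^ 2 * (R ^ (q + 9) * E) := by
        gcongr
        norm_num

end Pool.Agent.H17.GS
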