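import Pool.Agent.H17.GS.Core

/-!
# The digits of `n / M`, perturbations and concatenations of windows (helper17)
-/

set_option autoImplicit false

namespace Pool.Agent.H17.GS

open Finset Filter
open Pool.Agent.H469R2.NK (e norm_e e_add e_zero conj_e)

lemma e_eq_exp (x : ℝ) : e x = Complex.exp (2 * Real.pi * Complex.I * x) := by
  unfold e
  congr 1
  push_cast
  ring

lemma e_sum_period (M : ℕ) (F : ℤ) (h0 : F ≠ 0) (h1 : |F| < M) :
    ∑ n ∈ Ioc 0 M, e ((F : ℝ) * ((n : ℝ) / M)) = 0 := by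
  have hM0 : (0 : ℤ) < M := lt_of_le_of_lt (abs_nonneg F) h1
  have hM : (M : ℝ) ≠ 0 := by
    have : (0 : ℝ) < M := by exact_mod_cast hM0
    exact this.ne'
  obtain ⟨w, hw⟩ : ∃ w : ℂ, w = e ((F : ℝ) / M) := ⟨_, rfl⟩
  have hpow : ∀ n : ℕ, e ((F : ℝ) * ((n : ℝ) / M)) = w ^ n := by
    intro n
    rw [hw, e_eq_exp, e_eq_exp, ← Complex.exp_nat_mul]
    congr 1
    push_cast
    ring
  have hwM : w ^ M = 1 := by
    rw [← hpow, div_self hM, mul_one, e_eq_exp, Complex.exp_eq_one_iff]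
    exact ⟨F, by push_cast; ring⟩
  have hw1 : w ≠ 1 := by
    intro h
    rw [hw, e_eq_exp, Complex.exp_eq_one_iff] at h
    obtain ⟨n, hn⟩ := h
    have h2 : (2 * Real.pi * Complex.I : ℂ) ≠ 0 := by
      simp [Real.pi_ne_zero]
    have h3 : (((F : ℝ) / M : ℝ) : ℂ) = n := by
      have h4 : (2 * Real.pi * Complex.I : ℂ) * (((F : ℝ) / M : ℝ) : ℂ) = (2 * Real.pi * Complex.I) * n := by
        rw [hn]; ring
      exact mul_left_cancel₀ h2 h4
    have h5 : (F : ℝ) / M = n := by exact_mod_cast h3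
    rw [div_eq_iff hM] at h5
    have h6 : F = n * M := by exact_mod_cast h5
    have h7 : (M : ℤ) ∣ F := ⟨n, by rw [h6]; ring⟩
    have h8 := Int.le_of_dvd (abs_pos.2 h0) ((dvd_abs _ _).2 h7)
    omega
  simp_rw [hpow]
  have h9 : (w - 1) * ∑ n ∈ Ioc 0 M, w ^ n = 0 := by
    have h10 : ∑ n ∈ Ioc 0 M, w ^ n = ∑ n ∈ range M, w ^ (n + 1) := by
      rw [Finset.sum_bij (fun n _ => n - 1)]
      · intro n hn
        rw [mem_Ioc] at hn
        rw [mem_range]; omega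
      · intro n hn m hm h
        rw [mem_Ioc] at hn hm
        omega
      · intro n hn
        rw [mem_range] at hn
        exact ⟨n + 1, by rw [mem_Ioc]; omega, by omega⟩
      · intro n hn
        rw [mem_Ioc] at hn
        rw [show n - 1 + 1 = n by omega]
    rw [h10]
    have h11 : ∑ n ∈ range M, w ^ (n + 1) = w * ∑ n ∈ range M, w ^ n := by
      rw [mul_sum]
      exact sum_congr rfl fun n _ => by rw [pow_succ]; ring
    have h12 := mul_geom_sum w M
    rw [hwM, sub_self] at h12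
    rw [h11]
    linear_combination w * h12
  rcases mul_eq_zero.1 h9 with h | h
  · exact absurd (by linear_combination h) hw1
  · exact h

/-- **The digits of `n / M`** -/
theorem low (γ₀ : ℝ) (hγ0 : 0 < γ₀) (hγ1 : γ₀ ≤ 1 / 20) (ε : ℝ) (hε : 0 < ε) : ∃ M₀ : ℕ, ∀ M : ℕ, M₀ ≤ M →
    (({n : ℕ | 0 < n ∧ n ≤ M ∧ ∃ b u v : ℕ, 2 ≤ b ∧ (Real.log M) ^ (1 - γ₀ / 2) ≤ (v : ℝ) - u ∧
      v * Real.log b ≤ 9 / 10 * Real.log M ∧ ¬ EquiW ((n : ℝ) / M) b u v ε}.ncard : ℕ) : ℝ) ≤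
        M * Real.exp (-(Real.log M) ^ (3 / 5 : ℝ)) := by
  obtain ⟨K, N₀, hK, hcore⟩ := core γ₀ hγ0 hγ1 ε hε
  have hlog : Tendsto (fun N : ℕ => Real.log N) atTop atTop :=
    Real.tendsto_log_atTop.comp tendsto_natCast_atTop_atTop
  have ev1 : ∀ᶠ y : ℝ in atTop, (20 * Real.log (2 * K)) * y ^ (0 : ℝ) ≤ y ^ (1 : ℝ) := ev_pow _ _ _ (by norm_num)
  have ev2 : ∀ᶠ y : ℝ in atTop, 1 * y ^ (1 : ℝ) ≤ y ^ (1 + γ₀ / 2) := ev_pow _ _ _ (by linarith)
  obtain ⟨M₀, hM₀⟩ := eventually_atTop.1 ((hlog.eventually ((ev1.and ev2).and (eventually_ge_atTop 1))).and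
    (eventually_ge_atTop (max N₀ 2)))
  refine ⟨M₀, ?_⟩
  intro M hM
  obtain ⟨⟨⟨q1, q2⟩, q3⟩, q4⟩ := hM₀ M hM
  have hMN : N₀ ≤ M := (le_max_left _ _).trans q4
  have hM2 : 2 ≤ M := (le_max_right _ _).trans q4
  have hM0 : (0 : ℝ) < M := by exact_mod_cast (by omega : 0 < M)
  rw [Real.rpow_zero, mul_one, Real.rpow_one] at q1
  rw [Real.rpow_one, one_mul] at q2
  set y : ℝ := Real.log M with hy
  have hy0 : 0 < y := by linarith
  have hMexp : (M : ℝ) = Real.exp y := by rw [hy, Real.exp_log hM0]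
  have hK0 : (1 : ℝ) ≤ K := by exact_mod_cast hK
  have hmain := hcore M 1 (9 / 10 * y) (fun n => (n : ℝ) / M) hMN one_pos
    (by linarith) (by
    intro F hF1 hF2
    have h1 : (1 : ℝ) ≤ |(F : ℝ)| := by
      rw [mul_one] at hF1
      exact (Real.one_le_exp (by positivity)).trans hF1
    have h2 : F ≠ 0 := by
      rintro rfl
      norm_num at h1
    have h3 : |(F : ℝ)| < M := by
      refine lt_of_le_of_lt hF2 ?_
      rw [hMexp, show 2 * (K : ℝ) = Real.exp (Real.log (2 * K)) from (Real.exp_log (by positivity)).symm,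
        ← Real.exp_add]
      apply Real.exp_lt_exp.2
      linarith
    have h4 : |F| < (M : ℤ) := by exact_mod_cast h3
    rw [e_sum_period M F h2 h4, norm_zero]
    positivity)
  refine le_trans ?_ hmain
  refine Nat.cast_le.2 (Set.ncard_le_ncard ?_ ((Set.finite_Icc 0 M).subset
    fun n hn => ⟨Nat.zero_le _, hn.2.1⟩))
  rintro n ⟨a1, a2, b, u, v, a3, a4, a5, a6⟩
  refine ⟨a1, a2, b, u, v, a3, a4, a5, ?_, a6⟩
  rw [mul_one]
  have h1 : (1 : ℝ) ≤ (b : ℝ) ^ u := one_le_pow₀ (by exact_mod_cast (by omega : 1 ≤ b))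
  refine le_trans ?_ h1
  have : 0 ≤ y ^ (1 - 3 * (γ₀ / 2)) := by positivity
  exact Real.exp_le_one_iff.2 (by linarith)

/-! ### windows -/

/-- the places in the window with fractional part in `[α, β)` -/
def Pl (x : ℝ) (b u v : ℕ) (α β : ℝ) : Set ℕ := {i : ℕ | u < i ∧ i ≤ v ∧ α ≤ Int.fract (x * (b : ℝ) ^ i) ∧
      Int.fract (x * (b : ℝ) ^ i) < β}

lemma Pl_finite (x : ℝ) (b u v : ℕ) (α β : ℝ) : (Pl x b u v α β).Finite :=
  (Set.finite_Icc 0 v).subset fun i hi => ⟨Nat.zero_le _, hi.2.1⟩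

lemma equiW_iff (x : ℝ) (b u v : ℕ) (ε : ℝ) : EquiW x b u v ε ↔ ∀ α β : ℝ, 0 ≤ α → α < β → β ≤ 1 →
    |((Pl x b u v α β).ncard : ℝ) - (β - α) * ((v : ℝ) - u)| ≤ ε * ((v : ℝ) - u) := Iff.rfl

lemma EquiW.append {x : ℝ} {b u w v : ℕ} {ε : ℝ} (h1 : EquiW x b u w ε) (h2 : EquiW x b w v ε)
    (huw : u ≤ w) (hwv : w ≤ v) : EquiW x b u v ε := by
  rw [equiW_iff] at h1 h2 ⊢
  intro α β ha hab hb
  have h3 := h1 α β ha hab hb
  have h4 := h2 α β ha hab hb
  have h5 : Pl x b u v α β = Pl x b u w α β ∪ Pl x b w v α β := by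
    ext i
    simp only [Pl, Set.mem_union, Set.mem_ofPred_eq]
    constructor
    · rintro ⟨a1, a2, a3⟩
      rcases Nat.lt_or_ge w i with h | h
      · exact Or.inr ⟨h, a2, a3⟩
      · exact Or.inl ⟨a1, h, a3⟩
    · rintro (⟨a1, a2, a3⟩ | ⟨a1, a2, a3⟩)
      · exact ⟨a1, a2.trans hwv, a3⟩
      · exact ⟨lt_of_le_of_lt huw a1, a2, a3⟩
  have h6 : Disjoint (Pl x b u w α β) (Pl x b w v α β) := by
    rw [Set.disjoint_left]
    rintro i ⟨_, a2, _⟩ ⟨b1, _⟩
    omega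
  have h7 : (Pl x b u v α β).ncard = (Pl x b u w α β).ncard + (Pl x b w v α β).ncard := by
    rw [h5, Set.ncard_union_eq h6 (Pl_finite _ _ _ _ _ _) (Pl_finite _ _ _ _ _ _)]
  rw [h7]
  push_cast
  rw [abs_le] at h3 h4 ⊢
  constructor <;> nlinarith [h3.1, h3.2, h4.1, h4.2]

lemma EquiW.triv {x : ℝ} {b u v : ℕ} {ε : ℝ} (huv : u ≤ v) (hε : 1 ≤ ε) : EquiW x b u v ε := by
  rw [equiW_iff]
  intro α β ha hab hb
  have h1 : ((Pl x b u v α β).ncard : ℝ) ≤ (v : ℝ) - u := by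
    have h2 : (Pl x b u v α β) ⊆ ((Finset.Ioc u v : Finset ℕ) : Set ℕ) := by
      intro i hi
      rw [Finset.mem_coe, Finset.mem_Ioc]
      exact ⟨hi.1, hi.2.1⟩
    have h3 := Set.ncard_le_ncard h2 (Finset.finite_toSet _)
    rw [Set.ncard_coe_finset, Nat.card_Ioc] at h3
    have h4 : ((Pl x b u v α β).ncard : ℝ) ≤ ((v - u : ℕ) : ℝ) := by exact_mod_cast h3
    rwa [Nat.cast_sub huv] at h4
  have h0 : (0 : ℝ) ≤ (Pl x b u v α β).ncard := Nat.cast_nonneg _
  have huv' : (u : ℝ) ≤ v := by exact_mod_cast huv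
  have h5 : 0 ≤ (β - α) * ((v : ℝ) - u) := mul_nonneg (by linarith) (by linarith)
  have h6 : (β - α) * ((v : ℝ) - u) ≤ 1 * ((v : ℝ) - u) := by
    apply mul_le_mul_of_nonneg_right _ (by linarith)
    linarith
  have h7 : 1 * ((v : ℝ) - u) ≤ ε * ((v : ℝ) - u) := by
    apply mul_le_mul_of_nonneg_right hε (by linarith)
  rw [abs_le]
  constructor <;> linarith

/-- dropping the last places of a window -/
lemma EquiW.trimR {x : ℝ} {b u w v : ℕ} {ε δ : ℝ} (h : EquiW x b u w ε) (huw : u ≤ w) (hwv : w ≤ v)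
    (hε : 0 ≤ ε) (hδ : ((v : ℝ) - w) ≤ δ * ((v : ℝ) - u)) : EquiW x b u v (ε + δ) := by
  have h2 : EquiW x b w v 1 := EquiW.triv hwv le_rfl
  rw [equiW_iff] at h h2 ⊢
  intro α β ha hab hb
  have h3 := h α β ha hab hb
  have h4 := h2 α β ha hab hb
  have h5 : Pl x b u v α β = Pl x b u w α β ∪ Pl x b w v α β := by
    ext i
    simp only [Pl, Set.mem_union, Set.mem_ofPred_eq]
    constructor
    · rintro ⟨a1, a2, a3⟩
      rcases Nat.lt_or_ge w i with h | h
      · exact Or.inr ⟨h, a2, a3⟩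
      · exact Or.inl ⟨a1, h, a3⟩
    · rintro (⟨a1, a2, a3⟩ | ⟨a1, a2, a3⟩)
      · exact ⟨a1, a2.trans hwv, a3⟩
      · exact ⟨lt_of_le_of_lt huw a1, a2, a3⟩
  have h6 : Disjoint (Pl x b u w α β) (Pl x b w v α β) := by
    rw [Set.disjoint_left]
    rintro i ⟨_, a2, _⟩ ⟨b1, _⟩
    omega
  have h7 : (Pl x b u v α β).ncard = (Pl x b u w α β).ncard + (Pl x b w v α β).ncard := by
    rw [h5, Set.ncard_union_eq h6 (Pl_finite _ _ _ _ _ _) (Pl_finite _ _ _ _ _ _)]
  rw [h7]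
  push_cast
  have huw' : (u : ℝ) ≤ w := by exact_mod_cast huw
  have hwv' : (w : ℝ) ≤ v := by exact_mod_cast hwv
  have h8 : ε * ((w : ℝ) - u) ≤ ε * ((v : ℝ) - u) := by
    apply mul_le_mul_of_nonneg_left _ hε
    linarith
  rw [abs_le] at h3 h4 ⊢
  constructor <;> nlinarith [h3.1, h3.2, h4.1, h4.2]

/-- putting together the windows before and after the place `w` -/
lemma split_win {x : ℝ} {b w Vm : ℕ} {L₁ L ε δ : ℝ} (hε : 0 ≤ ε) (hδ : 0 ≤ δ) (hL1 : 0 ≤ L₁)
    (hL : 2 * L₁ ≤ δ * L) (hL2 : L₁ ≤ L)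
    (hlow : ∀ u v : ℕ, L₁ ≤ (v : ℝ) - u → v ≤ w → EquiW x b u v ε)
    (hhigh : ∀ u v : ℕ, L₁ ≤ (v : ℝ) - u → w ≤ u → v ≤ Vm → EquiW x b u v ε)
    {u v : ℕ} (huv : L ≤ (v : ℝ) - u) (hv : v ≤ Vm) : EquiW x b u v (ε + δ) := by
  have huv' : u ≤ v := by
    have : (u : ℝ) ≤ v := by linarith
    exact_mod_cast this
  rcases Nat.le_total v w with h1 | h1
  · exact (hlow u v (by linarith) h1).mono huv' (by linarith)
  rcases Nat.le_total w u with h2 | h2
  · exact (hhigh u v (by linarith) h2 hv).mono huv' (by linarith)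
  have hδL : δ * L ≤ δ * ((v : ℝ) - u) := by gcongr
  have h1' : (w : ℝ) ≤ v := by exact_mod_cast h1
  have h2' : (u : ℝ) ≤ w := by exact_mod_cast h2
  rcases le_or_gt L₁ ((w : ℝ) - u) with h3 | h3
  · rcases le_or_gt L₁ ((v : ℝ) - w) with h4 | h4
    · exact ((hlow u w h3 le_rfl).append (hhigh w v h4 le_rfl hv) h2 h1).mono huv' (by linarith)
    · exact (hlow u w h3 le_rfl).trimR h2 h1 hε (by linarith)
  · rcases le_or_gt L₁ ((v : ℝ) - w) with h4 | h4
    · exact (hhigh w v h4 le_rfl hv).trim h2 h1 hε (by linarith)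
    · -- both are short
      have h5 : (v : ℝ) - u ≤ δ * ((v : ℝ) - u) := by linarith
      rcases eq_or_lt_of_le (show (0 : ℝ) ≤ (v : ℝ) - u by linarith) with h6 | h6
      · -- empty window
        have h7 : EquiW x b u v 1 := EquiW.triv huv' le_rfl
        rw [equiW_iff] at h7 ⊢
        intro α β a1 a2 a3
        have h8 := h7 α β a1 a2 a3
        rw [← h6] at h8 ⊢
        simpa using h8
      · have h7 : 1 ≤ δ := by
          by_contra hcon
          push Not at hcon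
          nlinarith
        exact EquiW.triv huv' (by linarith)

/-- perturbations -/
lemma EquiW.perturb {x x' : ℝ} {b u v : ℕ} {ε κ : ℝ} (hb : 1 ≤ b) (huv : u ≤ v) (h : EquiW x' b u v ε)
    (hκ0 : 0 < κ) (hκ1 : κ ≤ 1 / 2) (hx : |x - x'| * (b : ℝ) ^ v ≤ κ) : EquiW x b u v (6 * ε + 8 * κ) := by
  rw [equiW_iff] at h ⊢
  have huv' : (u : ℝ) ≤ v := by exact_mod_cast huv
  obtain ⟨L, hL⟩ : ∃ L : ℝ, L = (v : ℝ) - u := ⟨_, rfl⟩
  have hL0 : 0 ≤ L := by rw [hL]; linarith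
  rw [← hL] at h ⊢
  have hb1 : (1 : ℝ) ≤ b := by exact_mod_cast hb
  have hup : ∀ α β : ℝ, 0 ≤ α → α < β → β ≤ 1 →
      ((Pl x b u v α β).ncard : ℝ) ≤ (β - α) * L + (3 * ε + 4 * κ) * L := by
    intro α β ha hab hb'
    have hsub : Pl x b u v α β ⊆ (Pl x' b u v (max (α - κ) 0) (min (β + κ) 1) ∪ Pl x' b u v 0 κ) ∪
        Pl x' b u v (1 - κ) 1 := by
      rintro i ⟨a1, a2, a3, a4⟩
      obtain ⟨δ, hδ⟩ : ∃ δ : ℝ, δ = x' * (b : ℝ) ^ i - x * (b : ℝ) ^ i := ⟨_, rfl⟩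
      have hδ1 : |δ| ≤ κ := by
        rw [hδ, ← sub_mul, abs_mul, abs_of_nonneg (by positivity : (0 : ℝ) ≤ (b : ℝ) ^ i), abs_sub_comm]
        refine le_trans ?_ hx
        apply mul_le_mul_of_nonneg_left _ (abs_nonneg _)
        exact pow_le_pow_right₀ hb1 a2
      rw [abs_le] at hδ1
      obtain ⟨φ, hφ⟩ : ∃ φ : ℝ, φ = Int.fract (x * (b : ℝ) ^ i) := ⟨_, rfl⟩
      rw [← hφ] at a3 a4
      have hφ1 : x' * (b : ℝ) ^ i = (⌊x * (b : ℝ) ^ i⌋ : ℝ) + (φ + δ) := by
        rw [hφ, hδ, Int.fract]; ring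
      rcases lt_or_ge (φ + δ) 0 with h1 | h1
      · right
        have h2 : Int.fract (x' * (b : ℝ) ^ i) = φ + δ + 1 := by
          rw [Int.fract_eq_iff]
          exact ⟨by linarith, by linarith, ⌊x * (b : ℝ) ^ i⌋ - 1, by rw [hφ1]; push_cast; ring⟩
        exact ⟨a1, a2, by rw [h2]; linarith, by rw [h2]; linarith⟩
      · rcases lt_or_ge (φ + δ) 1 with h3 | h3
        · left; left
          have h2 : Int.fract (x' * (b : ℝ) ^ i) = φ + δ := by
            rw [Int.fract_eq_iff]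
            exact ⟨h1, h3, ⌊x * (b : ℝ) ^ i⌋, by rw [hφ1]; ring⟩
          exact ⟨a1, a2, by rw [h2]; exact max_le (by linarith) h1, by rw [h2]; exact lt_min (by linarith) h3⟩
        · left; right
          have h2 : Int.fract (x' * (b : ℝ) ^ i) = φ + δ - 1 := by
            rw [Int.fract_eq_iff]
            exact ⟨by linarith, by linarith, ⌊x * (b : ℝ) ^ i⌋ + 1, by rw [hφ1]; push_cast; ring⟩
          exact ⟨a1, a2, by rw [h2]; linarith, by rw [h2]; linarith⟩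
    have h1 := (Set.ncard_le_ncard hsub (((Pl_finite _ _ _ _ _ _).union (Pl_finite _ _ _ _ _ _)).union
      (Pl_finite _ _ _ _ _ _))).trans ((Set.ncard_union_le _ _).trans
      (Nat.add_le_add_right (Set.ncard_union_le _ _) _))
    have h2 : ((Pl x b u v α β).ncard : ℝ) ≤ (Pl x' b u v (max (α - κ) 0) (min (β + κ) 1)).ncard +
        (Pl x' b u v 0 κ).ncard + (Pl x' b u v (1 - κ) 1).ncard := by exact_mod_cast h1
    have m1 : max (α - κ) 0 ≤ α := max_le (by linarith) ha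
    have m2 : β ≤ min (β + κ) 1 := le_min (by linarith) hb'
    have g1 := h (max (α - κ) 0) (min (β + κ) 1) (le_max_right _ _) (by linarith) (min_le_right _ _)
    have g2 := h 0 κ le_rfl hκ0 (by linarith)
    have g3 := h (1 - κ) 1 (by linarith) (by linarith) le_rfl
    have m3 : min (β + κ) 1 - max (α - κ) 0 ≤ β - α + 2 * κ := by
      have := min_le_left (β + κ) 1
      have := le_max_left (α - κ) 0
      linarith
    have m4 : (min (β + κ) 1 - max (α - κ) 0) * L ≤ (β - α + 2 * κ) * L := by gcongr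
    rw [abs_le] at g1 g2 g3
    nlinarith [g1.2, g2.2, g3.2]
  intro α β ha hab hb'
  have hlow : (β - α) * L - (6 * ε + 8 * κ) * L ≤ ((Pl x b u v α β).ncard : ℝ) := by
    -- the complement
    have hA : ((Pl x b u v 0 α).ncard : ℝ) ≤ α * L + (3 * ε + 4 * κ) * L := by
      rcases eq_or_lt_of_le ha with h1 | h1
      · rw [← h1]
        have h2 : Pl x b u v 0 0 = ∅ := by
          ext i
          simp only [Pl, Set.mem_ofPred_eq, Set.mem_empty_iff_false, iff_false]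
          rintro ⟨_, _, a3, a4⟩
          linarith
        rw [h2, Set.ncard_empty]
        have h3 := h 0 1 le_rfl one_pos le_rfl
        have h4 : 0 ≤ ε * L := (abs_nonneg _).trans h3
        have h5 : 0 ≤ κ * L := by positivity
        push_cast
        nlinarith
      · have := hup 0 α le_rfl h1 (by linarith)
        rw [sub_zero] at this
        exact this
    have hB : ((Pl x b u v β 1).ncard : ℝ) ≤ (1 - β) * L + (3 * ε + 4 * κ) * L := by
      rcases eq_or_lt_of_le hb' with h1 | h1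
      · rw [h1]
        have h2 : Pl x b u v 1 1 = ∅ := by
          ext i
          simp only [Pl, Set.mem_ofPred_eq, Set.mem_empty_iff_false, iff_false]
          rintro ⟨_, _, a3, a4⟩
          linarith
        rw [h2, Set.ncard_empty]
        have h3 := h 0 1 le_rfl one_pos le_rfl
        have h4 : 0 ≤ ε * L := (abs_nonneg _).trans h3
        have h5 : 0 ≤ κ * L := by positivity
        push_cast
        nlinarith
      · exact hup β 1 (by linarith) h1 le_rfl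
    have hcov : ((Finset.Ioc u v : Finset ℕ) : Set ℕ) ⊆ (Pl x b u v α β ∪ Pl x b u v 0 α) ∪ Pl x b u v β 1 := by
      intro i hi
      rw [Finset.mem_coe, Finset.mem_Ioc] at hi
      rcases lt_or_ge (Int.fract (x * (b : ℝ) ^ i)) α with h1 | h1
      · left; right
        exact ⟨hi.1, hi.2, Int.fract_nonneg _, h1⟩
      · rcases lt_or_ge (Int.fract (x * (b : ℝ) ^ i)) β with h2 | h2
        · left; left
          exact ⟨hi.1, hi.2, h1, h2⟩
        · right
          exact ⟨hi.1, hi.2, h2, Int.fract_lt_one _⟩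
    have h1 := (Set.ncard_le_ncard hcov (((Pl_finite _ _ _ _ _ _).union (Pl_finite _ _ _ _ _ _)).union
      (Pl_finite _ _ _ _ _ _))).trans ((Set.ncard_union_le _ _).trans
      (Nat.add_le_add_right (Set.ncard_union_le _ _) _))
    rw [Set.ncard_coe_finset, Nat.card_Ioc] at h1
    have h2 : ((v - u : ℕ) : ℝ) ≤ (Pl x b u v α β).ncard + (Pl x b u v 0 α).ncard +
        (Pl x b u v β 1).ncard := by exact_mod_cast h1
    rw [Nat.cast_sub huv, ← hL] at h2
    nlinarith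
  have h1 := hup α β ha hab hb'
  have h3 := h 0 1 le_rfl one_pos le_rfl
  have h4 : 0 ≤ ε * L := (abs_nonneg _).trans h3
  have h5 : 0 ≤ κ * L := by positivity
  rw [abs_le]
  constructor <;> nlinarith

end Pool.Agent.H17.GS
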