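import Pool.Agent.H17.GS.Cnt

/-!
# Pisot numbers: the coefficients of the minimal polynomial (helper17)
-/

set_option autoImplicit false

namespace Pool.Agent.H17.GS

open Finset Filter Topology Polynomial

/-- the equation of the large root -/
lemma psi_eq {q : ℕ} (p : ℤ[X]) (hp : p.Monic) (hd : p.natDegree = q + 2) (w : ℂ) (hw : w ≠ 0)
    (hr : aeval w p = 0) :
    w - psi q (fun k => -(p.coeff (q - k) : ℝ)) w = -(p.coeff (q + 1) : ℂ) := by
  have h1 : aeval w p = ∑ i ∈ range (q + 1), (p.coeff i : ℂ) * w ^ i + (p.coeff (q + 1) : ℂ) * w ^ (q + 1) +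
      w ^ (q + 2) := by
    rw [aeval_eq_sum_range, hd, sum_range_succ, sum_range_succ]
    have h2 : p.coeff (q + 2) = 1 := by rw [← hd]; exact hp
    rw [h2]
    simp only [zsmul_eq_mul]
    push_cast
    ring
  have h3 : psi q (fun k => -(p.coeff (q - k) : ℝ)) w * w ^ (q + 1) =
      -∑ i ∈ range (q + 1), (p.coeff i : ℂ) * w ^ i := by
    rw [psi, sum_mul, ← sum_neg_distrib, ← sum_range_reflect (fun i => -((p.coeff i : ℂ) * w ^ i))]
    refine sum_congr rfl fun k hk => ?_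
    rw [mem_range] at hk
    have h4 : q + 1 - 1 - k = q - k := by omega
    rw [h4]
    have h5 : w⁻¹ ^ (k + 1) * w ^ (q + 1) = w ^ (q - k) := by
      have h6 : q + 1 = (k + 1) + (q - k) := by omega
      rw [h6, pow_add w, ← mul_assoc, ← mul_pow, inv_mul_cancel₀ hw, one_pow, one_mul]
    push_cast
    rw [mul_assoc, h5]
    ring
  rw [h1] at hr
  have hw' : w ^ (q + 1) ≠ 0 := pow_ne_zero _ hw
  apply mul_right_cancel₀ hw'
  rw [sub_mul, h3]
  linear_combination hr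

lemma coef_bd {q : ℕ} {K : ℝ} (hK : 1 ≤ K) (P : ℂ[X]) (hP : P.Monic) (hd : P.natDegree = q + 2) (w : ℂ)
    (hw : P.IsRoot w) (hz : ∀ z ∈ (P /ₘ (X - C w)).roots, ‖z‖ ≤ K) :
    (∀ j ≤ q + 1, ‖P.coeff j‖ ≤ (2 * K) ^ (q + 1) * (1 + ‖w‖)) ∧ ‖P.coeff (q + 1) + w‖ ≤ K * (q + 1) := by
  set Q := P /ₘ (X - C w) with hQ
  have h1 : (X - C w) * Q = P := mul_divByMonic_eq_iff_isRoot.2 hw
  have h1' : P = Q * (X - C w) := by rw [← h1, mul_comm]
  have hQm : Q.Monic := by
    apply Monic.of_mul_monic_left (monic_X_sub_C w)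
    rw [h1]; exact hP
  have hQd : Q.natDegree = q + 1 := by
    rw [hQ, natDegree_divByMonic _ (monic_X_sub_C w), hd, natDegree_X_sub_C]
    omega
  have hcoef : ∀ i, ‖Q.coeff i‖ ≤ K ^ (q + 1 - i) * (q + 1).choose i := by
    intro i
    have h2 := coeff_le_of_roots_le (p := Q) (f := RingHom.id ℂ) (B := K) i hQm
      (IsAlgClosed.splits _) (by rw [Polynomial.map_id]; exact hz)
    rw [Polynomial.map_id, hQd] at h2
    exact h2
  have hcoef2 : ∀ i, ‖Q.coeff i‖ ≤ (2 * K) ^ (q + 1) := by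
    intro i
    refine (hcoef i).trans ?_
    have h3 : K ^ (q + 1 - i) ≤ K ^ (q + 1) := pow_le_pow_right₀ hK (by omega)
    have h4 : (((q + 1).choose i : ℕ) : ℝ) ≤ 2 ^ (q + 1) := by
      exact_mod_cast Nat.choose_le_two_pow (q + 1) i
    calc K ^ (q + 1 - i) * (q + 1).choose i ≤ K ^ (q + 1) * 2 ^ (q + 1) := by gcongr
      _ = _ := by rw [mul_pow]; ring
  constructor
  · intro j _
    rcases Nat.eq_zero_or_pos j with rfl | hj
    · have h5 : P.coeff 0 = -(Q.coeff 0 * w) := by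
        conv_lhs => rw [h1']
        rw [mul_coeff_zero]
        simp
      rw [h5, norm_neg, norm_mul]
      have h6 := hcoef2 0
      have h7 := norm_nonneg w
      have h8 : 0 ≤ (2 * K) ^ (q + 1) := by positivity
      calc ‖Q.coeff 0‖ * ‖w‖ ≤ (2 * K) ^ (q + 1) * ‖w‖ := by gcongr
        _ ≤ _ := by nlinarith
    · obtain ⟨i, rfl⟩ : ∃ i, j = i + 1 := ⟨j - 1, by omega⟩
      have h5 : P.coeff (i + 1) = Q.coeff i - Q.coeff (i + 1) * w := by
        conv_lhs => rw [h1']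
        rw [coeff_mul_X_sub_C]
      rw [h5]
      refine (norm_sub_le _ _).trans ?_
      rw [norm_mul]
      have h6 := hcoef2 i
      have h7 := hcoef2 (i + 1)
      have h8 : ‖Q.coeff (i + 1)‖ * ‖w‖ ≤ (2 * K) ^ (q + 1) * ‖w‖ := by gcongr
      linarith
  · have h5 : P.coeff (q + 1) + w = Q.coeff q := by
      have h6 : P.coeff (q + 1) = Q.coeff q - Q.coeff (q + 1) * w := by
        conv_lhs => rw [h1']
        rw [coeff_mul_X_sub_C]
      have h7 : Q.coeff (q + 1) = 1 := by rw [← hQd]; exact hQm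
      rw [h6, h7]; ring
    rw [h5]
    refine (hcoef q).trans ?_
    rw [show q + 1 - q = 1 by omega, pow_one, Nat.choose_succ_self_right]
    push_cast
    exact le_rfl

/-- A Pisot number: a real algebraic integer `β > 1` whose other conjugates have absolute value less than one. -/
def IsPisot (β : ℝ) : Prop :=
  1 < β ∧ IsIntegral ℤ β ∧ ∀ z : ℂ, aeval z (minpoly ℤ β) = 0 → z ≠ β → ‖z‖ < 1

/-- the roots of the minimal polynomial of an algebraic integer are simple -/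
lemma simple_root {β : ℝ} (hβ : IsIntegral ℤ β) {P : ℂ[X]} (hP : P = (minpoly ℤ β).map (Int.castRingHom ℂ)) :
    P.roots.Nodup ∧ P.Monic ∧ P.natDegree = (minpoly ℤ β).natDegree ∧ P.IsRoot (β : ℂ) := by
  have hmon := minpoly.monic hβ
  have hQ : minpoly ℚ β = (minpoly ℤ β).map (algebraMap ℤ ℚ) := minpoly.isIntegrallyClosed_eq_field_fractions' ℚ hβ
  have hβQ : IsIntegral ℚ β := hβ.tower_top
  have hsep : (minpoly ℚ β).Separable := (minpoly.irreducible hβQ).separable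
  have hPQ : P = (minpoly ℚ β).map (algebraMap ℚ ℂ) := by
    rw [hP, hQ, Polynomial.map_map]
    congr 1
  refine ⟨?_, ?_, ?_, ?_⟩
  · rw [hPQ]
    exact nodup_roots hsep.map
  · rw [hP]; exact hmon.map _
  · rw [hP]; exact hmon.natDegree_map _
  · rw [hP, IsRoot, eval_map]
    have h1 : aeval β (minpoly ℤ β) = 0 := minpoly.aeval ℤ β
    have h2 : eval₂ (Int.castRingHom ℂ) (β : ℂ) (minpoly ℤ β) = ((aeval β (minpoly ℤ β) : ℝ) : ℂ) := by
      rw [aeval_def, eval₂_eq_sum_range, eval₂_eq_sum_range]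
      push_cast
      rfl
    rw [h2, h1]
    simp

lemma other_roots {β : ℝ} (hβ : IsIntegral ℤ β) {P : ℂ[X]} (hP : P = (minpoly ℤ β).map (Int.castRingHom ℂ))
    {z : ℂ} (hz : z ∈ (P /ₘ (X - C (β : ℂ))).roots) : aeval z (minpoly ℤ β) = 0 ∧ z ≠ β := by
  obtain ⟨h1, h2, h3, h4⟩ := simple_root hβ hP
  have h5 : (X - C (β : ℂ)) * (P /ₘ (X - C (β : ℂ))) = P := mul_divByMonic_eq_iff_isRoot.2 h4
  have h6 : (X - C (β : ℂ)) * (P /ₘ (X - C (β : ℂ))) ≠ 0 := by rw [h5]; exact h2.ne_zero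
  have h7 : P.roots = {(β : ℂ)} + (P /ₘ (X - C (β : ℂ))).roots := by
    conv_lhs => rw [← h5]
    rw [roots_mul h6, roots_X_sub_C]
  constructor
  · have h8 : z ∈ P.roots := by rw [h7]; exact Multiset.mem_add.2 (Or.inr hz)
    have h9 := (mem_roots h2.ne_zero).1 h8
    rw [IsRoot, hP, eval_map] at h9
    rw [aeval_def]
    exact h9
  · rintro rfl
    rw [h7, Multiset.singleton_add] at h1
    exact (Multiset.nodup_cons.1 h1).1 hz

/-- the coefficients of a Pisot number -/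
lemma IsPisot.coef {β : ℝ} (hβ : IsPisot β) {q : ℕ} (hd : (minpoly ℤ β).natDegree = q + 2) :
    (∀ j ≤ q + 1, |((minpoly ℤ β).coeff j : ℝ)| ≤ 2 ^ (q + 1) * (1 + β)) ∧
      |((minpoly ℤ β).coeff (q + 1) : ℝ) + β| ≤ q + 1 := by
  obtain ⟨h1, h2, h3⟩ := hβ
  obtain ⟨P, hP⟩ : ∃ P : ℂ[X], P = (minpoly ℤ β).map (Int.castRingHom ℂ) := ⟨_, rfl⟩
  obtain ⟨g1, g2, g3, g4⟩ := simple_root h2 hP
  have h4 := coef_bd (K := 1) le_rfl P g2 (by rw [g3, hd]) (β : ℂ) g4 (fun z hz => by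
    obtain ⟨e1, e2⟩ := other_roots h2 hP hz
    exact (h3 z e1 e2).le)
  obtain ⟨h5, h6⟩ := h4
  have hβ0 : 0 < β := by linarith
  have hco : ∀ j, P.coeff j = (((minpoly ℤ β).coeff j : ℝ) : ℂ) := by
    intro j
    rw [hP, coeff_map]
    simp
  constructor
  · intro j hj
    have h7 := h5 j hj
    rw [hco, Complex.norm_real, Complex.norm_real, Real.norm_eq_abs, Real.norm_eq_abs, abs_of_pos hβ0,
      mul_one] at h7
    exact h7
  · rw [hco, ← Complex.ofReal_add, Complex.norm_real, Real.norm_eq_abs, one_mul] at h6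
    exact h6

/-- the roots of the cofactor are small -/
lemma small_roots {q : ℕ} (P : ℂ[X]) (hP : P.Monic) (hd : P.natDegree = q + 2) (β : ℝ) (hβ : 1 < β)
    (hr : P.IsRoot (β : ℂ)) (hdom : ∑ j ∈ range (q + 1), ‖P.coeff j‖ + 1 < ‖P.coeff (q + 1)‖) :
    ∀ z : ℂ, (P /ₘ (X - C (β : ℂ))).IsRoot z → ‖z‖ < 1 := by
  set Q := P /ₘ (X - C (β : ℂ)) with hQ
  have h1 : (X - C (β : ℂ)) * Q = P := mul_divByMonic_eq_iff_isRoot.2 hr
  have h1' : P = Q * (X - C (β : ℂ)) := by rw [← h1, mul_comm]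
  have hQm : Q.Monic := by
    apply Monic.of_mul_monic_left (monic_X_sub_C (β : ℂ))
    rw [h1]; exact hP
  have hQd : Q.natDegree = q + 1 := by
    rw [hQ, natDegree_divByMonic _ (monic_X_sub_C _), hd, natDegree_X_sub_C]
    omega
  have hβ0 : 0 < β := by linarith
  have hnβ : ‖(β : ℂ)‖ = β := by rw [Complex.norm_real, Real.norm_eq_abs, abs_of_pos hβ0]
  have c0 : ‖P.coeff 0‖ = β * ‖Q.coeff 0‖ := by
    have h5 : P.coeff 0 = -(Q.coeff 0 * β) := by
      conv_lhs => rw [h1']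
      rw [mul_coeff_zero]
      simp
    rw [h5, norm_neg, norm_mul, hnβ, mul_comm]
  have c1 : ∀ i, β * ‖Q.coeff (i + 1)‖ - ‖Q.coeff i‖ ≤ ‖P.coeff (i + 1)‖ := by
    intro i
    have h5 : P.coeff (i + 1) = Q.coeff i - Q.coeff (i + 1) * β := by
      conv_lhs => rw [h1']
      rw [coeff_mul_X_sub_C]
    rw [h5]
    have h6 := norm_sub_norm_le (Q.coeff (i + 1) * (β : ℂ)) (Q.coeff i)
    rw [norm_mul, hnβ, norm_sub_rev] at h6
    linarith
  have c2 : ‖P.coeff (q + 1)‖ ≤ β + ‖Q.coeff q‖ := by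
    have h5 : P.coeff (q + 1) = Q.coeff q - Q.coeff (q + 1) * β := by
      conv_lhs => rw [h1']
      rw [coeff_mul_X_sub_C]
    have h7 : Q.coeff (q + 1) = 1 := by rw [← hQd]; exact hQm
    rw [h5, h7, one_mul]
    have := norm_sub_le (Q.coeff q) (β : ℂ)
    rw [hnβ] at this
    linarith
  set S : ℝ := ∑ j ∈ range (q + 1), ‖Q.coeff j‖ with hS
  have hS0 : 0 ≤ S := sum_nonneg fun _ _ => norm_nonneg _
  have hS1 : S < 1 := by
    have e1 : ∑ j ∈ range (q + 1), ‖P.coeff j‖ = ∑ j ∈ range q, ‖P.coeff (j + 1)‖ + ‖P.coeff 0‖ :=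
      sum_range_succ' _ _
    have e2 : ∑ j ∈ range q, (β * ‖Q.coeff (j + 1)‖ - ‖Q.coeff j‖) ≤ ∑ j ∈ range q, ‖P.coeff (j + 1)‖ :=
      sum_le_sum fun i _ => c1 i
    rw [sum_sub_distrib, ← mul_sum] at e2
    have e3 : S = ∑ j ∈ range q, ‖Q.coeff (j + 1)‖ + ‖Q.coeff 0‖ := sum_range_succ' _ _
    have e4 : S = ∑ j ∈ range q, ‖Q.coeff j‖ + ‖Q.coeff q‖ := sum_range_succ _ _
    have e5 : β * S = β * ∑ j ∈ range q, ‖Q.coeff (j + 1)‖ + β * ‖Q.coeff 0‖ := by rw [e3]; ring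
    have e6 : (β - 1) * S < β - 1 := by
      rw [e1, c0] at hdom
      nlinarith
    by_contra hcon
    push Not at hcon
    nlinarith
  intro z hz
  by_contra hcon
  push Not at hcon
  rw [IsRoot, eval_eq_sum_range, hQd, sum_range_succ] at hz
  have h7 : Q.coeff (q + 1) = 1 := by rw [← hQd]; exact hQm
  rw [h7, one_mul] at hz
  have h8 : z ^ (q + 1) = -∑ i ∈ range (q + 1), Q.coeff i * z ^ i := by linear_combination hz
  have h9 : ‖z‖ ^ (q + 1) ≤ S * ‖z‖ ^ q := by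
    rw [← norm_pow, h8, norm_neg, hS, sum_mul]
    refine (norm_sum_le _ _).trans (sum_le_sum fun i hi => ?_)
    rw [mem_range] at hi
    rw [norm_mul, norm_pow]
    gcongr
    omega
  rw [pow_succ, mul_comm] at h9
  have h10 : ‖z‖ ≤ S := le_of_mul_le_mul_right h9 (by positivity)
  linarith

/-- a monic integral polynomial of positive degree with small roots only vanishes at `0` -/
lemma coeff_zero_of_small (r : ℤ[X]) (hr : r.Monic) (hd : 1 ≤ r.natDegree)
    (hz : ∀ z : ℂ, z ∈ (r.map (Int.castRingHom ℂ)).roots → ‖z‖ < 1) : r.coeff 0 = 0 := by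
  obtain ⟨B, hB0, hB1, hB⟩ : ∃ B : ℝ, 0 ≤ B ∧ B < 1 ∧ ∀ z ∈ (r.map (Int.castRingHom ℂ)).roots, ‖z‖ ≤ B := by
    rcases (r.map (Int.castRingHom ℂ)).roots.toFinset.eq_empty_or_nonempty with h | h
    · refine ⟨0, le_rfl, one_pos, fun z hz' => ?_⟩
      have : z ∈ (r.map (Int.castRingHom ℂ)).roots.toFinset := Multiset.mem_toFinset.2 hz'
      rw [h] at this
      simp at this
    · obtain ⟨w, hw, hmax⟩ := exists_max_image _ (fun z : ℂ => ‖z‖) h
      exact ⟨‖w‖, norm_nonneg _, hz w (Multiset.mem_toFinset.1 hw),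
        fun z hz' => hmax z (Multiset.mem_toFinset.2 hz')⟩
  have h1 := coeff_le_of_roots_le (p := r) (f := Int.castRingHom ℂ) (B := B) 0 hr
    (IsAlgClosed.splits _) hB
  rw [Nat.choose_zero_right, Nat.sub_zero, Nat.cast_one, mul_one, coeff_map] at h1
  have h2 : B ^ r.natDegree < 1 := pow_lt_one₀ hB0 hB1 (by omega)
  have h3 : ‖(Int.castRingHom ℂ) (r.coeff 0)‖ = |((r.coeff 0 : ℤ) : ℝ)| := by
    simp
  rw [h3] at h1
  have h4 : |((r.coeff 0 : ℤ) : ℝ)| < 1 := lt_of_le_of_lt h1 h2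
  have h5 : |r.coeff 0| < 1 := by exact_mod_cast h4
  exact Int.abs_lt_one_iff.1 h5

/-- Perron's argument: a dominating second coefficient -/
lemma perron {q : ℕ} (p : ℤ[X]) (hp : p.Monic) (hd : p.natDegree = q + 2) (h0 : p.coeff 0 ≠ 0) (n M : ℕ)
    (hn : p.coeff (q + 1) = -(n : ℤ)) (hM : ∀ j ≤ q, |p.coeff j| ≤ M) (hnM : (q + 1) * M + 1 < n) :
    ∃ β : ℝ, IsPisot β ∧ minpoly ℤ β = p ∧ (n : ℝ) - 1 < β ∧ β < n + 1 := by
  have hnM' : ((q : ℝ) + 1) * M + 1 < n := by exact_mod_cast hnM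
  have hn2 : (2 : ℝ) ≤ n := by
    have : 2 ≤ n := by
      have : 0 ≤ (q + 1) * M := Nat.zero_le _
      omega
    exact_mod_cast this
  have hM0 : (0 : ℝ) ≤ M := Nat.cast_nonneg M
  -- the real root
  set f : ℝ → ℝ := fun x => aeval x p with hf
  have hfx : ∀ x : ℝ, f x = ∑ i ∈ range (q + 1), (p.coeff i : ℝ) * x ^ i + x ^ (q + 1) * (x - n) := by
    intro x
    rw [hf]
    simp only
    rw [aeval_eq_sum_range, hd, sum_range_succ, sum_range_succ]
    have h2 : p.coeff (q + 2) = 1 := by rw [← hd]; exact hp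
    rw [h2, hn]
    simp only [zsmul_eq_mul]
    push_cast
    ring
  have hsum : ∀ x : ℝ, 1 ≤ x → |∑ i ∈ range (q + 1), (p.coeff i : ℝ) * x ^ i| ≤ (q + 1) * M * x ^ q := by
    intro x hx
    refine (abs_sum_le_sum_abs _ _).trans ?_
    have h1 : ∀ i ∈ range (q + 1), |(p.coeff i : ℝ) * x ^ i| ≤ M * x ^ q := by
      intro i hi
      rw [mem_range] at hi
      rw [abs_mul, abs_of_nonneg (by positivity : 0 ≤ x ^ i)]
      have h2 : |(p.coeff i : ℝ)| ≤ M := by exact_mod_cast hM i (by omega)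
      have h3 : x ^ i ≤ x ^ q := pow_le_pow_right₀ hx (by omega)
      gcongr
    refine (sum_le_sum h1).trans ?_
    rw [sum_const, card_range, nsmul_eq_mul]
    push_cast
    linarith
  have hcont : Continuous f := by
    rw [hf]
    exact p.continuous_aeval
  have hneg : f (n - 1) < 0 := by
    have h1 : (1 : ℝ) ≤ n - 1 := by linarith
    rw [hfx]
    have h2 := (abs_le.1 (hsum (n - 1) h1)).2
    have h3 : 0 < ((n : ℝ) - 1) ^ q := by positivity
    have h4 : ((n : ℝ) - 1) ^ (q + 1) * ((n : ℝ) - 1 - n) = -(((n : ℝ) - 1) ^ q * (n - 1)) := by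
      rw [pow_succ]; ring
    rw [h4]
    nlinarith
  have hpos : 0 < f (n + 1) := by
    have h1 : (1 : ℝ) ≤ n + 1 := by linarith
    rw [hfx]
    have h2 := (abs_le.1 (hsum (n + 1) h1)).1
    have h3 : 0 < ((n : ℝ) + 1) ^ q := by positivity
    have h4 : ((n : ℝ) + 1) ^ (q + 1) * ((n : ℝ) + 1 - n) = ((n : ℝ) + 1) ^ q * (n + 1) := by
      rw [pow_succ]; ring
    rw [h4]
    nlinarith
  obtain ⟨β, ⟨hβ1, hβ2⟩, hβ3⟩ := intermediate_value_Ioo (by linarith : (n : ℝ) - 1 ≤ n + 1)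
    hcont.continuousOn ⟨hneg, hpos⟩
  have hβgt : 1 < β := by linarith
  have hroot : aeval β p = 0 := hβ3
  have hint : IsIntegral ℤ β := ⟨p, hp, by rw [← aeval_def]; exact hroot⟩
  set P : ℂ[X] := p.map (Int.castRingHom ℂ) with hP
  have hPm : P.Monic := hp.map _
  have hPd : P.natDegree = q + 2 := by rw [hP, hp.natDegree_map, hd]
  have hPr : P.IsRoot (β : ℂ) := by
    rw [hP, IsRoot, eval_map]
    have h2 : eval₂ (Int.castRingHom ℂ) (β : ℂ) p = ((aeval β p : ℝ) : ℂ) := by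
      rw [aeval_def, eval₂_eq_sum_range, eval₂_eq_sum_range]
      push_cast
      rfl
    rw [h2, hroot]
    simp
  have hnorm : ∀ j, ‖P.coeff j‖ = |((p.coeff j : ℤ) : ℝ)| := by
    intro j
    rw [hP, coeff_map]
    simp
  have hdom : ∑ j ∈ range (q + 1), ‖P.coeff j‖ + 1 < ‖P.coeff (q + 1)‖ := by
    rw [hnorm (q + 1), hn]
    have h1 : ∑ j ∈ range (q + 1), ‖P.coeff j‖ ≤ (q + 1) * M := by
      have h2 : ∀ j ∈ range (q + 1), ‖P.coeff j‖ ≤ M := by
        intro j hj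
        rw [mem_range] at hj
        rw [hnorm]
        exact_mod_cast hM j (by omega)
      refine (sum_le_sum h2).trans ?_
      rw [sum_const, card_range, nsmul_eq_mul]
      push_cast
      exact le_rfl
    have h3 : |((-(n : ℤ) : ℤ) : ℝ)| = n := by
      push_cast
      rw [abs_neg, abs_of_nonneg (Nat.cast_nonneg n)]
    rw [h3]
    linarith
  have hsmall := small_roots P hPm hPd β hβgt hPr hdom
  have hfac : (X - C (β : ℂ)) * (P /ₘ (X - C (β : ℂ))) = P := mul_divByMonic_eq_iff_isRoot.2 hPr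
  have hother : ∀ z : ℂ, P.IsRoot z → z ≠ β → ‖z‖ < 1 := by
    intro z hz hzβ
    apply hsmall
    rw [IsRoot] at hz ⊢
    rw [← hfac, eval_mul, eval_sub, eval_X, eval_C] at hz
    exact (mul_eq_zero.1 hz).resolve_left (sub_ne_zero.2 hzβ)
  have hdvd : minpoly ℤ β ∣ p := minpoly.isIntegrallyClosed_dvd hint hroot
  obtain ⟨r, hr⟩ := hdvd
  have hmm := minpoly.monic hint
  have hrm : r.Monic := by
    apply Monic.of_mul_monic_left hmm
    rw [← hr]; exact hp
  have hr1 : r = 1 := by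
    rcases Nat.eq_zero_or_pos r.natDegree with h | h
    · exact hrm.natDegree_eq_zero.1 h
    · exfalso
      apply h0
      rw [hr, mul_coeff_zero]
      rw [coeff_zero_of_small r hrm h, mul_zero]
      intro z hz
      have hz' := (mem_roots (hrm.map (Int.castRingHom ℂ)).ne_zero).1 hz
      have hPz : P.IsRoot z := by
        rw [IsRoot, hP, hr, Polynomial.map_mul, eval_mul]
        rw [IsRoot] at hz'
        rw [hz', mul_zero]
      by_cases hzβ : z = β
      · exfalso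
        rw [hzβ] at hz'
        have hm' : ((minpoly ℤ β).map (Int.castRingHom ℂ)).IsRoot (β : ℂ) := (simple_root hint rfl).2.2.2
        obtain ⟨m', hm'⟩ := dvd_iff_isRoot.2 hm'
        obtain ⟨r', hr'⟩ := dvd_iff_isRoot.2 hz'
        have h5 : (X - C (β : ℂ)) * (P /ₘ (X - C (β : ℂ))) = (X - C (β : ℂ)) * (m' * ((X - C (β : ℂ)) * r')) := by
          rw [hfac, hP, hr, Polynomial.map_mul, hm', hr']
          ring
        have h6 := mul_left_cancel₀ (monic_X_sub_C (β : ℂ)).ne_zero h5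
        have h7 : (P /ₘ (X - C (β : ℂ))).IsRoot (β : ℂ) := by
          rw [h6, IsRoot]
          simp
        have h8 := hsmall _ h7
        rw [Complex.norm_real, Real.norm_eq_abs, abs_of_pos (by linarith)] at h8
        linarith
      · exact hother z hPz hzβ
  have hmin : minpoly ℤ β = p := by rw [hr, hr1, mul_one]
  refine ⟨β, ⟨hβgt, hint, ?_⟩, hmin, hβ1, hβ2⟩
  intro z hz hzβ
  apply hother z _ hzβ
  rw [hmin] at hz
  rw [IsRoot, hP, eval_map]
  rw [aeval_def] at hz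
  exact hz

end Pool.Agent.H17.GS
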