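import Pool.Agent.H17.GS.Gs

/-!
# The digits of `p n + β + ω n ^ ρ h (n ^ (-τ))`, `h` real analytic at `0` (helper17)
-/

set_option autoImplicit false

namespace Pool.Agent.H17.GS

open Finset Filter Topology

/-- extension of real analytic functions to the complex domain (from the library, `Q23.AQ.Cx`) -/
theorem exists_cx (u : ℝ → ℝ) (s : ℝ) (h : AnalyticAt ℝ u s) :
    ∃ F : ℂ → ℂ, AnalyticAt ℂ F s ∧ ∀ᶠ x : ℝ in 𝓝 s, F x = u x := by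
  obtain ⟨p, r, hp⟩ := h
  set q : FormalMultilinearSeries ℂ ℂ ℂ := FormalMultilinearSeries.ofScalars ℂ (fun n => ((p.coeff n : ℝ) : ℂ)) with hq
  obtain ⟨r', hr'0, hr'⟩ : ∃ r' : NNReal, 0 < r' ∧ (r' : ENNReal) < p.radius := by
    obtain ⟨r', h1, h2⟩ := ENNReal.lt_iff_exists_nnreal_btwn.1 (hp.r_pos.trans_le hp.r_le)
    exact ⟨r', by exact_mod_cast h1, h2⟩
  obtain ⟨C, hC0, hC⟩ := p.norm_mul_pow_le_of_lt_radius hr'
  have hqn : ∀ n, ‖q n‖ = ‖p n‖ := by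
    intro n
    rw [hq, FormalMultilinearSeries.ofScalars_norm, Complex.norm_real, FormalMultilinearSeries.norm_apply_eq_norm_coef]
  have hqr : (r' : ENNReal) ≤ q.radius := q.le_radius_of_bound C fun n => by rw [hqn]; exact hC n
  have hqr0 : 0 < q.radius := lt_of_lt_of_le (by exact_mod_cast hr'0) hqr
  have hqs := q.hasFPowerSeriesOnBall hqr0
  refine ⟨fun z => q.sum (z - s), ?_, ?_⟩
  · have h1 : AnalyticAt ℂ q.sum ((s : ℂ) - s) := by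
      rw [sub_self]
      exact hqs.analyticAt
    exact h1.comp (g := q.sum) (f := fun z : ℂ => z - s) (analyticAt_id.sub analyticAt_const)
  · have h1 : ∀ᶠ x : ℝ in 𝓝 s, x - s ∈ Metric.eball (0 : ℝ) r ∧ ((x : ℂ) - s) ∈ Metric.eball (0 : ℂ) q.radius := by
      have h2 : Tendsto (fun x : ℝ => x - s) (𝓝 s) (𝓝 0) := by
        have := (continuous_sub_right s).tendsto s
        simpa using this
      have h3 : Tendsto (fun x : ℝ => (x : ℂ) - s) (𝓝 s) (𝓝 0) := by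
        have := ((Complex.continuous_ofReal.tendsto s).sub_const (s : ℂ))
        simpa using this
      exact (h2.eventually (Metric.eball_mem_nhds _ hp.r_pos)).and (h3.eventually (Metric.eball_mem_nhds _ hqr0))
    filter_upwards [h1] with x hx
    have h4 := hp.hasSum hx.1
    have h5 := hqs.hasSum hx.2
    rw [zero_add] at h5
    have h6 : HasSum (fun n => ((p n fun _ => x - s : ℝ) : ℂ)) ((u (s + (x - s)) : ℝ) : ℂ) :=
      Complex.hasSum_ofReal.2 h4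
    have h7 : (fun n => ((p n fun _ => x - s : ℝ) : ℂ)) = fun n => q n fun _ => (x : ℂ) - s := by
      funext n
      rw [hq, FormalMultilinearSeries.ofScalars_apply_eq, FormalMultilinearSeries.apply_eq_pow_smul_coeff]
      simp [mul_comm]
    rw [h7] at h6
    have h8 := h5.unique h6
    rw [h8]
    norm_num

/-- adding integers does not change the discrepancy -/
lemma equiW_add_int (x : ℝ) (p : ℤ) (b u v : ℕ) (ε : ℝ) : EquiW (p + x) b u v ε ↔ EquiW x b u v ε := by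
  have h : ∀ i : ℕ, Int.fract ((p + x) * (b : ℝ) ^ i) = Int.fract (x * (b : ℝ) ^ i) := by
    intro i
    have h1 : (p + x) * (b : ℝ) ^ i = x * (b : ℝ) ^ i + ((p * (b : ℤ) ^ i : ℤ) : ℝ) := by
      push_cast
      ring
    rw [h1, Int.fract_add_intCast]
  unfold EquiW
  simp only [h]

theorem puiseux : ∃ γ : ℝ, 0 < γ ∧ ∀ ρ : ℝ, (∀ m : ℕ, ρ ≠ m) → ∀ τ : ℝ, 0 < τ →
    ∀ h : ℝ → ℝ, AnalyticAt ℝ h 0 → h 0 ≠ 0 → ∀ ε : ℝ, 0 < ε → ∃ N₀ : ℕ, ∀ N : ℕ, N₀ ≤ N →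
    ∀ ω : ℝ, ω ≠ 0 → |ω| ≤ Real.exp ((Real.log N) ^ (1 + γ)) → ∀ (β : ℝ) (p : ℕ → ℤ),
      (({n : ℕ | N < n ∧ n ≤ 2 * N ∧ ∃ b u v : ℕ, 2 ≤ b ∧ (Real.log N) ^ (1 - γ) ≤ (v : ℝ) - u ∧
        v * Real.log b ≤ (Real.log N) ^ (1 + γ) ∧ 1 ≤ (b : ℝ) ^ u * (|ω| * (n : ℝ) ^ ρ) ∧
        ¬ EquiW (p n + (ω * ((n : ℝ) ^ ρ * h ((n : ℝ) ^ (-τ))) + β)) b u v ε}.ncard : ℕ) : ℝ) ≤
          N * Real.exp (-(Real.log N) ^ (3 / 5 : ℝ)) := by
  obtain ⟨γ₀, hγ0, hγ1, hgs⟩ := gs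
  refine ⟨γ₀ / 2, by positivity, ?_⟩
  intro ρ hρ τ hτ h hh h0 ε hε
  obtain ⟨H, hH, hHh⟩ := exists_cx h 0 hh
  rw [Complex.ofReal_zero] at hH
  have hH0 : H 0 = h 0 := by
    have := hHh.self_of_nhds
    simpa using this
  -- a disc for `H`
  obtain ⟨r, hr0, hrd, hrh⟩ : ∃ r : ℝ, 0 < r ∧ DifferentiableOn ℂ H (Metric.ball 0 r) ∧
      ∀ x : ℝ, |x| < r → H x = h x := by
    obtain ⟨r1, hr1, h1⟩ := Metric.eventually_nhds_iff.1 hH.eventually_analyticAt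
    obtain ⟨r2, hr2, h2⟩ := Metric.eventually_nhds_iff.1 hHh
    refine ⟨min r1 r2, lt_min hr1 hr2, ?_, ?_⟩
    · intro z hz
      rw [Metric.mem_ball] at hz
      exact (h1 (lt_of_lt_of_le hz (min_le_left _ _))).differentiableAt.differentiableWithinAt
    · intro x hx
      apply h2
      rw [Real.dist_eq, sub_zero]
      exact lt_of_lt_of_le hx (min_le_right _ _)
  obtain ⟨C, hC0, r', hr'0, hC⟩ : ∃ C : ℝ, 0 ≤ C ∧ ∃ r' : ℝ, 0 < r' ∧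
      ∀ z : ℂ, ‖z‖ < r' → ‖H z - H 0‖ ≤ C * ‖z‖ := by
    have h1 := hH.differentiableAt.isBigO_sub
    obtain ⟨C, hC⟩ := h1.bound
    obtain ⟨r', hr', h2⟩ := Metric.eventually_nhds_iff.1 hC
    refine ⟨max C 0, le_max_right _ _, r', hr', fun z hz => ?_⟩
    have h3 := h2 (y := z) (by rw [dist_zero_right]; exact hz)
    rw [sub_zero] at h3
    exact h3.trans (mul_le_mul_of_nonneg_right (le_max_left _ _) (norm_nonneg _))
  have hh0 : 0 < |h 0| := abs_pos.2 h0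
  obtain ⟨N₁, hN₁⟩ := hgs ρ hρ (τ / 2) (by positivity) ε hε
  -- eventual inequalities
  have hlog : Tendsto (fun N : ℕ => Real.log N) atTop atTop :=
    Real.tendsto_log_atTop.comp tendsto_natCast_atTop_atTop
  have hNr : Tendsto (fun N : ℕ => (N : ℝ)) atTop atTop := tendsto_natCast_atTop_atTop
  have ev1 : ∀ᶠ N : ℕ in atTop, ((N : ℝ) / 2) ^ (-τ) < min r r' := by
    have t1 : Tendsto (fun N : ℕ => ((N : ℝ) / 2) ^ (-τ)) atTop (𝓝 0) :=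
      (tendsto_rpow_neg_atTop hτ).comp (hNr.atTop_div_const (by norm_num))
    exact t1.eventually (gt_mem_nhds (lt_min hr0 hr'0))
  have ev2 : ∀ᶠ N : ℕ in atTop, 4 ^ |ρ| * C * (2 : ℝ) ^ τ / |h 0| ≤ (N : ℝ) ^ (τ / 2) :=
    ((tendsto_rpow_atTop (by positivity : 0 < τ / 2)).comp hNr).eventually_ge_atTop _
  have ev3 : ∀ᶠ y : ℝ in atTop, 3 * y ^ (1 + γ₀ / 2) ≤ y ^ (1 + γ₀) := ev_pow _ _ _ (by linarith)
  have ev4 : ∀ᶠ y : ℝ in atTop, |ρ| * y ^ (1 : ℝ) ≤ y ^ (1 + γ₀ / 2) := ev_pow _ _ _ (by linarith)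
  have ev5 : ∀ᶠ y : ℝ in atTop, Real.log |h 0| * y ^ (0 : ℝ) ≤ y ^ (1 + γ₀ / 2) := ev_pow _ _ _ (by linarith)
  have ev6 : ∀ᶠ y : ℝ in atTop, (|ρ| - Real.log |h 0|) * y ^ (0 : ℝ) ≤ y ^ (1 - 3 * γ₀) :=
    ev_pow _ _ _ (by linarith)
  obtain ⟨N₀, hN₀⟩ := eventually_atTop.1 (((ev1.and ev2).and (hlog.eventually ((ev3.and ev4).and
    ((ev5.and ev6).and (eventually_ge_atTop 1))))).and (eventually_ge_atTop (max N₁ 8)))
  refine ⟨N₀, ?_⟩
  intro N hN ω hω hωle β p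
  obtain ⟨⟨⟨q1, q2⟩, ⟨q3, q4⟩, ⟨q5, q6⟩, q7⟩, q8⟩ := hN₀ N hN
  have hNN₁ : N₁ ≤ N := (le_max_left _ _).trans q8
  have hN8 : 8 ≤ N := (le_max_right _ _).trans q8
  have hN0 : (0 : ℝ) < N := by exact_mod_cast (by omega : 0 < N)
  have hN8' : (8 : ℝ) ≤ N := by exact_mod_cast hN8
  set y : ℝ := Real.log N with hy
  have hy0 : 0 < y := by linarith
  rw [Real.rpow_one] at q4
  rw [Real.rpow_zero, mul_one] at q5 q6
  have hω0 : 0 < |ω| := abs_pos.2 hω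
  have hNρ : 0 < (N : ℝ) ^ ρ := Real.rpow_pos_of_pos hN0 _
  -- the function
  set f : ℂ → ℂ := fun z => ω * (z ^ (ρ : ℂ) * H (z ^ ((-τ : ℝ) : ℂ))) with hf
  have hsmall : ∀ z ∈ Om N, ‖z ^ ((-τ : ℝ) : ℂ)‖ ≤ ((N : ℝ) / 2) ^ (-τ) := by
    intro z hz
    have h1 : z ≠ 0 := by
      rintro rfl
      have := hz.1
      simp at this
      linarith
    rw [Complex.norm_cpow_of_ne_zero h1]
    simp only [Complex.ofReal_re, Complex.ofReal_im, mul_zero, Real.exp_zero, div_one]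
    have h2 : (N : ℝ) / 2 ≤ ‖z‖ := hz.1.trans ((le_abs_self _).trans (Complex.abs_re_le_norm z))
    exact Real.rpow_le_rpow_of_nonpos (by positivity) h2 (by linarith)
  have hnear : Near N (ω * h 0) ρ (τ / 2) f := by
    constructor
    · intro z hz
      have hsl := Om_slit hN0 hz
      have h1 : DifferentiableAt ℂ (fun z : ℂ => z ^ (ρ : ℂ)) z :=
        differentiableAt_id.cpow (differentiableAt_const _) hsl
      have h2 : DifferentiableAt ℂ (fun z : ℂ => z ^ ((-τ : ℝ) : ℂ)) z :=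
        differentiableAt_id.cpow (differentiableAt_const _) hsl
      have h3 : DifferentiableAt ℂ H (z ^ ((-τ : ℝ) : ℂ)) := by
        apply hrd.differentiableAt
        apply Metric.isOpen_ball.mem_nhds
        rw [mem_ball_zero_iff]
        exact lt_of_le_of_lt (hsmall z hz) (lt_of_lt_of_le q1 (min_le_left _ _))
      exact ((h1.mul (h3.comp z h2)).const_mul _).differentiableWithinAt
    · intro z hz
      have h1 := hC (z ^ ((-τ : ℝ) : ℂ)) (lt_of_le_of_lt (hsmall z hz) (lt_of_lt_of_le q1 (min_le_right _ _)))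
      have h2 : f z - ((ω * h 0 : ℝ) : ℂ) * z ^ (ρ : ℂ) = ω * (z ^ (ρ : ℂ) * (H (z ^ ((-τ : ℝ) : ℂ)) - H 0)) := by
        rw [hf, hH0]
        push_cast
        ring
      rw [h2, norm_mul, norm_mul, Complex.norm_real, Real.norm_eq_abs, abs_mul]
      have h3 := norm_cpow_le ρ hN0 hz
      have h4 : ‖H (z ^ ((-τ : ℝ) : ℂ)) - H 0‖ ≤ C * ((N : ℝ) / 2) ^ (-τ) := by
        refine h1.trans ?_
        gcongr
        exact hsmall z hz
      have h5 : ((N : ℝ) / 2) ^ (-τ) = 2 ^ τ * ((N : ℝ) ^ (-(τ / 2)) * (N : ℝ) ^ (-(τ / 2))) := by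
        rw [← Real.rpow_add hN0, Real.div_rpow hN0.le (by norm_num), Real.rpow_neg (by norm_num : (0:ℝ) ≤ 2)]
        rw [show -(τ / 2) + -(τ / 2) = -τ by ring]
        field_simp
      have h6 : 4 ^ |ρ| * C * (2 : ℝ) ^ τ * (N : ℝ) ^ (-(τ / 2)) ≤ |h 0| := by
        rw [Real.rpow_neg hN0.le, ← div_eq_mul_inv, div_le_iff₀ (Real.rpow_pos_of_pos hN0 _)]
        rw [div_le_iff₀ hh0] at q2
        linarith
      calc |ω| * (‖z ^ (ρ : ℂ)‖ * ‖H (z ^ ((-τ : ℝ) : ℂ)) - H 0‖) ≤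
            |ω| * ((4 ^ |ρ| * (N : ℝ) ^ ρ) * (C * ((N : ℝ) / 2) ^ (-τ))) := by gcongr
        _ = |ω| * ((N : ℝ) ^ ρ * (N : ℝ) ^ (-(τ / 2))) *
            (4 ^ |ρ| * C * (2 : ℝ) ^ τ * (N : ℝ) ^ (-(τ / 2))) := by rw [h5]; ring
        _ ≤ |ω| * ((N : ℝ) ^ ρ * (N : ℝ) ^ (-(τ / 2))) * |h 0| := by gcongr
        _ = |ω| * |h 0| * (N : ℝ) ^ (ρ - τ / 2) := by
            rw [← Real.rpow_add hN0, ← sub_eq_add_neg]; ring
  have hvals : ∀ n : ℕ, N < n → (f (n : ℝ)).re = ω * ((n : ℝ) ^ ρ * h ((n : ℝ) ^ (-τ))) := by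
    intro n hn
    have hn0 : (0 : ℝ) < n := by exact_mod_cast (by omega : 0 < n)
    have hnN : (N : ℝ) ≤ n := by exact_mod_cast hn.le
    have h1 : ((n : ℝ) : ℂ) ^ ((-τ : ℝ) : ℂ) = (((n : ℝ) ^ (-τ) : ℝ) : ℂ) := by
      rw [Complex.ofReal_cpow hn0.le]
    have h2 : ((n : ℝ) : ℂ) ^ (ρ : ℂ) = (((n : ℝ) ^ ρ : ℝ) : ℂ) := by
      rw [Complex.ofReal_cpow hn0.le]
    have h3 : |(n : ℝ) ^ (-τ)| < r := by
      rw [abs_of_pos (Real.rpow_pos_of_pos hn0 _)]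
      refine lt_of_le_of_lt ?_ (lt_of_lt_of_le q1 (min_le_left _ _))
      exact Real.rpow_le_rpow_of_nonpos (by positivity) (by linarith) (by linarith)
    simp only [hf]
    rw [h1, h2, hrh _ h3]
    norm_cast
  have hN1 : (1 : ℝ) ≤ N := by linarith
  have hy1 : 1 ≤ y := q7
  have hupper : |ω * h 0| * (N : ℝ) ^ ρ ≤ Real.exp (y ^ (1 + γ₀)) := by
    have e1 : (N : ℝ) ^ ρ ≤ Real.exp (|ρ| * y) := by
      rw [Real.rpow_def_of_pos hN0, ← hy, mul_comm]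
      apply Real.exp_le_exp.2
      exact mul_le_mul_of_nonneg_right (le_abs_self _) hy0.le
    have e2 : |h 0| = Real.exp (Real.log |h 0|) := (Real.exp_log hh0).symm
    calc |ω * h 0| * (N : ℝ) ^ ρ = |ω| * |h 0| * (N : ℝ) ^ ρ := by rw [abs_mul]
      _ ≤ Real.exp (y ^ (1 + γ₀ / 2)) * |h 0| * Real.exp (|ρ| * y) := by gcongr
      _ = Real.exp (y ^ (1 + γ₀ / 2) + Real.log |h 0| + |ρ| * y) := by
          rw [Real.exp_add, Real.exp_add, ← e2]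
      _ ≤ Real.exp (y ^ (1 + γ₀)) := Real.exp_le_exp.2 (by linarith)
  have hmain := hN₁ N (ω * h 0) β f hNN₁ (mul_ne_zero hω h0) hnear hupper
  refine le_trans ?_ hmain
  have hfin : {n : ℕ | N < n ∧ n ≤ 2 * N ∧ ∃ b u v : ℕ, 2 ≤ b ∧ y ^ (1 - γ₀) ≤ (v : ℝ) - u ∧
        v * Real.log b ≤ y ^ (1 + γ₀) ∧
        Real.exp (-y ^ (1 - 3 * γ₀)) ≤ (b : ℝ) ^ u * (|ω * h 0| * (N : ℝ) ^ ρ) ∧
        ¬ EquiW ((f (n : ℝ)).re + β) b u v ε}.Finite :=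
    (Set.finite_Icc 0 (2 * N)).subset fun n hn => ⟨Nat.zero_le _, hn.2.1⟩
  have hsub : {n : ℕ | N < n ∧ n ≤ 2 * N ∧ ∃ b u v : ℕ, 2 ≤ b ∧ y ^ (1 - γ₀ / 2) ≤ (v : ℝ) - u ∧
        v * Real.log b ≤ y ^ (1 + γ₀ / 2) ∧ 1 ≤ (b : ℝ) ^ u * (|ω| * (n : ℝ) ^ ρ) ∧
        ¬ EquiW (p n + (ω * ((n : ℝ) ^ ρ * h ((n : ℝ) ^ (-τ))) + β)) b u v ε} ⊆
      {n : ℕ | N < n ∧ n ≤ 2 * N ∧ ∃ b u v : ℕ, 2 ≤ b ∧ y ^ (1 - γ₀) ≤ (v : ℝ) - u ∧
        v * Real.log b ≤ y ^ (1 + γ₀) ∧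
        Real.exp (-y ^ (1 - 3 * γ₀)) ≤ (b : ℝ) ^ u * (|ω * h 0| * (N : ℝ) ^ ρ) ∧
        ¬ EquiW ((f (n : ℝ)).re + β) b u v ε} := by
    rintro n ⟨a1, a2, b, u, v, a3, a4, a5, a6, a7⟩
    refine ⟨a1, a2, b, u, v, a3, ?_, ?_, ?_, ?_⟩
    · exact (Real.rpow_le_rpow_of_exponent_le hy1 (by linarith)).trans a4
    · exact a5.trans (Real.rpow_le_rpow_of_exponent_le hy1 (by linarith))
    · have hn0 : (0 : ℝ) < n := by exact_mod_cast (by omega : 0 < n)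
      have hnN : (N : ℝ) ≤ n := by exact_mod_cast a1.le
      have hn2 : (n : ℝ) ≤ 2 * N := by exact_mod_cast a2
      have e1 : (n : ℝ) ^ ρ ≤ Real.exp |ρ| * (N : ℝ) ^ ρ := by
        have g1 : (n : ℝ) = (n / N) * N := by field_simp
        have g2 : 0 < (n : ℝ) / N := by positivity
        have g3 : 1 ≤ (n : ℝ) / N := by rw [le_div_iff₀ hN0]; linarith
        have g4 : (n : ℝ) / N ≤ 2 := by rw [div_le_iff₀ hN0]; linarith
        rw [g1, Real.mul_rpow g2.le hN0.le]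
        gcongr
        calc ((n : ℝ) / N) ^ ρ ≤ ((n : ℝ) / N) ^ |ρ| :=
              Real.rpow_le_rpow_of_exponent_le g3 (le_abs_self _)
          _ ≤ (Real.exp 1) ^ |ρ| := by
              apply Real.rpow_le_rpow g2.le _ (abs_nonneg _)
              have := Real.exp_one_gt_d9
              linarith
          _ = Real.exp |ρ| := by rw [← Real.exp_mul, one_mul]
      have e2 : Real.exp (-y ^ (1 - 3 * γ₀)) * Real.exp |ρ| ≤ |h 0| := by
        rw [← Real.exp_add, ← Real.exp_log hh0]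
        apply Real.exp_le_exp.2
        linarith
      have e3 : 0 < Real.exp |ρ| := Real.exp_pos _
      have e4 : 1 ≤ (b : ℝ) ^ u * (|ω| * (Real.exp |ρ| * (N : ℝ) ^ ρ)) := a6.trans (by gcongr)
      rw [abs_mul]
      calc Real.exp (-y ^ (1 - 3 * γ₀)) = Real.exp (-y ^ (1 - 3 * γ₀)) * 1 := by ring
        _ ≤ Real.exp (-y ^ (1 - 3 * γ₀)) * ((b : ℝ) ^ u * (|ω| * (Real.exp |ρ| * (N : ℝ) ^ ρ))) := by gcongr
        _ = (b : ℝ) ^ u * |ω| * (N : ℝ) ^ ρ * (Real.exp (-y ^ (1 - 3 * γ₀)) * Real.exp |ρ|) := by ring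
        _ ≤ (b : ℝ) ^ u * |ω| * (N : ℝ) ^ ρ * |h 0| := by gcongr
        _ = _ := by ring
    · rw [hvals n a1]
      rw [equiW_add_int] at a7
      exact a7
  exact_mod_cast Set.ncard_le_ncard hsub hfin

end Pool.Agent.H17.GS
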