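import Pool.Agent.H17.GS.Vk

/-!
# Exponential sums over `F f(n)`, all frequencies up to `exp ((log N) ^ (1 + γ))` (helper17)
-/

set_option autoImplicit false

namespace Pool.Agent.H17.GS

open Finset Filter
open Pool.Agent.H469R2.NK (e norm_e e_add e_zero conj_e kusmin_landau_anti kusmin_landau_mono norm_sum_neg)

/-- the first derivative test -/
theorem kl {G A : ℝ} {N R J : ℕ} {T : ℝ} {f : ℕ → ℝ} (hD : Dat N T G A J f)
    (hN : 8 ≤ N) (hR : R ≤ N) (F : ℝ) (hF : 0 < F) (hG : 0 ≤ G) (hsm : 8 * (G * (F * T)) ≤ N) :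
    ‖∑ n ∈ Ioc 0 R, e (F * f (N + n))‖ ≤ 2 * Real.exp A * (N / (F * T)) := by
  have hN8 : (8 : ℝ) ≤ N := by exact_mod_cast hN
  have hN0 : (0 : ℝ) < N := by linarith
  have hT := hD.hT
  obtain ⟨s, hs, hlo, hmono⟩ := hD.dif
  have hs1 : |s| = 1 := by rcases hs with rfl | rfl <;> simp
  set x : ℕ → ℝ := fun n => s * (F * f (N + (n + 1))) with hx
  have hnorm : ‖∑ n ∈ Ioc 0 R, e (F * f (N + n))‖ = ‖∑ n ∈ range R, e (x n)‖ := by
    have e1 : ∑ n ∈ Ioc 0 R, e (F * f (N + n)) = ∑ n ∈ range R, e (F * f (N + (n + 1))) := by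
      rw [show Ioc 0 R = Ico 1 (R + 1) from rfl, sum_Ico_eq_sum_range, Nat.add_sub_cancel]
      refine sum_congr rfl fun n _ => ?_
      rw [add_comm 1 n]
    rw [e1]
    rcases hs with rfl | rfl
    · simp only [hx, one_mul]
    · rw [← norm_sum_neg]
      simp only [hx, neg_mul, one_mul]
  rw [hnorm]
  set t : ℝ := F * T / (N * Real.exp A) with ht
  have hea := Real.exp_pos A
  have ht0 : 0 < t := by positivity
  have hfin : 2 / t = 2 * Real.exp A * (N / (F * T)) := by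
    rw [ht]; field_simp
  have hd : ∀ n : ℕ, x (n + 1) - x n = F * (s * (f (N + (n + 1) + 1) - f (N + (n + 1)))) := by
    intro n
    simp only [hx]
    rw [show N + (n + 1 + 1) = N + (n + 1) + 1 by ring]
    ring
  have hlow : ∀ n < R, t ≤ x (n + 1) - x n := by
    intro n hn
    rw [hd, ht]
    have h1 := hlo (N + (n + 1)) (by omega) (by omega)
    calc F * T / (N * Real.exp A) = F * (T / N) / Real.exp A := by field_simp
      _ ≤ F * (Real.exp A * (s * (f (N + (n + 1) + 1) - f (N + (n + 1))))) / Real.exp A := by gcongr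
      _ = _ := by field_simp
  have hup : ∀ n < R, x (n + 1) - x n ≤ 1 / 2 := by
    intro n hn
    obtain ⟨c, g0, _, _, g3⟩ := hD.tay (N + (n + 1)) (by omega) (by omega)
    have h1 := g3 1 0 (by push_cast; linarith)
    rw [zero_add, range_one, sum_singleton, pow_zero, mul_one, g0, pow_one] at h1
    rw [hd]
    have h2 : s * (f (N + (n + 1) + 1) - f (N + (n + 1))) ≤
        G * T * (2 * (2 * ((1 : ℕ) : ℝ) / N)) := by
      refine (le_abs_self _).trans ?_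
      rw [abs_mul, hs1, one_mul]
      exact h1
    calc F * (s * (f (N + (n + 1) + 1) - f (N + (n + 1)))) ≤
          F * (G * T * (2 * (2 * ((1 : ℕ) : ℝ) / N))) := by gcongr
      _ = (8 * (G * (F * T))) / N / 2 := by push_cast; ring
      _ ≤ N / N / 2 := by gcongr
      _ = 1 / 2 := by rw [div_self hN0.ne']
  have hup' : ∀ n < R, x (n + 1) - x n ≤ 1 - t := by
    intro n hn
    have h1 := hlow n hn
    have h2 := hup n hn
    linarith
  rw [← hfin]
  rcases hmono with hm | hm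
  · refine kusmin_landau_anti x R ht0 hlow hup' ?_
    intro n hn
    rw [hd, hd]
    have h1 := hm (N + (n + 1)) (by omega) (by omega)
    rw [show N + (n + 1 + 1) = N + (n + 1) + 1 by ring, show N + (n + 1) + 1 + 1 = N + (n + 1) + 2 by ring]
    gcongr
  · refine kusmin_landau_mono x R ht0 hlow hup' ?_
    intro n hn
    rw [hd, hd]
    have h1 := hm (N + (n + 1)) (by omega) (by omega)
    rw [show N + (n + 1 + 1) = N + (n + 1) + 1 by ring, show N + (n + 1) + 1 + 1 = N + (n + 1) + 2 by ring]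
    gcongr

/-- comparison of powers of a large number -/
lemma ev_pow (a b B : ℝ) (hab : a < b) : ∀ᶠ y : ℝ in atTop, B * y ^ a ≤ y ^ b := by
  have h := (tendsto_rpow_atTop (by linarith : 0 < b - a)).eventually_ge_atTop B
  filter_upwards [h, eventually_gt_atTop 0] with y hy hy0
  have : y ^ b = y ^ (b - a) * y ^ a := by
    rw [← Real.rpow_add hy0]; congr 1; ring
  rw [this]
  exact mul_le_mul_of_nonneg_right hy (Real.rpow_pos_of_pos hy0 _).le

/-- **Exponential sums** with `F f(n)`: for all frequencies up to `exp ((log N) ^ (1 + γ))` there is a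
saving `exp (2 (log N) ^ (1 - 3 γ))` -/
theorem range_bd : ∃ γ : ℝ, 0 < γ ∧ γ ≤ 1 / 20 ∧ ∀ (G A : ℝ), 1 ≤ G → 0 ≤ A →
    ∃ N₀ : ℕ, ∀ (N R J : ℕ) (F T : ℝ) (f : ℕ → ℝ), N₀ ≤ N → R ≤ N → 0 < F → Dat N T G A J f →
      30 * (Real.log N) ^ γ ≤ J →
      Real.exp (5 * (Real.log N) ^ (1 - 3 * γ)) ≤ F * T →
      F * T ≤ Real.exp ((Real.log N) ^ (1 + γ)) →
      ‖∑ n ∈ Ioc 0 R, e (F * f (N + n))‖ ≤ N * Real.exp (-(2 * (Real.log N) ^ (1 - 3 * γ))) := by
  obtain ⟨C, hC⟩ := vkg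
  obtain ⟨γ, hγ⟩ : ∃ γ : ℝ, γ = 1 / (2 * C + 20) := ⟨_, rfl⟩
  have hC0 : (0 : ℝ) ≤ C := Nat.cast_nonneg C
  have hγ0 : 0 < γ := by rw [hγ]; positivity
  have hγ1 : γ ≤ 1 / 20 := by
    rw [hγ]
    apply one_div_le_one_div_of_le (by norm_num)
    linarith
  have hγC : γ * C ≤ 1 / 2 := by
    rw [hγ, one_div, inv_mul_le_iff₀ (by positivity)]
    linarith
  refine ⟨γ, hγ0, hγ1, ?_⟩
  intro G A hG hA
  have hvk := hC G A hG hA
  have hlG : 0 ≤ Real.log (12 * G) := Real.log_nonneg (by linarith)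
  obtain ⟨A', hA'⟩ : ∃ A' : ℝ, A' = A + Real.log (12 * G) := ⟨_, rfl⟩
  have hA'0 : 0 ≤ A' := by rw [hA']; positivity
  -- eventual inequalities in `y = log N`
  have ev1 : ∀ᶠ y : ℝ in atTop, ((1 + A') * (C * 4 ^ C) * (16 * 10 ^ 10 * 8)) * y ^ (1 / 2 : ℝ) ≤ y ^ (1 - 2 * γ) :=
    ev_pow _ _ _ (by linarith)
  have ev2 : ∀ᶠ y : ℝ in atTop, (3 * (16 * 10 ^ 10 * 8)) * y ^ (1 - 3 * γ) ≤ y ^ (1 - 2 * γ) :=
    ev_pow _ _ _ (by linarith)
  have ev3 : ∀ᶠ y : ℝ in atTop, (2 * Real.log (12 * G)) * y ^ (0 : ℝ) ≤ y ^ (1 : ℝ) :=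
    ev_pow _ _ _ (by norm_num)
  have ev4 : ∀ᶠ y : ℝ in atTop, (Real.log (2 * Real.exp A)) * y ^ (0 : ℝ) ≤ y ^ (1 - 3 * γ) :=
    ev_pow _ _ _ (by linarith)
  have hlog : Tendsto (fun N : ℕ => Real.log N) atTop atTop :=
    Real.tendsto_log_atTop.comp tendsto_natCast_atTop_atTop
  have hev := hlog.eventually ((ev1.and ev2).and ((ev3.and ev4).and (eventually_ge_atTop 10)))
  obtain ⟨N₀, hN₀⟩ := eventually_atTop.1 (hev.and (eventually_ge_atTop 400))
  refine ⟨N₀, ?_⟩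
  intro N R J F T f hN hR hF hD hJ hlo hhi
  obtain ⟨⟨⟨q1, q2⟩, ⟨q3, q4⟩, q5⟩, q6⟩ := hN₀ N hN
  set y : ℝ := Real.log N with hy
  have hy0 : 0 < y := by linarith
  have hN400 : (400 : ℝ) ≤ N := by exact_mod_cast q6
  have hN0 : (0 : ℝ) < N := by linarith
  have hN1 : (1 : ℝ) ≤ N := by linarith
  have hNexp : (N : ℝ) = Real.exp y := by rw [hy, Real.exp_log hN0]
  have hT := hD.hT
  have hFT : 0 < F * T := by positivity
  rw [Real.rpow_zero, mul_one, Real.rpow_one] at q3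
  rw [Real.rpow_zero, mul_one] at q4
  obtain ⟨P, hP⟩ : ∃ P : ℕ, P = N / 4 := ⟨_, rfl⟩
  have hP2 : 2 ≤ P := by omega
  have hP4 : 4 * P ≤ N := by omega
  have hP8 : N ≤ 8 * P := by omega
  have hP4r : 4 * (P : ℝ) ≤ N := by exact_mod_cast hP4
  have hP8r : (N : ℝ) ≤ 8 * P := by exact_mod_cast hP8
  have hPr : (2 : ℝ) ≤ P := by exact_mod_cast hP2
  have hP0 : (0 : ℝ) < P := by linarith
  have hP1 : (1 : ℝ) ≤ P := by linarith
  set z : ℝ := Real.log P with hz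
  have hzy : z ≤ y := Real.log_le_log hP0 (by linarith)
  have hzy2 : y / 2 ≤ z := by
    have h1 : Real.log N ≤ Real.log (8 * P) := Real.log_le_log hN0 hP8r
    rw [Real.log_mul (by norm_num) hP0.ne'] at h1
    have h2 : Real.log 8 ≤ 3 := by
      rw [Real.log_le_iff_le_exp (by norm_num)]
      have h3 : Real.exp 3 = Real.exp 1 * Real.exp 1 * Real.exp 1 := by
        rw [← Real.exp_add, ← Real.exp_add]; norm_num
      have h4 := Real.exp_one_gt_d9
      rw [h3]; nlinarith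
    rw [← hy, ← hz] at h1
    linarith
  have hz0 : 0 < z := by linarith
  rcases le_or_gt (12 * G * (F * T)) ((P : ℝ) ^ (1 / 2 : ℝ)) with hsmall | hbig
  · -- small frequencies
    have hsm : 8 * (G * (F * T)) ≤ N := by
      have e1 : (P : ℝ) ^ (1 / 2 : ℝ) ≤ P := by
        calc (P : ℝ) ^ (1 / 2 : ℝ) ≤ (P : ℝ) ^ (1 : ℝ) := Real.rpow_le_rpow_of_exponent_le hP1 (by norm_num)
          _ = P := Real.rpow_one _
      have e2 : 0 ≤ G * (F * T) := by positivity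
      linarith
    refine (kl hD (by omega) hR F hF (by linarith) hsm).trans ?_
    have e1 : 2 * Real.exp A * (N / (F * T)) ≤ 2 * Real.exp A * (N / Real.exp (5 * y ^ (1 - 3 * γ))) := by
      gcongr
    refine e1.trans ?_
    have e2 : 2 * Real.exp A * ((N : ℝ) / Real.exp (5 * y ^ (1 - 3 * γ))) =
        N * (Real.exp (Real.log (2 * Real.exp A)) * Real.exp (-(5 * y ^ (1 - 3 * γ)))) := by
      rw [Real.exp_neg, Real.exp_log (by positivity)]; field_simp
    rw [e2, ← Real.exp_add]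
    apply mul_le_mul_of_nonneg_left _ hN0.le
    rw [Real.exp_le_exp]
    have e3 : 0 ≤ y ^ (1 - 3 * γ) := by positivity
    linarith
  · -- large frequencies
    set κ : ℝ := Real.log (12 * G * (F * T)) / z with hκ
    have h12 : 0 < 12 * G * (F * T) := by positivity
    have hκN : (P : ℝ) ^ κ = 12 * G * (F * T) := by
      rw [Real.rpow_def_of_pos hP0, hκ, ← hz, mul_div_cancel₀ _ hz0.ne', Real.exp_log h12]
    have hκ1 : 1 / 2 ≤ κ := by
      rw [hκ, le_div_iff₀ hz0]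
      have e1 := Real.log_le_log (Real.rpow_pos_of_pos hP0 _) hbig.le
      rw [Real.log_rpow hP0, ← hz] at e1
      exact e1
    have hyγ : 1 ≤ y ^ γ := Real.one_le_rpow (by linarith) hγ0.le
    have hκ2 : 1 + κ ≤ 4 * y ^ γ := by
      have e1 : Real.log (12 * G * (F * T)) ≤ y / 2 + y ^ (1 + γ) := by
        rw [Real.log_mul (by positivity) hFT.ne']
        have e4 := Real.log_le_log hFT hhi
        rw [Real.log_exp] at e4
        linarith
      have e5 : y ^ (1 + γ) = y * y ^ γ := by rw [Real.rpow_add hy0, Real.rpow_one]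
      have e6 : κ ≤ 1 + 2 * y ^ γ := by
        rw [hκ, div_le_iff₀ hz0]
        rw [e5] at e1
        have e7 : (1 + 2 * y ^ γ) * (y / 2) ≤ (1 + 2 * y ^ γ) * z := by gcongr
        nlinarith
      linarith
    have hJ' : ⌈5 * κ⌉₊ + 5 ≤ J := by
      have h1 := Nat.ceil_lt_add_one (a := 5 * κ) (by linarith)
      have h2 : ((⌈5 * κ⌉₊ + 5 : ℕ) : ℝ) ≤ J := by
        push_cast
        linarith
      exact_mod_cast h2
    rw [hP] at hκN
    have hmain := hvk N R J T F κ f hD (by omega) hR hF hκ1 hκN hJ'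
    rw [← hP, ← hA'] at hmain
    refine hmain.trans ?_
    have hκpos : 0 < 1 + κ := by linarith
    have e1 : (1 + A') * (C * (1 + κ) ^ C) ≤ (1 + A') * (C * 4 ^ C) * y ^ (1 / 2 : ℝ) := by
      have f1 : (1 + κ) ^ C ≤ 4 ^ C * y ^ (1 / 2 : ℝ) := by
        calc (1 + κ) ^ C ≤ (4 * y ^ γ) ^ C := pow_le_pow_left₀ hκpos.le hκ2 C
          _ = 4 ^ C * y ^ (γ * C) := by
              rw [mul_pow, ← Real.rpow_natCast (y ^ γ) C, ← Real.rpow_mul hy0.le]
          _ ≤ 4 ^ C * y ^ (1 / 2 : ℝ) := by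
              gcongr
              linarith
      calc (1 + A') * (C * (1 + κ) ^ C) ≤ (1 + A') * (C * (4 ^ C * y ^ (1 / 2 : ℝ))) := by gcongr
        _ = _ := by ring
    have e2 : 1 / (16 * 10 ^ 10) * y ^ (1 - 2 * γ) / 2 ≤ z * (1 / 10 ^ 10 / (1 + κ) ^ 2) := by
      have f1 : (1 + κ) ^ 2 ≤ 16 * y ^ (2 * γ) := by
        calc (1 + κ) ^ 2 ≤ (4 * y ^ γ) ^ 2 := pow_le_pow_left₀ hκpos.le hκ2 2
          _ = 16 * y ^ (2 * γ) := by
              rw [mul_pow, ← Real.rpow_natCast (y ^ γ) 2, ← Real.rpow_mul hy0.le]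
              push_cast
              ring_nf
      have f2 : y ^ (1 - 2 * γ) * y ^ (2 * γ) = y := by
        rw [← Real.rpow_add hy0]
        have : 1 - 2 * γ + 2 * γ = 1 := by ring
        rw [this, Real.rpow_one]
      have f3 : 0 < (1 + κ) ^ 2 := by positivity
      have f4 : z * (1 / 10 ^ 10 / (1 + κ) ^ 2) = (z * (1 / 10 ^ 10)) / (1 + κ) ^ 2 := by ring
      rw [f4, le_div_iff₀ f3]
      calc 1 / (16 * 10 ^ 10) * y ^ (1 - 2 * γ) / 2 * (1 + κ) ^ 2 ≤
            1 / (16 * 10 ^ 10) * y ^ (1 - 2 * γ) / 2 * (16 * y ^ (2 * γ)) := by gcongr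
        _ = 1 / 10 ^ 10 / 2 * (y ^ (1 - 2 * γ) * y ^ (2 * γ)) := by ring
        _ = (y / 2) * (1 / 10 ^ 10) := by rw [f2]; ring
        _ ≤ z * (1 / 10 ^ 10) := by gcongr
    have e9 : (P : ℝ) ^ (-(1 / 10 ^ 10 / (1 + κ) ^ 2) : ℝ) = Real.exp (-(z * (1 / 10 ^ 10 / (1 + κ) ^ 2))) := by
      rw [Real.rpow_def_of_pos hP0, ← hz]; congr 1; ring
    rw [e9]
    have e10 : Real.exp ((1 + A') * (C * (1 + κ) ^ C)) * ((N : ℝ) *
        Real.exp (-(z * (1 / 10 ^ 10 / (1 + κ) ^ 2)))) = N * Real.exp ((1 + A') * (C * (1 + κ) ^ C) +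
        -(z * (1 / 10 ^ 10 / (1 + κ) ^ 2))) := by
      rw [Real.exp_add]; ring
    rw [e10]
    apply mul_le_mul_of_nonneg_left _ hN0.le
    rw [Real.exp_le_exp]
    have e8 : 1 / (16 * 10 ^ 10 * 8) * y ^ (1 - 2 * γ) = y ^ (1 - 2 * γ) / (16 * 10 ^ 10 * 8) := by ring
    have e3 : (1 + A') * (C * 4 ^ C) * y ^ (1 / 2 : ℝ) ≤ 1 / (16 * 10 ^ 10 * 8) * y ^ (1 - 2 * γ) := by
      rw [e8, le_div_iff₀ (by norm_num)]
      linarith
    have e4 : 3 * y ^ (1 - 3 * γ) ≤ 1 / (16 * 10 ^ 10 * 8) * y ^ (1 - 2 * γ) := by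
      rw [e8, le_div_iff₀ (by norm_num)]
      linarith
    have e5 : 0 ≤ y ^ (1 - 2 * γ) := (Real.rpow_pos_of_pos hy0 _).le
    have e7 : 1 / (16 * 10 ^ 10 * 8) * y ^ (1 - 2 * γ) * 8 = 1 / (16 * 10 ^ 10) * y ^ (1 - 2 * γ) := by ring
    have e11 : 0 ≤ y ^ (1 - 3 * γ) := (Real.rpow_pos_of_pos hy0 _).le
    nlinarith

end Pool.Agent.H17.GS
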