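import Pool.Agent.H17.GS.Rg
import Pool.Agent.H17.GS.Core

/-!
# Exponential sums over `F f(n)`, with a weaker condition on the lower bounds of the Taylor coefficients (helper17)
-/

set_option autoImplicit false

namespace Pool.Agent.H17.GS

open Finset Filter
open Pool.Agent.H469R2.NK (e norm_e e_add e_zero conj_e kusmin_landau_anti kusmin_landau_mono norm_sum_neg)

/-- **Exponential sums** with `F f(n)`: for all frequencies up to `exp ((log N) ^ (1 + γ))` there is a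
saving `exp (2 (log N) ^ (1 - 3 γ))` -/
theorem range_bd2 : ∃ γ : ℝ, 0 < γ ∧ γ ≤ 1 / 20 ∧ ∀ (G : ℝ), 1 ≤ G →
    ∃ N₀ : ℕ, ∀ (N R J : ℕ) (F T A : ℝ) (f : ℕ → ℝ), N₀ ≤ N → R ≤ N → 0 ≤ A →
      A ≤ (Real.log N) ^ (1 / 4 : ℝ) → 0 < F → Dat N T G A J f →
      30 * (Real.log N) ^ γ ≤ J →
      Real.exp (5 * (Real.log N) ^ (1 - 3 * γ)) ≤ F * T →
      F * T ≤ Real.exp ((Real.log N) ^ (1 + γ)) →
      ‖∑ n ∈ Ioc 0 R, e (F * f (N + n))‖ ≤ N * Real.exp (-(2 * (Real.log N) ^ (1 - 3 * γ))) := by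
  obtain ⟨C, hC⟩ := vkg
  obtain ⟨γ, hγ⟩ : ∃ γ : ℝ, γ = 1 / (2 * C + 20) := ⟨_, rfl⟩
  have hC0 : (0 : ℝ) ≤ C := Nat.cast_nonneg C
  have hγ0 : 0 < γ := by rw [hγ]; positivity
  have hγ1 : γ ≤ 1 / 20 := by
    rw [hγ]
    apply one_div_le_one_div_of_le (by norm_num)
    linarith
  have hγC : γ * C ≤ 1 / 2 := by
    rw [hγ, one_div, inv_mul_le_iff₀ (by positivity)]
    linarith
  refine ⟨γ, hγ0, hγ1, ?_⟩
  intro G hG
  have hlG : 0 ≤ Real.log (12 * G) := Real.log_nonneg (by linarith)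
  -- eventual inequalities in `y = log N`
  have ev1 : ∀ᶠ y : ℝ in atTop, ((2 + Real.log (12 * G)) * (C * 4 ^ C) * (16 * 10 ^ 10 * 8)) * y ^ (3 / 4 : ℝ) ≤ y ^ (1 - 2 * γ) :=
    ev_pow _ _ _ (by linarith)
  have ev2 : ∀ᶠ y : ℝ in atTop, (3 * (16 * 10 ^ 10 * 8)) * y ^ (1 - 3 * γ) ≤ y ^ (1 - 2 * γ) :=
    ev_pow _ _ _ (by linarith)
  have ev3 : ∀ᶠ y : ℝ in atTop, (2 * Real.log (12 * G)) * y ^ (0 : ℝ) ≤ y ^ (1 : ℝ) :=
    ev_pow _ _ _ (by norm_num)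
  have ev4 : ∀ᶠ y : ℝ in atTop, 2 * y ^ (1 / 4 : ℝ) ≤ y ^ (1 - 3 * γ) :=
    ev_pow _ _ _ (by linarith)
  have hlog : Tendsto (fun N : ℕ => Real.log N) atTop atTop :=
    Real.tendsto_log_atTop.comp tendsto_natCast_atTop_atTop
  have hev := hlog.eventually ((ev1.and ev2).and ((ev3.and ev4).and (eventually_ge_atTop 10)))
  obtain ⟨N₀, hN₀⟩ := eventually_atTop.1 (hev.and (eventually_ge_atTop 400))
  refine ⟨N₀, ?_⟩
  intro N R J F T A f hN hR hA hAy hF hD hJ hlo hhi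
  have hvk := hC G A hG hA
  obtain ⟨A', hA'⟩ : ∃ A' : ℝ, A' = A + Real.log (12 * G) := ⟨_, rfl⟩
  have hA'0 : 0 ≤ A' := by rw [hA']; positivity
  obtain ⟨⟨⟨q1, q2⟩, ⟨q3, q4⟩, q5⟩, q6⟩ := hN₀ N hN
  set y : ℝ := Real.log N with hy
  have hy0 : 0 < y := by linarith
  have hN400 : (400 : ℝ) ≤ N := by exact_mod_cast q6
  have hN0 : (0 : ℝ) < N := by linarith
  have hN1 : (1 : ℝ) ≤ N := by linarith
  have hNexp : (N : ℝ) = Real.exp y := by rw [hy, Real.exp_log hN0]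
  have hT := hD.hT
  have hFT : 0 < F * T := by positivity
  rw [Real.rpow_zero, mul_one, Real.rpow_one] at q3
  have hy14 : 1 ≤ y ^ (1 / 4 : ℝ) := Real.one_le_rpow (by linarith) (by norm_num)
  have hlog2 : Real.log (2 * Real.exp A) ≤ 2 * y ^ (1 / 4 : ℝ) := by
    rw [Real.log_mul (by norm_num) (Real.exp_pos _).ne', Real.log_exp]
    have : Real.log 2 ≤ 1 := by linarith [Real.log_two_lt_d9]
    linarith
  have q4 := hlog2.trans q4
  have hA'y : 1 + A' ≤ (2 + Real.log (12 * G)) * y ^ (1 / 4 : ℝ) := by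
    rw [hA']
    have : Real.log (12 * G) * 1 ≤ Real.log (12 * G) * y ^ (1 / 4 : ℝ) := by gcongr
    linarith
  obtain ⟨P, hP⟩ : ∃ P : ℕ, P = N / 4 := ⟨_, rfl⟩
  have hP2 : 2 ≤ P := by omega
  have hP4 : 4 * P ≤ N := by omega
  have hP8 : N ≤ 8 * P := by omega
  have hP4r : 4 * (P : ℝ) ≤ N := by exact_mod_cast hP4
  have hP8r : (N : ℝ) ≤ 8 * P := by exact_mod_cast hP8
  have hPr : (2 : ℝ) ≤ P := by exact_mod_cast hP2
  have hP0 : (0 : ℝ) < P := by linarith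
  have hP1 : (1 : ℝ) ≤ P := by linarith
  set z : ℝ := Real.log P with hz
  have hzy : z ≤ y := Real.log_le_log hP0 (by linarith)
  have hzy2 : y / 2 ≤ z := by
    have h1 : Real.log N ≤ Real.log (8 * P) := Real.log_le_log hN0 hP8r
    rw [Real.log_mul (by norm_num) hP0.ne'] at h1
    have h2 : Real.log 8 ≤ 3 := by
      rw [Real.log_le_iff_le_exp (by norm_num)]
      have h3 : Real.exp 3 = Real.exp 1 * Real.exp 1 * Real.exp 1 := by
        rw [← Real.exp_add, ← Real.exp_add]; norm_num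
      have h4 := Real.exp_one_gt_d9
      rw [h3]; nlinarith
    rw [← hy, ← hz] at h1
    linarith
  have hz0 : 0 < z := by linarith
  rcases le_or_gt (12 * G * (F * T)) ((P : ℝ) ^ (1 / 2 : ℝ)) with hsmall | hbig
  · -- small frequencies
    have hsm : 8 * (G * (F * T)) ≤ N := by
      have e1 : (P : ℝ) ^ (1 / 2 : ℝ) ≤ P := by
        calc (P : ℝ) ^ (1 / 2 : ℝ) ≤ (P : ℝ) ^ (1 : ℝ) := Real.rpow_le_rpow_of_exponent_le hP1 (by norm_num)
          _ = P := Real.rpow_one _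
      have e2 : 0 ≤ G * (F * T) := by positivity
      linarith
    refine (kl hD (by omega) hR F hF (by linarith) hsm).trans ?_
    have e1 : 2 * Real.exp A * (N / (F * T)) ≤ 2 * Real.exp A * (N / Real.exp (5 * y ^ (1 - 3 * γ))) := by
      gcongr
    refine e1.trans ?_
    have e2 : 2 * Real.exp A * ((N : ℝ) / Real.exp (5 * y ^ (1 - 3 * γ))) =
        N * (Real.exp (Real.log (2 * Real.exp A)) * Real.exp (-(5 * y ^ (1 - 3 * γ)))) := by
      rw [Real.exp_neg, Real.exp_log (by positivity)]; field_simp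
    rw [e2, ← Real.exp_add]
    apply mul_le_mul_of_nonneg_left _ hN0.le
    rw [Real.exp_le_exp]
    have e3 : 0 ≤ y ^ (1 - 3 * γ) := by positivity
    linarith
  · -- large frequencies
    set κ : ℝ := Real.log (12 * G * (F * T)) / z with hκ
    have h12 : 0 < 12 * G * (F * T) := by positivity
    have hκN : (P : ℝ) ^ κ = 12 * G * (F * T) := by
      rw [Real.rpow_def_of_pos hP0, hκ, ← hz, mul_div_cancel₀ _ hz0.ne', Real.exp_log h12]
    have hκ1 : 1 / 2 ≤ κ := by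
      rw [hκ, le_div_iff₀ hz0]
      have e1 := Real.log_le_log (Real.rpow_pos_of_pos hP0 _) hbig.le
      rw [Real.log_rpow hP0, ← hz] at e1
      exact e1
    have hyγ : 1 ≤ y ^ γ := Real.one_le_rpow (by linarith) hγ0.le
    have hκ2 : 1 + κ ≤ 4 * y ^ γ := by
      have e1 : Real.log (12 * G * (F * T)) ≤ y / 2 + y ^ (1 + γ) := by
        rw [Real.log_mul (by positivity) hFT.ne']
        have e4 := Real.log_le_log hFT hhi
        rw [Real.log_exp] at e4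
        linarith
      have e5 : y ^ (1 + γ) = y * y ^ γ := by rw [Real.rpow_add hy0, Real.rpow_one]
      have e6 : κ ≤ 1 + 2 * y ^ γ := by
        rw [hκ, div_le_iff₀ hz0]
        rw [e5] at e1
        have e7 : (1 + 2 * y ^ γ) * (y / 2) ≤ (1 + 2 * y ^ γ) * z := by gcongr
        nlinarith
      linarith
    have hJ' : ⌈5 * κ⌉₊ + 5 ≤ J := by
      have h1 := Nat.ceil_lt_add_one (a := 5 * κ) (by linarith)
      have h2 : ((⌈5 * κ⌉₊ + 5 : ℕ) : ℝ) ≤ J := by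
        push_cast
        linarith
      exact_mod_cast h2
    rw [hP] at hκN
    have hmain := hvk N R J T F κ f hD (by omega) hR hF hκ1 hκN hJ'
    rw [← hP, ← hA'] at hmain
    refine hmain.trans ?_
    have hκpos : 0 < 1 + κ := by linarith
    have e1 : (1 + A') * (C * (1 + κ) ^ C) ≤ (1 + A') * (C * 4 ^ C) * y ^ (1 / 2 : ℝ) := by
      have f1 : (1 + κ) ^ C ≤ 4 ^ C * y ^ (1 / 2 : ℝ) := by
        calc (1 + κ) ^ C ≤ (4 * y ^ γ) ^ C := pow_le_pow_left₀ hκpos.le hκ2 C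
          _ = 4 ^ C * y ^ (γ * C) := by
              rw [mul_pow, ← Real.rpow_natCast (y ^ γ) C, ← Real.rpow_mul hy0.le]
          _ ≤ 4 ^ C * y ^ (1 / 2 : ℝ) := by
              gcongr
              linarith
      calc (1 + A') * (C * (1 + κ) ^ C) ≤ (1 + A') * (C * (4 ^ C * y ^ (1 / 2 : ℝ))) := by gcongr
        _ = _ := by ring
    have e2 : 1 / (16 * 10 ^ 10) * y ^ (1 - 2 * γ) / 2 ≤ z * (1 / 10 ^ 10 / (1 + κ) ^ 2) := by
      have f1 : (1 + κ) ^ 2 ≤ 16 * y ^ (2 * γ) := by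
        calc (1 + κ) ^ 2 ≤ (4 * y ^ γ) ^ 2 := pow_le_pow_left₀ hκpos.le hκ2 2
          _ = 16 * y ^ (2 * γ) := by
              rw [mul_pow, ← Real.rpow_natCast (y ^ γ) 2, ← Real.rpow_mul hy0.le]
              push_cast
              ring_nf
      have f2 : y ^ (1 - 2 * γ) * y ^ (2 * γ) = y := by
        rw [← Real.rpow_add hy0]
        have : 1 - 2 * γ + 2 * γ = 1 := by ring
        rw [this, Real.rpow_one]
      have f3 : 0 < (1 + κ) ^ 2 := by positivity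
      have f4 : z * (1 / 10 ^ 10 / (1 + κ) ^ 2) = (z * (1 / 10 ^ 10)) / (1 + κ) ^ 2 := by ring
      rw [f4, le_div_iff₀ f3]
      calc 1 / (16 * 10 ^ 10) * y ^ (1 - 2 * γ) / 2 * (1 + κ) ^ 2 ≤
            1 / (16 * 10 ^ 10) * y ^ (1 - 2 * γ) / 2 * (16 * y ^ (2 * γ)) := by gcongr
        _ = 1 / 10 ^ 10 / 2 * (y ^ (1 - 2 * γ) * y ^ (2 * γ)) := by ring
        _ = (y / 2) * (1 / 10 ^ 10) := by rw [f2]; ring
        _ ≤ z * (1 / 10 ^ 10) := by gcongr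
    have e9 : (P : ℝ) ^ (-(1 / 10 ^ 10 / (1 + κ) ^ 2) : ℝ) = Real.exp (-(z * (1 / 10 ^ 10 / (1 + κ) ^ 2))) := by
      rw [Real.rpow_def_of_pos hP0, ← hz]; congr 1; ring
    rw [e9]
    have e10 : Real.exp ((1 + A') * (C * (1 + κ) ^ C)) * ((N : ℝ) *
        Real.exp (-(z * (1 / 10 ^ 10 / (1 + κ) ^ 2)))) = N * Real.exp ((1 + A') * (C * (1 + κ) ^ C) +
        -(z * (1 / 10 ^ 10 / (1 + κ) ^ 2))) := by
      rw [Real.exp_add]; ring
    rw [e10]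
    apply mul_le_mul_of_nonneg_left _ hN0.le
    rw [Real.exp_le_exp]
    have e8 : 1 / (16 * 10 ^ 10 * 8) * y ^ (1 - 2 * γ) = y ^ (1 - 2 * γ) / (16 * 10 ^ 10 * 8) := by ring
    have e3 : (1 + A') * (C * 4 ^ C) * y ^ (1 / 2 : ℝ) ≤ 1 / (16 * 10 ^ 10 * 8) * y ^ (1 - 2 * γ) := by
      have g1 : (1 + A') * (C * 4 ^ C) * y ^ (1 / 2 : ℝ) ≤
          ((2 + Real.log (12 * G)) * y ^ (1 / 4 : ℝ)) * (C * 4 ^ C) * y ^ (1 / 2 : ℝ) := by gcongr
      have g2 : ((2 + Real.log (12 * G)) * y ^ (1 / 4 : ℝ)) * (C * 4 ^ C) * y ^ (1 / 2 : ℝ) =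
          (2 + Real.log (12 * G)) * (C * 4 ^ C) * y ^ (3 / 4 : ℝ) := by
        have g3 : y ^ (3 / 4 : ℝ) = y ^ (1 / 4 : ℝ) * y ^ (1 / 2 : ℝ) := by
          rw [← Real.rpow_add hy0]; norm_num
        rw [g3]; ring
      rw [e8, le_div_iff₀ (by norm_num)]
      rw [g2] at g1
      nlinarith
    have e4 : 3 * y ^ (1 - 3 * γ) ≤ 1 / (16 * 10 ^ 10 * 8) * y ^ (1 - 2 * γ) := by
      rw [e8, le_div_iff₀ (by norm_num)]
      linarith
    have e5 : 0 ≤ y ^ (1 - 2 * γ) := (Real.rpow_pos_of_pos hy0 _).le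
    have e7 : 1 / (16 * 10 ^ 10 * 8) * y ^ (1 - 2 * γ) * 8 = 1 / (16 * 10 ^ 10) * y ^ (1 - 2 * γ) := by ring
    have e11 : 0 ≤ y ^ (1 - 3 * γ) := (Real.rpow_pos_of_pos hy0 _).le
    nlinarith

/-- **Main theorem**, with lower bounds for the Taylor coefficients which may be weaker by a factor
`exp ((log N) ^ (1 / 4))` -/
theorem main2 : ∃ γ : ℝ, 0 < γ ∧ γ ≤ 1 / 40 ∧ ∀ (G : ℝ), 1 ≤ G → ∀ ε : ℝ, 0 < ε →
    ∃ N₀ : ℕ, ∀ (N J : ℕ) (T A β : ℝ) (f : ℕ → ℝ), N₀ ≤ N → 0 ≤ A → A ≤ (Real.log N) ^ (1 / 4 : ℝ) →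
      Dat N T G A J f → 30 * (Real.log N) ^ (2 * γ) ≤ J → T ≤ Real.exp ((Real.log N) ^ (1 + γ)) →
      (({n : ℕ | N < n ∧ n ≤ 2 * N ∧ ∃ b u v : ℕ, 2 ≤ b ∧ (Real.log N) ^ (1 - γ) ≤ (v : ℝ) - u ∧
        v * Real.log b ≤ (Real.log N) ^ (1 + γ) ∧
        Real.exp (-(Real.log N) ^ (1 - 3 * γ)) ≤ (b : ℝ) ^ u * T ∧
        ¬ EquiW (f n + β) b u v ε}.ncard : ℕ) : ℝ) ≤ N * Real.exp (-(Real.log N) ^ (3 / 5 : ℝ)) := by
  obtain ⟨γ₀, hγ0, hγ1, hrange⟩ := range_bd2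
  refine ⟨γ₀ / 2, by positivity, by linarith, ?_⟩
  intro G hG ε hε
  obtain ⟨N₁, hN₁⟩ := hrange G hG
  obtain ⟨K, N₂, hK, hcore⟩ := core γ₀ hγ0 hγ1 ε hε
  have hK1 : (1 : ℝ) ≤ K := by exact_mod_cast hK
  have ev1 : ∀ᶠ y : ℝ in atTop, Real.log (2 * K) * y ^ (0 : ℝ) ≤ y ^ (1 + γ₀ / 2) := ev_pow _ _ _ (by linarith)
  have ev2 : ∀ᶠ y : ℝ in atTop, 3 * y ^ (1 + γ₀ / 2) ≤ y ^ (1 + γ₀) := ev_pow _ _ _ (by linarith)
  have hlog : Tendsto (fun N : ℕ => Real.log N) atTop atTop :=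
    Real.tendsto_log_atTop.comp tendsto_natCast_atTop_atTop
  obtain ⟨N₀, hN₀⟩ := eventually_atTop.1 ((hlog.eventually ((ev1.and ev2).and (eventually_ge_atTop 1))).and
    (eventually_ge_atTop (max (max N₁ N₂) 2)))
  refine ⟨N₀, ?_⟩
  intro N J T A β f hN hA hAy hD hJ hT
  obtain ⟨⟨⟨q1, q2⟩, q3⟩, q4⟩ := hN₀ N hN
  have hNN₁ : N₁ ≤ N := ((le_max_left _ _).trans (le_max_left _ _)).trans q4
  have hNN₂ : N₂ ≤ N := ((le_max_right _ _).trans (le_max_left _ _)).trans q4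
  rw [Real.rpow_zero, mul_one] at q1
  have h2g : 2 * (γ₀ / 2) = γ₀ := by ring
  rw [h2g] at hJ
  have hb := hcore N T ((Real.log N) ^ (1 + γ₀ / 2)) (fun n => f (N + n) + β) hNN₂ hD.hT le_rfl (by
    intro F hF1 hF2
    have e1 : ∑ n ∈ Ioc 0 N, e ((F : ℝ) * (f (N + n) + β)) = e ((F : ℝ) * β) * ∑ n ∈ Ioc 0 N, e ((F : ℝ) * f (N + n)) := by
      rw [mul_sum]
      refine sum_congr rfl fun n _ => ?_
      rw [← e_add]; congr 1; ring
    rw [e1, norm_mul, norm_e, one_mul]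
    have hF0 : 0 < |(F : ℝ)| := by
      rcases eq_or_lt_of_le (abs_nonneg (F : ℝ)) with h | h
      · rw [← h, zero_mul] at hF1
        linarith [Real.exp_pos (5 * (Real.log N) ^ (1 - 3 * γ₀))]
      · exact h
    have hup : |(F : ℝ)| * T ≤ Real.exp ((Real.log N) ^ (1 + γ₀)) := by
      calc |(F : ℝ)| * T ≤ (2 * K * Real.exp ((Real.log N) ^ (1 + γ₀ / 2))) * Real.exp ((Real.log N) ^ (1 + γ₀ / 2)) := by
            have := hD.hT
            gcongr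
        _ = Real.exp (Real.log (2 * K) + (Real.log N) ^ (1 + γ₀ / 2) + (Real.log N) ^ (1 + γ₀ / 2)) := by
            rw [Real.exp_add, Real.exp_add, Real.exp_log (by positivity)]
        _ ≤ _ := by
            apply Real.exp_le_exp.2
            linarith
    have h1 := hN₁ N N J |(F : ℝ)| T A f hNN₁ le_rfl hA hAy hF0 hD hJ hF1 hup
    exact (norm_sum_abs (Ioc 0 N) (fun n => f (N + n)) (F : ℝ)).le.trans h1)
  refine le_trans ?_ hb
  refine Nat.cast_le.2 ?_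
  have hfin : ∀ S : Set ℕ, (∀ n ∈ S, n ≤ N) → S.Finite := fun S hS =>
    (Set.finite_Icc 0 N).subset fun n hn => ⟨Nat.zero_le _, hS n hn⟩
  refine (Set.ncard_le_ncard (t := (fun n => N + n) '' {n : ℕ | 0 < n ∧ n ≤ N ∧ ∃ b u v : ℕ, 2 ≤ b ∧
      (Real.log N) ^ (1 - γ₀ / 2) ≤ (v : ℝ) - u ∧ v * Real.log b ≤ (Real.log N) ^ (1 + γ₀ / 2) ∧
        Real.exp (-(Real.log N) ^ (1 - 3 * (γ₀ / 2))) ≤ (b : ℝ) ^ u * T ∧
        ¬ EquiW (f (N + n) + β) b u v ε}) ?_ ((hfin _ fun n hn => hn.2.1).image _)).trans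
    (Set.ncard_image_le (hfin _ fun n hn => hn.2.1))
  rintro n ⟨h1, h2, h3⟩
  refine ⟨n - N, ⟨by omega, by omega, ?_⟩, by show N + (n - N) = n; omega⟩
  rw [show N + (n - N) = n by omega]
  exact h3

end Pool.Agent.H17.GS
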