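import Pool.Agent.H17.GS.Fib2

/-!
# Taylor expansions of real polynomials with bounded coefficients (helper17)
-/

set_option autoImplicit false

namespace Pool.Agent.H17.GS

open Finset Filter Topology Polynomial

section

variable {D : ℕ} {H R x : ℝ} {Q : ℝ[X]}

lemma tcf_le (hD : Q.natDegree ≤ D) (hH : ∀ k, |Q.coeff k| ≤ H) (hR : 1 ≤ R) (hx : |x| ≤ 2 * R) (k : ℕ) :
    |(taylor x Q).coeff k| ≤ (D + 1) * 4 ^ D * H * R ^ D := by
  have hH0 : 0 ≤ H := (abs_nonneg _).trans (hH 0)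
  rw [taylor_coeff, hasseDeriv_apply, Polynomial.sum_def, eval_finsetSum]
  have h1 : ∀ i ∈ Q.support, |eval x (monomial (i - k) ((i.choose k : ℝ) * Q.coeff i))| ≤ 4 ^ D * H * R ^ D := by
    intro i hi
    have hiD : i ≤ D := (le_natDegree_of_mem_supp i hi).trans hD
    rw [eval_monomial, abs_mul, abs_mul, abs_pow, Nat.abs_cast]
    have e1 : ((i.choose k : ℕ) : ℝ) ≤ 2 ^ D := by
      calc ((i.choose k : ℕ) : ℝ) ≤ ((2 ^ i : ℕ) : ℝ) := by exact_mod_cast Nat.choose_le_two_pow i k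
        _ = (2 : ℝ) ^ i := by push_cast; ring
        _ ≤ 2 ^ D := pow_le_pow_right₀ (by norm_num) hiD
    have e2 : |x| ^ (i - k) ≤ (2 * R) ^ D := by
      calc |x| ^ (i - k) ≤ (2 * R) ^ (i - k) := pow_le_pow_left₀ (abs_nonneg _) hx _
        _ ≤ (2 * R) ^ D := pow_le_pow_right₀ (by linarith) (by omega)
    calc ((i.choose k : ℕ) : ℝ) * |Q.coeff i| * |x| ^ (i - k) ≤ 2 ^ D * H * (2 * R) ^ D := by
          gcongr
          exact hH i
      _ = (2 * 2) ^ D * H * R ^ D := by rw [mul_pow, mul_pow]; ring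
      _ = 4 ^ D * H * R ^ D := by norm_num
  refine (abs_sum_le_sum_abs _ _).trans ((sum_le_sum h1).trans ?_)
  rw [sum_const, nsmul_eq_mul]
  have h2 : ((Q.support.card : ℕ) : ℝ) ≤ (D : ℝ) + 1 := by
    have : Q.support.card ≤ D + 1 := by
      have h3 : Q.support ⊆ Finset.range (D + 1) := by
        intro i hi
        rw [Finset.mem_range]
        have := (le_natDegree_of_mem_supp i hi).trans hD
        omega
      simpa using Finset.card_le_card h3
    exact_mod_cast this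
  have h3 : 0 ≤ 4 ^ D * H * R ^ D := by positivity
  nlinarith

lemma tay_sum (hD : Q.natDegree ≤ D) (h : ℝ) :
    Q.eval (x + h) = ∑ k ∈ range (D + 1), (taylor x Q).coeff k * h ^ k := by
  have h1 : (taylor x Q).eval h = Q.eval (h + x) := taylor_eval x Q h
  rw [add_comm x h, ← h1]
  exact eval_eq_sum_range' (by rw [natDegree_taylor]; omega) h

lemma tay1 (hD : Q.natDegree ≤ D) (hH : ∀ k, |Q.coeff k| ≤ H) (hR : 1 ≤ R) (hx : |x| ≤ 2 * R) {h : ℝ}
    (hh : |h| ≤ 1) : |Q.eval (x + h) - Q.eval x| ≤ (D + 1) ^ 2 * 4 ^ D * H * R ^ D * |h| := by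
  have hH0 : 0 ≤ H := (abs_nonneg _).trans (hH 0)
  rw [tay_sum hD h, sum_range_succ', pow_zero, mul_one, taylor_coeff_zero, add_sub_cancel_right]
  have h1 : ∀ k ∈ range D, |(taylor x Q).coeff (k + 1) * h ^ (k + 1)| ≤ (D + 1) * 4 ^ D * H * R ^ D * |h| := by
    intro k hk
    rw [abs_mul, abs_pow]
    have e1 : |h| ^ (k + 1) ≤ |h| := by
      calc |h| ^ (k + 1) ≤ |h| ^ 1 := pow_le_pow_of_le_one (abs_nonneg _) hh (by omega)
        _ = |h| := pow_one _
    exact mul_le_mul (tcf_le hD hH hR hx _) e1 (by positivity) (by positivity)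
  refine (abs_sum_le_sum_abs _ _).trans ((sum_le_sum h1).trans ?_)
  rw [sum_const, card_range, nsmul_eq_mul]
  have h3 : 0 ≤ (D + 1 : ℝ) * 4 ^ D * H * R ^ D * |h| := by positivity
  nlinarith

lemma tay2 (hD : Q.natDegree ≤ D + 1) (hH : ∀ k, |Q.coeff k| ≤ H) (hR : 1 ≤ R) (hx : |x| ≤ 2 * R) {h : ℝ}
    (hh : |h| ≤ 1) : |Q.eval (x + h) - Q.eval x - Q.derivative.eval x * h| ≤
      (D + 1 + 1) ^ 2 * 4 ^ (D + 1) * H * R ^ (D + 1) * |h| ^ 2 := by
  have hH0 : 0 ≤ H := (abs_nonneg _).trans (hH 0)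
  rw [tay_sum hD h, sum_range_succ', sum_range_succ', pow_zero, mul_one, taylor_coeff_zero,
    zero_add, pow_one, taylor_coeff_one]
  have e0 : ∑ k ∈ range D, (taylor x Q).coeff (k + 1 + 1) * h ^ (k + 1 + 1) + eval x (derivative Q) * h +
      eval x Q - eval x Q - eval x (derivative Q) * h =
      ∑ k ∈ range D, (taylor x Q).coeff (k + 1 + 1) * h ^ (k + 1 + 1) := by ring
  rw [e0]
  have h1 : ∀ k ∈ range D, |(taylor x Q).coeff (k + 1 + 1) * h ^ (k + 1 + 1)| ≤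
      ((D + 1 : ℕ) + 1) * 4 ^ (D + 1) * H * R ^ (D + 1) * |h| ^ 2 := by
    intro k hk
    rw [abs_mul, abs_pow]
    have e1 : |h| ^ (k + 1 + 1) ≤ |h| ^ 2 := pow_le_pow_of_le_one (abs_nonneg _) hh (by omega)
    exact mul_le_mul (tcf_le hD hH hR hx _) e1 (by positivity) (by positivity)
  refine (abs_sum_le_sum_abs _ _).trans ((sum_le_sum h1).trans ?_)
  rw [sum_const, card_range, nsmul_eq_mul]
  push_cast
  have h3 : 0 ≤ (D + 1 + 1 : ℝ) * 4 ^ (D + 1) * H * R ^ (D + 1) * |h| ^ 2 := by positivity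
  nlinarith

lemma der_coeff (hD : Q.natDegree ≤ D) (hH : ∀ k, |Q.coeff k| ≤ H) (k : ℕ) :
    |Q.derivative.coeff k| ≤ (D + 1) * H := by
  have hH0 : 0 ≤ H := (abs_nonneg _).trans (hH 0)
  rw [coeff_derivative]
  rcases Nat.lt_or_ge D (k + 1) with h1 | h1
  · rw [coeff_eq_zero_of_natDegree_lt (by omega), zero_mul, abs_zero]
    positivity
  · rw [abs_mul]
    have e1 : |((k : ℝ) + 1)| ≤ D + 1 := by
      rw [abs_of_nonneg (by positivity)]
      have : (k : ℝ) + 1 ≤ D := by exact_mod_cast h1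
      linarith
    calc |Q.coeff (k + 1)| * |(k : ℝ) + 1| ≤ H * (D + 1) := by
          gcongr
          exact hH _
      _ = _ := by ring

end

end Pool.Agent.H17.GS
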