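import Pool.Agent.H17.GS.LSet

/-!
# Two random coefficients: the main theorem for real polynomials (helper17)
-/

set_option autoImplicit false

namespace Pool.Agent.H17.GS

open Finset Filter Topology Polynomial

/-- the sizes of the parameters -/
lemma sz_of (q : ℕ) : ∃ H₀ : ℕ, ∀ H : ℕ, H₀ ≤ H →
    Sz q H (Nat.sqrt H) (Real.exp √(Real.log H)) ((H : ℝ) ^ (1 / 10 : ℝ)) := by
  have hlog : Tendsto (fun N : ℕ => Real.log N) atTop atTop :=
    Real.tendsto_log_atTop.comp tendsto_natCast_atTop_atTop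
  have ev1 : ∀ᶠ y : ℝ in atTop, (100 * ((q : ℝ) + 3) ^ 3 * 4 ^ (q + 3)) * y ^ (0 : ℝ) ≤ y ^ (1 / 2 : ℝ) :=
    ev_pow _ _ _ (by norm_num)
  have ev2 : ∀ᶠ y : ℝ in atTop, (10 * (((q + 6) ^ 2 : ℕ) : ℝ)) * y ^ (1 / 2 : ℝ) ≤ y ^ (1 : ℝ) :=
    ev_pow _ _ _ (by norm_num)
  obtain ⟨H₀, hH₀⟩ := eventually_atTop.1 ((hlog.eventually ((ev1.and ev2).and (eventually_ge_atTop 1))).and
    (eventually_ge_atTop 4))
  refine ⟨H₀, ?_⟩
  intro H hH
  obtain ⟨⟨⟨q1, q2⟩, q3⟩, q4⟩ := hH₀ H hH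
  have hH0 : (0 : ℝ) < H := by exact_mod_cast (by omega : 0 < H)
  obtain ⟨y, hy⟩ : ∃ y : ℝ, y = Real.log H := ⟨_, rfl⟩
  rw [← hy] at q1 q2 q3 ⊢
  have hHexp : (H : ℝ) = Real.exp y := by rw [hy, Real.exp_log hH0]
  rw [Real.rpow_zero, mul_one, ← Real.sqrt_eq_rpow] at q1
  rw [Real.rpow_one, ← Real.sqrt_eq_rpow] at q2
  have hV1 : ((Nat.sqrt H : ℕ) : ℝ) ^ 2 ≤ H := by exact_mod_cast Nat.sqrt_le' H
  have hV2 : (H : ℝ) ≤ 4 * ((Nat.sqrt H : ℕ) : ℝ) ^ 2 := by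
    have h1 : H < (Nat.sqrt H + 1) ^ 2 := Nat.lt_succ_sqrt' H
    have h2 : 1 ≤ Nat.sqrt H := Nat.sqrt_pos.2 (by omega)
    have h3 : H ≤ 4 * Nat.sqrt H ^ 2 := by nlinarith
    exact_mod_cast h3
  have hV0 : (0 : ℝ) ≤ (Nat.sqrt H : ℕ) := Nat.cast_nonneg _
  have hsq1 : √(H : ℝ) ≤ 2 * (Nat.sqrt H : ℕ) := by
    rw [Real.sqrt_le_left (by positivity)]
    calc (H : ℝ) ≤ 4 * ((Nat.sqrt H : ℕ) : ℝ) ^ 2 := hV2
      _ = _ := by ring
  have hsq2 : ((Nat.sqrt H : ℕ) : ℝ) ≤ √(H : ℝ) := Real.le_sqrt_of_sq_le hV1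
  rw [Real.sqrt_eq_rpow] at hsq1 hsq2
  refine ⟨?_, ?_, ?_, hV1, hV2, ?_, ?_⟩
  · have h1 : √y ≤ Real.exp √y := by linarith [Real.add_one_le_exp √y]
    linarith
  · rw [← Real.exp_nat_mul, hHexp, ← Real.exp_mul]
    apply Real.exp_le_exp.2
    linarith
  · calc ((H : ℝ) ^ (1 / 10 : ℝ)) ^ 5 = (H : ℝ) ^ (1 / 2 : ℝ) := by
          rw [← Real.rpow_natCast, ← Real.rpow_mul hH0.le]
          norm_num
      _ ≤ _ := hsq1
  · calc (H : ℝ) ^ (2 / 5 : ℝ) * (H : ℝ) ^ (1 / 10 : ℝ) = (H : ℝ) ^ (1 / 2 : ℝ) := by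
          rw [← Real.rpow_add hH0]
          norm_num
      _ ≤ _ := hsq1
  · calc ((Nat.sqrt H : ℕ) : ℝ) * (H : ℝ) ^ (1 / 10 : ℝ) ≤ (H : ℝ) ^ (1 / 2 : ℝ) * (H : ℝ) ^ (1 / 10 : ℝ) := by
          gcongr
      _ = (H : ℝ) ^ (3 / 5 : ℝ) := by
          rw [← Real.rpow_add hH0]
          norm_num

/-- **Two random coefficients** -/
theorem two : ∃ γ : ℝ, 0 < γ ∧ γ ≤ 1 / 160 ∧ ∀ (q : ℕ) (ε : ℝ), 0 < ε → ∃ H₀ : ℕ, ∀ H : ℕ, H₀ ≤ H →
    ∀ Q : ℝ[X], Q.natDegree ≤ q + 2 → (∀ k, |Q.coeff k| ≤ H) →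
      (({p : ℤ × ℤ | |p.1| ≤ H ∧ |p.2| ≤ H ∧ ∃ x : ℝ, |x| ≤ Real.exp √(Real.log H) ∧
        Q.eval x + p.2 * x + p.1 = 0 ∧ ∃ c u v : ℕ, 2 ≤ c ∧ (Real.log H) ^ (1 - γ) ≤ (v : ℝ) - u ∧
        v * Real.log c ≤ (Real.log H) ^ (1 + γ) ∧ ¬ EquiW x c u v ε}.ncard : ℕ) : ℝ) ≤
      H ^ 2 * Real.exp (-√(Real.log H)) := by
  obtain ⟨γ₁, hγ0, hγ1, hhigh⟩ := high
  obtain ⟨γ, hγ⟩ : ∃ γ : ℝ, γ = γ₁ / 4 := ⟨_, rfl⟩
  refine ⟨γ, by rw [hγ]; positivity, by rw [hγ]; linarith, ?_⟩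
  intro q ε hε
  obtain ⟨H₁, hH₁⟩ := hhigh q (ε / 2) (by positivity)
  obtain ⟨H₂, hH₂⟩ := lset γ₁ hγ0 (by linarith) (ε / 2) (by positivity)
  obtain ⟨H₃, hH₃⟩ := sz_of q
  have hlog : Tendsto (fun N : ℕ => Real.log N) atTop atTop :=
    Real.tendsto_log_atTop.comp tendsto_natCast_atTop_atTop
  have ev1 : ∀ᶠ y : ℝ in atTop, (4 / ε) * y ^ (1 - γ₁ / 2) ≤ y ^ (1 - γ) := ev_pow _ _ _ (by linarith)
  have ev2 : ∀ᶠ y : ℝ in atTop, 1 * y ^ (1 - γ₁ / 2) ≤ y ^ (1 - γ) := ev_pow _ _ _ (by linarith)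
  have ev3 : ∀ᶠ y : ℝ in atTop, 1 * y ^ (1 + γ) ≤ y ^ (1 + γ₁ / 2) := ev_pow _ _ _ (by linarith)
  have ev4 : ∀ᶠ y : ℝ in atTop, 8 * y ^ (2 * γ) ≤ y ^ (1 : ℝ) := ev_pow _ _ _ (by linarith)
  have ev5 : ∀ᶠ y : ℝ in atTop, (10 * (2 * (q : ℝ) + 20)) * y ^ (1 / 2 : ℝ) ≤ y ^ (3 / 5 : ℝ) :=
    ev_pow _ _ _ (by norm_num)
  obtain ⟨H₄, hH₄⟩ := eventually_atTop.1 (hlog.eventually ((((ev1.and ev2).and (ev3.and ev4)).and ev5).and
    (eventually_ge_atTop 100)))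
  refine ⟨max (max H₁ H₂) (max H₃ H₄), ?_⟩
  intro H hH Q hD hQ
  obtain ⟨⟨⟨⟨q1, q2⟩, q3, q4⟩, q5⟩, q6⟩ := hH₄ H (((le_max_right _ _).trans (le_max_right _ _)).trans hH)
  have hs := hH₃ H (((le_max_left _ _).trans (le_max_right _ _)).trans hH)
  have b2 := hH₂ H (((le_max_right _ _).trans (le_max_left _ _)).trans hH) q _ _ _ hs Q hD hQ
  have b0 := eset hs hD hQ
  have hH0 : (0 : ℝ) < H := by linarith [hs.V50, hs.VH]
  obtain ⟨y, hy⟩ : ∃ y : ℝ, y = Real.log H := ⟨_, rfl⟩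
  obtain ⟨R, hR⟩ : ∃ R : ℝ, R = Real.exp √(Real.log H) := ⟨_, rfl⟩
  obtain ⟨V, hV⟩ : ∃ V : ℕ, V = Nat.sqrt H := ⟨_, rfl⟩
  have hy0 : 0 < y := by rw [hy]; linarith
  have hR' : R = Real.exp √y := by rw [hR, hy]
  have hsy : √y * √y = y := Real.mul_self_sqrt hy0.le
  have hsy10 : 10 ≤ √y := Real.le_sqrt_of_sq_le (by rw [hy]; linarith)
  have hJR : 2 * Real.log H + 1 ≤ R := by
    rw [← hy, hR']
    have h1 := Real.quadratic_le_exp_of_nonneg (Real.sqrt_nonneg y)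
    have h2 : Real.exp √y = Real.exp (√y / 2) * Real.exp (√y / 2) := by
      rw [← Real.exp_add]
      ring_nf
    have h3 := Real.quadratic_le_exp_of_nonneg (show 0 ≤ √y / 2 by positivity)
    have h4 : 1 + √y / 2 + y / 8 ≤ Real.exp (√y / 2) := by
      calc 1 + √y / 2 + y / 8 = 1 + √y / 2 + (√y / 2) ^ 2 / 2 := by rw [div_pow, Real.sq_sqrt hy0.le]; ring
        _ ≤ _ := h3
    have h5 : 6 + y / 8 ≤ Real.exp (√y / 2) := by linarith
    rw [h2]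
    nlinarith
  rw [← hR, ← hV] at hs
  rw [← hR] at b0 b2
  have b1 := hH₁ H (((le_max_left _ _).trans (le_max_left _ _)).trans hH) V R _ hs hJR Q hD hQ
  have b1' := hH₁ H (((le_max_left _ _).trans (le_max_left _ _)).trans hH) V R _ hs hJR (-Q)
    (by rw [natDegree_neg]; exact hD) (fun k => by rw [coeff_neg, abs_neg]; exact hQ k)
  rw [← hR, Real.exp_neg, ← hR]
  have hR100 := hs.R100
  have hR0 : 0 < R := by linarith
  rw [← hy] at q1 q2 q3 q4 q5 b1 b1' b2 ⊢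
  rw [one_mul] at q2 q3
  rw [Real.rpow_one] at q4
  rw [← Real.sqrt_eq_rpow] at q5
  -- the inclusion
  have hsub : {p : ℤ × ℤ | |p.1| ≤ H ∧ |p.2| ≤ H ∧ ∃ x : ℝ, |x| ≤ R ∧
        Q.eval x + p.2 * x + p.1 = 0 ∧ ∃ c u v : ℕ, 2 ≤ c ∧ y ^ (1 - γ) ≤ (v : ℝ) - u ∧
        v * Real.log c ≤ y ^ (1 + γ) ∧ ¬ EquiW x c u v ε} ⊆
      (badE Q H R ∪ badL Q H γ₁ (ε / 2) R) ∪ (badHi Q H V γ₁ (ε / 2) R ∪
        (fun p : ℤ × ℤ => -p) '' badHi (-Q) H V γ₁ (ε / 2) R) := by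
    rintro p ⟨h1, h2, x, h3, h4, c, u, v, w1, w2, w3, w4⟩
    by_cases hE : |Q.derivative.eval x + p.2| ≤ H / R ^ 2
    · exact Or.inl (Or.inl ⟨h1, h2, x, h3, h4, hE⟩)
    by_cases hL : LoW H γ₁ (ε / 2) x
    · exact Or.inl (Or.inr ⟨h1, h2, x, h3, h4, hL⟩)
    right
    have hHi : HiW H V γ₁ (ε / 2) x := by
      by_contra hcon
      apply w4
      have hc1 : (1 : ℝ) < c := by exact_mod_cast (by omega : 1 < c)
      have hc0 : (0 : ℝ) < c := by linarith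
      have hlc : 0 < Real.log c := Real.log_pos hc1
      have hlc2 : Real.log c ≤ y ^ (2 * γ) := by
        have e1 : y ^ (1 - γ) * Real.log c ≤ y ^ (1 + γ) := by
          refine le_trans ?_ w3
          have : (0 : ℝ) ≤ u := Nat.cast_nonneg _
          gcongr
          linarith
        have e2 : y ^ (1 + γ) = y ^ (1 - γ) * y ^ (2 * γ) := by
          rw [← Real.rpow_add hy0]
          ring_nf
        rw [e2] at e1
        exact le_of_mul_le_mul_left e1 (by positivity)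
      obtain ⟨w, hw⟩ : ∃ w : ℕ, w = ⌊3 / 4 * y / Real.log c⌋₊ := ⟨_, rfl⟩
      have hw1 : w * Real.log c ≤ 3 / 4 * y := by
        rw [← le_div_iff₀ hlc, hw]
        exact Nat.floor_le (by positivity)
      have hw2 : 3 / 4 * y < (w + 1) * Real.log c := by
        rw [← div_lt_iff₀ hlc, hw]
        exact Nat.lt_floor_add_one _
      have hcw : 4 * (V : ℝ) ≤ (c : ℝ) ^ w := by
        have e1 : 4 * (V : ℝ) ≤ Real.exp (2 + y / 2) := by
          have f1 : (V : ℝ) ≤ Real.exp (y / 2) := by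
            have f2 : (V : ℝ) ^ 2 ≤ Real.exp (y / 2) ^ 2 := by
              rw [← Real.exp_nat_mul]
              push_cast
              rw [show 2 * (y / 2) = y by ring, hy, Real.exp_log hH0]
              exact hs.hV1
            exact (pow_le_pow_iff_left₀ (Nat.cast_nonneg V) (Real.exp_pos _).le two_ne_zero).1 f2
          have f3 : (4 : ℝ) ≤ Real.exp 2 := by
            have := Real.quadratic_le_exp_of_nonneg (show (0 : ℝ) ≤ 2 by norm_num)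
            linarith
          rw [Real.exp_add]
          gcongr
        refine e1.trans ?_
        rw [← Real.exp_log (pow_pos hc0 w), Real.log_pow]
        apply Real.exp_le_exp.2
        have e3 : (100 : ℝ) ≤ y := by rw [hy]; exact q6
        linarith
      have hsplit := split_win (x := x) (b := c) (w := w) (Vm := v) (L₁ := y ^ (1 - γ₁ / 2)) (L := y ^ (1 - γ))
        (ε := ε / 2) (δ := ε / 2) (by positivity) (by positivity) (by positivity)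
        (by
          have e1 : 2 * y ^ (1 - γ₁ / 2) = ε / 2 * (4 / ε * y ^ (1 - γ₁ / 2)) := by field_simp; ring
          rw [e1]
          gcongr)
        q2 (fun u' v' h5 h6 => by
          by_contra hcon2
          apply hL
          refine ⟨c, u', v', w1, by rw [← hy]; exact h5, ?_, hcon2⟩
          rw [← hy]
          refine le_trans ?_ hw1
          gcongr)
        (fun u' v' h5 h6 h7 => by
          by_contra hcon2
          apply hcon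
          refine ⟨c, u', v', w1, by rw [← hy]; exact h5, ?_, ?_, hcon2⟩
          · rw [← hy]
            refine le_trans ?_ (w3.trans q3)
            gcongr
          · exact hcw.trans (pow_le_pow_right₀ hc1.le h6))
        w2 le_rfl
      rwa [add_halves] at hsplit
    rw [not_le, lt_abs] at hE
    rcases hE with hE | hE
    · exact Or.inl ⟨h1, h2, x, h3, h4, hE.le, hHi⟩
    · right
      refine ⟨-p, ⟨?_, ?_, x, h3, ?_, ?_, hHi⟩, neg_neg p⟩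
      · rw [Prod.fst_neg, abs_neg]; exact h1
      · rw [Prod.snd_neg, abs_neg]; exact h2
      · rw [Prod.snd_neg, Prod.fst_neg, eval_neg]
        push_cast
        linear_combination -h4
      · rw [Prod.snd_neg, derivative_neg, eval_neg]
        push_cast
        linarith
  have hf1 : (badE Q H R).Finite := (box_finite H).subset fun _ hp => ⟨hp.1, hp.2.1⟩
  have hf2 : (badL Q H γ₁ (ε / 2) R).Finite := (box_finite H).subset fun _ hp => ⟨hp.1, hp.2.1⟩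
  have hf3 : (badHi Q H V γ₁ (ε / 2) R).Finite := (box_finite H).subset fun _ hp => ⟨hp.1, hp.2.1⟩
  have hf4 : (badHi (-Q) H V γ₁ (ε / 2) R).Finite := (box_finite H).subset fun _ hp => ⟨hp.1, hp.2.1⟩
  have hcard := (Set.ncard_le_ncard hsub ((hf1.union hf2).union (hf3.union (hf4.image _)))).trans
    ((Set.ncard_union_le _ _).trans (Nat.add_le_add (Set.ncard_union_le _ _)
      ((Set.ncard_union_le _ _).trans (Nat.add_le_add_left (Set.ncard_image_le hf4) _))))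
  refine le_trans (Nat.cast_le.2 hcard) ?_
  push_cast
  -- the numbers
  have hlin : ∀ k : ℕ, (k : ℝ) ≤ 2 * q + 20 → ∀ t : ℝ, 2 / 5 * y ^ (3 / 5 : ℝ) ≤ t →
      R ^ k * Real.exp (-t) ≤ R⁻¹ / 10 := by
    intro k hk t ht
    have e1 : (10 : ℝ)⁻¹ ≥ Real.exp (-10) := by
      rw [Real.exp_neg]
      gcongr
      linarith [Real.add_one_le_exp (10 : ℝ)]
    have e2 : R ^ k * Real.exp (-t) = Real.exp (k * √y - t) := by
      rw [hR', ← Real.exp_nat_mul, ← Real.exp_add]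
      ring_nf
    have e3 : R⁻¹ / 10 ≥ Real.exp (-√y - 10) := by
      rw [hR', ← Real.exp_neg, div_eq_mul_inv, sub_eq_add_neg (-√y), Real.exp_add]
      gcongr
    rw [e2]
    refine le_trans (Real.exp_le_exp.2 ?_) e3
    have e4 : (k : ℝ) * √y ≤ (2 * q + 20) * √y := by gcongr
    have hq0 : (0 : ℝ) ≤ q := Nat.cast_nonneg q
    have e5 : 0 ≤ (q : ℝ) * √y := by positivity
    nlinarith
  have n1 : R ^ (2 * q + 12) * Real.exp (-(2 / 5 * y ^ (3 / 5 : ℝ))) ≤ R⁻¹ / 10 :=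
    hlin _ (by push_cast; linarith) _ le_rfl
  have n2 : R ^ (q + 9) * Real.exp (-(y ^ (3 / 5 : ℝ))) ≤ R⁻¹ / 10 :=
    hlin _ (by push_cast; linarith [(Nat.cast_nonneg q : (0 : ℝ) ≤ q)]) _
      (by have : 0 ≤ y ^ (3 / 5 : ℝ) := by positivity
          linarith)
  have n0 : (H : ℝ) ^ 2 / R ^ 2 ≤ H ^ 2 * (R⁻¹ / 10) := by
    rw [div_eq_mul_inv]
    gcongr
    rw [inv_le_comm₀ (by positivity) (by positivity), div_eq_mul_inv, mul_inv, inv_inv, inv_inv]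
    nlinarith
  have hH2 : 0 ≤ (H : ℝ) ^ 2 := by positivity
  have m1 := mul_le_mul_of_nonneg_left n1 hH2
  have m2 := mul_le_mul_of_nonneg_left n2 hH2
  have hfin : 0 ≤ (H : ℝ) ^ 2 * R⁻¹ := by positivity
  have e9 : (H : ℝ) ^ 2 * (R⁻¹ / 10) = (H : ℝ) ^ 2 * R⁻¹ / 10 := by ring
  rw [e9] at n0 m1 m2
  linarith

end Pool.Agent.H17.GS
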