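import Pool.Agent.H17.L.R_pool_sql_team_seeded_620a6dc7.Helper478_Surds.Tn2
import Pool.Agent.H17.L.R_pool_sql_team_seeded_620a6dc7.Helper478_Bases.Poly

/-!
# Exponential sums over `F f(n)` for functions with controlled Taylor coefficients (helper17)
-/

set_option autoImplicit false

namespace Pool.Agent.H17.GS

open Finset
open Pool.Agent.H469R2.NK (e norm_e e_add e_zero conj_e kusmin_landau_anti kusmin_landau_mono norm_sum_neg)
open Pool.Agent.Y957.VK (TT)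
open Pool.Agent.Helper478.Surds (tn2)

/-- data on a function `f` on the integers near `[N, 2 N]`, of size `T`: Taylor coefficients -/
structure Dat (N : ℕ) (T G A : ℝ) (J : ℕ) (f : ℕ → ℝ) : Prop where
  hT : 0 < T
  tay : ∀ n : ℕ, N ≤ n → n ≤ 2 * N → ∃ c : ℕ → ℝ, c 0 = f n ∧
    (∀ j : ℕ, 1 ≤ j → |c j| ≤ G * T * (2 / N) ^ j) ∧
    (∀ j : ℕ, 1 ≤ j → j ≤ J → T / (6 * N) ^ j ≤ Real.exp A * |c j|) ∧
    (∀ h r : ℕ, (h : ℝ) ≤ N / 4 →
      |f (n + h) - ∑ j ∈ range (r + 1), c j * (h : ℝ) ^ j| ≤ G * T * (2 * (2 * h / N) ^ (r + 1)))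
  dif : ∃ s : ℝ, (s = 1 ∨ s = -1) ∧ (∀ n : ℕ, N ≤ n → n ≤ 2 * N →
    T / N ≤ Real.exp A * (s * (f (n + 1) - f n))) ∧
    ((∀ n : ℕ, N ≤ n → n < 2 * N → s * (f (n + 2) - f (n + 1)) ≤ s * (f (n + 1) - f n)) ∨
     (∀ n : ℕ, N ≤ n → n < 2 * N → s * (f (n + 1) - f n) ≤ s * (f (n + 2) - f (n + 1))))

lemma e_sub_le (a b : ℝ) : ‖e a - e b‖ ≤ 2 * Real.pi * |a - b| := by
  have h1 : e a - e b = e b * (Complex.exp (Complex.I * ((2 * Real.pi * (a - b) : ℝ) : ℂ)) - 1) := by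
    have h2 : e a = e b * e (a - b) := by rw [← e_add]; congr 1; ring
    rw [h2, mul_sub, mul_one]
    congr 2
    unfold Pool.Agent.H469R2.NK.e
    rw [mul_comm]
  rw [h1, norm_mul, norm_e, one_mul]
  refine (Real.norm_exp_I_mul_ofReal_sub_one_le).trans (le_of_eq ?_)
  rw [Real.norm_eq_abs, abs_mul, abs_of_pos (by positivity)]

/-- one value of `n` -/
theorem inner (F : ℝ) (hF : 0 ≤ F) (f : ℕ → ℝ) (c : ℕ → ℝ) (n M r : ℕ) (δ : ℝ) (h0 : c 0 = f n)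
    (hrem : ∀ h : ℕ, h ≤ M ^ 2 → |f (n + h) - ∑ j ∈ range (r + 1), c j * (h : ℝ) ^ j| ≤ δ) :
    ‖∑ x ∈ Icc 1 M, ∑ y ∈ Icc 1 M, e (F * f (n + x * y))‖ ≤
      ‖TT r M (fun j => F * c j)‖ + (M : ℝ) ^ 2 * (2 * Real.pi * (F * δ)) := by
  have key : ∀ x ∈ Icc 1 M, ∀ y ∈ Icc 1 M,
      ‖e (F * f (n + x * y)) - e (F * c 0) *
        Complex.exp (2 * Real.pi * Complex.I *
          ((∑ j ∈ Finset.Icc 1 r, (F * c j) * ((x : ℝ) * y) ^ j : ℝ) : ℂ))‖ ≤
      2 * Real.pi * (F * δ) := by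
    intro x hx y hy
    have hx' : x ≤ M := (mem_Icc.1 hx).2
    have hy' : y ≤ M := (mem_Icc.1 hy).2
    have hxy : x * y ≤ M ^ 2 := by
      rw [sq]; exact Nat.mul_le_mul hx' hy'
    have h1 := hrem (x * y) hxy
    have e2 : e (F * c 0) * Complex.exp (2 * Real.pi * Complex.I *
          ((∑ j ∈ Finset.Icc 1 r, (F * c j) * ((x : ℝ) * y) ^ j : ℝ) : ℂ)) =
        e (F * ∑ j ∈ range (r + 1), c j * ((x * y : ℕ) : ℝ) ^ j) := by
      have e3 : F * ∑ j ∈ range (r + 1), c j * ((x * y : ℕ) : ℝ) ^ j = F * c 0 +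
          ∑ j ∈ Finset.Icc 1 r, (F * c j) * ((x : ℝ) * y) ^ j := by
        rw [Finset.range_eq_Ico, Finset.sum_eq_sum_Ico_succ_bot (by omega), pow_zero,
          mul_one, mul_add, mul_sum]
        congr 1
        refine sum_congr rfl fun j _ => ?_
        push_cast
        ring
      rw [e3, e_add]
      congr 1
      unfold Pool.Agent.H469R2.NK.e
      congr 1
      push_cast
      ring
    rw [e2]
    refine (e_sub_le _ _).trans ?_
    rw [← mul_sub, abs_mul, abs_of_nonneg hF]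
    gcongr
  have e1 : ∑ x ∈ Icc 1 M, ∑ y ∈ Icc 1 M, e (F * f (n + x * y)) =
      e (F * c 0) * TT r M (fun j => F * c j) +
      ∑ x ∈ Icc 1 M, ∑ y ∈ Icc 1 M, (e (F * f (n + x * y)) - e (F * c 0) *
        Complex.exp (2 * Real.pi * Complex.I *
          ((∑ j ∈ Finset.Icc 1 r, (F * c j) * ((x : ℝ) * y) ^ j : ℝ) : ℂ))) := by
    unfold TT
    simp only [Finset.sum_sub_distrib, Finset.mul_sum]
    ring
  rw [e1]
  refine (norm_add_le _ _).trans ?_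
  rw [norm_mul, norm_e, one_mul]
  refine add_le_add le_rfl ?_
  refine (norm_sum_le _ _).trans ?_
  refine (Finset.sum_le_sum fun x hx => (norm_sum_le _ _).trans
    (Finset.sum_le_sum fun y hy => key x hx y hy)).trans ?_
  simp only [Finset.sum_const, Nat.card_Icc, Nat.add_sub_cancel, nsmul_eq_mul]
  rw [sq]
  linarith

theorem vkg : ∃ C : ℕ, ∀ (G A : ℝ), 1 ≤ G → 0 ≤ A → ∀ (N R J : ℕ) (T F κ : ℝ) (f : ℕ → ℝ),
    Dat N T G A J f → 8 ≤ N → R ≤ N → 0 < F → 1 / 2 ≤ κ →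
    ((N / 4 : ℕ) : ℝ) ^ κ = 12 * G * (F * T) → ⌈5 * κ⌉₊ + 5 ≤ J →
      ‖∑ n ∈ Ioc 0 R, e (F * f (N + n))‖ ≤
        Real.exp ((1 + (A + Real.log (12 * G))) * (C * (1 + κ) ^ C)) * ((N : ℝ) * ((N / 4 : ℕ) : ℝ) ^ (-(1 / 10 ^ 10 / (1 + κ) ^ 2) : ℝ)) := by
  obtain ⟨C₀, hC₀⟩ := tn2
  refine ⟨25 * C₀ + 24 + 1, ?_⟩
  intro G A hG hA N R J T F κ f hD hN hR hF hκ hNκ hJ
  obtain ⟨P, hP⟩ : ∃ P : ℕ, P = N / 4 := ⟨_, rfl⟩
  rw [← hP] at hNκ ⊢
  obtain ⟨r, hr⟩ : ∃ r : ℕ, r = ⌈5 * κ⌉₊ + 5 := ⟨_, rfl⟩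
  rw [← hr] at hJ
  obtain ⟨M, hM⟩ : ∃ M : ℕ, M = ⌊(P : ℝ) ^ (2 / 5 : ℝ)⌋₊ := ⟨_, rfl⟩
  have hP2 : 2 ≤ P := by omega
  have hP4 : 4 * P ≤ N := by omega
  have hP8 : N ≤ 8 * P := by omega
  have hPr : (2 : ℝ) ≤ P := by exact_mod_cast hP2
  have hP4r : 4 * (P : ℝ) ≤ N := by exact_mod_cast hP4
  have hP8r : (N : ℝ) ≤ 8 * P := by exact_mod_cast hP8
  have hP0 : (0 : ℝ) < P := by linarith
  have hP1 : (1 : ℝ) ≤ P := by linarith
  have hN0 : (0 : ℝ) < N := by linarith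
  have hN1 : (1 : ℝ) ≤ N := by linarith
  have hT := hD.hT
  have hRN : (R : ℝ) ≤ N := by exact_mod_cast hR
  have hR0 : (0 : ℝ) ≤ R := Nat.cast_nonneg R
  have hM1 : 1 ≤ M := by
    rw [hM, Nat.one_le_floor_iff]
    exact Real.one_le_rpow hP1 (by norm_num)
  have hM0 : (0 : ℝ) < M := by exact_mod_cast hM1
  have hMle : (M : ℝ) ≤ (P : ℝ) ^ (2 / 5 : ℝ) := by
    rw [hM]; exact Nat.floor_le (by positivity)
  have hM2 : (M : ℝ) ^ 2 ≤ (P : ℝ) ^ (4 / 5 : ℝ) := by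
    calc (M : ℝ) ^ 2 ≤ ((P : ℝ) ^ (2 / 5 : ℝ)) ^ 2 := pow_le_pow_left₀ hM0.le hMle 2
      _ = (P : ℝ) ^ (4 / 5 : ℝ) := by
          rw [← Real.rpow_natCast, ← Real.rpow_mul hP0.le]; norm_num
  have hM2P : (M : ℝ) ^ 2 ≤ P := hM2.trans (by
    calc (P : ℝ) ^ (4 / 5 : ℝ) ≤ (P : ℝ) ^ (1 : ℝ) := Real.rpow_le_rpow_of_exponent_le hP1 (by norm_num)
      _ = P := Real.rpow_one _)
  have hκ1 : (1 : ℝ) ≤ 1 + κ := by linarith
  have hr1 : 5 * κ + 5 ≤ (r : ℝ) := by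
    rw [hr]; push_cast
    have := Nat.le_ceil (5 * κ); linarith
  have hr2 : (r : ℝ) ≤ 5 * κ + 6 := by
    rw [hr]; push_cast
    have := Nat.ceil_lt_add_one (a := 5 * κ) (by linarith); linarith
  set c : ℝ := 1 / 10 ^ 10 / (1 + κ) ^ 2 with hc
  have hc0 : 0 < c := by positivity
  have hc1 : c ≤ 1 / 5 := by
    rw [hc, div_le_iff₀ (by positivity)]
    have : (1 : ℝ) ≤ (1 + κ) ^ 2 := one_le_pow₀ hκ1
    nlinarith
  have hlG : 0 ≤ Real.log (12 * G) := Real.log_nonneg (by linarith)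
  set A' : ℝ := A + Real.log (12 * G) with hA'
  have hA'0 : 0 ≤ A' := by positivity
  have hexpA' : Real.exp A' = 12 * G * Real.exp A := by
    rw [hA', Real.exp_add, Real.exp_log (by linarith)]; ring
  set X : ℝ := (1 + (A' + 24 * (1 + κ))) * (C₀ * (1 + κ) ^ C₀) with hX
  have hX0 : 0 ≤ X := by positivity
  have hin : ∀ n ∈ Ioc 0 R, ‖∑ x ∈ Icc 1 M, ∑ y ∈ Icc 1 M, e (F * f (N + (n + x * y)))‖ ≤
      (M : ℝ) ^ 2 * (Real.exp X * (P : ℝ) ^ (-c) + 3 / P) := by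
    intro n hn
    rw [mem_Ioc] at hn
    have e1 : ∀ x y : ℕ, N + (n + x * y) = (N + n) + x * y := fun x y => by ring
    simp_rw [e1]
    obtain ⟨cc, g0, g1, g2, g3⟩ := hD.tay (N + n) (by omega) (by omega)
    set δ : ℝ := G * T * (2 * (2 * (M : ℝ) ^ 2 / N) ^ (r + 1)) with hδ
    have hrem : ∀ h : ℕ, h ≤ M ^ 2 → |f (N + n + h) - ∑ j ∈ range (r + 1), cc j * (h : ℝ) ^ j| ≤ δ := by
      intro h hh
      have hh' : (h : ℝ) ≤ (M : ℝ) ^ 2 := by exact_mod_cast hh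
      refine (g3 h r (by linarith)).trans ?_
      rw [hδ]
      gcongr
    refine (inner F hF.le f cc (N + n) M r δ g0 hrem).trans ?_
    have e2 := hC₀ P M r κ (A' + 24 * (1 + κ)) (fun j => F * cc j) hP2 hκ (by positivity) hr hM
      (by
        intro j hj
        obtain ⟨hj1, hj2⟩ := mem_Icc.1 hj
        have hPj : (0 : ℝ) < (P : ℝ) ^ j := by positivity
        constructor
        · rw [abs_mul, abs_of_pos hF, hNκ]
          have h1 := g1 j hj1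
          have h2 : (2 / (N : ℝ)) ^ j ≤ 1 / (P : ℝ) ^ j := by
            rw [← one_div_pow]
            apply pow_le_pow_left₀ (by positivity)
            rw [div_le_div_iff₀ hN0 hP0]
            linarith
          calc F * |cc j| ≤ F * (G * T * (2 / N) ^ j) := by gcongr
            _ ≤ F * (G * T * (1 / (P : ℝ) ^ j)) := by gcongr
            _ = 6 * G * (F * T) / (6 * (P : ℝ) ^ j) := by field_simp
            _ ≤ 12 * G * (F * T) / (6 * (P : ℝ) ^ j) := by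
                apply div_le_div_of_nonneg_right _ (by positivity)
                have : 0 ≤ G * (F * T) := by positivity
                linarith
        · have h1 := g2 j hj1 (hj2.trans hJ)
          rw [abs_mul, abs_of_pos hF, hNκ, Real.exp_add, hexpA']
          have hjk : (j : ℝ) ≤ 6 * (1 + κ) := by
            have e2 : (j : ℝ) ≤ r := by exact_mod_cast hj2
            linarith
          have e6 : (48 : ℝ) ^ j ≤ Real.exp (24 * (1 + κ)) := by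
            have h6 : (48 : ℝ) ≤ Real.exp 4 := by
              have h3 : Real.exp 4 = Real.exp 1 ^ 4 := by rw [← Real.exp_nat_mul]; norm_num
              have h4 := Real.exp_one_gt_d9
              rw [h3]
              have h5 : (2.7 : ℝ) ≤ Real.exp 1 := by linarith
              calc (48 : ℝ) ≤ 2.7 ^ 4 := by norm_num
                _ ≤ Real.exp 1 ^ 4 := pow_le_pow_left₀ (by norm_num) h5 4
            calc (48 : ℝ) ^ j ≤ (Real.exp 4) ^ j := pow_le_pow_left₀ (by norm_num) h6 j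
              _ = Real.exp (4 * j) := by rw [← Real.exp_nat_mul]; congr 1; ring
              _ ≤ Real.exp (24 * (1 + κ)) := Real.exp_le_exp.2 (by linarith)
          have h2 : (6 * (N : ℝ)) ^ j ≤ 48 ^ j * (P : ℝ) ^ j := by
            rw [← mul_pow]
            apply pow_le_pow_left₀ (by positivity)
            linarith
          have h3 : T / (48 ^ j * (P : ℝ) ^ j) ≤ Real.exp A * |cc j| :=
            le_trans (by gcongr) h1
          calc 12 * G * (F * T) / (P : ℝ) ^ j = 12 * G * F * 48 ^ j * (T / (48 ^ j * (P : ℝ) ^ j)) := by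
                field_simp
            _ ≤ 12 * G * F * 48 ^ j * (Real.exp A * |cc j|) := by gcongr
            _ ≤ 12 * G * F * Real.exp (24 * (1 + κ)) * (Real.exp A * |cc j|) := by gcongr
            _ = _ := by ring)
    have e3 : 2 * Real.pi * (F * δ) ≤ 3 / P := by
      have f2 : (2 * (M : ℝ) ^ 2 / N) ^ (r + 1) ≤ (P : ℝ) ^ (-κ - 1) := by
        have g1 : 2 * (M : ℝ) ^ 2 / N ≤ (P : ℝ) ^ (-(1 / 5) : ℝ) := by
          calc 2 * (M : ℝ) ^ 2 / N ≤ 2 * (P : ℝ) ^ (4 / 5 : ℝ) / N := by gcongr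
            _ ≤ 2 * (P : ℝ) ^ (4 / 5 : ℝ) / (2 * P) := by
                gcongr
                linarith
            _ = (P : ℝ) ^ (4 / 5 : ℝ) / P := by field_simp
            _ = (P : ℝ) ^ (-(1 / 5) : ℝ) := by
                rw [← Real.rpow_sub_one hP0.ne']; norm_num
        calc (2 * (M : ℝ) ^ 2 / N) ^ (r + 1) ≤ ((P : ℝ) ^ (-(1 / 5) : ℝ)) ^ (r + 1) :=
              pow_le_pow_left₀ (by positivity) g1 _
          _ = (P : ℝ) ^ (-(1 / 5) * (r + 1) : ℝ) := by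
              rw [← Real.rpow_natCast, ← Real.rpow_mul hP0.le]; push_cast; ring_nf
          _ ≤ (P : ℝ) ^ (-κ - 1) := Real.rpow_le_rpow_of_exponent_le hP1 (by linarith)
      have f3 : (P : ℝ) ^ κ * (P : ℝ) ^ (-κ - 1) = 1 / P := by
        rw [← Real.rpow_add hP0]
        have : κ + (-κ - 1) = -1 := by ring
        rw [this, Real.rpow_neg_one, one_div]
      have hpi4 := Real.pi_le_four
      calc 2 * Real.pi * (F * δ) = (Real.pi / 3) * ((12 * G * (F * T)) *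
              (2 * (M : ℝ) ^ 2 / N) ^ (r + 1)) := by rw [hδ]; ring
        _ ≤ (Real.pi / 3) * ((12 * G * (F * T)) * (P : ℝ) ^ (-κ - 1)) := by gcongr
        _ = (Real.pi / 3) * (1 / P) := by rw [← hNκ, f3]
        _ ≤ 3 * (1 / P) := by
            apply mul_le_mul_of_nonneg_right _ (by positivity)
            linarith
        _ = 3 / P := by ring
    have e4 : (M : ℝ) ^ 2 * (2 * Real.pi * (F * δ)) ≤ (M : ℝ) ^ 2 * (3 / P) := by gcongr
    rw [← hc, ← hX] at e2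
    calc _ ≤ Real.exp X * (M : ℝ) ^ 2 * (P : ℝ) ^ (-c) + (M : ℝ) ^ 2 * (3 / P) :=
          add_le_add e2 e4
      _ = _ := by ring
  have hsh := Pool.Agent.Helper478.Bases.shift (fun n => e (F * f (N + n)))
    (fun n => (norm_e _).le) R M hM1
  refine hsh.trans ?_
  have hsum := sum_le_sum hin
  rw [sum_const, Nat.card_Ioc, Nat.sub_zero, nsmul_eq_mul] at hsum
  have hPc0 : 0 < (P : ℝ) ^ (-c) := Real.rpow_pos_of_pos hP0 _
  have hPc1 : 1 / (P : ℝ) ≤ (P : ℝ) ^ (-c) := by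
    rw [one_div, ← Real.rpow_neg_one]
    exact Real.rpow_le_rpow_of_exponent_le hP1 (by linarith)
  have hM2c : (M : ℝ) ^ 2 ≤ N * (P : ℝ) ^ (-c) := by
    calc (M : ℝ) ^ 2 ≤ (P : ℝ) ^ (4 / 5 : ℝ) := hM2
      _ ≤ (P : ℝ) ^ (1 + -c) := Real.rpow_le_rpow_of_exponent_le hP1 (by linarith)
      _ = P * (P : ℝ) ^ (-c) := by rw [Real.rpow_add hP0, Real.rpow_one]
      _ ≤ N * (P : ℝ) ^ (-c) := by gcongr; linarith
  have hXbd : X + 24 * (1 + κ) ≤ (1 + A') * ((25 * C₀ + 24 + 1 : ℕ) * (1 + κ) ^ (25 * C₀ + 24 + 1)) := by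
    have f1 : 1 + (A' + 24 * (1 + κ)) ≤ (1 + A') * (25 * (1 + κ)) := by nlinarith
    have f2 : X ≤ (1 + A') * (25 * (1 + κ)) * (C₀ * (1 + κ) ^ C₀) := by
      rw [hX]; gcongr
    have f3 : (1 + κ) * (1 + κ) ^ C₀ ≤ (1 + κ) ^ (25 * C₀ + 24 + 1) := by
      rw [← pow_succ']; exact pow_le_pow_right₀ hκ1 (by omega)
    have f4 : (1 + κ) ≤ (1 + κ) ^ (25 * C₀ + 24 + 1) := by
      calc (1 + κ) = (1 + κ) ^ 1 := (pow_one _).symm
        _ ≤ _ := pow_le_pow_right₀ hκ1 (by omega)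
    have f5 : X ≤ (1 + A') * (25 * C₀ * (1 + κ) ^ (25 * C₀ + 24 + 1)) := by
      calc X ≤ (1 + A') * (25 * (1 + κ)) * (C₀ * (1 + κ) ^ C₀) := f2
        _ = (1 + A') * (25 * C₀ * ((1 + κ) * (1 + κ) ^ C₀)) := by ring
        _ ≤ _ := by gcongr
    have f6 : 24 * (1 + κ) ≤ (1 + A') * (24 * (1 + κ) ^ (25 * C₀ + 24 + 1)) := by
      have : 0 ≤ A' * (24 * (1 + κ) ^ (25 * C₀ + 24 + 1)) := by positivity
      nlinarith
    have f7 : (1 + A') * ((25 * C₀ + 24 + 1 : ℕ) * (1 + κ) ^ (25 * C₀ + 24 + 1)) =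
        (1 + A') * (25 * C₀ * (1 + κ) ^ (25 * C₀ + 24 + 1)) +
        (1 + A') * (24 * (1 + κ) ^ (25 * C₀ + 24 + 1)) + (1 + A') * (1 + κ) ^ (25 * C₀ + 24 + 1) := by
      push_cast; ring
    rw [f7]
    have : 0 ≤ (1 + A') * (1 + κ) ^ (25 * C₀ + 24 + 1) := by positivity
    linarith
  calc 1 / (M : ℝ) ^ 2 * ∑ n ∈ Ioc 0 R, ‖∑ x ∈ Icc 1 M, ∑ y ∈ Icc 1 M,
        e (F * f (N + (n + x * y)))‖ + 2 * (M : ℝ) ^ 2 ≤
        1 / (M : ℝ) ^ 2 * (R * ((M : ℝ) ^ 2 * (Real.exp X * (P : ℝ) ^ (-c) + 3 / P))) +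
        2 * (M : ℝ) ^ 2 := by
        apply add_le_add _ le_rfl
        exact mul_le_mul_of_nonneg_left hsum (by positivity)
    _ = R * (Real.exp X * (P : ℝ) ^ (-c) + 3 * (1 / P)) + 2 * (M : ℝ) ^ 2 := by field_simp
    _ ≤ N * (Real.exp X * (P : ℝ) ^ (-c) + 3 * (P : ℝ) ^ (-c)) + 2 * (N * (P : ℝ) ^ (-c)) := by gcongr
    _ = (Real.exp X + 5) * (N * (P : ℝ) ^ (-c)) := by ring
    _ ≤ Real.exp (X + 24 * (1 + κ)) * (N * (P : ℝ) ^ (-c)) := by
        apply mul_le_mul_of_nonneg_right _ (by positivity)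
        have f1 : 1 ≤ Real.exp X := Real.one_le_exp hX0
        have f2 : 24 * (1 + κ) + 1 ≤ Real.exp (24 * (1 + κ)) := Real.add_one_le_exp _
        rw [Real.exp_add]
        nlinarith
    _ ≤ _ := by
        apply mul_le_mul_of_nonneg_right _ (by positivity)
        exact Real.exp_le_exp.2 hXbd

end Pool.Agent.H17.GS
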